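import Pool.Agent.D0H47.GR.Corr

/-!
The logarithm of the crossing probability is bi-Lipschitz in the modulus, for all shapes.
-/

set_option autoImplicit false

namespace Pool.Agent.D0H47.GR

open H974 H12S Finset Filter Topology

/-- one step in the long side -/
theorem long_step : ∃ c C : ℝ, 0 < c ∧ 0 < C ∧ ∀ m n : ℤ, 1 ≤ n → n ≤ m →
    Real.exp (-(C / n)) * p m n ≤ p (m + 1) n ∧ p (m + 1) n ≤ Real.exp (-(c / n)) * p m n := by
  obtain ⟨c, C, hc, hC, h⟩ := long_inc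
  obtain ⟨N0, hN0⟩ : ∃ N0 : ℕ, 2 * C ≤ N0 := exists_nat_ge _
  obtain ⟨c1, hc1, h1⟩ := fin_min (fun n => p 2 n * p n 1) (Finset.Icc (1:ℤ) (max 1 N0))
    ⟨1, Finset.mem_Icc.mpr ⟨le_rfl, le_max_left _ _⟩⟩
    (fun n hn => mul_pos (p_pos (by norm_num) (by have := (Finset.mem_Icc.mp hn).1; omega))
      (p_pos (Finset.mem_Icc.mp hn).1 (by norm_num)))
  beta_reduce at h1
  obtain ⟨Λ, hΛ⟩ : ∃ Λ : ℝ, Λ = max 1 (-Real.log c1) := ⟨_, rfl⟩
  have hΛ1 : 1 ≤ Λ := by rw [hΛ]; exact le_max_left _ _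
  have hΛ2 : Real.exp (-Λ) ≤ c1 := by
    have : -Real.log c1 ≤ Λ := by rw [hΛ]; exact le_max_right _ _
    calc Real.exp (-Λ) ≤ Real.exp (Real.log c1) := Real.exp_le_exp.mpr (by linarith)
      _ = c1 := Real.exp_log hc1
  refine ⟨c, max (2 * C) (Λ * (max 1 N0 : ℤ)), hc, lt_max_of_lt_left (by positivity), ?_⟩
  intro m n hn hm
  obtain ⟨h2, h3⟩ := h m n hn hm
  have hnr : (1:ℝ) ≤ n := by exact_mod_cast hn
  have hp0 : 0 ≤ p m n := p_nonneg _ _
  constructor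
  · by_cases hb : n ≤ max 1 (N0 : ℤ)
    · have h4 := h1 n (Finset.mem_Icc.mpr ⟨hn, hb⟩)
      have h5 : p m n * p 2 n * p n 1 ≤ p (m + 2 - 1) n :=
        hh_glue (by norm_num) (by norm_num) (by norm_num) (by omega) (by omega) (by omega)
      have e : m + 2 - 1 = m + 1 := by ring
      rw [e] at h5
      have h6 : Real.exp (-(max (2 * C) (Λ * (max 1 N0 : ℤ)) / n)) ≤ c1 := by
        refine le_trans (Real.exp_le_exp.mpr ?_) hΛ2
        have h7 : Λ ≤ max (2 * C) (Λ * (max 1 N0 : ℤ)) / n := by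
          rw [le_div_iff₀ (by linarith)]
          have h8 : (n:ℝ) ≤ ((max 1 N0 : ℤ) : ℝ) := by exact_mod_cast hb
          calc Λ * n ≤ Λ * ((max 1 N0 : ℤ) : ℝ) := mul_le_mul_of_nonneg_left h8 (by linarith)
            _ ≤ _ := le_max_right _ _
        linarith
      calc Real.exp (-(max (2 * C) (Λ * (max 1 N0 : ℤ)) / n)) * p m n ≤ c1 * p m n :=
            mul_le_mul_of_nonneg_right h6 hp0
        _ ≤ (p 2 n * p n 1) * p m n := mul_le_mul_of_nonneg_right h4 hp0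
        _ = p m n * p 2 n * p n 1 := by ring
        _ ≤ _ := h5
    · push Not at hb
      have hN : (N0 : ℝ) ≤ n := by
        have : (N0 : ℤ) ≤ n := le_trans (le_max_right _ _) hb.le
        exact_mod_cast this
      have hx0 : 0 ≤ C / n := by positivity
      have hx1 : C / n ≤ 1/2 := by
        rw [div_le_iff₀ (by linarith)]; linarith
      have h4 := exp_neg_two_le hx0 hx1
      have h5 : Real.exp (-(max (2 * C) (Λ * (max 1 N0 : ℤ)) / n)) ≤ Real.exp (-(2 * (C / n))) := by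
        apply Real.exp_le_exp.mpr
        have : 2 * (C / n) ≤ max (2 * C) (Λ * (max 1 N0 : ℤ)) / n := by
          rw [← mul_div_assoc]
          exact div_le_div_of_nonneg_right (le_max_left _ _) (by linarith)
        linarith
      calc _ ≤ (1 - C / n) * p m n := mul_le_mul_of_nonneg_right (h5.trans h4) hp0
        _ ≤ _ := by linarith
  · have h4 : 1 - c / n ≤ Real.exp (-(c / n)) := by
      have := Real.add_one_le_exp (-(c / n))
      linarith
    calc p (m + 1) n ≤ (1 - c / n) * p m n := by linarith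
      _ ≤ _ := mul_le_mul_of_nonneg_right h4 hp0

/-- telescoping in the long side -/
theorem long_tele : ∃ c C : ℝ, 0 < c ∧ 0 < C ∧ ∀ m m' n : ℤ, 1 ≤ n → n ≤ m → m ≤ m' →
    Real.exp (-(C * ((m':ℝ) - m) / n)) * p m n ≤ p m' n ∧
      p m' n ≤ Real.exp (-(c * ((m':ℝ) - m) / n)) * p m n := by
  obtain ⟨c, C, hc, hC, h⟩ := long_step
  refine ⟨c, C, hc, hC, ?_⟩
  intro m m' n hn hm hmm
  obtain ⟨k, hk⟩ : ∃ k : ℕ, m' = m + k := ⟨(m' - m).toNat, by omega⟩
  subst hk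
  clear hmm
  induction k with
  | zero => simp
  | succ k ih =>
    obtain ⟨ih1, ih2⟩ := ih
    obtain ⟨h1, h2⟩ := h (m + k) n hn (by omega)
    have e : m + ((k + 1 : ℕ) : ℤ) = m + k + 1 := by push_cast; ring
    rw [e]
    have e1 : -(C * (((m + k + 1 : ℤ) : ℝ) - m) / n) = -(C / n) + -(C * (((m + k : ℤ) : ℝ) - m) / n) := by
      push_cast; ring
    have e2 : -(c * (((m + k + 1 : ℤ) : ℝ) - m) / n) = -(c / n) + -(c * (((m + k : ℤ) : ℝ) - m) / n) := by
      push_cast; ring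
    rw [e1, e2, Real.exp_add, Real.exp_add]
    constructor
    · calc _ = Real.exp (-(C / n)) * (Real.exp (-(C * (((m + k : ℤ) : ℝ) - m) / n)) * p m n) := by
            ring
        _ ≤ Real.exp (-(C / n)) * p (m + k) n := mul_le_mul_of_nonneg_left ih1 (Real.exp_pos _).le
        _ ≤ _ := h1
    · calc _ ≤ Real.exp (-(c / n)) * p (m + k) n := h2
        _ ≤ Real.exp (-(c / n)) * (Real.exp (-(c * (((m + k : ℤ) : ℝ) - m) / n)) * p m n) :=
            mul_le_mul_of_nonneg_left ih2 (Real.exp_pos _).le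
        _ = _ := by ring

/-- telescoping in the short side -/
theorem short_tele : ∃ c C : ℝ, 0 < c ∧ 0 < C ∧ ∀ m n n' : ℤ, 1 ≤ n' → n' ≤ n → n ≤ m + 1 →
    Real.exp (-(C * (m / n' - m / n))) * p m n ≤ p m n' ∧
      p m n' ≤ Real.exp (-(c * (m / n' - m / n))) * p m n := by
  obtain ⟨c, hc, hl⟩ := short_lower
  obtain ⟨C, hC, hu⟩ := short_upper
  refine ⟨c, 2 * C, hc, by positivity, ?_⟩
  intro m n n' hn' hnn hm
  obtain ⟨k, hk⟩ : ∃ k : ℕ, n = n' + k := ⟨(n - n').toNat, by omega⟩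
  subst hk
  clear hnn
  induction k with
  | zero => simp
  | succ k ih =>
    have e : n' + ((k + 1 : ℕ) : ℤ) = n' + k + 1 := by push_cast; ring
    rw [e] at hm ⊢
    obtain ⟨ih1, ih2⟩ := ih (by omega)
    have hm0 : (0:ℝ) ≤ m := by
      have : 0 ≤ m := by omega
      exact_mod_cast this
    have h1 := hl m (n' + k) (by omega) (by omega)
    have h2 := hu m (n' + k) (by omega) (by omega)
    obtain ⟨x, hx⟩ : ∃ x : ℝ, x = ((n' + k : ℤ) : ℝ) := ⟨_, rfl⟩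
    have hx1 : 1 ≤ x := by
      rw [hx]
      have : 1 ≤ n' + k := by omega
      exact_mod_cast this
    have e3 : ((n' + k + 1 : ℤ) : ℝ) = x + 1 := by rw [hx]; push_cast; ring
    rw [← hx] at h1 h2 ih1 ih2
    rw [e3]
    have e4 : (m:ℝ) / n' - m / (x + 1) = (m / n' - m / x) + m / (x * (x + 1)) := by
      field_simp; ring
    have k1 : (m:ℝ) / (x * (x + 1)) ≤ m / x^2 := by
      apply div_le_div_of_nonneg_left hm0 (by positivity)
      nlinarith
    have k2 : (m:ℝ) / x^2 ≤ 2 * (m / (x * (x + 1))) := by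
      rw [← mul_div_assoc, div_le_div_iff₀ (by positivity) (by positivity)]
      have : x * (x + 1) ≤ 2 * x^2 := by nlinarith
      nlinarith
    rw [e4]
    constructor
    · have k3 : Real.exp (-(2 * C * (m / (x * (x + 1))))) ≤ Real.exp (-(C * m / x^2)) := by
        apply Real.exp_le_exp.mpr
        have := mul_le_mul_of_nonneg_left k2 hC.le
        have e5 : C * ((m:ℝ) / x^2) = C * m / x^2 := by ring
        linarith
      rw [mul_add, neg_add, Real.exp_add]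
      calc _ = Real.exp (-(2 * C * (m / n' - m / x))) * (Real.exp (-(2 * C * (m / (x * (x + 1))))) *
            p m (n' + k + 1)) := by ring
        _ ≤ Real.exp (-(2 * C * (m / n' - m / x))) * (Real.exp (-(C * m / x^2)) *
            p m (n' + k + 1)) := by
            apply mul_le_mul_of_nonneg_left _ (Real.exp_pos _).le
            exact mul_le_mul_of_nonneg_right k3 (p_nonneg _ _)
        _ ≤ Real.exp (-(2 * C * (m / n' - m / x))) * p m (n' + k) :=
            mul_le_mul_of_nonneg_left h2 (Real.exp_pos _).le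
        _ ≤ _ := ih1
    · have k3 : Real.exp (-(c * m / x^2)) ≤ Real.exp (-(c * (m / (x * (x + 1))))) := by
        apply Real.exp_le_exp.mpr
        have := mul_le_mul_of_nonneg_left k1 hc.le
        have e5 : c * ((m:ℝ) / x^2) = c * m / x^2 := by ring
        linarith
      rw [mul_add, neg_add, Real.exp_add]
      calc p m n' ≤ Real.exp (-(c * (m / n' - m / x))) * p m (n' + k) := ih2
        _ ≤ Real.exp (-(c * (m / n' - m / x))) * (Real.exp (-(c * m / x^2)) *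
            p m (n' + k + 1)) := mul_le_mul_of_nonneg_left h1 (Real.exp_pos _).le
        _ ≤ Real.exp (-(c * (m / n' - m / x))) * (Real.exp (-(c * (m / (x * (x + 1))))) *
            p m (n' + k + 1)) := by
            apply mul_le_mul_of_nonneg_left _ (Real.exp_pos _).le
            exact mul_le_mul_of_nonneg_right k3 (p_nonneg _ _)
        _ = _ := by ring

/-- **Bi-Lipschitz in the modulus.** -/
theorem bilip : ∃ c C : ℝ, 0 < c ∧ 0 < C ∧ ∀ m n m' n' : ℤ, 1 ≤ n' → n' ≤ n → n ≤ m → m ≤ m' →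
    Real.exp (-(C * ((m':ℝ) / n' - m / n))) * p m n ≤ p m' n' ∧
      p m' n' ≤ Real.exp (-(c * ((m':ℝ) / n' - m / n))) * p m n := by
  obtain ⟨c1, C1, hc1, hC1, h1⟩ := long_tele
  obtain ⟨c2, C2, hc2, hC2, h2⟩ := short_tele
  refine ⟨min c1 c2, max C1 C2, lt_min hc1 hc2, lt_max_of_lt_left hC1, ?_⟩
  intro m n m' n' hn' hnn hm hmm
  obtain ⟨a1, a2⟩ := h1 m m' n (by omega) hm hmm
  obtain ⟨b1, b2⟩ := h2 m' n n' hn' hnn (by omega)
  have hn'r : (1:ℝ) ≤ n' := by exact_mod_cast hn'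
  have hnnr : (n':ℝ) ≤ n := by exact_mod_cast hnn
  have hmr : (0:ℝ) ≤ m := by
    have : 0 ≤ m := by omega
    exact_mod_cast this
  have hmmr : (m:ℝ) ≤ m' := by exact_mod_cast hmm
  have hA : 0 ≤ ((m':ℝ) - m) / n := div_nonneg (by linarith) (by linarith)
  have hB : 0 ≤ (m':ℝ) / n' - m' / n := by
    have : (m':ℝ) / n ≤ m' / n' := div_le_div_of_nonneg_left (by linarith) (by linarith) hnnr
    linarith
  have e : (m':ℝ) / n' - m / n = ((m':ℝ) - m) / n + ((m':ℝ) / n' - m' / n) := by ring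
  rw [e]
  constructor
  · have k1 : Real.exp (-(max C1 C2 * (((m':ℝ) - m) / n + ((m':ℝ) / n' - m' / n)))) ≤
        Real.exp (-(C2 * ((m':ℝ) / n' - m' / n))) * Real.exp (-(C1 * ((m':ℝ) - m) / n)) := by
      rw [← Real.exp_add]
      apply Real.exp_le_exp.mpr
      have q1 := mul_le_mul_of_nonneg_right (le_max_left C1 C2) hA
      have q2 := mul_le_mul_of_nonneg_right (le_max_right C1 C2) hB
      have q3 : C1 * (((m':ℝ) - m) / n) = C1 * ((m':ℝ) - m) / n := by ring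
      rw [mul_add]
      linarith
    calc _ ≤ Real.exp (-(C2 * ((m':ℝ) / n' - m' / n))) * Real.exp (-(C1 * ((m':ℝ) - m) / n)) *
          p m n := mul_le_mul_of_nonneg_right k1 (p_nonneg _ _)
      _ = Real.exp (-(C2 * ((m':ℝ) / n' - m' / n))) * (Real.exp (-(C1 * ((m':ℝ) - m) / n)) *
          p m n) := by ring
      _ ≤ Real.exp (-(C2 * ((m':ℝ) / n' - m' / n))) * p m' n :=
          mul_le_mul_of_nonneg_left a1 (Real.exp_pos _).le
      _ ≤ _ := b1
  · have k1 : Real.exp (-(c2 * ((m':ℝ) / n' - m' / n))) * Real.exp (-(c1 * ((m':ℝ) - m) / n)) ≤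
        Real.exp (-(min c1 c2 * (((m':ℝ) - m) / n + ((m':ℝ) / n' - m' / n)))) := by
      rw [← Real.exp_add]
      apply Real.exp_le_exp.mpr
      have q1 := mul_le_mul_of_nonneg_right (min_le_left c1 c2) hA
      have q2 := mul_le_mul_of_nonneg_right (min_le_right c1 c2) hB
      have q3 : c1 * (((m':ℝ) - m) / n) = c1 * ((m':ℝ) - m) / n := by ring
      rw [mul_add]
      linarith
    calc p m' n' ≤ _ := b2
      _ ≤ Real.exp (-(c2 * ((m':ℝ) / n' - m' / n))) * (Real.exp (-(c1 * ((m':ℝ) - m) / n)) *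
          p m n) := mul_le_mul_of_nonneg_left a2 (Real.exp_pos _).le
      _ = Real.exp (-(c2 * ((m':ℝ) / n' - m' / n))) * Real.exp (-(c1 * ((m':ℝ) - m) / n)) *
          p m n := by ring
      _ ≤ _ := mul_le_mul_of_nonneg_right k1 (p_nonneg _ _)

/-- The limits of the crossing probabilities along a sequence of meshes. -/
def IsLim (δ : ℕ → ℝ) (F : ℝ → ℝ → ℝ) : Prop :=
  (∀ k, 0 < δ k) ∧ Tendsto δ atTop (𝓝 0) ∧ ∀ a b : ℝ, 0 < a → 0 < b →
    Tendsto (fun k => p (⌊a / δ k⌋₊ : ℕ) (⌊b / δ k⌋₊ : ℕ)) atTop (𝓝 (F a b))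

theorem floor_tendsto {δ : ℕ → ℝ} (h0 : ∀ k, 0 < δ k) (h1 : Tendsto δ atTop (𝓝 0)) {a : ℝ}
    (ha : 0 < a) : Tendsto (fun k => (⌊a / δ k⌋₊ : ℝ) * δ k) atTop (𝓝 a) := by
  have h2 : Tendsto (fun k => a - δ k) atTop (𝓝 (a - 0)) := tendsto_const_nhds.sub h1
  rw [sub_zero] at h2
  refine tendsto_of_tendsto_of_tendsto_of_le_of_le h2 tendsto_const_nhds ?_ ?_
  · intro k
    have h3 : a / δ k < ⌊a / δ k⌋₊ + 1 := Nat.lt_floor_add_one _
    have h4 := h0 k
    rw [div_lt_iff₀ h4] at h3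
    show a - δ k ≤ (⌊a / δ k⌋₊ : ℝ) * δ k
    linarith
  · intro k
    have h4 := h0 k
    have h3 : (⌊a / δ k⌋₊ : ℝ) ≤ a / δ k := Nat.floor_le (by positivity)
    rw [le_div_iff₀ h4] at h3
    exact h3

theorem lim_bilip {c C : ℝ}
    (h : ∀ m n m' n' : ℤ, 1 ≤ n' → n' ≤ n → n ≤ m → m ≤ m' →
      Real.exp (-(C * ((m':ℝ) / n' - m / n))) * p m n ≤ p m' n' ∧
        p m' n' ≤ Real.exp (-(c * ((m':ℝ) / n' - m / n))) * p m n)
    {δ : ℕ → ℝ} {F : ℝ → ℝ → ℝ} (hF : IsLim δ F) {a b a' b' : ℝ} (hb' : 0 < b') (hbb : b' ≤ b)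
    (hab : b ≤ a) (haa : a ≤ a') :
    Real.exp (-(C * (a' / b' - a / b))) * F a b ≤ F a' b' ∧
      F a' b' ≤ Real.exp (-(c * (a' / b' - a / b))) * F a b := by
  obtain ⟨h0, h1, h2⟩ := hF
  have hb : 0 < b := by linarith
  have ha : 0 < a := by linarith
  have ha' : 0 < a' := by linarith
  have t1 := h2 a b ha hb
  have t2 := h2 a' b' ha' hb'
  have hr : ∀ x y : ℝ, 0 < x → 0 < y →
      Tendsto (fun k => (⌊x / δ k⌋₊ : ℝ) / ⌊y / δ k⌋₊) atTop (𝓝 (x / y)) := by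
    intro x y hx hy
    have h3 := (floor_tendsto h0 h1 hx).div (floor_tendsto h0 h1 hy) hy.ne'
    refine h3.congr ?_
    intro k
    have := h0 k
    show (⌊x / δ k⌋₊ : ℝ) * δ k / ((⌊y / δ k⌋₊ : ℝ) * δ k) = _
    rw [mul_div_mul_right _ _ this.ne']
  have t3 := (hr a' b' ha' hb').sub (hr a b ha hb)
  have hev : ∀ᶠ k in atTop, 1 ≤ ⌊b' / δ k⌋₊ := by
    have h3 : Tendsto (fun k => (⌊b' / δ k⌋₊ : ℝ) * δ k) atTop (𝓝 b') := floor_tendsto h0 h1 hb'
    filter_upwards [h3.eventually (lt_mem_nhds (show (0:ℝ) < b' from hb'))] with k hk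
    by_contra hcon
    have : ⌊b' / δ k⌋₊ = 0 := by omega
    rw [this] at hk
    simp at hk
  have hmono : ∀ k, ∀ x y : ℝ, x ≤ y → ((⌊x / δ k⌋₊ : ℕ) : ℤ) ≤ ((⌊y / δ k⌋₊ : ℕ) : ℤ) := by
    intro k x y hxy
    have : ⌊x / δ k⌋₊ ≤ ⌊y / δ k⌋₊ :=
      Nat.floor_le_floor (div_le_div_of_nonneg_right hxy (h0 k).le)
    exact_mod_cast this
  constructor
  · have t4 : Tendsto (fun k => Real.exp (-(C * ((⌊a' / δ k⌋₊ : ℝ) / ⌊b' / δ k⌋₊ -
        (⌊a / δ k⌋₊ : ℝ) / ⌊b / δ k⌋₊))) * p (⌊a / δ k⌋₊ : ℕ) (⌊b / δ k⌋₊ : ℕ)) atTop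
        (𝓝 (Real.exp (-(C * (a' / b' - a / b))) * F a b)) :=
      ((Real.continuous_exp.tendsto _).comp ((t3.const_mul C).neg)).mul t1
    refine le_of_tendsto_of_tendsto t4 t2 ?_
    filter_upwards [hev] with k hk
    have := (h (⌊a / δ k⌋₊ : ℕ) (⌊b / δ k⌋₊ : ℕ) (⌊a' / δ k⌋₊ : ℕ) (⌊b' / δ k⌋₊ : ℕ)
      (by exact_mod_cast hk) (hmono k _ _ hbb) (hmono k _ _ hab) (hmono k _ _ haa)).1
    simpa using this
  · have t4 : Tendsto (fun k => Real.exp (-(c * ((⌊a' / δ k⌋₊ : ℝ) / ⌊b' / δ k⌋₊ -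
        (⌊a / δ k⌋₊ : ℝ) / ⌊b / δ k⌋₊))) * p (⌊a / δ k⌋₊ : ℕ) (⌊b / δ k⌋₊ : ℕ)) atTop
        (𝓝 (Real.exp (-(c * (a' / b' - a / b))) * F a b)) :=
      ((Real.continuous_exp.tendsto _).comp ((t3.const_mul c).neg)).mul t1
    refine le_of_tendsto_of_tendsto t2 t4 ?_
    filter_upwards [hev] with k hk
    have := (h (⌊a / δ k⌋₊ : ℕ) (⌊b / δ k⌋₊ : ℕ) (⌊a' / δ k⌋₊ : ℕ) (⌊b' / δ k⌋₊ : ℕ)
      (by exact_mod_cast hk) (hmono k _ _ hbb) (hmono k _ _ hab) (hmono k _ _ haa)).2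
    simpa using this

end Pool.Agent.D0H47.GR
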