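import Pool.Agent.D0H47.GR.Contr

/-!
Factorization in a long corridor: quasi-multiplicativity for arbitrary rooms.
-/

set_option autoImplicit false
set_option maxHeartbeats 1000000

namespace Pool.Agent.D0H47.GR

open H974 H12S Finset

/-- the left room reaches the column `c` -/
noncomputable def bS (n a c : ℤ) (L : Set Edg) (S : Set Vtx) : ℝ :=
  PH (HE a c n) (fun F => ∃ s ∈ S, ∃ v : Vtx, c ≤ v.1 ∧ Reach (L ∪ ↑F) s v)

theorem hitR {a c d n : ℤ} (hac : a ≤ c) (hcd : c ≤ d) {F : Finset Edg} (hF : F ⊆ HE a d n)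
    {L R : Set Edg} (hR : ∀ e ∈ R, d ≤ (src e).1) {s t : Vtx}
    (hs : s.1 < c) (ht : c ≤ t.1) (h : Reach (L ∪ ↑F ∪ R) s t) :
    ∃ v : Vtx, c ≤ v.1 ∧ Reach (L ∪ ↑(F ∩ HE a c n)) s v := by
  have key : ∀ w, Reach (L ∪ ↑F ∪ R) s w → (∃ v : Vtx, c ≤ v.1 ∧
      Reach (L ∪ ↑(F ∩ HE a c n)) s v) ∨ (w.1 < c ∧ Reach (L ∪ ↑(F ∩ HE a c n)) s w) := by
    intro w hw
    induction hw with
    | refl => exact Or.inr ⟨hs, Reach.refl _ _⟩
    | @tail w w' _ hst ih =>
      rcases ih with ih | ⟨ih1, ih2⟩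
      · exact Or.inl ih
      · obtain ⟨e, heG, hcase⟩ := hst
        have hle := src_le_tgt e
        have hsw : (src e).1 ≤ w.1 := by
          rcases hcase with ⟨h1, _⟩ | ⟨_, h2⟩
          · rw [h1]
          · rw [← h2]; exact hle
        have hmem : e ∈ L ∪ (↑(F ∩ HE a c n) : Set Edg) := by
          rcases heG with (heL | heF) | heR
          · exact Or.inl heL
          · right
            rw [mem_coe, Finset.mem_inter]
            refine ⟨heF, ?_⟩
            have h1 := hF heF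
            obtain ⟨x, y, _ | _⟩ := e
            · rw [mem_HE_false] at h1 ⊢
              rw [src_mk] at hsw
              simp only at hsw
              omega
            · rw [mem_HE_true] at h1 ⊢
              rw [src_mk] at hsw
              simp only at hsw
              omega
          · have := hR e heR
            omega
        have hr := ih2.trans (Adj.reach ⟨e, hmem, hcase⟩)
        by_cases hc : c ≤ w'.1
        · exact Or.inl ⟨w', hc, hr⟩
        · exact Or.inr ⟨by omega, hr⟩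
  rcases key t h with h1 | ⟨h1, -⟩
  · exact h1
  · omega

theorem hitL {a c d n : ℤ} (hac : a ≤ c) (hcd : c < d) {F : Finset Edg} (hF : F ⊆ HE a d n)
    {L R : Set Edg} (hL : ∀ e ∈ L, (tgt e).1 ≤ a) {s t : Vtx}
    (hs : s.1 ≤ c) (ht : d ≤ t.1) (h : Reach (L ∪ ↑F ∪ R) t s) :
    ∃ v : Vtx, v.1 ≤ c ∧ Reach (↑(F ∩ HE c d n) ∪ R) t v := by
  have key : ∀ w, Reach (L ∪ ↑F ∪ R) t w → (∃ v : Vtx, v.1 ≤ c ∧
      Reach (↑(F ∩ HE c d n) ∪ R) t v) ∨ (c < w.1 ∧ Reach (↑(F ∩ HE c d n) ∪ R) t w) := by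
    intro w hw
    induction hw with
    | refl => exact Or.inr ⟨by omega, Reach.refl _ _⟩
    | @tail w w' _ hst ih =>
      rcases ih with ih | ⟨ih1, ih2⟩
      · exact Or.inl ih
      · obtain ⟨e, heG, hcase⟩ := hst
        have hle := src_le_tgt e
        have hsw : w.1 ≤ (tgt e).1 := by
          rcases hcase with ⟨h1, _⟩ | ⟨_, h2⟩
          · rw [← h1]; exact hle
          · rw [h2]
        have hw : src e = w ∨ tgt e = w := by
          rcases hcase with ⟨h1, _⟩ | ⟨_, h2⟩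
          · exact Or.inl h1
          · exact Or.inr h2
        have hmem : e ∈ (↑(F ∩ HE c d n) : Set Edg) ∪ R := by
          rcases heG with (heL | heF) | heR
          · have := hL e heL
            omega
          · left
            rw [mem_coe, Finset.mem_inter]
            refine ⟨heF, ?_⟩
            have h1 := hF heF
            obtain ⟨x, y, _ | _⟩ := e
            · rw [mem_HE_false] at h1 ⊢
              rw [src_mk, tgt_false] at hw
              rcases hw with rfl | rfl <;> simp only at ih1 <;> omega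
            · rw [mem_HE_true] at h1 ⊢
              rw [src_mk, tgt_true] at hw
              rcases hw with rfl | rfl <;> simp only at ih1 <;> omega
          · exact Or.inr heR
        have hr := ih2.trans (Adj.reach ⟨e, hmem, hcase⟩)
        by_cases hc : w'.1 ≤ c
        · exact Or.inl ⟨w', hc, hr⟩
        · exact Or.inr ⟨by omega, hr⟩
  rcases key s h with h1 | ⟨h1, -⟩
  · exact h1
  · omega

/-- upper bound -/
theorem Zc_le {n a c d : ℤ} (hac : a < c) (hcd : c < d) {L : Set Edg} {S : Set Vtx}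
    (hL : LStr a L S) {R : Set Edg} {T : Set Vtx} (hR : RStr d R T) :
    Zc n a d L S R T ≤ bS n a c L S * aT n c d R T := by
  have h1 : Zc n a d L S R T ≤ PH (HE a d n) (fun F =>
      (∃ s ∈ S, ∃ v : Vtx, c ≤ v.1 ∧ Reach (L ∪ ↑(F ∩ HE a c n)) s v) ∧
      (∃ t ∈ T, ∃ s : Vtx, s.1 ≤ c ∧ Reach (↑(F ∩ HE c d n) ∪ R) t s)) := by
    apply Pr_mono okh
    rintro F hF ⟨s, hs, t, ht, hr⟩
    have hs1 := hL.2 s hs
    have ht1 := hR.2 t ht
    obtain ⟨v, hv, hvr⟩ := hitR hac.le hcd.le hF hR.1 (by omega) (by omega) hr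
    obtain ⟨v', hv', hvr'⟩ := hitL hac.le hcd hF hL.1 (s := s) (by omega) ht1 hr.symm
    exact ⟨⟨s, hs, v, hv, hvr⟩, t, ht, v', hv', hvr'⟩
  refine h1.trans (le_of_eq ?_)
  have sub1 : HE a c n ⊆ HE a d n := HE_sub le_rfl hcd.le
  have sub2 : HE c d n ⊆ HE a d n := HE_sub hac.le le_rfl
  have h2 : PH (HE a d n) (fun F =>
      (∃ s ∈ S, ∃ v : Vtx, c ≤ v.1 ∧ Reach (L ∪ ↑(F ∩ HE a c n)) s v) ∧
      (∃ t ∈ T, ∃ s : Vtx, s.1 ≤ c ∧ Reach (↑(F ∩ HE c d n) ∪ R) t s)) =
      PH (HE a d n) (fun F => ∃ s ∈ S, ∃ v : Vtx, c ≤ v.1 ∧ Reach (L ∪ ↑(F ∩ HE a c n)) s v) *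
      PH (HE a d n) (fun F => ∃ t ∈ T, ∃ s : Vtx, s.1 ≤ c ∧ Reach (↑(F ∩ HE c d n) ∪ R) t s) := by
    unfold PH
    refine Pr_indep sub1 sub2 HE_disj.symm ?_ ?_
    · intro F _
      rw [Finset.inter_assoc, Finset.inter_self]
    · intro F _
      rw [Finset.inter_assoc, Finset.inter_self]
  rw [h2]
  congr 1
  · unfold bS PH
    rw [Pr_local sub1 (A := fun F => ∃ s ∈ S, ∃ v : Vtx, c ≤ v.1 ∧
      Reach (L ∪ ↑(F ∩ HE a c n)) s v) (fun F _ => by
        rw [Finset.inter_assoc, Finset.inter_self])]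
    apply Pr_congr
    intro F hF
    rw [Finset.inter_eq_left.mpr hF]
  · unfold aT PH
    rw [Pr_local sub2 (A := fun F => ∃ t ∈ T, ∃ s : Vtx, s.1 ≤ c ∧
      Reach (↑(F ∩ HE c d n) ∪ R) t s) (fun F _ => by
        rw [Finset.inter_assoc, Finset.inter_self])]
    apply Pr_congr
    intro F hF
    rw [Finset.inter_eq_left.mpr hF]

theorem Ok_of_TBc {b c n : ℤ} (hbc : b ≤ c) {F : Finset Edg} (h : TBc b c 0 n F) :
    Ok' b c n F := by
  rintro y hy1 hy2 ⟨y', hy', hd⟩
  obtain ⟨x, x', hx, hx', hr⟩ := h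
  exact no_both_TB hbc hx' hy' hr (by simpa using hd)

theorem TBE_sub_HE {b c b' c' n : ℤ} (h1 : b' ≤ b) (h2 : c < c') : TBE b c 0 n ⊆ HE b' c' n := by
  rintro ⟨x, y, _ | _⟩ h
  · rw [mem_TBE_false] at h; rw [mem_HE_false]; omega
  · rw [mem_TBE_true] at h; rw [mem_HE_true]; omega

theorem LRE_sub_HE {b c b' c' n : ℤ} (h1 : b' ≤ b) (h2 : c ≤ c') : LRE b c 0 n ⊆ HE b' c' n := by
  rintro ⟨x, y, _ | _⟩ h
  · rw [mem_LRE_false] at h; rw [mem_HE_false]; omega
  · rw [mem_LRE_true] at h; rw [mem_HE_true]; omega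

/-- lower bound of the common part -/
theorem Vc_ge {n a b d : ℤ} (hn : 1 ≤ n) (hab : a ≤ b) (hd : b + n < d) {L : Set Edg}
    {S : Set Vtx} (hL : LStr a L S) :
    (1/2 : ℝ) * bS n a (b + n) L S ≤ Vc n a b (b + n) d L S := by
  set c := b + n with hc
  have hbc : b < c := by omega
  -- the event in the whole corridor
  set E1 : Finset Edg → Prop := fun F => ∃ s ∈ S, ∃ v : Vtx, c ≤ v.1 ∧ Reach (L ∪ ↑F) s v with hE1
  have hE1i : IncrE (HE b d n ∪ HE a b n) E1 := by
    rintro F G hFG _ ⟨s, hs, v, hv, hr⟩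
    exact ⟨s, hs, v, hv, hr.mono (Set.union_subset_union_right _ (by exact_mod_cast hFG))⟩
  have hsub : HE a c n ⊆ HE b d n ∪ HE a b n := by
    rw [← HE_split hab (by omega)]
    exact HE_sub le_rfl (by omega)
  have h1 : bS n a c L S ≤ PH (HE b d n ∪ HE a b n) E1 := Pr_mono_set okh hsub hE1i
  have h2 : (1/2 : ℝ) ≤ PH (HE b d n ∪ HE a b n) (TBc b c 0 n) := by
    rw [PH_TBc (w := n) (h := n) ((TBE_sub_HE le_rfl hd).trans Finset.subset_union_left) (by ring)
      (by rw [hc]; ring)]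
    exact hh_square n (by omega)
  have h3 := Pr_harris okh (TBc_incr (HE b d n ∪ HE a b n) b c 0 n) hE1i
  have h4 : PH (HE b d n ∪ HE a b n) (fun F => TBc b c 0 n F ∧ E1 F) ≤ Vc n a b c d L S := by
    unfold Vc PH Pr
    rw [Ex_union HE_disj]
    apply Ex_mono okh
    intro F hF
    unfold Zc PH Pr
    rw [← Ex_mul_left]
    apply Ex_mono okh
    intro F1 hF1
    rw [← ind_and]
    apply ind_mono
    rintro ⟨hT, s, hs, v, hv, hr⟩
    have hT' : TBc b c 0 n F := by
      have h5 : (F ∪ F1) ∩ HE b d n = F := by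
        ext x
        rw [Finset.mem_inter, Finset.mem_union]
        constructor
        · rintro ⟨h6 | h6, h7⟩
          · exact h6
          · exact absurd (hF1 h6) (Finset.disjoint_left.mp HE_disj h7)
        · intro h6; exact ⟨Or.inl h6, hF h6⟩
      rw [TBc_local (TBE_sub_HE le_rfl hd), h5] at hT
      exact hT
    have hgood := Ok_of_TBc hbc.le hT'
    refine ⟨hgood, ?_⟩
    have hL1 : ∀ e ∈ L ∪ (↑F1 : Set Edg), (tgt e).1 ≤ b := by
      rintro e (he | he)
      · exact (hL.1 e he).trans hab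
      · exact (HE_src (hF1 he)).2
    have e : L ∪ (↑(F ∪ F1) : Set Edg) = (L ∪ ↑F1) ∪ ↑F ∪ ∅ := by
      ext x; simp only [Finset.coe_union, Set.mem_union, Set.mem_empty_iff_false]; tauto
    rw [e] at hr
    obtain ⟨γ, hγ, hγr⟩ := pathB (R := ∅) hn hbc hd hgood hF hL1 (by simp)
      ((hL.2 s hs).trans hab) hv hr
    exact ⟨s, hs, γ, hγ, hγr⟩
  have h5 : (1/2 : ℝ) * bS n a c L S ≤ PH (HE b d n ∪ HE a b n) (TBc b c 0 n) *
      PH (HE b d n ∪ HE a b n) E1 :=
    mul_le_mul h2 h1 (Pr_nonneg okh _ _) (Pr_nonneg okh _ _)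
  exact h5.trans (h3.trans h4)

/-- extension of the arm of the right room by the length `n` -/
theorem aT_ge {n b : ℤ} (hn : 1 ≤ n) {R : Set Edg} {T : Set Vtx}
    (hR : RStr (b + 2 * n + 1) R T) :
    aT n (b + n) (b + 2 * n + 1) R T * (1/2) * p (2 * n + 1) n ≤ aT n b (b + 2 * n + 1) R T := by
  set d := b + 2 * n + 1 with hd
  set c := b + n with hc
  set U := HE b d n with hU
  set E1 : Finset Edg → Prop := fun F => ∃ t ∈ T, ∃ s : Vtx, s.1 ≤ c ∧
    Reach (↑(F ∩ HE c d n) ∪ R) t s with hE1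
  have hE1i : IncrE U E1 := by
    rintro F G hFG _ ⟨t, ht, s, hs, hr⟩
    refine ⟨t, ht, s, hs, hr.mono (Set.union_subset_union_left _ ?_)⟩
    exact_mod_cast Finset.inter_subset_inter_right hFG
  have sub2 : HE c d n ⊆ U := HE_sub (by omega) le_rfl
  have e1 : PH U E1 = aT n c d R T := by
    unfold aT PH
    rw [Pr_local sub2 (A := E1) (fun F _ => by
        simp only [hE1]
        rw [Finset.inter_assoc, Finset.inter_self])]
    apply Pr_congr
    intro F hF
    simp only [hE1]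
    rw [Finset.inter_eq_left.mpr hF]
  have sT : TBE c (d - 1) 0 n ⊆ U := TBE_sub_HE (by omega) (by omega)
  have sL : LRE b d 0 n ⊆ U := LRE_sub_HE le_rfl le_rfl
  have e2 : (1/2 : ℝ) ≤ PH U (TBc c (d - 1) 0 n) := by
    rw [PH_TBc (w := n) (h := n) sT (by ring) (by rw [hc, hd]; ring)]
    exact hh_square n (by omega)
  have e3 : PH U (LRc b d 0 n) = p (2 * n + 1) n :=
    PH_LRc sL (by rw [hd]; ring) (by ring)
  have i1 := Pr_harris okh hE1i (TBc_incr U c (d - 1) 0 n)
  have hinc : IncrE U (fun F => E1 F ∧ TBc c (d - 1) 0 n F) :=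
    fun F G hFG hG hF => ⟨hE1i F G hFG hG hF.1, hF.2.mono hFG⟩
  have i2 := Pr_harris okh hinc (LRc_incr U b d 0 n)
  have i3 : PH U (fun F => (E1 F ∧ TBc c (d - 1) 0 n F) ∧ LRc b d 0 n F) ≤ aT n b d R T := by
    apply Pr_mono okh
    rintro F hF ⟨⟨⟨t, ht, v, hv, hr⟩, x, x', hx, hx', hT⟩, z, z', hz, hz', hL⟩
    have hcd : c < d - 1 := by omega
    have htd := hR.2 t ht
    obtain ⟨y1, y2, k1, k2, k3, k4⟩ := sub_LR (G := (↑(F ∩ HE c d n) : Set Edg) ∪ R) (a := c)
      (b := d - 1) (c := 0) (d := n) hcd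
      (by
        rintro x1 y3 (h | h) h5 h6
        · rw [mem_coe, Finset.mem_inter, mem_HE_true] at h; omega
        · have := hR.1 _ h
          rw [src_mk] at this
          simp only at this
          omega)
      (by
        rintro x1 y3 (h | h) h5 h6
        · rw [mem_coe, Finset.mem_inter, mem_HE_false] at h; omega
        · have := hR.1 _ h
          rw [src_mk] at this
          simp only at this
          omega) hr.symm hv (by omega)
    obtain ⟨z1, z2, l1, l2, l3, l4⟩ := sub_LR (a := c) (b := d - 1) (c := 0) (d := n) hcd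
      (by rintro x y ⟨-, h⟩ _ _; simp only [mem_coe, mem_LRE_true] at h; omega)
      (by rintro x y ⟨-, h⟩ _ _; simp only [mem_coe, mem_LRE_false] at h; omega) hL (by omega)
      (by simp only; omega)
    have m1 := crossings_meet hcd (by omega) (F := ↑F) k2 hx (k3.mono (by
      rintro e ⟨h7 | h7, h8⟩
      · rw [mem_coe, Finset.mem_inter] at h7
        exact ⟨h7.1, h8⟩
      · exfalso
        have h9 := hR.1 _ h7
        have h10 := LRE_ends (mem_coe.mp h8)
        omega)) hT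
    have m2 := crossings_meet hcd (by omega) (F := ↑F) l2 hx
      (l3.mono (by rintro e ⟨⟨h7, -⟩, h8⟩; exact ⟨h7, h8⟩)) hT
    refine ⟨t, ht, (b, z), le_rfl, ?_⟩
    have r1 : Reach (↑F ∪ R) t v := hr.mono (by
      rintro e (h7 | h7)
      · rw [mem_coe, Finset.mem_inter] at h7
        exact Or.inl h7.1
      · exact Or.inr h7)
    have r2 : Reach (↑F ∪ R) v (c, y1) := k4.mono (by
      rintro e (h7 | h7)
      · rw [mem_coe, Finset.mem_inter] at h7
        exact Or.inl h7.1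
      · exact Or.inr h7)
    have r3 : Reach (↑F ∪ R) (c, y1) (x, 0) := m1.mono (fun e h7 => Or.inl h7.1)
    have r4 : Reach (↑F ∪ R) (c, z1) (x, 0) := m2.mono (fun e h7 => Or.inl h7.1)
    have r5 : Reach (↑F ∪ R) (b, z) (c, z1) := l4.mono (fun e h7 => Or.inl h7.1)
    exact r1.trans (r2.trans (r3.trans (r4.symm.trans r5.symm)))
  have j1 : aT n c d R T * (1/2) ≤ PH U (fun F => E1 F ∧ TBc c (d - 1) 0 n F) := by
    refine le_trans ?_ i1
    rw [← e1]
    exact mul_le_mul_of_nonneg_left e2 (Pr_nonneg okh _ _)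
  calc aT n c d R T * (1/2) * p (2 * n + 1) n ≤
        PH U (fun F => E1 F ∧ TBc c (d - 1) 0 n F) * PH U (LRc b d 0 n) := by
        rw [e3]
        exact mul_le_mul_of_nonneg_right j1 (p_nonneg _ _)
    _ ≤ _ := i2.trans i3

end Pool.Agent.D0H47.GR
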