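import Pool.Agent.D0H47.GR.Bilip
import Pool.Agent.H974R2.Infinite

/-!
The bridge to the infinite lattice: connection probabilities inside a set of vertices.
-/

set_option autoImplicit false

namespace Pool.Agent.D0H47.GR

open H974 MeasureTheory

/-- The graph of the open edges with both ends in `D`. -/
def domGraph (D : Set (ℤ × ℤ)) (ω : sqLattice.edgeSet → Bool) : SimpleGraph (ℤ × ℤ) :=
  SimpleGraph.fromEdgeSet {e | (∃ he : e ∈ sqLattice.edgeSet, ω ⟨e, he⟩ = true) ∧ ∀ v ∈ e, v ∈ D}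

/-- the edges with both ends in `D` -/
def ED (D : Set (ℤ × ℤ)) : Set Edg := {e | src e ∈ D ∧ tgt e ∈ D}

theorem domGraph_adj (D : Set (ℤ × ℤ)) (ω : sqLattice.edgeSet → Bool) (u v : ℤ × ℤ) :
    (domGraph D ω).Adj u v ↔ H974.Adj ((opn ω) ∩ ED D) u v := by
  have inb2 : ∀ a b : ℤ × ℤ, (∀ v ∈ s(a, b), v ∈ D) ↔ (a ∈ D ∧ b ∈ D) := by
    intro a b
    constructor
    · intro h; exact ⟨h a (Sym2.mem_mk_left _ _), h b (Sym2.mem_mk_right _ _)⟩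
    · rintro ⟨h1, h2⟩ w hw
      rcases Sym2.mem_iff.mp hw with rfl | rfl
      · exact h1
      · exact h2
  unfold domGraph
  rw [SimpleGraph.fromEdgeSet_adj]
  constructor
  · rintro ⟨⟨⟨he, hω⟩, hbox⟩, -⟩
    obtain ⟨e, hc⟩ := adj_edge (show sqLattice.Adj u v from (SimpleGraph.mem_edgeSet _).mp he)
    have hs : s(src e, tgt e) = s(u, v) := by
      rcases hc with ⟨h1, h2⟩ | ⟨h1, h2⟩
      · rw [h1, h2]
      · rw [h1, h2]; exact Sym2.eq_swap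
    have ht : toE e = ⟨s(u, v), he⟩ := Subtype.ext hs
    refine ⟨e, ⟨?_, ?_⟩, hc⟩
    · show ω (toE e) = true
      rw [ht]; exact hω
    · show src e ∈ D ∧ tgt e ∈ D
      rw [← inb2, hs]; exact hbox
  · rintro ⟨e, ⟨he, hb⟩, hcase⟩
    have hs : s(u, v) = s(src e, tgt e) := by
      rcases hcase with ⟨h1, h2⟩ | ⟨h1, h2⟩
      · rw [h1, h2]
      · rw [h1, h2]; exact Sym2.eq_swap
    refine ⟨?_, ?_⟩
    · show (∃ he : s(u, v) ∈ sqLattice.edgeSet, ω ⟨s(u, v), he⟩ = true) ∧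
        ∀ x ∈ s(u, v), x ∈ D
      rw [hs]
      refine ⟨⟨edge_mem e, he⟩, ?_⟩
      rw [inb2]; exact hb
    · rintro rfl
      exact Adj_irrefl (⟨e, he, hcase⟩ : H974.Adj (opn ω) u u)

theorem domGraph_reach (D : Set (ℤ × ℤ)) (ω : sqLattice.edgeSet → Bool) (u v : ℤ × ℤ) :
    (domGraph D ω).Reachable u v ↔ Reach ((opn ω) ∩ ED D) u v := by
  rw [SimpleGraph.reachable_iff_reflTransGen]
  have : (domGraph D ω).Adj = H974.Adj ((opn ω) ∩ ED D) := by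
    funext u v
    exact propext (domGraph_adj D ω u v)
  rw [this]
  rfl

/-- connection probabilities inside a finite domain -/
theorem conn_eq (q : unitInterval) {D S T : Set (ℤ × ℤ)} {E : Finset Edg}
    (hE : (E : Set Edg) = ED D) :
    (bondLaw q).real {ω | ∃ u ∈ S, ∃ v ∈ T, (domGraph D ω).Reachable u v} =
      Pr (fun _ => (q : ℝ)) E (fun F => ∃ u ∈ S, ∃ v ∈ T, Reach (↑F : Set Edg) u v) := by
  rw [← law_event q E]
  congr 1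
  ext ω
  simp only [Set.mem_setOf_eq]
  have hF : (↑(FF E ω) : Set Edg) = (opn ω) ∩ ED D := by rw [← hE]; exact FF_coe E ω
  rw [hF]
  constructor
  · rintro ⟨u, hu, v, hv, h⟩
    exact ⟨u, hu, v, hv, (domGraph_reach D ω u v).mp h⟩
  · rintro ⟨u, hu, v, hv, h⟩
    exact ⟨u, hu, v, hv, (domGraph_reach D ω u v).mpr h⟩

/-- The rectangle `[0,m] × [0,n]`. -/
def rect (m n : ℕ) : Set (ℤ × ℤ) := {v | (0 ≤ v.1 ∧ v.1 ≤ m) ∧ (0 ≤ v.2 ∧ v.2 ≤ n)}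

theorem ED_rect (m n : ℕ) : ((RE 0 m 0 n : Finset Edg) : Set Edg) = ED (rect m n) := by
  ext e
  obtain ⟨x, y, _ | _⟩ := e
  · rw [Finset.mem_coe, mem_RE_false]
    show _ ↔ (((0:ℤ) ≤ x ∧ x ≤ (m:ℤ)) ∧ ((0:ℤ) ≤ y ∧ y ≤ (n:ℤ))) ∧
      (((0:ℤ) ≤ x ∧ x ≤ (m:ℤ)) ∧ ((0:ℤ) ≤ y + 1 ∧ y + 1 ≤ (n:ℤ)))
    omega
  · rw [Finset.mem_coe, mem_RE_true]
    show _ ↔ (((0:ℤ) ≤ x ∧ x ≤ (m:ℤ)) ∧ ((0:ℤ) ≤ y ∧ y ≤ (n:ℤ))) ∧
      (((0:ℤ) ≤ x + 1 ∧ x + 1 ≤ (m:ℤ)) ∧ ((0:ℤ) ≤ y ∧ y ≤ (n:ℤ)))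
    omega

theorem half_val : (((⟨1/2, by norm_num, by norm_num⟩ : unitInterval)) : ℝ) = 1/2 := rfl

/-- The crossing probability of the rectangle `[0,m] × [0,n]` is `p m n`. -/
theorem cross_rect (m n : ℕ) :
    (bondLaw ⟨1/2, by norm_num, by norm_num⟩).real {ω | ∃ u ∈ {v ∈ rect m n | v.1 = 0},
      ∃ v ∈ {v ∈ rect m n | v.1 = (m : ℤ)}, (domGraph (rect m n) ω).Reachable u v} = p m n := by
  rw [conn_eq _ (ED_rect m n), half_val]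
  rcases Nat.eq_zero_or_pos m with hm | hm
  · subst hm
    rw [Nat.cast_zero, p_zero (by omega)]
    apply Pr_true
    intro F _
    exact ⟨(0, 0), ⟨⟨⟨le_rfl, le_rfl⟩, le_rfl, by simp⟩, rfl⟩, (0, 0),
      ⟨⟨⟨le_rfl, le_rfl⟩, le_rfl, by simp⟩, rfl⟩, Reach.refl _ _⟩
  · have hsl : LRE 0 (m:ℤ) 0 (n:ℤ) ⊆ RE 0 (m:ℤ) 0 (n:ℤ) := LRE_subset_RE
    have h1 := PH_LRc (w := m) (h := n) hsl (by ring) (by ring)
    rw [← h1]
    unfold PH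
    apply Pr_congr
    intro F hF
    constructor
    · rintro ⟨u, ⟨hu1, hu2⟩, v, ⟨hv1, hv2⟩, hr⟩
      have e : (↑F : Set Edg) = ↑F ∩ ↑(RE 0 (m:ℤ) 0 (n:ℤ)) :=
        (Set.inter_eq_left.mpr (by exact_mod_cast hF)).symm
      rw [e] at hr
      exact LRc_of_reach (by omega) hr hu2 hv2
    · rintro ⟨y, y', hy, hy', hr⟩
      refine ⟨(0, y), ⟨⟨⟨le_rfl, by simp⟩, hy⟩, rfl⟩, (m, y'), ⟨⟨⟨by simp, le_rfl⟩, hy'⟩, rfl⟩,
        hr.mono Set.inter_subset_left⟩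

end Pool.Agent.D0H47.GR
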