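import Pool.Agent.D0H47.GR.Gadget

/-!
The chain of blocks: each block multiplies the probability by `1 - P(Gd)`.
-/

set_option autoImplicit false

namespace Pool.Agent.D0H47.GR

open H974 H12S Finset

theorem Gd_LRc {m b h : ℤ} {F : Finset Edg} (hm : 1 ≤ m) (hG : Gd 0 m b h F) :
    LRc 0 m b (b + 3 * h) F := by
  obtain ⟨h1, ⟨y, z, h2, h3⟩, h4⟩ := hG
  exact LRc_of_reach (by omega) (h3.mono (Set.inter_subset_inter_right _
    (by exact_mod_cast LRE_subset_RE))) rfl rfl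

theorem LRE_rows {a b c d c' d' : ℤ} {e : Edg} (he : e ∈ LRE a b c d) (h1 : c' ≤ (src e).2)
    (h2 : (tgt e).2 ≤ d') : e ∈ LRE a b c' d' := by
  obtain ⟨x, y, t⟩ := e
  cases t
  · rw [mem_LRE_false] at he ⊢
    have e1 : (src ((x, y, false) : Edg)).2 = y := rfl
    have e2 : (tgt ((x, y, false) : Edg)).2 = y + 1 := rfl
    omega
  · rw [mem_LRE_true] at he ⊢
    have e1 : (src ((x, y, true) : Edg)).2 = y := rfl
    have e2 : (tgt ((x, y, true) : Edg)).2 = y := rfl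
    omega

theorem LRE_ends {a b c d : ℤ} {e : Edg} (he : e ∈ LRE a b c d) :
    ((a ≤ (src e).1 ∧ (src e).1 ≤ b) ∧ (a ≤ (tgt e).1 ∧ (tgt e).1 ≤ b)) ∧
      ((src e).2 ≤ (tgt e).2 ∧ (tgt e).2 ≤ (src e).2 + 1) ∧ (c ≤ (src e).2 ∧ (tgt e).2 ≤ d) := by
  obtain ⟨x, y, t⟩ := e
  cases t
  · rw [mem_LRE_false] at he
    have e1 : src ((x, y, false) : Edg) = (x, y) := rfl
    have e2 : tgt ((x, y, false) : Edg) = (x, y + 1) := rfl
    rw [e1, e2]
    simp only
    omega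
  · rw [mem_LRE_true] at he
    have e1 : src ((x, y, true) : Edg) = (x, y) := rfl
    have e2 : tgt ((x, y, true) : Edg) = (x + 1, y) := rfl
    rw [e1, e2]
    simp only
    omega

theorem Gd_noLR {m n b h : ℤ} (hb : 0 ≤ b) (hn : b + 3 * h ≤ n) (hh1 : 1 ≤ h) (hm : 1 ≤ m)
    {F : Finset Edg} (hG : Gd 0 m b h F)
    (hlow : ¬ LRc 0 (m + 1) 0 (b + h - 1) (F \ KB (Um 0 m b h) (Bm 0 m b h) F))
    (hup : ¬ LRc 0 (m + 1) (b + 2 * h + 1) n (F \ KB (Um 0 m b h) (Bm 0 m b h) F)) :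
    ¬ LRc 0 (m + 1) 0 n F := by
  rintro ⟨y, y', hy, hy', hr⟩
  obtain ⟨g1, -, g3⟩ := hG
  set U := Um 0 m b h with hU
  set B := Bm 0 m b h with hB
  have hC : ∀ v w, Cl U B F v → Reach ((↑F : Set Edg) ∩ ↑(LRE 0 (m + 1) 0 n)) v w →
      Reach ((↑F : Set Edg) ∩ ↑U) v w ∧ Cl U B F w := by
    intro v w hv hvw
    induction hvw with
    | refl => exact ⟨Reach.refl _ _, hv⟩
    | @tail w w' hbw hs ih =>
      obtain ⟨ih1, ih2⟩ := ih
      obtain ⟨e, ⟨heF, heT⟩, hc⟩ := hs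
      have hw := g1 w ih2
      have heU : e ∈ U := by
        have hE := LRE_ends (mem_coe.mp heT)
        rcases hc with ⟨h5, h6⟩ | ⟨h5, h6⟩
        · rw [h5, h6] at hE
          exact LRE_rows (mem_coe.mp heT) (by rw [h5]; omega) (by rw [h6]; omega)
        · rw [h5, h6] at hE
          exact LRE_rows (mem_coe.mp heT) (by rw [h5]; omega) (by rw [h6]; omega)
      have hstep : Reach ((↑F : Set Edg) ∩ ↑U) w w' := Adj.reach ⟨e, ⟨heF, heU⟩, hc⟩
      refine ⟨ih1.trans hstep, ?_⟩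
      obtain ⟨b0, hb0, hr0⟩ := ih2
      exact ⟨b0, hb0, hr0.trans hstep⟩
  by_cases hcl : Cl U B F (0, y)
  · exact g3 y y' hcl (hC _ _ hcl hr).1
  have hav : ∀ w, Reach ((↑F : Set Edg) ∩ ↑(LRE 0 (m + 1) 0 n)) (0, y) w → ¬ Cl U B F w :=
    fun w hw hw' => hcl (hC _ _ hw' hw.symm).2
  have hBm : ∀ w : Vtx, 0 ≤ w.1 → w.1 ≤ m + 1 → ¬ Cl U B F w → w.2 < b + h ∨ b + 2 * h < w.2 := by
    intro w h1 h2 h3
    by_contra hcon
    push Not at hcon
    exact h3 ⟨w, ⟨⟨h1, h2⟩, hcon.1, hcon.2⟩, Reach.refl _ _⟩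
  have hy0 := hBm (0, y) le_rfl (by simp only; omega) hcl
  simp only at hy0
  have hK : ∀ e : Edg, ∀ w w' : Vtx, (src e = w ∧ tgt e = w' ∨ src e = w' ∧ tgt e = w) →
      ¬ Cl U B F w → ¬ Cl U B F w' → e ∉ KB U B F := by
    intro e w w' hc h1 h2 h3
    rw [mem_KB] at h3
    rcases hc with ⟨h5, h6⟩ | ⟨h5, h6⟩
    · rw [h5, h6] at h3; tauto
    · rw [h5, h6] at h3; tauto
  rcases hy0 with hy0 | hy0
  · -- below
    have key : ∀ w, Reach ((↑F : Set Edg) ∩ ↑(LRE 0 (m + 1) 0 n)) (0, y) w →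
        Reach ((↑(F \ KB U B F) : Set Edg) ∩ ↑(LRE 0 (m + 1) 0 (b + h - 1))) (0, y) w ∧
          (0 ≤ w.1 ∧ w.1 ≤ m + 1) ∧ w.2 < b + h := by
      intro w hw
      induction hw with
      | refl => exact ⟨Reach.refl _ _, ⟨le_rfl, by simp only; omega⟩, hy0⟩
      | @tail w w' hbw hs ih =>
        obtain ⟨ih1, ih2, ih3⟩ := ih
        have n1 := hav w hbw
        have n2 := hav w' (hbw.tail hs)
        obtain ⟨e, ⟨heF, heT⟩, hc⟩ := hs
        have hnK := hK e w w' hc n1 n2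
        have hb' := fun h1 h2 => hBm w' h1 h2 n2
        have hall : (0 ≤ w'.1 ∧ w'.1 ≤ m + 1) ∧ w'.2 < b + h ∧
            e ∈ LRE 0 (m + 1) 0 (b + h - 1) := by
          have hE := LRE_ends (mem_coe.mp heT)
          rcases hc with ⟨h5, h6⟩ | ⟨h5, h6⟩
          · rw [h5, h6] at hE
            have := hb' (by omega) (by omega)
            exact ⟨by omega, by omega, LRE_rows (mem_coe.mp heT) (by rw [h5]; omega)
              (by rw [h6]; omega)⟩
          · rw [h5, h6] at hE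
            have := hb' (by omega) (by omega)
            exact ⟨by omega, by omega, LRE_rows (mem_coe.mp heT) (by rw [h5]; omega)
              (by rw [h6]; omega)⟩
        refine ⟨ih1.trans (Adj.reach ⟨e, ⟨?_, hall.2.2⟩, hc⟩), hall.1, hall.2.1⟩
        rw [mem_coe, Finset.mem_sdiff]
        exact ⟨heF, hnK⟩
    obtain ⟨k1, k2, k3⟩ := key _ hr
    simp only at k3
    exact hlow ⟨y, y', ⟨hy.1, by omega⟩, ⟨hy'.1, by omega⟩, k1⟩
  · -- above
    have key : ∀ w, Reach ((↑F : Set Edg) ∩ ↑(LRE 0 (m + 1) 0 n)) (0, y) w →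
        Reach ((↑(F \ KB U B F) : Set Edg) ∩ ↑(LRE 0 (m + 1) (b + 2 * h + 1) n)) (0, y) w ∧
          (0 ≤ w.1 ∧ w.1 ≤ m + 1) ∧ b + 2 * h < w.2 := by
      intro w hw
      induction hw with
      | refl => exact ⟨Reach.refl _ _, ⟨le_rfl, by simp only; omega⟩, hy0⟩
      | @tail w w' hbw hs ih =>
        obtain ⟨ih1, ih2, ih3⟩ := ih
        have n1 := hav w hbw
        have n2 := hav w' (hbw.tail hs)
        obtain ⟨e, ⟨heF, heT⟩, hc⟩ := hs
        have hnK := hK e w w' hc n1 n2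
        have hb' := fun h1 h2 => hBm w' h1 h2 n2
        have hall : (0 ≤ w'.1 ∧ w'.1 ≤ m + 1) ∧ b + 2 * h < w'.2 ∧
            e ∈ LRE 0 (m + 1) (b + 2 * h + 1) n := by
          have hE := LRE_ends (mem_coe.mp heT)
          rcases hc with ⟨h5, h6⟩ | ⟨h5, h6⟩
          · rw [h5, h6] at hE
            have := hb' (by omega) (by omega)
            exact ⟨by omega, by omega, LRE_rows (mem_coe.mp heT) (by rw [h5]; omega)
              (by rw [h6]; omega)⟩
          · rw [h5, h6] at hE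
            have := hb' (by omega) (by omega)
            exact ⟨by omega, by omega, LRE_rows (mem_coe.mp heT) (by rw [h5]; omega)
              (by rw [h6]; omega)⟩
        refine ⟨ih1.trans (Adj.reach ⟨e, ⟨?_, hall.2.2⟩, hc⟩), hall.1, hall.2.1⟩
        rw [mem_coe, Finset.mem_sdiff]
        exact ⟨heF, hnK⟩
    obtain ⟨k1, k2, k3⟩ := key _ hr
    simp only at k3
    exact hup ⟨y, y', ⟨by omega, hy.2⟩, ⟨by omega, hy'.2⟩, k1⟩

/-- no crossing of width `m + 1`, and no crossing of width `m` in the first `k` blocks -/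
def Rk (m n h : ℤ) (k : ℕ) (F : Finset Edg) : Prop :=
  ¬ LRc 0 (m + 1) 0 n F ∧
    ∀ i : ℕ, i < k → ¬ LRc 0 m (i * (3 * h + 1)) (i * (3 * h + 1) + 3 * h) F

theorem Rk_step {m n h : ℤ} {k : ℕ} (hh1 : 1 ≤ h) (hm : 1 ≤ m)
    (hn : k * (3 * h + 1) + 3 * h ≤ n) :
    PH (LRE 0 (m + 1) 0 n) (Rk m n h (k + 1)) ≤
      (1 - PH (Um 0 m 0 h) (Gd 0 m 0 h)) * PH (LRE 0 (m + 1) 0 n) (Rk m n h k) := by
  set S := LRE 0 (m + 1) 0 n with hS
  set b : ℤ := k * (3 * h + 1) with hb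
  have hb0 : 0 ≤ b := by positivity
  set U := Um 0 m b h with hU
  set B := Bm 0 m b h with hB
  have hUS : U ⊆ S := LRE_sub le_rfl le_rfl hb0 hn
  have eG : PH S (Gd 0 m b h) = PH (Um 0 m 0 h) (Gd 0 m 0 h) := by
    rw [PH_Gd hUS]
    have := PH_Gd_trl 0 m 0 h 0 b
    simpa using this
  set A2 : Finset Edg → Prop := fun F => ¬ LRc 0 (m + 1) 0 (b + h - 1) F ∧
    ¬ LRc 0 (m + 1) (b + 2 * h + 1) n F ∧
    ∀ i : ℕ, i < k → ¬ LRc 0 m (i * (3 * h + 1)) (i * (3 * h + 1) + 3 * h) F with hA2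
  have h1 := markov_ge okh (stop_KB S U B) (A := Gd 0 m b h) (B := A2)
    (fun F F' _ _ hF hG => Gd_agree hF hG) (fun F G hFG hG =>
      ⟨fun h => hG.1 (h.mono hFG), fun h => hG.2.1 (h.mono hFG),
        fun i hi h => hG.2.2 i hi (h.mono hFG)⟩)
  have h2 : PH S (Rk m n h k) ≤ PH S A2 := by
    apply Pr_mono okh
    rintro F - ⟨k1, k2⟩
    exact ⟨fun h => k1 (LRc_sub le_rfl (by omega) le_rfl le_rfl (by omega) h),
      fun h => k1 (LRc_sub le_rfl (by omega) le_rfl (by omega) le_rfl h), k2⟩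
  have h3 : PH S (fun F => Gd 0 m b h F ∧ A2 (F \ KB U B F)) ≤
      PH S (fun F => Rk m n h k F ∧ ¬ Rk m n h (k + 1) F) := by
    apply Pr_mono okh
    rintro F - ⟨hG, q1, q2, q3⟩
    have r1 := Gd_noLR hb0 hn hh1 hm hG q1 q2
    have r2 : ∀ i : ℕ, i < k → ¬ LRc 0 m (i * (3 * h + 1)) (i * (3 * h + 1) + 3 * h) F := by
      intro i hi hL
      apply q3 i hi
      have hd : ∀ e ∈ LRE 0 m ((i:ℤ) * (3 * h + 1)) (i * (3 * h + 1) + 3 * h), e ∉ KB U B F := by
        intro e he hK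
        have heU : e ∈ U := (mem_KB.mp hK).1
        have hik : (i : ℤ) * (3 * h + 1) + 3 * h < b := by
          rw [hb]
          have : (i : ℤ) + 1 ≤ k := by exact_mod_cast hi
          nlinarith
        exact Finset.disjoint_left.mp (LRE_disj_row hik) he heU
      obtain ⟨y, y', hy, hy', hr⟩ := hL
      refine ⟨y, y', hy, hy', hr.mono ?_⟩
      rintro e ⟨he1, he2⟩
      refine ⟨?_, he2⟩
      rw [mem_coe, Finset.mem_sdiff]
      exact ⟨he1, hd e he2⟩
    refine ⟨⟨r1, r2⟩, fun hR => ?_⟩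
    exact hR.2 k (Nat.lt_succ_self k) (Gd_LRc hm hG)
  have h4 : PH S (fun F => Rk m n h k F ∧ ¬ Rk m n h (k + 1) F) =
      PH S (Rk m n h k) - PH S (Rk m n h (k + 1)) :=
    Pr_diff (fun F _ hF => ⟨hF.1, fun i hi => hF.2 i (by omega)⟩)
  have h5 : PH S (Gd 0 m b h) * PH S A2 ≤
      PH S (fun F => Gd 0 m b h F ∧ A2 (F \ KB U B F)) := h1
  have h6 : 0 ≤ PH S (Gd 0 m b h) := Pr_nonneg okh _ _
  rw [eG] at h5 h6
  have h7 := mul_le_mul_of_nonneg_left h2 h6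
  rw [h4] at h3
  linarith

theorem chain {m n h : ℤ} (hh1 : 1 ≤ h) (hm : 1 ≤ m) (N : ℕ) (hN : N * (3 * h + 1) ≤ n + 1) :
    1 - p m n ≤ (1 - PH (Um 0 m 0 h) (Gd 0 m 0 h)) ^ N * (1 - p (m + 1) n) := by
  set S := LRE 0 (m + 1) 0 n with hS
  set g := PH (Um 0 m 0 h) (Gd 0 m 0 h) with hg
  have g1 : g ≤ 1 := Pr_le_one okh _ _
  have h1 : ∀ k : ℕ, k ≤ N → PH S (Rk m n h k) ≤ (1 - g) ^ k * (1 - p (m + 1) n) := by
    intro k
    induction k with
    | zero =>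
      intro _
      have e : PH S (fun F => ¬ LRc 0 (m + 1) 0 n F) = 1 - p (m + 1) n := by
        unfold PH
        rw [Pr_not]
        have := PH_LRc (a := 0) (b := m + 1) (c := 0) (d := n) (w := m + 1) (h := n) (S := S)
          (Finset.Subset.refl _) (by ring) (by ring)
        unfold PH at this
        rw [this]
      rw [pow_zero, one_mul, ← e]
      exact Pr_mono okh (fun F _ hF => hF.1)
    | succ k ih =>
      intro hk
      have ih' := ih (by omega)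
      have hk' : (k : ℤ) * (3 * h + 1) + 3 * h ≤ n := by
        have : (k : ℤ) + 1 ≤ N := by exact_mod_cast hk
        nlinarith
      have h2 := Rk_step (m := m) hh1 hm hk'
      have h3 := mul_le_mul_of_nonneg_left ih' (by linarith : 0 ≤ 1 - g)
      calc PH S (Rk m n h (k + 1)) ≤ (1 - g) * PH S (Rk m n h k) := h2
        _ ≤ (1 - g) * ((1 - g) ^ k * (1 - p (m + 1) n)) := h3
        _ = (1 - g) ^ (k + 1) * (1 - p (m + 1) n) := by ring
  refine le_trans ?_ (h1 N le_rfl)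
  have e : PH S (fun F => ¬ LRc 0 m 0 n F) = 1 - p m n := by
    unfold PH
    rw [Pr_not]
    have := PH_LRc (a := 0) (b := m) (c := 0) (d := n) (w := m) (h := n) (S := S)
      (LRE_sub le_rfl (by omega) le_rfl le_rfl) (by ring) (by ring)
    unfold PH at this
    rw [this]
  rw [← e]
  apply Pr_mono okh
  intro F _ hF
  refine ⟨fun h => hF (LRc_sub le_rfl (by omega) (by omega) le_rfl le_rfl h), fun i hi h => ?_⟩
  refine hF (LRc_sub le_rfl (by omega) le_rfl (by positivity) ?_ h)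
  have : (i : ℤ) + 1 ≤ N := by exact_mod_cast hi
  nlinarith

end Pool.Agent.D0H47.GR
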