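import Pool.Agent.H12R2.Sep.Markov

/-!
Stopping sets: the lower bound for events which depend on the explored part.
-/

set_option autoImplicit false

namespace Pool.Agent.D0H47.GR

open H974 H12S Finset

section
variable {E : Type*} [DecidableEq E]

theorem markov_gen {p : E → ℝ} (hp : Ok p) {S : Finset E} {K : Finset E → Finset E}
    (hK : Stop S K) {A B0 : Finset E → Prop} {Y : Finset E → Finset E → Prop}
    (hA : ∀ F F', F ⊆ S → F' ⊆ S → F ∩ K F = F' ∩ K F → A F → A F')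
    (hY : ∀ F F', F ⊆ S → F' ⊆ S → F ∩ K F = F' ∩ K F → ∀ G, Y F' G → Y F G)
    (hB : ∀ F, F ⊆ S → A F → ∀ G, G ⊆ S → B0 G → Y F (G \ K F)) :
    Pr p S A * Pr p S B0 ≤ Pr p S (fun F => A F ∧ Y F (F \ K F)) := by
  rw [MK_part p S K (fun F => A F ∧ Y F (F \ K F)), MK_part p S K A, Finset.sum_mul]
  refine Finset.sum_le_sum fun K0 _ => ?_
  rw [Finset.sum_mul]
  refine Finset.sum_le_sum fun T _ => ?_
  by_cases h : ∃ F1, F1 ⊆ S ∧ K F1 ∩ S = K0 ∧ F1 ∩ K0 = T ∧ A F1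
  · obtain ⟨F1, hF1, hK1, hT1, hA1⟩ := h
    have key : ∀ F, F ⊆ S → K F ∩ S = K0 → F ∩ K0 = T → F ∩ K F = F1 ∩ K F := by
      intro F hF h1 h2
      rw [← MK_inter hF (K F), ← MK_inter hF1 (K F), h1, h2, hT1]
    have h1 : Pr p S (fun F => (K F ∩ S = K0 ∧ F ∩ K0 = T) ∧ (A F ∧ Y F (F \ K F))) =
        Pr p S (fun F => (K F ∩ S = K0 ∧ F ∩ K0 = T) ∧ (A F ∧ Y F1 (F \ K F))) := by
      apply Pr_congr
      intro F hF
      constructor
      · rintro ⟨h2, h3, h4⟩
        refine ⟨h2, h3, ?_⟩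
        have e := key F hF h2.1 h2.2
        have e1 : K F1 = K F := hK F F1 hF hF1 e
        refine hY F1 F hF1 hF ?_ _ h4
        rw [e1, e]
      · rintro ⟨h2, h3, h4⟩
        exact ⟨h2, h3, hY F F1 hF hF1 (key F hF h2.1 h2.2) _ h4⟩
    rw [h1, MK_cell hK hA K0 T]
    refine mul_le_mul_of_nonneg_left ?_ (Pr_nonneg hp _ _)
    apply Pr_mono hp
    intro F hF hF0
    have := hB F1 hF1 hA1 F hF hF0
    rw [← MK_sdiff hF, hK1] at this
    exact this
  · rw [MK_false p S (X := fun F => (K F ∩ S = K0 ∧ F ∩ K0 = T) ∧ A F), zero_mul]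
    · exact Pr_nonneg hp _ _
    · rintro F hF ⟨⟨h1, h2⟩, h3⟩
      exact h ⟨F, hF, h1, h2, h3⟩

/-- the same for a non-negative function of the explored part -/
theorem markov_fun {p : E → ℝ} (hp : Ok p) {S : Finset E} {K : Finset E → Finset E}
    (hK : Stop S K) {g : Finset E → ℝ} {B0 : Finset E → Prop} {Y : Finset E → Finset E → Prop}
    (hg0 : ∀ F, F ⊆ S → 0 ≤ g F)
    (hg : ∀ F F', F ⊆ S → F' ⊆ S → F ∩ K F = F' ∩ K F → g F = g F')
    (hY : ∀ F F', F ⊆ S → F' ⊆ S → F ∩ K F = F' ∩ K F → ∀ G, Y F' G → Y F G)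
    (hB : ∀ F, F ⊆ S → g F ≠ 0 → ∀ G, G ⊆ S → B0 G → Y F (G \ K F)) :
    Pr p S B0 * Ex p S g ≤ Ex p S (fun F => g F * ind (Y F (F \ K F))) := by
  classical
  have e1 : ∀ h : Finset E → ℝ, Ex p S (fun F => g F * h F) =
      ∑ v ∈ S.powerset.image g, v * Ex p S (fun F => ind (g F = v) * h F) := by
    intro h
    simp only [← Ex_mul_left, ← Ex_sum]
    apply Ex_congr
    intro F hF
    rw [Finset.sum_eq_single (g F)]
    · rw [ind_of rfl]; ring
    · intro v _ hv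
      rw [ind_not_of (fun h => hv h.symm)]; ring
    · intro hv
      exact absurd (Finset.mem_image_of_mem g (Finset.mem_powerset.mpr hF)) hv
  have e2 := e1 (fun _ => 1)
  simp only [mul_one] at e2
  rw [e1, e2, Finset.mul_sum]
  refine Finset.sum_le_sum fun v hv => ?_
  obtain ⟨F0, hF0, hv0⟩ := Finset.mem_image.mp hv
  have hv1 : 0 ≤ v := by rw [← hv0]; exact hg0 F0 (Finset.mem_powerset.mp hF0)
  rcases hv1.eq_or_lt with h0 | h0
  · rw [← h0]; simp
  have h2 := markov_gen hp hK (A := fun F => g F = v) (B0 := B0) (Y := Y)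
    (fun F F' hF hF' h h1 => by rw [← hg F F' hF hF' h]; exact h1) hY
    (fun F hF h1 G hG hG0 => hB F hF (by rw [h1]; exact h0.ne') G hG hG0)
  have e3 : Ex p S (fun F => ind (g F = v) * ind (Y F (F \ K F))) =
      Pr p S (fun F => g F = v ∧ Y F (F \ K F)) := by
    unfold Pr
    exact Ex_congr (fun F _ => (ind_and _ _).symm)
  rw [e3]
  have h3 := mul_le_mul_of_nonneg_left h2 h0.le
  calc Pr p S B0 * (v * Ex p S (fun F => ind (g F = v))) =
        v * (Pr p S (fun F => g F = v) * Pr p S B0) := by unfold Pr; ring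
    _ ≤ _ := h3

end

end Pool.Agent.D0H47.GR
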