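import Pool.Agent.D0H47.GR.Paths
import Pool.Agent.D0H47.GR.Mark2

/-!
Factorization in a long corridor: the contraction step.
-/

set_option autoImplicit false
set_option maxHeartbeats 1000000

namespace Pool.Agent.D0H47.GR

open H974 H12S Finset

/-- some vertex of `S` is connected to some vertex of `T` -/
def Con (G : Set Edg) (S T : Set Vtx) : Prop := ∃ s ∈ S, ∃ t ∈ T, Reach G s t

/-- a room on the left of the column `a` -/
def LStr (a : ℤ) (L : Set Edg) (S : Set Vtx) : Prop := (∀ e ∈ L, (tgt e).1 ≤ a) ∧ ∀ s ∈ S, s.1 ≤ a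

/-- a room on the right of the column `b` -/
def RStr (b : ℤ) (R : Set Edg) (T : Set Vtx) : Prop := (∀ e ∈ R, b ≤ (src e).1) ∧ ∀ t ∈ T, b ≤ t.1

/-- the connection probability through the corridor -/
noncomputable def Zc (n a b : ℤ) (L : Set Edg) (S : Set Vtx) (R : Set Edg) (T : Set Vtx) : ℝ :=
  PH (HE a b n) (fun F => Con (L ∪ ↑F ∪ R) S T)

theorem Con_mono {G G' : Set Edg} {S T : Set Vtx} (h : G ⊆ G') (hc : Con G S T) : Con G' S T := by
  obtain ⟨s, hs, t, ht, hr⟩ := hc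
  exact ⟨s, hs, t, ht, hr.mono h⟩

theorem HE_split {a b d n : ℤ} (hab : a ≤ b) (hbd : b ≤ d) : HE a d n = HE b d n ∪ HE a b n := by
  ext ⟨x, y, _ | _⟩
  · rw [Finset.mem_union, mem_HE_false, mem_HE_false, mem_HE_false]; omega
  · rw [Finset.mem_union, mem_HE_true, mem_HE_true, mem_HE_true]; omega

theorem HE_disj {a b d n : ℤ} : Disjoint (HE b d n) (HE a b n) := by
  rw [Finset.disjoint_left]
  rintro ⟨x, y, _ | _⟩ h1 h2
  · rw [mem_HE_false] at h1 h2; omega
  · rw [mem_HE_true] at h1 h2; omega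

theorem HE_sub {a b a' b' n : ℤ} (h1 : a' ≤ a) (h2 : b ≤ b') : HE a b n ⊆ HE a' b' n := by
  rintro ⟨x, y, _ | _⟩ h
  · rw [mem_HE_false] at h ⊢; omega
  · rw [mem_HE_true] at h ⊢; omega

theorem src_le_tgt (e : Edg) : (src e).1 ≤ (tgt e).1 := by
  obtain ⟨x, y, _ | _⟩ := e
  · rw [src_mk, tgt_false]
  · rw [src_mk, tgt_true]; simp only; omega

theorem HE_src {a b n : ℤ} {e : Edg} (he : e ∈ HE a b n) : a ≤ (src e).1 ∧ (tgt e).1 ≤ b :=
  ⟨(HE_ends he (Or.inl rfl)).1.1, (HE_ends he (Or.inr rfl)).1.2⟩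

theorem Zc_split {n a b d : ℤ} (hab : a ≤ b) (hbd : b ≤ d) (L : Set Edg) (S : Set Vtx) (R : Set Edg)
    (T : Set Vtx) : Zc n a d L S R T =
      Ex (fun _ => (1/2 : ℝ)) (HE b d n) (fun F => Zc n a b L S (↑F ∪ R) T) := by
  unfold Zc PH Pr
  rw [HE_split hab hbd, Ex_union HE_disj]
  apply Ex_congr
  intro F _
  apply Ex_congr
  intro F1 _
  apply ind_congr
  have e : L ∪ (↑(F ∪ F1) : Set Edg) ∪ R = L ∪ ↑F1 ∪ (↑F ∪ R) := by
    ext x
    simp only [Finset.coe_union, Set.mem_union]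
    tauto
  beta_reduce
  rw [e]

theorem Zc_nonneg (n a b : ℤ) (L : Set Edg) (S : Set Vtx) (R : Set Edg) (T : Set Vtx) :
    0 ≤ Zc n a b L S R T := Pr_nonneg okh _ _

/-- `T` reaches the interface through unexplored edges -/
def Yv (b c n : ℤ) (R : Set Edg) (T : Set Vtx) (F G : Finset Edg) : Prop :=
  ∃ t ∈ T, ∃ γ ∈ Gx b c n F, Reach (↑G ∪ R) t γ

theorem RStr_K {b c n : ℤ} (F : Finset Edg) :
    RStr b (↑(F ∩ Kx b c n F) : Set Edg) (Gx b c n F) := by
  constructor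
  · intro e he
    rw [mem_coe, Finset.mem_inter, mem_Kx] at he
    exact (RE_ends he.2.1 (Or.inl rfl)).1.1
  · rintro t ⟨e, he, ht⟩
    exact (RE_ends (TBE_subset_RE he.1) ht).1.1

/-- **Decomposition at the interface.** -/
theorem Zc_good {n a b c d : ℤ} (hn : 1 ≤ n) (hbc : b < c) (hcd : c < d) (hab : a ≤ b)
    {L : Set Edg} {S : Set Vtx} (hL : LStr a L S) {R : Set Edg} {T : Set Vtx} (hR : RStr d R T)
    {F : Finset Edg} (hF : F ⊆ HE b d n) (hgood : Ok' b c n F) :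
    Zc n a b L S (↑F ∪ R) T = ind (Yv b c n R T F (F \ Kx b c n F)) *
      Zc n a b L S (↑(F ∩ Kx b c n F)) (Gx b c n F) := by
  unfold Zc PH Pr
  rw [← Ex_mul_left]
  apply Ex_congr
  intro F1 hF1
  rw [← ind_and]
  apply ind_congr
  have hL1 : ∀ e ∈ L ∪ (↑F1 : Set Edg), (tgt e).1 ≤ b := by
    rintro e (he | he)
    · exact (hL.1 e he).trans hab
    · exact (HE_src (hF1 he)).2
  constructor
  · rintro ⟨s, hs, t, ht, hr⟩
    have e : L ∪ (↑F1 : Set Edg) ∪ (↑F ∪ R) = (L ∪ ↑F1) ∪ ↑F ∪ R := by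
      ext x; simp only [Set.mem_union]; tauto
    rw [e] at hr
    obtain ⟨γ, hγ, hγr⟩ := pathA hn hbc hcd hgood hF hL1 hR.1 (hR.2 t ht)
      ((hL.2 s hs).trans hab) hr.symm
    obtain ⟨γ', hγ', hγr'⟩ := pathB hn hbc hcd hgood hF hL1 hR.1 ((hL.2 s hs).trans hab)
      (by have := hR.2 t ht; omega) hr
    exact ⟨⟨t, ht, γ, hγ, hγr⟩, s, hs, γ', hγ', hγr'⟩
  · rintro ⟨⟨t, ht, γ, hγ, hγr⟩, s, hs, γ', hγ', hγr'⟩
    have hc := Bx_conn hbc.le hgood hγ' hγ
    refine ⟨s, hs, t, ht, ?_⟩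
    refine ((hγr'.mono ?_).trans (hc.mono ?_)).trans (hγr.symm.mono ?_)
    · rintro x (hx | hx)
      · exact Or.inl hx
      · rw [mem_coe, Finset.mem_inter] at hx
        exact Or.inr (Or.inl hx.1)
    · intro x hx
      exact Or.inr (Or.inl (Bx_sub hx).1)
    · rintro x (hx | hx)
      · rw [mem_coe, Finset.mem_sdiff] at hx
        exact Or.inr (Or.inl hx.1)
      · exact Or.inr (Or.inr hx)

/-- connection of the right room with the left end of the slab -/
noncomputable def aT (n b d : ℤ) (R : Set Edg) (T : Set Vtx) : ℝ :=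
  PH (HE b d n) (fun F => ∃ t ∈ T, ∃ s : Vtx, s.1 ≤ b ∧ Reach (↑F ∪ R) t s)

/-- the common part -/
noncomputable def Vc (n a b c d : ℤ) (L : Set Edg) (S : Set Vtx) : ℝ :=
  Ex (fun _ => (1/2 : ℝ)) (HE b d n) (fun F => ind (Ok' b c n F) *
    Zc n a b L S (↑(F ∩ Kx b c n F)) (Gx b c n F))

/-- **The key inequality.** -/
theorem common {n a b c d : ℤ} (hn : 1 ≤ n) (hbc : b < c) (hcd : c < d) (hab : a ≤ b)
    {L L' : Set Edg} {S S' : Set Vtx} (hL : LStr a L S) (hL' : LStr a L' S') {R : Set Edg}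
    {T : Set Vtx} (hR : RStr d R T) {α β : ℝ}
    (hO : ∀ (R₁ : Set Edg) (T₁ : Set Vtx), RStr b R₁ T₁ →
      0 ≤ α * Zc n a b L S R₁ T₁ + β * Zc n a b L' S' R₁ T₁) :
    aT n b d R T * (α * Vc n a b c d L S + β * Vc n a b c d L' S') ≤
      α * Zc n a d L S R T + β * Zc n a d L' S' R T := by
  set K := Kx b c n with hK
  set g : Finset Edg → ℝ := fun F => ind (Ok' b c n F) *
    (α * Zc n a b L S (↑(F ∩ K F)) (Gx b c n F) + β * Zc n a b L' S' (↑(F ∩ K F)) (Gx b c n F))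
    with hg
  have hstop : Stop (HE b d n) K := fun F F' _ _ h => Kx_stop h
  have h1 := markov_fun okh hstop (g := g)
    (B0 := fun F => ∃ t ∈ T, ∃ s : Vtx, s.1 ≤ b ∧ Reach (↑F ∪ R) t s)
    (Y := Yv b c n R T)
    (fun F _ => mul_nonneg (ind_nonneg _) (hO _ _ (RStr_K F)))
    (fun F F' _ _ h => by
      simp only [hg]
      have e1 : F' ∩ K F' = F ∩ K F := by rw [hK, Kx_stop h, ← h]
      rw [e1, Gx_stop h]
      congr 1
      exact ind_congr (Ok_stop h))
    (fun F F' _ _ h G hG => by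
      unfold Yv at hG ⊢
      rw [Gx_stop h] at hG
      exact hG)
    (fun F hF hne G hG hB => by
      have hgood : Ok' b c n F := by
        by_contra hcon
        apply hne
        simp only [hg]
        rw [ind_not_of hcon, zero_mul]
      obtain ⟨t, ht, s, hs, hr⟩ := hB
      obtain ⟨γ, hγ, hγr⟩ := pathA (L := ∅) hn hbc hcd hgood hG (by simp) hR.1 (hR.2 t ht) hs
        (by rw [Set.empty_union]; exact hr)
      exact ⟨t, ht, γ, hγ, hγr⟩)
  have h2 : Ex (fun _ => (1/2 : ℝ)) (HE b d n) g =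
      α * Vc n a b c d L S + β * Vc n a b c d L' S' := by
    unfold Vc
    rw [← Ex_mul_left, ← Ex_mul_left, ← Ex_add]
    apply Ex_congr
    intro F _
    simp only [hg]
    ring
  have h3 : Ex (fun _ => (1/2 : ℝ)) (HE b d n) (fun F => g F * ind (Yv b c n R T F (F \ K F))) ≤
      α * Zc n a d L S R T + β * Zc n a d L' S' R T := by
    rw [Zc_split hab (hbc.le.trans hcd.le), Zc_split hab (hbc.le.trans hcd.le), ← Ex_mul_left,
      ← Ex_mul_left, ← Ex_add]
    apply Ex_mono okh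
    intro F hF
    by_cases hgood : Ok' b c n F
    · rw [Zc_good hn hbc hcd hab hL hR hF hgood, Zc_good hn hbc hcd hab hL' hR hF hgood]
      simp only [hg]
      rw [ind_of hgood]
      apply le_of_eq
      ring
    · simp only [hg]
      rw [ind_not_of hgood, zero_mul, zero_mul]
      apply hO
      refine ⟨?_, fun t ht => (hbc.le.trans hcd.le).trans (hR.2 t ht)⟩
      rintro e (he | he)
      · exact (HE_src (hF he)).1
      · exact (hbc.le.trans hcd.le).trans (hR.1 e he)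
  rw [← h2]
  exact h1.trans h3

end Pool.Agent.D0H47.GR
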