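import Pool.Agent.D0H47.GR.Main2
import Mathlib.Analysis.Subadditive

/-!
The correlation length of the critical strip: its increments are of order one.
-/

set_option autoImplicit false

namespace Pool.Agent.D0H47.GR

open H974 H12S Finset Filter Topology

theorem p_zero {n : ℤ} (hn : 0 ≤ n) : p 0 n = 1 := by
  show Pr (fun _ => (1/2 : ℝ)) (LRE 0 0 0 n) (LRc 0 0 0 n) = 1
  apply Pr_true
  intro F _
  exact ⟨0, 0, ⟨le_rfl, hn⟩, ⟨le_rfl, hn⟩, Reach.refl _ _⟩

theorem log_sub {n : ℤ} (hn : 0 ≤ n) : Subadditive (fun m : ℕ => Real.log (p m n)) := by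
  intro a b
  rcases Nat.eq_zero_or_pos a with ha | ha
  · subst ha
    simp only [Nat.cast_zero, p_zero hn, Real.log_one, zero_add, le_refl]
  rcases Nat.eq_zero_or_pos b with hb | hb
  · subst hb
    simp only [Nat.cast_zero, p_zero hn, Real.log_one, add_zero, le_refl]
  have h1 := p_submul (a := a) (b := b) (n := n) (by omega) (by omega)
  have pa := p_pos (w := a) (h := n) (by omega) hn
  have pb := p_pos (w := b) (h := n) (by omega) hn
  have pab := p_pos (w := (a:ℤ) + b) (h := n) (by omega) hn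
  have h2 : p ((a + b : ℕ) : ℤ) n = p ((a:ℤ) + b) n := by push_cast; rfl
  show Real.log (p ((a + b : ℕ) : ℤ) n) ≤ _
  rw [h2, ← Real.log_mul pa.ne' pb.ne']
  exact Real.log_le_log pab h1

theorem log_bdd {n : ℤ} (hn : 0 ≤ n) :
    BddBelow (Set.range fun m : ℕ => Real.log (p m n) / m) := by
  refine ⟨-Real.log 2, ?_⟩
  rintro _ ⟨m, rfl⟩
  rcases Nat.eq_zero_or_pos m with hm | hm
  · subst hm
    simp only [Nat.cast_zero, div_zero]
    have := Real.log_pos (show (1:ℝ) < 2 by norm_num)
    linarith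
  have hmr : (0:ℝ) < m := by exact_mod_cast hm
  show -Real.log 2 ≤ Real.log (p m n) / m
  rw [le_div_iff₀ hmr]
  have h1 := p_ge_pow (m := m) (n := n) hm hn
  have h2 := Real.log_le_log (by positivity) h1
  rw [Real.log_pow, one_div, Real.log_inv] at h2
  linarith

/-- the inverse of the correlation length of the strip of width `n` -/
noncomputable def kap (n : ℤ) : ℝ := - sInf ((fun m : ℕ => Real.log (p m n) / m) '' Set.Ici 1)

theorem kap_tendsto {n : ℤ} (hn : 0 ≤ n) :
    Tendsto (fun m : ℕ => Real.log (p m n) / m) atTop (𝓝 (-kap n)) := by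
  have h1 := (log_sub hn).tendsto_lim (log_bdd hn)
  rw [Subadditive.lim] at h1
  unfold kap
  rw [neg_neg]
  exact h1

theorem kap_lower {n : ℤ} (hn : 1 ≤ n) : Real.log 2 / (2 * n) ≤ kap n := by
  obtain ⟨N, hN⟩ : ∃ N : ℕ, (N : ℤ) = n + 1 := ⟨(n + 1).toNat, by omega⟩
  have h1 := (log_sub (n := n) (by omega)).lim_le_div (log_bdd (by omega)) (n := N) (by omega)
  have h2 : p N n = 1/2 := by
    rw [hN]
    exact hh_half n (by omega)
  have h3 : Real.log (p N n) / N = -(Real.log 2 / (n + 1)) := by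
    have hNr : (N : ℝ) = n + 1 := by exact_mod_cast hN
    rw [h2, hNr, one_div, Real.log_inv, neg_div]
  have h4 : (log_sub (n := n) (by omega)).lim = -kap n := by
    rw [Subadditive.lim]
    unfold kap
    rw [neg_neg]
  rw [h4] at h1
  beta_reduce at h1
  rw [h3] at h1
  have hnr : (1:ℝ) ≤ n := by exact_mod_cast hn
  have hl := Real.log_pos (show (1:ℝ) < 2 by norm_num)
  have h5 : Real.log 2 / (2 * n) ≤ Real.log 2 / (n + 1) := by
    apply div_le_div_of_nonneg_left hl.le (by linarith) (by linarith)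
  linarith

theorem kap_upper {n : ℤ} (hn : 1 ≤ n) : kap n ≤ 98 * Real.log 2 / n := by
  have hnr : (1:ℝ) ≤ n := by exact_mod_cast hn
  have hl := Real.log_pos (show (1:ℝ) < 2 by norm_num)
  by_cases h4 : 4 ≤ n
  · obtain ⟨N, hN⟩ : ∃ N : ℕ, (N : ℤ) = n := ⟨n.toNat, by omega⟩
    have hNr : (N : ℝ) = n := by exact_mod_cast hN
    have h1 : ∀ k : ℕ, (1/2 : ℝ)^(98 * (k + 1)) ≤ p (((k + 1) * N : ℕ) : ℤ) n := by
      intro k
      induction k with
      | zero =>
        have h2 : (1/2 : ℝ) ≤ p n n := hh_square n (by omega)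
        have e : (((0 + 1) * N : ℕ) : ℤ) = n := by rw [zero_add, one_mul]; exact hN
        rw [e]
        refine le_trans ?_ h2
        norm_num
      | succ k ih =>
        have h2 : (1/2 : ℝ) ≤ p n n := hh_square n (by omega)
        have h3 := p_join (n := n) (a := (((k + 1) * N : ℕ) : ℤ)) (b := n) h4
          (by
            have : 1 ≤ (k + 1) * N := Nat.mul_pos (by omega) (by omega)
            exact_mod_cast this) hn
        have e : (((k + 1 + 1) * N : ℕ) : ℤ) = (((k + 1) * N : ℕ) : ℤ) + n := by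
          rw [← hN]; push_cast; ring
        rw [e]
        refine le_trans ?_ h3
        have h5 := mul_le_mul ih h2 (by norm_num) (p_nonneg _ _)
        calc (1/2 : ℝ)^(98 * (k + 1 + 1)) = (1/2 : ℝ)^97 * ((1/2 : ℝ)^(98 * (k + 1)) * (1/2)) := by
              rw [show 98 * (k + 1 + 1) = 97 + (98 * (k + 1) + 1) by ring, pow_add, pow_add,
                pow_one]
          _ ≤ _ := mul_le_mul_of_nonneg_left h5 (by positivity)
    have h2 : Tendsto (fun k : ℕ => (k + 1) * N) atTop atTop := by
      apply tendsto_atTop_mono (f := fun k : ℕ => k) _ tendsto_id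
      intro k
      have : 1 ≤ N := by omega
      nlinarith
    have h3 := (kap_tendsto (n := n) (by omega)).comp h2
    have h5 : -(98 * Real.log 2 / n) ≤ -kap n := by
      apply ge_of_tendsto h3
      filter_upwards with k
      show -(98 * Real.log 2 / n) ≤ Real.log (p (((k + 1) * N : ℕ) : ℤ) n) / (((k + 1) * N : ℕ) : ℝ)
      have hpos : (0:ℝ) < (((k + 1) * N : ℕ) : ℝ) := by
        have : 1 ≤ (k + 1) * N := Nat.mul_pos (by omega) (by omega)
        exact_mod_cast this
      rw [le_div_iff₀ hpos]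
      have h6 := Real.log_le_log (by positivity) (h1 k)
      rw [Real.log_pow, one_div, Real.log_inv] at h6
      have h7 : (((k + 1) * N : ℕ) : ℝ) = (k + 1) * n := by push_cast; rw [hNr]
      rw [h7]
      push_cast at h6
      have h8 : -(98 * Real.log 2 / n) * ((k + 1) * n) = 98 * (k + 1) * -Real.log 2 := by
        field_simp
      rw [h8]
      exact h6
    linarith
  · have h1 : -Real.log 2 ≤ -kap n := by
      apply ge_of_tendsto (kap_tendsto (n := n) (by omega))
      filter_upwards [eventually_ge_atTop 1] with m hm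
      have hmr : (0:ℝ) < m := by exact_mod_cast hm
      rw [le_div_iff₀ hmr]
      have h1 := p_ge_pow (m := m) (n := n) hm (by omega)
      have h2 := Real.log_le_log (by positivity) h1
      rw [Real.log_pow, one_div, Real.log_inv] at h2
      linarith
    have h3 : (n:ℝ) ≤ 98 := by
      have : n ≤ 98 := by omega
      exact_mod_cast this
    have h5 : Real.log 2 ≤ 98 * Real.log 2 / n := by
      rw [le_div_iff₀ (by linarith)]
      nlinarith
    linarith

theorem kap_inc : ∃ c C : ℝ, 0 < c ∧ 0 < C ∧ ∀ n : ℤ, 1 ≤ n →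
    c / n^2 ≤ kap n - kap (n + 1) ∧ kap n - kap (n + 1) ≤ C / n^2 := by
  obtain ⟨c, hc, hl⟩ := short_lower
  obtain ⟨C, hC, hu⟩ := short_upper
  refine ⟨c, C, hc, hC, ?_⟩
  intro n hn
  have hnr : (1:ℝ) ≤ n := by exact_mod_cast hn
  have ht : Tendsto (fun m : ℕ => Real.log (p m (n + 1)) / m - Real.log (p m n) / m) atTop
      (𝓝 (-kap (n + 1) - -kap n)) :=
    (kap_tendsto (by omega)).sub (kap_tendsto (by omega))
  have e : -kap (n + 1) - -kap n = kap n - kap (n + 1) := by ring
  rw [e] at ht
  have key : ∀ᶠ m : ℕ in atTop, c / n^2 ≤ Real.log (p m (n + 1)) / m - Real.log (p m n) / m ∧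
      Real.log (p m (n + 1)) / m - Real.log (p m n) / m ≤ C / n^2 := by
    filter_upwards [eventually_ge_atTop (n.toNat + 1)] with m hm
    have hm' : n ≤ m := by omega
    have hm0 : (0:ℝ) < m := by
      have : 0 < m := by omega
      exact_mod_cast this
    have p1 := p_pos (w := m) (h := n) (by omega) (by omega)
    have p2 := p_pos (w := m) (h := n + 1) (by omega) (by omega)
    have h1 := hl m n hn hm'
    have h2 := hu m n hn hm'
    have h3 := Real.log_le_log p1 h1
    rw [Real.log_mul (Real.exp_pos _).ne' p2.ne', Real.log_exp] at h3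
    have h4 := Real.log_le_log (mul_pos (Real.exp_pos _) p2) h2
    rw [Real.log_mul (Real.exp_pos _).ne' p2.ne', Real.log_exp] at h4
    push_cast at h3 h4
    rw [← sub_div]
    constructor
    · rw [le_div_iff₀ hm0]
      have : c / (n:ℝ)^2 * m = c * m / n^2 := by ring
      rw [this]
      linarith
    · rw [div_le_iff₀ hm0]
      have : C / (n:ℝ)^2 * m = C * m / n^2 := by ring
      rw [this]
      linarith
  exact ⟨ge_of_tendsto ht (key.mono fun _ h => h.1), le_of_tendsto ht (key.mono fun _ h => h.2)⟩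

theorem arith {a b L c C n : ℝ} (hL : 0 < L) (hn : 1 ≤ n) (hc : 0 < c) (hC : 0 < C)
    (l1 : L / (2 * n) ≤ a) (l2 : L / (2 * (n + 1)) ≤ b) (u1 : a ≤ 98 * L / n)
    (u2 : b ≤ 98 * L / (n + 1)) (h1 : c / n^2 ≤ a - b) (h2 : a - b ≤ C / n^2) :
    0 < a ∧ c / (98 * L)^2 ≤ 1 / b - 1 / a ∧ 1 / b - 1 / a ≤ 8 * C / L^2 := by
  have k1 : 0 < a := lt_of_lt_of_le (by positivity) l1
  have k2 : 0 < b := lt_of_lt_of_le (by positivity) l2
  have e : 1 / b - 1 / a = (a - b) / (a * b) := by field_simp
  refine ⟨k1, ?_, ?_⟩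
  · rw [e, div_le_div_iff₀ (by positivity) (by positivity)]
    have h3 : a * b ≤ (98 * L / n) * (98 * L / n) := by
      apply mul_le_mul u1 _ k2.le (by positivity)
      refine u2.trans ?_
      apply div_le_div_of_nonneg_left (by positivity) (by linarith) (by linarith)
    calc c * (a * b) ≤ c * ((98 * L / n) * (98 * L / n)) :=
          mul_le_mul_of_nonneg_left h3 hc.le
      _ = c / n^2 * (98 * L)^2 := by ring
      _ ≤ (a - b) * (98 * L)^2 :=
          mul_le_mul_of_nonneg_right h1 (by positivity)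
  · rw [e, div_le_div_iff₀ (by positivity) (by positivity)]
    have h3 : L / (2 * n) * (L / (2 * (n + 1))) ≤ a * b :=
      mul_le_mul l1 l2 (by positivity) k1.le
    have h4 : L^2 / (8 * n^2) ≤ L / (2 * n) * (L / (2 * (n + 1))) := by
      rw [div_mul_div_comm, ← pow_two]
      apply div_le_div_of_nonneg_left (by positivity) (by positivity)
      nlinarith
    calc (a - b) * L^2 ≤ C / n^2 * L^2 :=
          mul_le_mul_of_nonneg_right h2 (by positivity)
      _ = 8 * C * (L^2 / (8 * n^2)) := by field_simp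
      _ ≤ 8 * C * (a * b) :=
          mul_le_mul_of_nonneg_left (h4.trans h3) (by positivity)

/-- The correlation length of the strip has increments between two positive constants. -/
theorem corr : ∃ c C : ℝ, 0 < c ∧ 0 < C ∧ ∀ n : ℤ, 1 ≤ n → 0 < kap n ∧
    c ≤ 1 / kap (n + 1) - 1 / kap n ∧ 1 / kap (n + 1) - 1 / kap n ≤ C := by
  obtain ⟨c, C, hc, hC, h⟩ := kap_inc
  have hl := Real.log_pos (show (1:ℝ) < 2 by norm_num)
  refine ⟨c / (98 * Real.log 2)^2, 8 * C / (Real.log 2)^2, by positivity, by positivity, ?_⟩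
  intro n hn
  have hnr : (1:ℝ) ≤ n := by exact_mod_cast hn
  obtain ⟨h1, h2⟩ := h n hn
  have l1 := kap_lower hn
  have l2 := kap_lower (n := n + 1) (by omega)
  have u1 := kap_upper hn
  have u2 := kap_upper (n := n + 1) (by omega)
  push_cast at l2 u2
  exact arith hl hnr hc hC l1 l2 u1 u2 h1 h2

end Pool.Agent.D0H47.GR
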