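import Pool.Agent.D0H47.GR.Ens
import Pool.Agent.D0H47.GR.Brg

/-!
Two finite rooms joined by a corridor.
-/

set_option autoImplicit false
set_option maxHeartbeats 1000000

namespace Pool.Agent.D0H47.GR

open H974 H12S Finset MeasureTheory

/-- the edges with both ends in a finite set -/
def edg (D : Finset (ℤ × ℤ)) : Finset Edg :=
  ((D ×ˢ (Finset.univ : Finset Bool)).image (fun q => ((q.1.1, q.1.2, q.2) : Edg))).filter
    (fun e => tgt e ∈ D)

theorem mem_edg {D : Finset (ℤ × ℤ)} {e : Edg} : e ∈ edg D ↔ src e ∈ D ∧ tgt e ∈ D := by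
  obtain ⟨x, y, z⟩ := e
  unfold edg
  rw [Finset.mem_filter, Finset.mem_image, src_mk]
  constructor
  · rintro ⟨⟨⟨⟨a, b⟩, c⟩, h1, h2⟩, h3⟩
    simp only [Prod.mk.injEq] at h2
    obtain ⟨rfl, rfl, rfl⟩ := h2
    rw [Finset.mem_product] at h1
    exact ⟨h1.1, h3⟩
  · rintro ⟨h1, h2⟩
    exact ⟨⟨((x, y), z), by rw [Finset.mem_product]; exact ⟨h1, Finset.mem_univ _⟩, rfl⟩, h2⟩

/-- the end of the corridor -/
noncomputable def side (n : ℕ) : Finset (ℤ × ℤ) := {0} ×ˢ Finset.Icc 0 (n : ℤ)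

theorem mem_side {n : ℕ} {v : ℤ × ℤ} : v ∈ side n ↔ v.1 = 0 ∧ 0 ≤ v.2 ∧ v.2 ≤ n := by
  unfold side
  rw [Finset.mem_product, Finset.mem_singleton, Finset.mem_Icc]

/-- the room `D₁`, the corridor `[0,ℓ] × [0,n]`, and the room `D₂` moved by `(ℓ,0)` -/
def dumb (D₁ D₂ : Finset (ℤ × ℤ)) (l n : ℕ) : Set (ℤ × ℤ) :=
  {v | v ∈ D₁ ∨ v ∈ rect l n ∨ (v.1 - l, v.2) ∈ D₂}

/-- edges of the left room -/
noncomputable def ELf (n : ℕ) (D : Finset (ℤ × ℤ)) : Finset Edg := edg (D ∪ side n) \ HE 0 1 n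

/-- edges of the right room -/
noncomputable def ERf (n : ℕ) (D : Finset (ℤ × ℤ)) : Finset Edg := edg (D ∪ side n)

theorem LOk_f {n : ℕ} {D : Finset (ℤ × ℤ)} (hD : ∀ v ∈ D, v.1 ≤ 0) {S : Set (ℤ × ℤ)}
    (hS : ∀ v ∈ S, v.1 ≤ 0) : LOk 0 n (ELf n D) S := by
  have h1 : ∀ e ∈ ELf n D, (tgt e).1 ≤ 0 := by
    intro e he
    unfold ELf at he
    rw [Finset.mem_sdiff, mem_edg] at he
    rcases Finset.mem_union.mp he.1.2 with h | h
    · exact hD _ h
    · exact (mem_side.mp h).1.le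
  refine ⟨h1, ?_, hS⟩
  intro e he b hb
  have h2 := h1 e he
  unfold ELf at he
  rw [Finset.mem_sdiff] at he
  apply he.2
  obtain ⟨x, y, _ | _⟩ := e
  · rw [mem_HE_false] at hb ⊢
    rw [tgt_false] at h2
    simp only at h2
    omega
  · rw [mem_HE_true] at hb ⊢
    rw [tgt_true] at h2
    simp only at h2
    omega

theorem ROk_f {n : ℕ} {D : Finset (ℤ × ℤ)} (hD : ∀ v ∈ D, 0 ≤ v.1) {S : Set (ℤ × ℤ)}
    (hS : ∀ v ∈ S, 0 ≤ v.1) : ROk 0 (ERf n D) S := by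
  refine ⟨?_, hS⟩
  intro e he
  unfold ERf at he
  rw [mem_edg] at he
  rcases Finset.mem_union.mp he.1 with h | h
  · exact hD _ h
  · exact (mem_side.mp h).1.ge

theorem X_eq {n l : ℕ} (hl : 2 ≤ l) {D₁ D₂ : Finset (ℤ × ℤ)} (h1 : ∀ v ∈ D₁, v.1 ≤ 0)
    (h2 : ∀ v ∈ D₂, 0 ≤ v.1) :
    ((shE l (ERf n D₂) ∪ (ELf n D₁ ∪ HE 0 l n) : Finset Edg) : Set Edg) =
      ED (dumb D₁ D₂ l n) := by
  -- vertices of the domain
  have a1 : ∀ x y : ℤ, ((x, y) : ℤ × ℤ) ∈ dumb D₁ D₂ l n → x ≤ 0 → (x, y) ∈ D₁ ∪ side n := by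
    intro x y h hx
    rw [Finset.mem_union, mem_side]
    rcases h with h | h | h
    · exact Or.inl h
    · obtain ⟨⟨h3, h4⟩, h5, h6⟩ := h
      simp only at h3 h4 h5 h6
      exact Or.inr ⟨by simp only; omega, by simp only; omega, by simp only; omega⟩
    · have := h2 _ h
      simp only at this
      omega
  have a2 : ∀ x y : ℤ, ((x, y) : ℤ × ℤ) ∈ dumb D₁ D₂ l n → (l : ℤ) ≤ x →
      (x - l, y) ∈ D₂ ∪ side n := by
    intro x y h hx
    rw [Finset.mem_union, mem_side]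
    rcases h with h | h | h
    · have := h1 _ h
      simp only at this
      omega
    · obtain ⟨⟨h3, h4⟩, h5, h6⟩ := h
      simp only at h3 h4 h5 h6
      exact Or.inr ⟨by simp only; omega, by simp only; omega, by simp only; omega⟩
    · exact Or.inl h
  have a3 : ∀ x y : ℤ, ((x, y) : ℤ × ℤ) ∈ dumb D₁ D₂ l n → 0 < x → x < l →
      0 ≤ y ∧ y ≤ n := by
    intro x y h hx hx'
    rcases h with h | h | h
    · have := h1 _ h
      simp only at this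
      omega
    · exact h.2
    · have := h2 _ h
      simp only at this
      omega
  have b1 : ∀ x y : ℤ, (x, y) ∈ D₁ ∪ side n → ((x, y) : ℤ × ℤ) ∈ dumb D₁ D₂ l n := by
    intro x y h
    rw [Finset.mem_union, mem_side] at h
    rcases h with h | ⟨h, h', h''⟩
    · exact Or.inl h
    · simp only at h h' h''
      refine Or.inr (Or.inl ⟨⟨?_, ?_⟩, ?_, ?_⟩) <;> simp only <;> omega
  have b2 : ∀ x y : ℤ, (x - l, y) ∈ D₂ ∪ side n → ((x, y) : ℤ × ℤ) ∈ dumb D₁ D₂ l n := by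
    intro x y h
    rw [Finset.mem_union, mem_side] at h
    rcases h with h | ⟨h, h', h''⟩
    · exact Or.inr (Or.inr h)
    · simp only at h h' h''
      refine Or.inr (Or.inl ⟨⟨?_, ?_⟩, ?_, ?_⟩) <;> simp only <;> omega
  have b3 : ∀ x y : ℤ, 0 ≤ x → x ≤ l → 0 ≤ y → y ≤ n → ((x, y) : ℤ × ℤ) ∈ dumb D₁ D₂ l n := by
    intro x y h3 h4 h5 h6
    exact Or.inr (Or.inl ⟨⟨h3, h4⟩, h5, h6⟩)
  ext ⟨x, y, z⟩
  rw [mem_coe, Finset.mem_union, Finset.mem_union, mem_shE]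
  show _ ↔ (src (x, y, z) ∈ dumb D₁ D₂ l n ∧ tgt (x, y, z) ∈ dumb D₁ D₂ l n)
  rw [src_mk]
  unfold ERf ELf
  rw [mem_edg, Finset.mem_sdiff, mem_edg, src_mk, src_mk]
  cases z
  · rw [tgt_false, tgt_false, mem_HE_false, mem_HE_false]
    constructor
    · rintro (⟨h3, h4⟩ | ⟨⟨h3, h4⟩, -⟩ | h3)
      · exact ⟨b2 _ _ h3, b2 _ _ h4⟩
      · exact ⟨b1 _ _ h3, b1 _ _ h4⟩
      · exact ⟨b3 _ _ (by omega) (by omega) (by omega) (by omega),
          b3 _ _ (by omega) (by omega) (by omega) (by omega)⟩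
    · rintro ⟨h3, h4⟩
      by_cases c1 : (l : ℤ) ≤ x
      · exact Or.inl ⟨a2 _ _ h3 c1, a2 _ _ h4 c1⟩
      · by_cases c2 : x ≤ 0
        · by_cases c3 : ((0:ℤ) ≤ x ∧ x < 1) ∧ 0 ≤ y ∧ y < n
          · exact Or.inr (Or.inr (by omega))
          · exact Or.inr (Or.inl ⟨⟨a1 _ _ h3 c2, a1 _ _ h4 c2⟩, c3⟩)
        · have q1 := a3 _ _ h3 (by omega) (by omega)
          have q2 := a3 _ _ h4 (by omega) (by omega)
          exact Or.inr (Or.inr (by omega))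
  · have e : (x + 1 - (l:ℤ), y) = (x - l + 1, y) := by
      rw [Prod.mk.injEq]; exact ⟨by ring, rfl⟩
    rw [tgt_true, tgt_true, mem_HE_true, mem_HE_true]
    constructor
    · rintro (⟨h3, h4⟩ | ⟨⟨h3, h4⟩, -⟩ | h3)
      · rw [← e] at h4
        exact ⟨b2 _ _ h3, b2 _ _ h4⟩
      · exact ⟨b1 _ _ h3, b1 _ _ h4⟩
      · exact ⟨b3 _ _ (by omega) (by omega) (by omega) (by omega),
          b3 _ _ (by omega) (by omega) (by omega) (by omega)⟩
    · rintro ⟨h3, h4⟩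
      by_cases c1 : (l : ℤ) ≤ x
      · have := a2 _ _ h4 (by omega)
        rw [e] at this
        exact Or.inl ⟨a2 _ _ h3 c1, this⟩
      · by_cases c2 : x < 0
        · exact Or.inr (Or.inl ⟨⟨a1 _ _ h3 (by omega), a1 _ _ h4 (by omega)⟩, by omega⟩)
        · by_cases c3 : x = 0
          · have q2 := a3 _ _ h4 (by omega) (by omega)
            exact Or.inr (Or.inr (by omega))
          · have q1 := a3 _ _ h3 (by omega) (by omega)
            exact Or.inr (Or.inr (by omega))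

/-- the connection probability in the dumbbell -/
theorem link_eq {n l : ℕ} (hl : 2 ≤ l) {D₁ D₂ : Finset (ℤ × ℤ)} (h1 : ∀ v ∈ D₁, v.1 ≤ 0)
    (h2 : ∀ v ∈ D₂, 0 ≤ v.1) (S T : Set (ℤ × ℤ)) :
    (bondLaw ⟨1/2, by norm_num, by norm_num⟩).real {ω | ∃ u ∈ S, ∃ v ∈ shV l T,
      (domGraph (dumb D₁ D₂ l n) ω).Reachable u v} =
    fW n (ELf n D₁) S (ERf n D₂) T l := by
  rw [conn_eq _ (X_eq hl h1 h2), half_val]
  rfl

theorem dumb_side {n l : ℕ} : dumb (side n) (side n) l n = rect l n := by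
  ext ⟨x, y⟩
  unfold dumb
  simp only [Set.mem_ofPred_eq, mem_side]
  constructor
  · rintro (h | h | h)
    · exact ⟨⟨by simp only; omega, by simp only; omega⟩, h.2⟩
    · exact h
    · exact ⟨⟨by simp only; omega, by simp only; omega⟩, h.2⟩
  · intro h
    exact Or.inr (Or.inl h)

/-- the plain corridor -/
theorem fW_side {n l : ℕ} (hl : 2 ≤ l) :
    fW n (ELf n (side n)) ↑(side n) (ERf n (side n)) ↑(side n) l = p l n := by
  rw [← cross_rect, ← link_eq hl (fun v hv => (mem_side.mp hv).1.le)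
    (fun v hv => (mem_side.mp hv).1.ge), dumb_side]
  congr 1
  ext ω
  simp only [Set.mem_ofPred_eq]
  constructor
  · rintro ⟨u, hu, ⟨v1, v2⟩, hv, h⟩
    rw [mem_coe, mem_side] at hu
    rw [mem_shV, mem_coe, mem_side] at hv
    simp only at hv
    refine ⟨u, ⟨⟨⟨by omega, by omega⟩, hu.2⟩, hu.1⟩, (v1, v2),
      ⟨⟨⟨by simp only; omega, by simp only; omega⟩, hv.2⟩, by simp only; omega⟩, h⟩
  · rintro ⟨u, ⟨hu1, hu2⟩, ⟨v1, v2⟩, ⟨hv1, hv2⟩, h⟩
    refine ⟨u, ?_, (v1, v2), ?_, h⟩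
    · rw [mem_coe, mem_side]
      exact ⟨hu2, hu1.2⟩
    · rw [mem_shV, mem_coe, mem_side]
      simp only at hv2 ⊢
      exact ⟨by omega, hv1.2⟩

end Pool.Agent.D0H47.GR
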