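import Pool.Agent.D0H47.GR.Osc

/-!
Factorization for random rooms.
-/

set_option autoImplicit false
set_option maxHeartbeats 1000000

namespace Pool.Agent.D0H47.GR

open H974 H12S Finset

/-- a random room on the left of the column `a` -/
def LOk (a n : ℤ) (EL : Finset Edg) (S : Set Vtx) : Prop :=
  (∀ e ∈ EL, (tgt e).1 ≤ a) ∧ (∀ e ∈ EL, ∀ b, e ∉ HE a b n) ∧ ∀ s ∈ S, s.1 ≤ a

/-- a random room on the right of the column `b` -/
def ROk (b : ℤ) (ER : Finset Edg) (T : Set Vtx) : Prop :=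
  (∀ e ∈ ER, b ≤ (src e).1) ∧ ∀ t ∈ T, b ≤ t.1

/-- the connection probability of two random rooms through a corridor -/
noncomputable def Wc (n a b : ℤ) (EL : Finset Edg) (S : Set Vtx) (ER : Finset Edg) (T : Set Vtx) :
    ℝ := PH (ER ∪ (EL ∪ HE a b n)) (fun F => Con ↑F S T)

theorem Wc_nonneg (n a b : ℤ) (EL : Finset Edg) (S : Set Vtx) (ER : Finset Edg) (T : Set Vtx) :
    0 ≤ Wc n a b EL S ER T := Pr_nonneg okh _ _

theorem Wc_le_one (n a b : ℤ) (EL : Finset Edg) (S : Set Vtx) (ER : Finset Edg) (T : Set Vtx) :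
    Wc n a b EL S ER T ≤ 1 := Pr_le_one okh _ _

theorem Wc_eq {n a b : ℤ} (hab : a < b) {EL : Finset Edg} {S : Set Vtx} (hL : LOk a n EL S)
    {ER : Finset Edg} {T : Set Vtx} (hR : ROk b ER T) :
    Wc n a b EL S ER T = Ex (fun _ => (1/2 : ℝ)) ER (fun F₂ => Ex (fun _ => (1/2 : ℝ)) EL
      (fun F₁ => Zc n a b ↑F₁ S ↑F₂ T)) := by
  have d1 : Disjoint EL (HE a b n) := by
    rw [Finset.disjoint_left]
    intro e he
    exact hL.2.1 e he b
  have d2 : Disjoint ER (EL ∪ HE a b n) := by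
    rw [Finset.disjoint_left]
    intro e he h
    have h1 := hR.1 e he
    rcases Finset.mem_union.mp h with h2 | h2
    · have := hL.1 e h2
      have := src_le_tgt e
      omega
    · rw [mem_HE] at h2
      have : (src e).1 = e.1 := by obtain ⟨x, y, z⟩ := e; rw [src_mk]
      omega
  unfold Wc Zc PH Pr
  rw [Ex_union d2]
  apply Ex_congr
  intro F₂ _
  rw [Ex_union d1]
  apply Ex_congr
  intro F₁ _
  apply Ex_congr
  intro F _
  apply ind_congr
  have e : (↑(F₂ ∪ (F₁ ∪ F)) : Set Edg) = ↑F₁ ∪ ↑F ∪ ↑F₂ := by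
    ext x
    simp only [Finset.coe_union, Set.mem_union]
    tauto
  beta_reduce
  rw [e]

section avg
variable {E : Type*} [DecidableEq E]

theorem avg1 {p : E → ℝ} (hp : Ok p) {S : Finset E} {f g : Finset E → ℝ} {A B K : ℝ}
    (h : ∀ F, F ⊆ S → f F * A ≤ K * (B * g F)) : Ex p S f * A ≤ K * (B * Ex p S g) := by
  rw [← Ex_mul_right, ← Ex_mul_left, ← Ex_mul_left]
  exact Ex_mono hp h

theorem avg2 {p : E → ℝ} (hp : Ok p) {S : Finset E} {f g : Finset E → ℝ} {A B K : ℝ}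
    (h : ∀ F, F ⊆ S → A * f F ≤ K * (g F * B)) : A * Ex p S f ≤ K * (Ex p S g * B) := by
  rw [← Ex_mul_right, ← Ex_mul_left, ← Ex_mul_left]
  exact Ex_mono hp h

theorem avg3 {p : E → ℝ} (hp : Ok p) {S : Finset E} {f g : Finset E → ℝ} {A B K : ℝ}
    (h : ∀ F, F ⊆ S → A * f F ≤ K * (B * g F)) : A * Ex p S f ≤ K * (B * Ex p S g) := by
  rw [← Ex_mul_left, ← Ex_mul_left, ← Ex_mul_left]
  exact Ex_mono hp h

theorem avg4 {p : E → ℝ} (hp : Ok p) {S : Finset E} {f g : Finset E → ℝ} {A B K : ℝ}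
    (h : ∀ F, F ⊆ S → f F * A ≤ K * (g F * B)) : Ex p S f * A ≤ K * (Ex p S g * B) := by
  rw [← Ex_mul_right, ← Ex_mul_right, ← Ex_mul_left]
  exact Ex_mono hp h

end avg

/-- **Factorization for random rooms.** -/
theorem factW {n a b : ℤ} (hn : 1 ≤ n) {EL EL' : Finset Edg} {S S' : Set Vtx}
    (hL : LOk a n EL S) (hL' : LOk a n EL' S') {ER ER' : Finset Edg} {T T' : Set Vtx}
    (hR : ROk b ER T) (hR' : ROk b ER' T') {k : ℕ} (hk : a + (k + 1) * (2 * n + 1) ≤ b) :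
    Wc n a b EL S ER T * Wc n a b EL' S' ER' T' ≤
      (1 + (1 - dl)^k / dl^2) * (Wc n a b EL' S' ER T * Wc n a b EL S ER' T') := by
  have hab : a < b := by
    have : 0 < ((k : ℤ) + 1) * (2 * n + 1) := by positivity
    linarith
  rw [Wc_eq hab hL hR, Wc_eq hab hL' hR', Wc_eq hab hL' hR, Wc_eq hab hL hR']
  have hl : ∀ F, F ⊆ EL → LStr a (↑F : Set Edg) S := fun F hF =>
    ⟨fun e he => hL.1 e (hF (mem_coe.mp he)), hL.2.2⟩
  have hl' : ∀ F, F ⊆ EL' → LStr a (↑F : Set Edg) S' := fun F hF =>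
    ⟨fun e he => hL'.1 e (hF (mem_coe.mp he)), hL'.2.2⟩
  have hr : ∀ F, F ⊆ ER → RStr b (↑F : Set Edg) T := fun F hF =>
    ⟨fun e he => hR.1 e (hF (mem_coe.mp he)), hR.2⟩
  have hr' : ∀ F, F ⊆ ER' → RStr b (↑F : Set Edg) T' := fun F hF =>
    ⟨fun e he => hR'.1 e (hF (mem_coe.mp he)), hR'.2⟩
  -- average over the left rooms
  have s1 : ∀ F₂, F₂ ⊆ ER → ∀ F₂', F₂' ⊆ ER' →
      Ex (fun _ => (1/2 : ℝ)) EL (fun F₁ => Zc n a b ↑F₁ S ↑F₂ T) *
        Ex (fun _ => (1/2 : ℝ)) EL' (fun F₁ => Zc n a b ↑F₁ S' ↑F₂' T') ≤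
      (1 + (1 - dl)^k / dl^2) * (Ex (fun _ => (1/2 : ℝ)) EL' (fun F₁ => Zc n a b ↑F₁ S' ↑F₂ T) *
        Ex (fun _ => (1/2 : ℝ)) EL (fun F₁ => Zc n a b ↑F₁ S ↑F₂' T')) := by
    intro F₂ h2 F₂' h2'
    apply avg1 okh
    intro F₁ h1
    apply avg2 okh
    intro F₁' h1'
    exact fact hn (hl _ h1) (hl' _ h1') (hr _ h2) (hr' _ h2') hk
  apply avg3 okh
  intro F₂' h2'
  apply avg4 okh
  intro F₂ h2
  exact s1 F₂ h2 F₂' h2'

theorem Wc_extR {n a b b' : ℤ} (hab : a ≤ b) (hbb : b ≤ b') (EL : Finset Edg) (S : Set Vtx)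
    (ER : Finset Edg) (T : Set Vtx) :
    Wc n a b' EL S ER T = Wc n a b EL S (ER ∪ HE b b' n) T := by
  unfold Wc
  congr 1
  rw [HE_split hab hbb]
  ext e
  simp only [Finset.mem_union]
  tauto

theorem Wc_extL {n a a' b : ℤ} (haa : a ≤ a') (hab : a' ≤ b) (EL : Finset Edg) (S : Set Vtx)
    (ER : Finset Edg) (T : Set Vtx) :
    Wc n a b EL S ER T = Wc n a' b (EL ∪ HE a a' n) S ER T := by
  unfold Wc
  congr 1
  rw [HE_split haa hab]
  ext e
  simp only [Finset.mem_union]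
  tauto

/-- moved edges -/
def shE (s : ℤ) (E : Finset Edg) : Finset Edg := (trl s 0).mp E

/-- moved vertices -/
def shV (s : ℤ) (S : Set Vtx) : Set Vtx := (trl s 0).ψ '' S

theorem mem_shE {s : ℤ} {E : Finset Edg} {x y : ℤ} {z : Bool} :
    ((x, y, z) : Edg) ∈ shE s E ↔ (x - s, y, z) ∈ E := by
  unfold shE
  rw [LSym.mem_mp]
  simp

theorem mem_shV {s : ℤ} {S : Set Vtx} {x y : ℤ} :
    ((x, y) : Vtx) ∈ shV s S ↔ (x - s, y) ∈ S := by
  unfold shV
  constructor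
  · rintro ⟨⟨a, b⟩, h, h2⟩
    simp only [trl_ψ, add_zero, Prod.mk.injEq] at h2
    obtain ⟨rfl, rfl⟩ := h2
    simpa using h
  · intro h
    exact ⟨(x - s, y), h, by simp⟩

theorem shE_HE {s a b n : ℤ} : shE s (HE a b n) = HE (a + s) (b + s) n := by
  ext ⟨x, y, _ | _⟩
  · rw [mem_shE, mem_HE_false, mem_HE_false]; omega
  · rw [mem_shE, mem_HE_true, mem_HE_true]; omega

theorem shE_shE {s t : ℤ} {E : Finset Edg} : shE s (shE t E) = shE (t + s) E := by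
  ext ⟨x, y, z⟩
  rw [mem_shE, mem_shE, mem_shE, sub_sub, add_comm t s]

theorem shV_shV {s t : ℤ} {S : Set Vtx} : shV s (shV t S) = shV (t + s) S := by
  ext ⟨x, y⟩
  rw [mem_shV, mem_shV, mem_shV, sub_sub, add_comm t s]

theorem shE_union {s : ℤ} {E E' : Finset Edg} : shE s (E ∪ E') = shE s E ∪ shE s E' := by
  ext ⟨x, y, z⟩
  simp only [mem_shE, Finset.mem_union]

theorem Con_sh {s : ℤ} {F : Finset Edg} {S T : Set Vtx} :
    Con (↑((trl s 0).mp F) : Set Edg) (shV s S) (shV s T) ↔ Con (↑F : Set Edg) S T := by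
  unfold Con shV
  rw [LSym.coe_mp]
  constructor
  · rintro ⟨_, ⟨u, hu, rfl⟩, _, ⟨v, hv, rfl⟩, h⟩
    exact ⟨u, hu, v, hv, (LSym.reach_iff _).mp h⟩
  · rintro ⟨u, hu, v, hv, h⟩
    exact ⟨_, ⟨u, hu, rfl⟩, _, ⟨v, hv, rfl⟩, (LSym.reach_iff _).mpr h⟩

theorem Wc_sh (s n a b : ℤ) (EL : Finset Edg) (S : Set Vtx) (ER : Finset Edg) (T : Set Vtx) :
    Wc n (a + s) (b + s) (shE s EL) (shV s S) (shE s ER) (shV s T) = Wc n a b EL S ER T := by
  unfold Wc
  rw [← shE_HE, ← shE_union, ← shE_union]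
  unfold PH
  rw [shE, LSym.pr]
  apply Pr_congr
  intro F _
  exact Con_sh

theorem LOk_sh {a n s : ℤ} {EL : Finset Edg} {S : Set Vtx} (h : LOk a n EL S) :
    LOk (a + s) n (shE s EL) (shV s S) := by
  refine ⟨?_, ?_, ?_⟩
  · rintro ⟨x, y, z⟩ he
    rw [mem_shE] at he
    have := h.1 _ he
    cases z
    · rw [tgt_false] at this ⊢; simp only at this ⊢; omega
    · rw [tgt_true] at this ⊢; simp only at this ⊢; omega
  · rintro ⟨x, y, z⟩ he b hb
    rw [mem_shE] at he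
    apply h.2.1 _ he (b - s)
    cases z
    · rw [mem_HE_false] at hb ⊢; omega
    · rw [mem_HE_true] at hb ⊢; omega
  · rintro ⟨x, y⟩ hs
    rw [mem_shV] at hs
    have := h.2.2 _ hs
    simp only at this ⊢
    omega

theorem ROk_sh {b s : ℤ} {ER : Finset Edg} {T : Set Vtx} (h : ROk b ER T) :
    ROk (b + s) (shE s ER) (shV s T) := by
  refine ⟨?_, ?_⟩
  · rintro ⟨x, y, z⟩ he
    rw [mem_shE] at he
    have := h.1 _ he
    rw [src_mk] at this ⊢
    simp only at this ⊢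
    omega
  · rintro ⟨x, y⟩ hs
    rw [mem_shV] at hs
    have := h.2 _ hs
    simp only at this ⊢
    omega

theorem LOk_ext {a a' n : ℤ} (haa : a ≤ a') {EL : Finset Edg} {S : Set Vtx} (h : LOk a n EL S) :
    LOk a' n (EL ∪ HE a a' n) S := by
  refine ⟨?_, ?_, fun s hs => (h.2.2 s hs).trans haa⟩
  · intro e he
    rcases Finset.mem_union.mp he with he | he
    · exact (h.1 e he).trans haa
    · exact (HE_src he).2
  · intro e he b hb
    rcases Finset.mem_union.mp he with he | he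
    · exact h.2.1 e he b (HE_sub haa le_rfl hb)
    · exact Finset.disjoint_left.mp HE_disj hb he

theorem ROk_ext {b b' n : ℤ} (hbb : b ≤ b') {ER : Finset Edg} {T : Set Vtx} (h : ROk b' ER T) :
    ROk b (ER ∪ HE b b' n) T := by
  refine ⟨?_, fun s hs => hbb.trans (h.2 s hs)⟩
  intro e he
  rcases Finset.mem_union.mp he with he | he
  · exact hbb.trans (h.1 e he)
  · exact (HE_src he).1

/-- the connection probability of two rooms through a corridor of length `l` -/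
noncomputable def fW (n : ℤ) (EL : Finset Edg) (S : Set Vtx) (ER : Finset Edg) (T : Set Vtx)
    (l : ℤ) : ℝ := Wc n 0 l EL S (shE l ER) (shV l T)

theorem fW_ext {n : ℤ} {EL : Finset Edg} {S : Set Vtx} {ER : Finset Edg} {T : Set Vtx}
    {l g h : ℤ} (hl : 0 ≤ l) (hg : 0 ≤ g) (hh : 0 ≤ h) :
    fW n EL S ER T (l + g + h) = Wc n 0 l (shE (-g) EL ∪ HE (-g) 0 n) (shV (-g) S)
      (shE (l + h) ER ∪ HE l (l + h) n) (shV (l + h) T) := by
  rw [← Wc_extL (by omega) hl, ← Wc_extR (by omega) (by omega)]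
  have := Wc_sh g n (-g) (l + h) (shE (-g) EL) (shV (-g) S) (shE (l + h) ER) (shV (l + h) T)
  rw [← this, shE_shE, shV_shV, shE_shE, shV_shV]
  have e0 : -g + g = 0 := by ring
  have e1 : l + h + g = l + g + h := by ring
  rw [e0, e1]
  have e2 : shE 0 EL = EL := by
    ext ⟨x, y, z⟩; rw [mem_shE, sub_zero]
  have e3 : shV 0 S = S := by
    ext ⟨x, y⟩; rw [mem_shV, sub_zero]
  rw [e2, e3]
  rfl

/-- **Factorization, all forms.** -/
theorem factG {n : ℤ} (hn : 1 ≤ n) {EL EL' : Finset Edg} {S S' : Set Vtx}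
    (hL : LOk 0 n EL S) (hL' : LOk 0 n EL' S') {ER ER' : Finset Edg} {T T' : Set Vtx}
    (hR : ROk 0 ER T) (hR' : ROk 0 ER' T') {l g h g' h' : ℤ} (hg : 0 ≤ g) (hh : 0 ≤ h)
    (hg' : 0 ≤ g') (hh' : 0 ≤ h') {k : ℕ} (hk : (k + 1) * (2 * n + 1) ≤ l) :
    fW n EL S ER T (l + g + h) * fW n EL' S' ER' T' (l + g' + h') ≤
      (1 + (1 - dl)^k / dl^2) *
        (fW n EL' S' ER T (l + g' + h) * fW n EL S ER' T' (l + g + h')) := by
  have hl : 0 ≤ l := by
    have : 0 < ((k : ℤ) + 1) * (2 * n + 1) := by positivity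
    linarith
  rw [fW_ext hl hg hh, fW_ext hl hg' hh', fW_ext hl hg' hh, fW_ext hl hg hh']
  have q1 : ∀ {EL : Finset Edg} {S : Set Vtx} {g : ℤ}, LOk 0 n EL S → 0 ≤ g →
      LOk 0 n (shE (-g) EL ∪ HE (-g) 0 n) (shV (-g) S) := by
    intro EL S g h hg
    apply LOk_ext (by omega)
    have := LOk_sh (s := -g) h
    rwa [zero_add] at this
  have q2 : ∀ {ER : Finset Edg} {T : Set Vtx} {h : ℤ}, ROk 0 ER T → 0 ≤ h →
      ROk l (shE (l + h) ER ∪ HE l (l + h) n) (shV (l + h) T) := by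
    intro ER T h hR hh
    apply ROk_ext (by omega)
    have := ROk_sh (s := l + h) hR
    rwa [zero_add] at this
  exact factW hn (q1 hL hg) (q1 hL' hg') (q2 hR hh) (q2 hR' hh') (by rw [zero_add]; exact hk)

end Pool.Agent.D0H47.GR
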