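import Mathlib

/-!
Almost multiplicative sequences.
-/

set_option autoImplicit false
set_option maxHeartbeats 1000000

namespace Pool.Agent.D0H47.GR

open Filter Topology

theorem ratio_lim {l₀ : ℕ} {K x u : ℕ → ℝ} (hK1 : ∀ l, 1 ≤ K l) (hK : Tendsto K atTop (𝓝 1))
    (hx : ∀ l, 0 ≤ x l) (hu : ∀ l, 0 < u l)
    (h1 : ∀ l h, l₀ ≤ l → x (l + h) * u l ≤ K l * (x l * u (l + h)))
    (h2 : ∀ l h, l₀ ≤ l → x l * u (l + h) ≤ K l * (x (l + h) * u l)) :
    ∃ α : ℝ, 0 ≤ α ∧ ∀ l, l₀ ≤ l → x l ≤ K l * (α * u l) ∧ α * u l ≤ K l * x l := by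
  set r : ℕ → ℝ := fun l => x l / u l with hr
  have hr0 : ∀ l, 0 ≤ r l := fun l => div_nonneg (hx l) (hu l).le
  have e : ∀ l, x l = r l * u l := fun l => by simp only [hr]; field_simp [(hu l).ne']
  have k1 : ∀ l h, l₀ ≤ l → r (l + h) ≤ K l * r l := by
    intro l h hl
    have := h1 l h hl
    rw [e (l + h), e l] at this
    have hp : 0 < u (l + h) * u l := mul_pos (hu _) (hu _)
    have h3 : r (l + h) * (u (l + h) * u l) ≤ K l * r l * (u (l + h) * u l) := by
      calc _ = r (l + h) * u (l + h) * u l := by ring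
        _ ≤ _ := this
        _ = _ := by ring
    exact le_of_mul_le_mul_right h3 hp
  have k2 : ∀ l h, l₀ ≤ l → r l ≤ K l * r (l + h) := by
    intro l h hl
    have := h2 l h hl
    rw [e (l + h), e l] at this
    have hp : 0 < u (l + h) * u l := mul_pos (hu _) (hu _)
    have h3 : r l * (u (l + h) * u l) ≤ K l * r (l + h) * (u (l + h) * u l) := by
      calc _ = r l * u l * u (l + h) := by ring
        _ ≤ _ := this
        _ = _ := by ring
    exact le_of_mul_le_mul_right h3 hp
  set B := K l₀ * r l₀ with hB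
  have hB0 : 0 ≤ B := mul_nonneg (by linarith [hK1 l₀]) (hr0 _)
  have hb : ∀ l, l₀ ≤ l → r l ≤ B := by
    intro l hl
    obtain ⟨h, rfl⟩ := Nat.exists_eq_add_of_le hl
    exact k1 l₀ h le_rfl
  have hd : ∀ N h, l₀ ≤ N → |r (N + h) - r N| ≤ (K N - 1) * B := by
    intro N h hN
    have q1 := k1 N h hN
    have q2 := k2 N h hN
    have q3 := hb N hN
    have q4 := hb (N + h) (by omega)
    have q5 := hK1 N
    rw [abs_le]
    constructor
    · nlinarith [mul_le_mul_of_nonneg_left q4 (sub_nonneg.mpr q5)]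
    · nlinarith [mul_le_mul_of_nonneg_left q3 (sub_nonneg.mpr q5)]
  have hc : CauchySeq (fun l => r (l₀ + l)) := by
    apply cauchySeq_of_le_tendsto_0 (fun N => 2 * ((K (l₀ + N) - 1) * B))
    · intro n m N hn hm
      obtain ⟨a, rfl⟩ := Nat.exists_eq_add_of_le hn
      obtain ⟨b, rfl⟩ := Nat.exists_eq_add_of_le hm
      have q1 := hd (l₀ + N) a (by omega)
      have q2 := hd (l₀ + N) b (by omega)
      rw [Real.dist_eq]
      rw [← add_assoc, ← add_assoc]
      calc |r (l₀ + N + a) - r (l₀ + N + b)| =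
            |(r (l₀ + N + a) - r (l₀ + N)) - (r (l₀ + N + b) - r (l₀ + N))| := by ring_nf
        _ ≤ |r (l₀ + N + a) - r (l₀ + N)| + |r (l₀ + N + b) - r (l₀ + N)| := abs_sub _ _
        _ ≤ _ := by linarith
    · have h3 : Tendsto (fun N => K (l₀ + N)) atTop (𝓝 1) := by
        have := (tendsto_add_atTop_iff_nat (f := K) l₀).mpr hK
        refine this.congr ?_
        intro N
        rw [add_comm]
      have h4 : Tendsto (fun N => 2 * ((K (l₀ + N) - 1) * B)) atTop (𝓝 (2 * ((1 - 1) * B))) :=
        ((h3.sub_const 1).mul_const B).const_mul 2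
      simpa using h4
  obtain ⟨α, hα⟩ := cauchySeq_tendsto_of_complete hc
  have hα0 : 0 ≤ α := ge_of_tendsto' hα (fun l => hr0 _)
  refine ⟨α, hα0, ?_⟩
  intro l hl
  have hα' : Tendsto (fun h => r (l + h)) atTop (𝓝 α) := by
    have h3 : Tendsto r atTop (𝓝 α) := by
      rw [← tendsto_add_atTop_iff_nat l₀]
      refine hα.congr ?_
      intro N
      rw [add_comm]
    have := (tendsto_add_atTop_iff_nat (f := r) l).mpr h3
    refine this.congr ?_
    intro N
    rw [add_comm]
  constructor
  · have q : r l ≤ K l * α := ge_of_tendsto' (hα'.const_mul (K l)) (fun h => k2 l h hl)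
    rw [e l]
    have := mul_le_mul_of_nonneg_right q (hu l).le
    linarith
  · have q : α ≤ K l * r l := le_of_tendsto' hα' (fun h => k1 l h hl)
    rw [e l]
    have := mul_le_mul_of_nonneg_right q (hu l).le
    linarith

theorem exp_rate {l₀ : ℕ} {K u : ℕ → ℝ} {κ : ℝ} (hK1 : ∀ l, 1 ≤ K l) (hu : ∀ l, 0 < u l)
    (hκ : Tendsto (fun l : ℕ => Real.log (u l) / l) atTop (𝓝 (-κ)))
    (h1 : ∀ l g h, l₀ ≤ l → u (l + g + h) * u l ≤ K l * (u (l + g) * u (l + h)))
    (h2 : ∀ l g h, l₀ ≤ l → u (l + g) * u (l + h) ≤ K l * (u (l + g + h) * u l)) (l h : ℕ)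
    (hl : l₀ ≤ l) :
    u (l + h) * Real.exp (-κ * l) ≤ K l * (u l * Real.exp (-κ * (l + h : ℕ))) ∧
      u l * Real.exp (-κ * (l + h : ℕ)) ≤ K l * (u (l + h) * Real.exp (-κ * l)) := by
  have ee : Real.exp (-κ * (l + h : ℕ)) = Real.exp (-κ * l) * Real.exp (-κ * h) := by
    rw [← Real.exp_add]; congr 1; push_cast; ring
  have hE : 0 < Real.exp (-κ * l) := Real.exp_pos _
  rcases Nat.eq_zero_or_pos h with rfl | hh
  · simp only [add_zero]
    have h3 : 0 < u l * Real.exp (-κ * l) := mul_pos (hu l) hE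
    have h4 := mul_le_mul_of_nonneg_right (hK1 l) h3.le
    constructor <;> linarith
  have hK0 : 0 < K l := by linarith [hK1 l]
  set ρ := u (l + h) / u l with hρ
  have hρ0 : 0 < ρ := div_pos (hu _) (hu _)
  have eρ : u (l + h) = ρ * u l := by rw [hρ]; field_simp [(hu l).ne']
  -- the subsequence
  have up : ∀ k : ℕ, u (l + k * h) ≤ (K l * ρ)^k * u l := by
    intro k
    induction k with
    | zero => simp
    | succ k ih =>
      have q := h1 l (k * h) h hl
      rw [eρ] at q
      have q' : u (l + k * h + h) ≤ (K l * ρ) * u (l + k * h) := by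
        have : u (l + k * h + h) * u l ≤ ((K l * ρ) * u (l + k * h)) * u l := by
          calc _ ≤ _ := q
            _ = _ := by ring
        exact le_of_mul_le_mul_right this (hu l)
      have e1 : l + (k + 1) * h = l + k * h + h := by ring
      rw [e1, pow_succ]
      calc _ ≤ _ := q'
        _ ≤ (K l * ρ) * ((K l * ρ)^k * u l) := mul_le_mul_of_nonneg_left ih (by positivity)
        _ = _ := by ring
  have low : ∀ k : ℕ, (ρ / K l)^k * u l ≤ u (l + k * h) := by
    intro k
    induction k with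
    | zero => simp
    | succ k ih =>
      have q := h2 l (k * h) h hl
      rw [eρ] at q
      have q' : (ρ / K l) * u (l + k * h) ≤ u (l + k * h + h) := by
        have : u (l + k * h) * ρ ≤ K l * u (l + k * h + h) := by
          have h5 : (u (l + k * h) * ρ) * u l ≤ (K l * u (l + k * h + h)) * u l := by
            calc _ = u (l + k * h) * (ρ * u l) := by ring
              _ ≤ _ := q
              _ = _ := by ring
          exact le_of_mul_le_mul_right h5 (hu l)
        rw [div_mul_eq_mul_div, div_le_iff₀ hK0]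
        linarith
      have e1 : l + (k + 1) * h = l + k * h + h := by ring
      rw [e1, pow_succ]
      calc (ρ / K l)^k * (ρ / K l) * u l = (ρ / K l) * ((ρ / K l)^k * u l) := by ring
        _ ≤ (ρ / K l) * u (l + k * h) := mul_le_mul_of_nonneg_left ih (by positivity)
        _ ≤ _ := q'
  have lim1 : Tendsto (fun k : ℕ => Real.log (u (l + k * h)) / k) atTop (𝓝 (-κ * h)) := by
    have t0 : Tendsto (fun k : ℕ => l + k * h) atTop atTop := by
      apply tendsto_atTop_mono (f := fun k => k)
      · intro k; nlinarith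
      · exact tendsto_id
    have t1 := hκ.comp t0
    have t2 : Tendsto (fun k : ℕ => ((l + k * h : ℕ) : ℝ) / k) atTop (𝓝 h) := by
      have t3 : Tendsto (fun k : ℕ => (l : ℝ) / k + h) atTop (𝓝 (0 + h)) :=
        (tendsto_const_div_atTop_nhds_zero_nat (l : ℝ)).add_const _
      rw [zero_add] at t3
      refine t3.congr' ?_
      filter_upwards [eventually_ge_atTop 1] with k hk
      have : (k : ℝ) ≠ 0 := by positivity
      push_cast
      field_simp
    refine (t1.mul t2).congr' ?_
    filter_upwards [eventually_ge_atTop 1] with k hk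
    have hk0 : (k : ℝ) ≠ 0 := by positivity
    have hk1 : ((l + k * h : ℕ) : ℝ) ≠ 0 := by
      have : 0 < l + k * h := by positivity
      exact_mod_cast this.ne'
    simp only [Function.comp]
    field_simp
  have limc : ∀ a : ℝ, Tendsto (fun k : ℕ => a + Real.log (u l) / k) atTop (𝓝 a) := by
    intro a
    have := (tendsto_const_div_atTop_nhds_zero_nat (Real.log (u l))).const_add a
    rwa [add_zero] at this
  have c1 : -κ * h ≤ Real.log (K l * ρ) := by
    refine le_of_tendsto_of_tendsto lim1 (limc _) ?_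
    filter_upwards [eventually_ge_atTop 1] with k hk
    have hk0 : (0 : ℝ) < k := by positivity
    have q := Real.log_le_log (hu _) (up k)
    rw [Real.log_mul (pow_pos (by positivity) _).ne' (hu l).ne', Real.log_pow] at q
    rw [div_le_iff₀ hk0]
    have : (Real.log (K l * ρ) + Real.log (u l) / k) * k =
      k * Real.log (K l * ρ) + Real.log (u l) := by field_simp
    rw [this]
    exact q
  have c2 : Real.log (ρ / K l) ≤ -κ * h := by
    refine le_of_tendsto_of_tendsto (limc _) lim1 ?_
    filter_upwards [eventually_ge_atTop 1] with k hk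
    have hk0 : (0 : ℝ) < k := by positivity
    have q := Real.log_le_log (mul_pos (pow_pos (by positivity) _) (hu l)) (low k)
    rw [Real.log_mul (pow_pos (by positivity) _).ne' (hu l).ne', Real.log_pow] at q
    rw [le_div_iff₀ hk0]
    have : (Real.log (ρ / K l) + Real.log (u l) / k) * k =
      k * Real.log (ρ / K l) + Real.log (u l) := by field_simp
    rw [this]
    exact q
  have d1 : Real.exp (-κ * h) ≤ K l * ρ := by
    rw [← Real.exp_log (show 0 < K l * ρ by positivity)]
    exact Real.exp_le_exp.mpr c1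
  have d2 : ρ ≤ K l * Real.exp (-κ * h) := by
    have : ρ / K l ≤ Real.exp (-κ * h) := by
      rw [← Real.exp_log (show 0 < ρ / K l by positivity)]
      exact Real.exp_le_exp.mpr c2
    rw [div_le_iff₀ hK0] at this
    linarith
  rw [ee, eρ]
  have hp : 0 < u l * Real.exp (-κ * l) := mul_pos (hu l) hE
  constructor
  · have := mul_le_mul_of_nonneg_right d2 hp.le
    calc ρ * u l * Real.exp (-κ * l) = ρ * (u l * Real.exp (-κ * l)) := by ring
      _ ≤ _ := this
      _ = _ := by ring
  · have := mul_le_mul_of_nonneg_right d1 hp.le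
    calc _ = Real.exp (-κ * h) * (u l * Real.exp (-κ * l)) := by ring
      _ ≤ _ := this
      _ = _ := by ring

/-- the combination: two rooms -/
theorem combine {l₀ : ℕ} {K u : ℕ → ℝ} {κ : ℝ} (hK1 : ∀ l, 1 ≤ K l) (hK : Tendsto K atTop (𝓝 1))
    (hu : ∀ l, 0 < u l)
    (hκ : Tendsto (fun l : ℕ => Real.log (u l) / l) atTop (𝓝 (-κ)))
    (h1 : ∀ l g h, l₀ ≤ l → u (l + g + h) * u l ≤ K l * (u (l + g) * u (l + h)))
    (h2 : ∀ l g h, l₀ ≤ l → u (l + g) * u (l + h) ≤ K l * (u (l + g + h) * u l)) :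
    ∃ A : ℝ, 0 < A ∧ ∀ l, l₀ ≤ l → u l ≤ K l * (A * Real.exp (-κ * l)) ∧
      A * Real.exp (-κ * l) ≤ K l * u l := by
  obtain ⟨A, hA, h3⟩ := ratio_lim (l₀ := l₀) (K := K) (x := u)
    (u := fun l => Real.exp (-κ * l)) hK1 hK (fun l => (hu l).le) (fun l => Real.exp_pos _)
    (fun l h hl => (exp_rate hK1 hu hκ h1 h2 l h hl).1)
    (fun l h hl => (exp_rate hK1 hu hκ h1 h2 l h hl).2)
  refine ⟨A, ?_, h3⟩
  rcases eq_or_lt_of_le hA with h0 | h0
  · exfalso
    have := (h3 l₀ le_rfl).1
    rw [← h0, zero_mul, mul_zero] at this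
    exact absurd (hu l₀) (not_lt.mpr this)
  · exact h0

end Pool.Agent.D0H47.GR
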