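import Pool.Agent.D0H47.GR.Dumb
import Pool.Agent.D0H47.GR.HU

/-!
Exact exponential asymptotics in long corridors.
-/

set_option autoImplicit false
set_option maxHeartbeats 1000000

namespace Pool.Agent.D0H47.GR

open H974 H12S Filter Topology

/-- the constant of the error term -/
noncomputable def cC : ℝ := Real.exp (2 * dl) / dl^2

theorem cC_pos : 0 < cC := div_pos (Real.exp_pos _) (pow_pos dl_pos 2)

/-- the error factor -/
noncomputable def Kf (n l : ℕ) : ℝ := 1 + cC * Real.exp (-(dl / 3) * ((l : ℝ) / n))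

theorem Kf_one (n l : ℕ) : 1 ≤ Kf n l := by
  unfold Kf
  have := mul_pos cC_pos (Real.exp_pos (-(dl / 3) * ((l : ℝ) / n)))
  linarith

theorem Kf_le (n l : ℕ) : Kf n l ≤ 1 + cC := by
  unfold Kf
  have h1 : Real.exp (-(dl / 3) * ((l : ℝ) / n)) ≤ 1 := by
    rw [Real.exp_le_one_iff]
    have h2 := dl_pos
    have h3 : (0:ℝ) ≤ (l : ℝ) / n := by positivity
    have h4 := mul_nonneg (show (0:ℝ) ≤ dl / 3 by linarith) h3
    linarith
  have := mul_le_mul_of_nonneg_left h1 cC_pos.le
  linarith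

theorem Kf_tendsto {n : ℕ} (hn : 1 ≤ n) : Tendsto (Kf n) atTop (𝓝 1) := by
  have hnr : (0:ℝ) < n := by exact_mod_cast hn
  have h0 := dl_pos
  have h1 : Tendsto (fun l : ℕ => (dl / 3) * ((l : ℝ) / n)) atTop atTop :=
    (tendsto_natCast_atTop_atTop.atTop_div_const hnr).const_mul_atTop (by linarith)
  have h2 : Tendsto (fun l : ℕ => Real.exp (-((dl / 3) * ((l : ℝ) / n)))) atTop (𝓝 0) :=
    Real.tendsto_exp_neg_atTop_nhds_zero.comp h1
  have h3 := (h2.const_mul cC).const_add 1
  rw [mul_zero, add_zero] at h3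
  refine h3.congr ?_
  intro l
  unfold Kf
  rw [neg_mul]

theorem Kf_bound {n l : ℕ} (hn : 1 ≤ n) (hl : 2 * n + 1 ≤ l) : ∃ k : ℕ,
    ((k : ℤ) + 1) * (2 * (n : ℤ) + 1) ≤ l ∧ 1 + (1 - dl)^k / dl^2 ≤ Kf n l := by
  obtain ⟨k, hk⟩ : ∃ k, l / (2 * n + 1) = k + 1 :=
    ⟨l / (2 * n + 1) - 1, by
      have : 1 ≤ l / (2 * n + 1) := (Nat.one_le_div_iff (by omega)).mpr hl
      omega⟩
  have h1 : (k + 1) * (2 * n + 1) ≤ l := by rw [← hk]; exact Nat.div_mul_le_self _ _
  have h2 : l < (k + 2) * (2 * n + 1) := by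
    have := Nat.lt_mul_div_succ l (show 0 < 2 * n + 1 by omega)
    rw [hk] at this
    calc l < (2 * n + 1) * (k + 1 + 1) := this
      _ = _ := by ring
  refine ⟨k, by exact_mod_cast h1, ?_⟩
  unfold Kf cC
  have hnr : (1:ℝ) ≤ n := by exact_mod_cast hn
  have h0 := dl_pos
  have h01 := dl_lt
  have h3 : (l : ℝ) / n / 3 ≤ k + 2 := by
    have h4 : (l : ℝ) < (k + 2) * (2 * n + 1) := by exact_mod_cast h2
    rw [div_div, div_le_iff₀ (by positivity)]
    have : ((k:ℝ) + 2) * (2 * n + 1) ≤ (k + 2) * (n * 3) :=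
      mul_le_mul_of_nonneg_left (by linarith) (by positivity)
    linarith
  have h5 : (1 - dl)^k ≤ Real.exp (2 * dl) * Real.exp (-(dl / 3) * ((l : ℝ) / n)) := by
    have h6 : 1 - dl ≤ Real.exp (-dl) := by
      have := Real.add_one_le_exp (-dl)
      linarith
    calc (1 - dl)^k ≤ Real.exp (-dl)^k := pow_le_pow_left₀ (by linarith) h6 k
      _ = Real.exp (-dl * k) := by rw [← Real.exp_nat_mul]; congr 1; ring
      _ ≤ Real.exp (2 * dl + -(dl / 3) * ((l : ℝ) / n)) := by
          apply Real.exp_le_exp.mpr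
          have := mul_le_mul_of_nonneg_left h3 h0.le
          have e : dl * ((l : ℝ) / n / 3) = (dl / 3) * ((l : ℝ) / n) := by ring
          rw [e] at this
          linarith
      _ = _ := Real.exp_add _ _
  have h7 := div_le_div_of_nonneg_right h5 (show 0 ≤ dl^2 by positivity)
  have e : Real.exp (2 * dl) / dl^2 * Real.exp (-(dl / 3) * ((l : ℝ) / n)) =
      Real.exp (2 * dl) * Real.exp (-(dl / 3) * ((l : ℝ) / n)) / dl^2 := by ring
  rw [e]
  linarith

/-- **Factorization.** -/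
theorem factN {n : ℕ} (hn : 1 ≤ n) {EL EL' : Finset Edg} {S S' : Set Vtx}
    (hL : LOk 0 n EL S) (hL' : LOk 0 n EL' S') {ER ER' : Finset Edg} {T T' : Set Vtx}
    (hR : ROk 0 ER T) (hR' : ROk 0 ER' T') {l : ℕ} (hl : 2 * n + 1 ≤ l) (g h g' h' : ℕ) :
    fW n EL S ER T (l + g + h : ℕ) * fW n EL' S' ER' T' (l + g' + h' : ℕ) ≤
      Kf n l * (fW n EL' S' ER T (l + g' + h : ℕ) * fW n EL S ER' T' (l + g + h' : ℕ)) := by
  obtain ⟨k, hk, hK⟩ := Kf_bound hn hl
  have h1 := factG (n := n) (by exact_mod_cast hn) hL hL' hR hR' (l := l) (g := g) (h := h)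
    (g' := g') (h' := h') (by positivity) (by positivity) (by positivity) (by positivity) hk
  push_cast
  refine h1.trans (mul_le_mul_of_nonneg_right hK ?_)
  exact mul_nonneg (Wc_nonneg _ _ _ _ _ _ _) (Wc_nonneg _ _ _ _ _ _ _)

theorem side_LOk (n : ℕ) : LOk 0 n (ELf n (side n)) ↑(side n) :=
  LOk_f (fun _ hv => (mem_side.mp hv).1.le) (fun _ hv => (mem_side.mp hv).1.le)

theorem side_ROk (n : ℕ) : ROk 0 (ERf n (side n)) ↑(side n) :=
  ROk_f (fun _ hv => (mem_side.mp hv).1.ge) (fun _ hv => (mem_side.mp hv).1.ge)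

theorem p_pos' (n l : ℕ) : 0 < p l n := by
  rcases Nat.eq_zero_or_pos l with rfl | hl
  · rw [Nat.cast_zero, p_zero (by positivity)]
    norm_num
  · exact p_pos (by exact_mod_cast hl) (by positivity)

/-- the plain corridor -/
theorem corrA {n : ℕ} (hn : 1 ≤ n) : ∃ A : ℝ, 0 < A ∧ ∀ l : ℕ, 2 * n + 1 ≤ l →
    p l n ≤ Kf n l * (A * Real.exp (-kap n * l)) ∧ A * Real.exp (-kap n * l) ≤ Kf n l * p l n := by
  apply combine (K := Kf n) (u := fun l : ℕ => p l n) (κ := kap n) (Kf_one n) (Kf_tendsto hn)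
    (fun l => p_pos' n l) (kap_tendsto (n := n) (by positivity))
  · intro l g h hl
    have := factN hn (side_LOk n) (side_LOk n) (side_ROk n) (side_ROk n) hl g h 0 0
    simp only [add_zero] at this
    rw [fW_side (by omega), fW_side (by omega), fW_side (by omega), fW_side (by omega)] at this
    rw [mul_comm (p (l + g : ℕ) n)]
    exact this
  · intro l g h hl
    have := factN hn (side_LOk n) (side_LOk n) (side_ROk n) (side_ROk n) hl g 0 0 h
    simp only [add_zero] at this
    rw [fW_side (by omega), fW_side (by omega), fW_side (by omega), fW_side (by omega)] at this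
    rw [mul_comm (p (l + g + h : ℕ) n)]
    exact this

/-- a room on the left -/
theorem corrL {n : ℕ} (hn : 1 ≤ n) {EL : Finset Edg} {S : Set Vtx} (hL : LOk 0 n EL S) :
    ∃ α : ℝ, 0 ≤ α ∧ ∀ l : ℕ, 2 * n + 1 ≤ l →
      fW n EL S (ERf n (side n)) ↑(side n) l ≤ Kf n l * (α * p l n) ∧
      α * p l n ≤ Kf n l * fW n EL S (ERf n (side n)) ↑(side n) l := by
  apply ratio_lim (K := Kf n) (x := fun l : ℕ => fW n EL S (ERf n (side n)) ↑(side n) l)
    (u := fun l : ℕ => p l n) (Kf_one n) (Kf_tendsto hn) (fun l => Wc_nonneg _ _ _ _ _ _ _)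
    (fun l => p_pos' n l)
  · intro l h hl
    have := factN hn hL (side_LOk n) (side_ROk n) (side_ROk n) hl 0 h 0 0
    simp only [add_zero] at this
    rw [fW_side (by omega), fW_side (by omega)] at this
    rw [mul_comm (fW n EL S (ERf n (side n)) ↑(side n) (l : ℕ))]
    exact this
  · intro l h hl
    have := factN hn hL (side_LOk n) (side_ROk n) (side_ROk n) hl 0 0 0 h
    simp only [add_zero] at this
    rw [fW_side (by omega), fW_side (by omega)] at this
    rw [mul_comm (fW n EL S (ERf n (side n)) ↑(side n) (l + h : ℕ))]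
    exact this

/-- a room on the right -/
theorem corrR {n : ℕ} (hn : 1 ≤ n) {ER : Finset Edg} {T : Set Vtx} (hR : ROk 0 ER T) :
    ∃ β : ℝ, 0 ≤ β ∧ ∀ l : ℕ, 2 * n + 1 ≤ l →
      fW n (ELf n (side n)) ↑(side n) ER T l ≤ Kf n l * (β * p l n) ∧
      β * p l n ≤ Kf n l * fW n (ELf n (side n)) ↑(side n) ER T l := by
  apply ratio_lim (K := Kf n) (x := fun l : ℕ => fW n (ELf n (side n)) ↑(side n) ER T l)
    (u := fun l : ℕ => p l n) (Kf_one n) (Kf_tendsto hn) (fun l => Wc_nonneg _ _ _ _ _ _ _)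
    (fun l => p_pos' n l)
  · intro l h hl
    have := factN hn (side_LOk n) (side_LOk n) hR (side_ROk n) hl h 0 0 0
    simp only [add_zero] at this
    rw [fW_side (by omega), fW_side (by omega)] at this
    exact this
  · intro l h hl
    have := factN hn (side_LOk n) (side_LOk n) hR (side_ROk n) hl 0 0 h 0
    simp only [add_zero] at this
    rw [fW_side (by omega), fW_side (by omega)] at this
    exact this

/-- both rooms -/
theorem corrLR {n : ℕ} (hn : 1 ≤ n) {EL : Finset Edg} {S : Set Vtx} (hL : LOk 0 n EL S)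
    {ER : Finset Edg} {T : Set Vtx} (hR : ROk 0 ER T) {l : ℕ} (hl : 2 * n + 1 ≤ l) :
    fW n EL S ER T l * p l n ≤ Kf n l * (fW n (ELf n (side n)) ↑(side n) ER T l *
      fW n EL S (ERf n (side n)) ↑(side n) l) ∧
    fW n EL S (ERf n (side n)) ↑(side n) l * fW n (ELf n (side n)) ↑(side n) ER T l ≤
      Kf n l * (p l n * fW n EL S ER T l) := by
  constructor
  · have := factN hn hL (side_LOk n) hR (side_ROk n) hl 0 0 0 0
    simp only [add_zero] at this
    rw [fW_side (n := n) (l := l) (by omega)] at this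
    exact this
  · have := factN hn hL (side_LOk n) (side_ROk n) hR hl 0 0 0 0
    simp only [add_zero] at this
    rw [fW_side (n := n) (l := l) (by omega)] at this
    exact this

end Pool.Agent.D0H47.GR
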