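import Pool.Agent.D0H47.GR.Fin

/-!
Exact exponential asymptotics in long corridors: final form.
-/

set_option autoImplicit false
set_option maxHeartbeats 1000000

namespace Pool.Agent.D0H47.GR

open H974 H12S Filter Topology

theorem close_of {w E t M : ℝ} (hE : 0 ≤ E) (ht : 0 ≤ t) (htM : t ≤ M)
    (h1 : w ≤ (1 + t)^4 * E) (h2 : E ≤ (1 + t)^4 * w) :
    |w - E| ≤ t * (4 + 6 * M + 4 * M^2 + M^3) * E := by
  set z := (1 + t)^4 with hz
  have hz1 : 1 ≤ z := one_le_pow₀ (by linarith)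
  have hzM : z - 1 ≤ t * (4 + 6 * M + 4 * M^2 + M^3) := by
    have e : z - 1 = t * (4 + 6 * t + 4 * t^2 + t^3) := by rw [hz]; ring
    rw [e]
    apply mul_le_mul_of_nonneg_left _ ht
    have q1 : t^2 ≤ M^2 := pow_le_pow_left₀ ht htM 2
    have q2 : t^3 ≤ M^3 := pow_le_pow_left₀ ht htM 3
    linarith
  have hw : 0 ≤ w := by
    have : 0 ≤ z * w := hE.trans h2
    exact nonneg_of_mul_nonneg_right this (by linarith)
  have hkey : |w - E| ≤ (z - 1) * E := by
    rw [abs_le]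
    constructor
    · -- `(2 - z) E ≤ w`
      have h3 : (2 - z) * E ≤ w := by
        have h4 : z * ((2 - z) * E) ≤ z * w := by
          refine le_trans ?_ h2
          have : z * (2 - z) ≤ 1 := by nlinarith [sq_nonneg (z - 1)]
          have := mul_le_mul_of_nonneg_right this hE
          linarith
        exact le_of_mul_le_mul_left h4 (by linarith)
      linarith
    · linarith
  exact hkey.trans (mul_le_mul_of_nonneg_right hzM hE)

theorem p_three {n : ℕ} (hn : 1 ≤ n) : (1/2 : ℝ)^47 ≤ p (3 * n : ℕ) n := by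
  by_cases h1 : n = 1
  · subst h1
    have := p_ge_pow (m := 3 * 1) (n := ((1 : ℕ) : ℤ)) (by norm_num) (by norm_num)
    refine le_trans ?_ this
    norm_num
  · by_cases h3 : n = 3
    · subst h3
      have := p_ge_pow (m := 3 * 3) (n := ((3 : ℕ) : ℤ)) (by norm_num) (by norm_num)
      refine le_trans ?_ this
      norm_num
    · exact rsw (n := ((n / 2 : ℕ) : ℤ)) (by omega) (by omega) (by omega) (by omega)

theorem exp_ge {n l : ℕ} (hn : 1 ≤ n) (hl : l ≤ 3 * n) :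
    Real.exp (-(294 * Real.log 2)) ≤ Real.exp (-kap n * l) := by
  apply Real.exp_le_exp.mpr
  have h1 := kap_upper (n := n) (by exact_mod_cast hn)
  have hnr : (1:ℝ) ≤ n := by exact_mod_cast hn
  have hk : 0 ≤ kap n := by
    refine le_trans ?_ (kap_lower (n := n) (by exact_mod_cast hn))
    have := Real.log_pos (show (1:ℝ) < 2 by norm_num)
    positivity
  have h2 : kap n * n ≤ 98 * Real.log 2 := by
    have := mul_le_mul_of_nonneg_right h1 (show (0:ℝ) ≤ n by linarith)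
    have e : 98 * Real.log 2 / ((n : ℤ) : ℝ) * n = 98 * Real.log 2 := by
      push_cast
      field_simp
    rw [e] at this
    exact this
  have h3 : (l : ℝ) ≤ 3 * n := by exact_mod_cast hl
  have h4 := mul_le_mul_of_nonneg_left h3 hk
  linarith

/-- the constant of the final error term -/
noncomputable def cM : ℝ := cC * (4 + 6 * cC + 4 * cC^2 + cC^3)

theorem corrA2 {n : ℕ} (hn : 1 ≤ n) : ∃ A : ℝ, (1/2 : ℝ)^47 / (1 + cC) ≤ A ∧
    A ≤ (1 + cC) * Real.exp (294 * Real.log 2) ∧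
    ∀ l : ℕ, 2 * n + 1 ≤ l → p l n ≤ Kf n l * (A * Real.exp (-kap n * l)) ∧
      A * Real.exp (-kap n * l) ≤ Kf n l * p l n := by
  obtain ⟨A, hA, h⟩ := corrA hn
  refine ⟨A, ?_, ?_, h⟩
  · have h1 := (h (3 * n) (by omega)).1
    have h2 := p_three hn
    have h3 := Kf_le n (3 * n)
    have h4 := cC_pos
    rw [div_le_iff₀ (by linarith)]
    have h5 : Real.exp (-kap n * ((3 * n : ℕ) : ℝ)) ≤ 1 := by
      rw [Real.exp_le_one_iff]
      have hk : 0 ≤ kap n := by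
        refine le_trans ?_ (kap_lower (n := n) (by exact_mod_cast hn))
        have := Real.log_pos (show (1:ℝ) < 2 by norm_num)
        positivity
      have := mul_nonneg hk (show (0:ℝ) ≤ ((3 * n : ℕ) : ℝ) by positivity)
      linarith
    have h6 : A * Real.exp (-kap n * ((3 * n : ℕ) : ℝ)) ≤ A := by
      have := mul_le_mul_of_nonneg_left h5 hA.le
      linarith
    have h7 : Kf n (3 * n) * (A * Real.exp (-kap n * ((3 * n : ℕ) : ℝ))) ≤ (1 + cC) * A :=
      mul_le_mul h3 h6 (mul_nonneg hA.le (Real.exp_pos _).le) (by linarith)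
    linarith
  · have h1 := (h (3 * n) (by omega)).2
    have h2 : p (3 * n : ℕ) n ≤ 1 := p_le_one _ _
    have h3 := Kf_le n (3 * n)
    have h4 := cC_pos
    have h5 := exp_ge hn (le_refl (3 * n))
    have h6 : A * Real.exp (-(294 * Real.log 2)) ≤ 1 + cC := by
      have q1 := mul_le_mul_of_nonneg_left h5 hA.le
      have q2 : Kf n (3 * n) * p (3 * n : ℕ) n ≤ (1 + cC) * 1 :=
        mul_le_mul h3 h2 (p_nonneg _ _) (by linarith)
      linarith
    rw [Real.exp_neg, ← div_eq_mul_inv, div_le_iff₀ (Real.exp_pos _)] at h6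
    exact h6

theorem pair_real {w x y u K A α β e : ℝ} (hu0 : 0 < u) (hx0 : 0 ≤ x) (hy0 : 0 ≤ y)
    (he0 : 0 < e) (hK1 : 1 ≤ K) (hA : 0 ≤ A) (hα : 0 ≤ α) (hβ : 0 ≤ β)
    (h1 : w * u ≤ K * (y * x)) (h2 : x * y ≤ K * (u * w)) (hA1 : u ≤ K * (A * e))
    (hA2 : A * e ≤ K * u) (hα1 : x ≤ K * (α * u)) (hα2 : α * u ≤ K * x)
    (hβ1 : y ≤ K * (β * u)) (hβ2 : β * u ≤ K * y) :
    w ≤ K^4 * (α * (A * β) * e) ∧ α * (A * β) * e ≤ K^4 * w := by
  have hK0 : 0 ≤ K := by linarith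
  have a1 : w ≤ K^3 * (α * β * u) := by
    have q : w * u ≤ (K^3 * (α * β * u)) * u := by
      calc w * u ≤ K * (y * x) := h1
        _ ≤ K * ((K * (β * u)) * (K * (α * u))) := by
            apply mul_le_mul_of_nonneg_left _ hK0
            exact mul_le_mul hβ1 hα1 hx0 (by positivity)
        _ = _ := by ring
    exact le_of_mul_le_mul_right q hu0
  have a2 : α * β * u ≤ K^3 * w := by
    have q : (α * β * u) * u ≤ (K^3 * w) * u := by
      calc (α * β * u) * u = (α * u) * (β * u) := by ring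
        _ ≤ (K * x) * (K * y) := mul_le_mul hα2 hβ2 (by positivity) (by positivity)
        _ = K^2 * (x * y) := by ring
        _ ≤ K^2 * (K * (u * w)) := mul_le_mul_of_nonneg_left h2 (by positivity)
        _ = _ := by ring
    exact le_of_mul_le_mul_right q hu0
  constructor
  · calc w ≤ K^3 * (α * β * u) := a1
      _ ≤ K^3 * (α * β * (K * (A * e))) := by
          apply mul_le_mul_of_nonneg_left _ (by positivity)
          exact mul_le_mul_of_nonneg_left hA1 (by positivity)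
      _ = _ := by ring
  · calc α * (A * β) * e = α * β * (A * e) := by ring
      _ ≤ α * β * (K * u) := mul_le_mul_of_nonneg_left hA2 (by positivity)
      _ = K * (α * β * u) := by ring
      _ ≤ K * (K^3 * w) := mul_le_mul_of_nonneg_left a2 hK0
      _ = _ := by ring

/-- everything for one pair of rooms -/
theorem pair {n : ℕ} (hn : 1 ≤ n) {EL : Finset Edg} {S : Set Vtx} (hL : LOk 0 n EL S)
    {ER : Finset Edg} {T : Set Vtx} (hR : ROk 0 ER T) {A α β : ℝ} (hA : 0 ≤ A) (hα : 0 ≤ α)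
    (hβ : 0 ≤ β) {l : ℕ} (hl : 2 * n + 1 ≤ l)
    (hA1 : p l n ≤ Kf n l * (A * Real.exp (-kap n * l)))
    (hA2 : A * Real.exp (-kap n * l) ≤ Kf n l * p l n)
    (hα1 : fW n EL S (ERf n (side n)) ↑(side n) l ≤ Kf n l * (α * p l n))
    (hα2 : α * p l n ≤ Kf n l * fW n EL S (ERf n (side n)) ↑(side n) l)
    (hβ1 : fW n (ELf n (side n)) ↑(side n) ER T l ≤ Kf n l * (β * p l n))
    (hβ2 : β * p l n ≤ Kf n l * fW n (ELf n (side n)) ↑(side n) ER T l) :
    |fW n EL S ER T l - α * (A * β) * Real.exp (-kap n * l)| ≤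
      cM * Real.exp (-(dl / 3) * ((l : ℝ) / n)) *
        (α * (A * β) * Real.exp (-kap n * l)) := by
  obtain ⟨h1, h2⟩ := corrLR hn hL hR hl
  obtain ⟨a3, a4⟩ := pair_real (p_pos' n l) (Wc_nonneg _ _ _ _ _ _ _) (Wc_nonneg _ _ _ _ _ _ _)
    (Real.exp_pos (-kap n * l)) (Kf_one n l) hA hα hβ h1 h2 hA1 hA2 hα1 hα2 hβ1 hβ2
  have ht0 : 0 ≤ cC * Real.exp (-(dl / 3) * ((l : ℝ) / n)) :=
    mul_nonneg cC_pos.le (Real.exp_pos _).le
  have hKe : Kf n l = 1 + cC * Real.exp (-(dl / 3) * ((l : ℝ) / n)) := rfl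
  have htC : cC * Real.exp (-(dl / 3) * ((l : ℝ) / n)) ≤ cC := by
    have := Kf_le n l
    rw [hKe] at this
    linarith
  rw [hKe] at a3 a4
  have hE0 : 0 ≤ α * (A * β) * Real.exp (-kap n * l) :=
    mul_nonneg (mul_nonneg hα (mul_nonneg hA hβ)) (Real.exp_pos _).le
  have := close_of hE0 ht0 htC a3 a4
  refine this.trans (le_of_eq ?_)
  unfold cM
  ring

theorem cM_pos : 0 < cM := by
  unfold cM
  have := cC_pos
  positivity

/-- **Rooms joined by a long corridor.** -/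
theorem rooms : ∃ c C : ℝ, 0 < c ∧ 0 < C ∧ ∀ n : ℕ, 1 ≤ n →
    ∃ α β : Finset (ℤ × ℤ) → Set (ℤ × ℤ) → ℝ, ∀ (D₁ D₂ : Finset (ℤ × ℤ)) (S T : Set (ℤ × ℤ)),
      (∀ v ∈ D₁, v.1 ≤ 0) → (∀ v ∈ D₂, 0 ≤ v.1) → S ⊆ ↑D₁ → T ⊆ ↑D₂ →
      (c * fW n (ELf n D₁) S (ERf n (side n)) ↑(side n) (3 * n : ℕ) ≤ α D₁ S ∧
        α D₁ S ≤ C * fW n (ELf n D₁) S (ERf n (side n)) ↑(side n) (3 * n : ℕ)) ∧
      (c * fW n (ELf n (side n)) ↑(side n) (ERf n D₂) T (3 * n : ℕ) ≤ β D₂ T ∧
        β D₂ T ≤ C * fW n (ELf n (side n)) ↑(side n) (ERf n D₂) T (3 * n : ℕ)) ∧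
      ∀ l : ℕ, 3 * n ≤ l →
        |fW n (ELf n D₁) S (ERf n D₂) T l - α D₁ S * β D₂ T * Real.exp (-kap n * l)| ≤
          C * Real.exp (-c * ((l : ℝ) / n)) * (α D₁ S * β D₂ T * Real.exp (-kap n * l)) := by
  have hdl := dl_pos
  have hcC := cC_pos
  set cA := (1/2 : ℝ)^47 / (1 + cC) with hcA
  set CA := (1 + cC) * Real.exp (294 * Real.log 2) with hCA
  have hcA0 : 0 < cA := by rw [hcA]; positivity
  have hCA0 : 0 < CA := by rw [hCA]; positivity
  set c := min (dl / 3) (min (1 / (1 + cC)) (cA / (1 + cC))) with hc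
  set C := max cM (max ((1 + cC) * 2^47) (CA * ((1 + cC) * 2^47))) with hC
  have hc0 : 0 < c := by
    rw [hc]
    exact lt_min (by linarith) (lt_min (by positivity) (by positivity))
  have hC0 : 0 < C := lt_max_of_lt_left cM_pos
  have c1 : c ≤ dl / 3 := min_le_left _ _
  have c2 : c ≤ 1 / (1 + cC) := (min_le_right _ _).trans (min_le_left _ _)
  have c3 : c ≤ cA / (1 + cC) := (min_le_right _ _).trans (min_le_right _ _)
  have C1 : cM ≤ C := le_max_left _ _
  have C2 : (1 + cC) * 2^47 ≤ C := (le_max_left _ _).trans (le_max_right _ _)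
  have C3 : CA * ((1 + cC) * 2^47) ≤ C := (le_max_right _ _).trans (le_max_right _ _)
  refine ⟨c, C, hc0, hC0, ?_⟩
  intro n hn
  obtain ⟨A, hA1, hA2, hA3⟩ := corrA2 hn
  have hA0 : 0 < A := hcA0.trans_le hA1
  have hα : ∀ (D : Finset (ℤ × ℤ)) (S : Set (ℤ × ℤ)), ∃ a : ℝ, 0 ≤ a ∧
      ((∀ v ∈ D, v.1 ≤ 0) → S ⊆ ↑D → ∀ l : ℕ, 2 * n + 1 ≤ l →
        fW n (ELf n D) S (ERf n (side n)) ↑(side n) l ≤ Kf n l * (a * p l n) ∧
        a * p l n ≤ Kf n l * fW n (ELf n D) S (ERf n (side n)) ↑(side n) l) := by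
    intro D S
    by_cases h : (∀ v ∈ D, v.1 ≤ 0) ∧ S ⊆ ↑D
    · obtain ⟨a, ha, h2⟩ := corrL hn (LOk_f (n := n) h.1 (fun v hv => h.1 v (h.2 hv)))
      exact ⟨a, ha, fun _ _ => h2⟩
    · exact ⟨0, le_rfl, fun h1 h2 => absurd ⟨h1, h2⟩ h⟩
  have hβ : ∀ (D : Finset (ℤ × ℤ)) (S : Set (ℤ × ℤ)), ∃ a : ℝ, 0 ≤ a ∧
      ((∀ v ∈ D, 0 ≤ v.1) → S ⊆ ↑D → ∀ l : ℕ, 2 * n + 1 ≤ l →
        fW n (ELf n (side n)) ↑(side n) (ERf n D) S l ≤ Kf n l * (a * p l n) ∧
        a * p l n ≤ Kf n l * fW n (ELf n (side n)) ↑(side n) (ERf n D) S l) := by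
    intro D S
    by_cases h : (∀ v ∈ D, 0 ≤ v.1) ∧ S ⊆ ↑D
    · obtain ⟨a, ha, h2⟩ := corrR hn (ROk_f (n := n) h.1 (fun v hv => h.1 v (h.2 hv)))
      exact ⟨a, ha, fun _ _ => h2⟩
    · exact ⟨0, le_rfl, fun h1 h2 => absurd ⟨h1, h2⟩ h⟩
  choose α hα0 hα1 using hα
  choose β hβ0 hβ1 using hβ
  refine ⟨α, fun D T => A * β D T, ?_⟩
  intro D₁ D₂ S T h1 h2 hS hT
  have p3 := p_three hn
  have p1 : p (3 * n : ℕ) n ≤ 1 := p_le_one _ _
  have hKC := Kf_le n (3 * n)
  have hK1 := Kf_one n (3 * n)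
  -- comparison of a constant with the probability
  have cmp : ∀ a x : ℝ, 0 ≤ a → 0 ≤ x → x ≤ Kf n (3 * n) * (a * p (3 * n : ℕ) n) →
      a * p (3 * n : ℕ) n ≤ Kf n (3 * n) * x →
      x ≤ (1 + cC) * a ∧ a ≤ (1 + cC) * 2^47 * x := by
    intro a x ha hx q1 q2
    constructor
    · calc x ≤ Kf n (3 * n) * (a * p (3 * n : ℕ) n) := q1
        _ ≤ (1 + cC) * (a * 1) := mul_le_mul hKC (mul_le_mul_of_nonneg_left p1 ha)
            (mul_nonneg ha (p_nonneg _ _)) (by linarith)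
        _ = _ := by ring
    · have q3 : a * (1/2 : ℝ)^47 ≤ (1 + cC) * x :=
        (mul_le_mul_of_nonneg_left p3 ha).trans (q2.trans (mul_le_mul_of_nonneg_right hKC hx))
      have e : (1/2 : ℝ)^47 = 1 / 2^47 := by rw [div_pow, one_pow]
      rw [e, mul_one_div, div_le_iff₀ (by positivity)] at q3
      linarith
  have xL0 : 0 ≤ fW n (ELf n D₁) S (ERf n (side n)) ↑(side n) (3 * n : ℕ) :=
    Wc_nonneg _ _ _ _ _ _ _
  have xR0 : 0 ≤ fW n (ELf n (side n)) ↑(side n) (ERf n D₂) T (3 * n : ℕ) :=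
    Wc_nonneg _ _ _ _ _ _ _
  obtain ⟨m1, m2⟩ := cmp (α D₁ S) _ (hα0 _ _) xL0 (hα1 D₁ S h1 hS (3 * n) (by omega)).1
    (hα1 D₁ S h1 hS (3 * n) (by omega)).2
  obtain ⟨m3, m4⟩ := cmp (β D₂ T) _ (hβ0 _ _) xR0 (hβ1 D₂ T h2 hT (3 * n) (by omega)).1
    (hβ1 D₂ T h2 hT (3 * n) (by omega)).2
  have hcC1 : 0 < 1 + cC := by linarith
  refine ⟨⟨?_, ?_⟩, ⟨?_, ?_⟩, ?_⟩
  · calc _ ≤ 1 / (1 + cC) * fW n (ELf n D₁) S (ERf n (side n)) ↑(side n) (3 * n : ℕ) :=
          mul_le_mul_of_nonneg_right c2 xL0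
      _ ≤ 1 / (1 + cC) * ((1 + cC) * α D₁ S) :=
          mul_le_mul_of_nonneg_left m1 (by positivity)
      _ = α D₁ S := by field_simp
  · exact m2.trans (mul_le_mul_of_nonneg_right C2 xL0)
  · calc _ ≤ cA / (1 + cC) * fW n (ELf n (side n)) ↑(side n) (ERf n D₂) T (3 * n : ℕ) :=
          mul_le_mul_of_nonneg_right c3 xR0
      _ ≤ cA / (1 + cC) * ((1 + cC) * β D₂ T) :=
          mul_le_mul_of_nonneg_left m3 (by positivity)
      _ = cA * β D₂ T := by field_simp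
      _ ≤ A * β D₂ T := mul_le_mul_of_nonneg_right hA1 (hβ0 _ _)
  · calc A * β D₂ T ≤ CA * ((1 + cC) * 2^47 *
          fW n (ELf n (side n)) ↑(side n) (ERf n D₂) T (3 * n : ℕ)) :=
          mul_le_mul hA2 m4 (hβ0 _ _) hCA0.le
      _ = CA * ((1 + cC) * 2^47) *
          fW n (ELf n (side n)) ↑(side n) (ERf n D₂) T (3 * n : ℕ) := by ring
      _ ≤ _ := mul_le_mul_of_nonneg_right C3 xR0
  · intro l hl
    have hl' : 2 * n + 1 ≤ l := by omega
    have q := pair hn (LOk_f (n := n) h1 (fun v hv => h1 v (hS hv)))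
      (ROk_f (n := n) h2 (fun v hv => h2 v (hT hv))) hA0.le (hα0 D₁ S) (hβ0 D₂ T) hl'
      (hA3 l hl').1 (hA3 l hl').2 (hα1 D₁ S h1 hS l hl').1 (hα1 D₁ S h1 hS l hl').2
      (hβ1 D₂ T h2 hT l hl').1 (hβ1 D₂ T h2 hT l hl').2
    refine q.trans ?_
    have hE0 : 0 ≤ α D₁ S * (A * β D₂ T) * Real.exp (-kap n * l) :=
      mul_nonneg (mul_nonneg (hα0 _ _) (mul_nonneg hA0.le (hβ0 _ _))) (Real.exp_pos _).le
    apply mul_le_mul_of_nonneg_right _ hE0
    apply mul_le_mul C1 _ (Real.exp_pos _).le hC0.le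
    apply Real.exp_le_exp.mpr
    have h0 : (0:ℝ) ≤ (l : ℝ) / n := by positivity
    have := mul_le_mul_of_nonneg_right c1 h0
    linarith

/-- **The plain corridor.** -/
theorem plain : ∃ c C : ℝ, 0 < c ∧ 0 < C ∧ ∀ n : ℕ, 1 ≤ n → ∃ A : ℝ, c ≤ A ∧ A ≤ C ∧
    ∀ l : ℕ, |p l n - A * Real.exp (-kap n * l)| ≤
      C * Real.exp (-c * ((l : ℝ) / n)) * (A * Real.exp (-kap n * l)) := by
  have hdl := dl_pos
  have hcC := cC_pos
  set cA := (1/2 : ℝ)^47 / (1 + cC) with hcA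
  set CA := (1 + cC) * Real.exp (294 * Real.log 2) with hCA
  have hcA0 : 0 < cA := by rw [hcA]; positivity
  have hCA0 : 0 < CA := by rw [hCA]; positivity
  set c := min (dl / 3) cA with hc
  have hc0 : 0 < c := lt_min (by linarith) hcA0
  set B := (1 + CA) / (Real.exp (-c * 3) * (cA * Real.exp (-(294 * Real.log 2)))) with hB
  have hB0 : 0 < B := by rw [hB]; positivity
  refine ⟨c, max CA (max cM B), hc0, lt_max_of_lt_left hCA0, ?_⟩
  intro n hn
  obtain ⟨A, hA1, hA2, hA3⟩ := corrA2 hn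
  have hA0 : 0 < A := hcA0.trans_le hA1
  refine ⟨A, (min_le_right _ _).trans hA1, hA2.trans (le_max_left _ _), ?_⟩
  intro l
  have hnr : (1:ℝ) ≤ n := by exact_mod_cast hn
  have hE0 : 0 < A * Real.exp (-kap n * l) := mul_pos hA0 (Real.exp_pos _)
  by_cases hl : 2 * n + 1 ≤ l
  · obtain ⟨h1, h2⟩ := hA3 l hl
    have hKe : Kf n l = 1 + cC * Real.exp (-(dl / 3) * ((l : ℝ) / n)) := rfl
    set t := cC * Real.exp (-(dl / 3) * ((l : ℝ) / n)) with ht
    have ht0 : 0 ≤ t := mul_nonneg cC_pos.le (Real.exp_pos _).le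
    have htC : t ≤ cC := by
      have := Kf_le n l
      rw [hKe] at this
      linarith
    have hK4 : Kf n l ≤ (1 + t)^4 := by
      rw [hKe]
      exact le_self_pow₀ (by linarith) (by norm_num)
    have q := close_of hE0.le ht0 htC (h1.trans (mul_le_mul_of_nonneg_right hK4 hE0.le))
      (h2.trans (mul_le_mul_of_nonneg_right hK4 (p_nonneg _ _)))
    refine q.trans ?_
    apply mul_le_mul_of_nonneg_right _ hE0.le
    have e : t * (4 + 6 * cC + 4 * cC^2 + cC^3) =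
        cM * Real.exp (-(dl / 3) * ((l : ℝ) / n)) := by rw [ht]; unfold cM; ring
    rw [e]
    apply mul_le_mul ((le_max_left _ _).trans (le_max_right _ _)) _ (Real.exp_pos _).le
      (hCA0.le.trans (le_max_left _ _))
    apply Real.exp_le_exp.mpr
    have h0 : (0:ℝ) ≤ (l : ℝ) / n := by positivity
    have := mul_le_mul_of_nonneg_right (min_le_left (dl / 3) cA) h0
    linarith
  · have hl3 : l ≤ 3 * n := by omega
    have h1 := exp_ge hn hl3
    have h5 : Real.exp (-kap n * l) ≤ 1 := by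
      rw [Real.exp_le_one_iff]
      have hk : 0 ≤ kap n := by
        refine le_trans ?_ (kap_lower (n := n) (by exact_mod_cast hn))
        have := Real.log_pos (show (1:ℝ) < 2 by norm_num)
        positivity
      have := mul_nonneg hk (show (0:ℝ) ≤ (l : ℝ) by positivity)
      linarith
    have h6 : A * Real.exp (-kap n * l) ≤ CA := by
      have := mul_le_mul hA2 h5 (Real.exp_pos _).le hCA0.le
      linarith
    have h7 : |p l n - A * Real.exp (-kap n * l)| ≤ 1 + CA := by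
      have q1 : p l n ≤ 1 := p_le_one _ _
      have q2 : 0 ≤ p l n := p_nonneg _ _
      rw [abs_le]
      constructor <;> linarith
    refine h7.trans ?_
    have h8 : Real.exp (-c * 3) ≤ Real.exp (-c * ((l : ℝ) / n)) := by
      apply Real.exp_le_exp.mpr
      have : (l : ℝ) / n ≤ 3 := by
        rw [div_le_iff₀ (by linarith)]
        exact_mod_cast hl3
      have := mul_le_mul_of_nonneg_left this hc0.le
      linarith
    have h9 : cA * Real.exp (-(294 * Real.log 2)) ≤ A * Real.exp (-kap n * l) :=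
      mul_le_mul hA1 h1 (Real.exp_pos _).le hA0.le
    have h10 : Real.exp (-c * 3) * (cA * Real.exp (-(294 * Real.log 2))) ≤
        Real.exp (-c * ((l : ℝ) / n)) * (A * Real.exp (-kap n * l)) :=
      mul_le_mul h8 h9 (by positivity) (Real.exp_pos _).le
    calc 1 + CA = B * (Real.exp (-c * 3) * (cA * Real.exp (-(294 * Real.log 2)))) := by
          rw [hB]; field_simp
      _ ≤ B * (Real.exp (-c * ((l : ℝ) / n)) * (A * Real.exp (-kap n * l))) :=
          mul_le_mul_of_nonneg_left h10 hB0.le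
      _ ≤ max CA (max cM B) * (Real.exp (-c * ((l : ℝ) / n)) * (A * Real.exp (-kap n * l))) := by
          apply mul_le_mul_of_nonneg_right ((le_max_right _ _).trans (le_max_right _ _))
          positivity
      _ = _ := by ring

end Pool.Agent.D0H47.GR
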