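import Pool.Agent.D0H47.GR.Chain
import Pool.Agent.H974R2.Block
import Pool.Agent.H974R2.Split

/-!
The probability of the gadget is at least a constant divided by `m`: sliding a window of width `m`
along a strip in which there is a crossing at the beginning and none at the end.
-/

set_option autoImplicit false

namespace Pool.Agent.D0H47.GR

open H974 H12S Finset

/-- A crossing which is neither below nor above the middle band meets it. -/
theorem meets_band {F : Finset Edg} {a x h t : ℤ} (hax : a < x) (h1 : 1 ≤ h)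
    (hL : LRc a x 0 t F) (hlow : ¬ LRc a x 0 (h - 1) F) (hup : ¬ LRc a x (2 * h + 1) t F) :
    ∃ y z, Reach ((↑F : Set Edg) ∩ ↑(LRE a x 0 t)) (a, y) (x, z) ∧
      ∃ w : Vtx, Reach ((↑F : Set Edg) ∩ ↑(LRE a x 0 t)) (a, y) w ∧ (a ≤ w.1 ∧ w.1 ≤ x) ∧
        (h ≤ w.2 ∧ w.2 ≤ 2 * h) := by
  obtain ⟨y, y', hy, hy', hr⟩ := hL
  refine ⟨y, y', hr, ?_⟩
  by_contra hcon
  push Not at hcon
  have hB : ∀ w : Vtx, Reach ((↑F : Set Edg) ∩ ↑(LRE a x 0 t)) (a, y) w → a ≤ w.1 → w.1 ≤ x →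
      w.2 < h ∨ 2 * h < w.2 := by
    intro w hw k1 k2
    by_contra hc
    push Not at hc
    have := hcon w hw ⟨k1, k2⟩ hc.1
    omega
  rcases hB (a, y) (Reach.refl _ _) le_rfl hax.le with h0 | h0
  · simp only at h0
    have key : ∀ w, Reach ((↑F : Set Edg) ∩ ↑(LRE a x 0 t)) (a, y) w →
        Reach ((↑F : Set Edg) ∩ ↑(LRE a x 0 (h - 1))) (a, y) w ∧ (a ≤ w.1 ∧ w.1 ≤ x) ∧
          w.2 < h := by
      intro w hw
      induction hw with
      | refl => exact ⟨Reach.refl _ _, ⟨le_rfl, hax.le⟩, h0⟩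
      | @tail w w' hbw hs ih =>
        obtain ⟨ih1, ih2, ih3⟩ := ih
        have n2 := hB w' (hbw.tail hs)
        obtain ⟨e, ⟨heF, heT⟩, hc⟩ := hs
        have hE := LRE_ends (mem_coe.mp heT)
        have hall : (a ≤ w'.1 ∧ w'.1 ≤ x) ∧ w'.2 < h ∧ e ∈ LRE a x 0 (h - 1) := by
          rcases hc with ⟨h5, h6⟩ | ⟨h5, h6⟩
          · rw [h5, h6] at hE
            have := n2 (by omega) (by omega)
            exact ⟨by omega, by omega, LRE_rows (mem_coe.mp heT) (by rw [h5]; omega)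
              (by rw [h6]; omega)⟩
          · rw [h5, h6] at hE
            have := n2 (by omega) (by omega)
            exact ⟨by omega, by omega, LRE_rows (mem_coe.mp heT) (by rw [h5]; omega)
              (by rw [h6]; omega)⟩
        exact ⟨ih1.trans (Adj.reach ⟨e, ⟨heF, hall.2.2⟩, hc⟩), hall.1, hall.2.1⟩
    obtain ⟨k1, k2, k3⟩ := key _ hr
    simp only at k3
    exact hlow ⟨y, y', ⟨hy.1, by omega⟩, ⟨hy'.1, by omega⟩, k1⟩
  · simp only at h0
    have key : ∀ w, Reach ((↑F : Set Edg) ∩ ↑(LRE a x 0 t)) (a, y) w →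
        Reach ((↑F : Set Edg) ∩ ↑(LRE a x (2 * h + 1) t)) (a, y) w ∧ (a ≤ w.1 ∧ w.1 ≤ x) ∧
          2 * h < w.2 := by
      intro w hw
      induction hw with
      | refl => exact ⟨Reach.refl _ _, ⟨le_rfl, hax.le⟩, h0⟩
      | @tail w w' hbw hs ih =>
        obtain ⟨ih1, ih2, ih3⟩ := ih
        have n2 := hB w' (hbw.tail hs)
        obtain ⟨e, ⟨heF, heT⟩, hc⟩ := hs
        have hE := LRE_ends (mem_coe.mp heT)
        have hall : (a ≤ w'.1 ∧ w'.1 ≤ x) ∧ 2 * h < w'.2 ∧ e ∈ LRE a x (2 * h + 1) t := by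
          rcases hc with ⟨h5, h6⟩ | ⟨h5, h6⟩
          · rw [h5, h6] at hE
            have := n2 (by omega) (by omega)
            exact ⟨by omega, by omega, LRE_rows (mem_coe.mp heT) (by rw [h5]; omega)
              (by rw [h6]; omega)⟩
          · rw [h5, h6] at hE
            have := n2 (by omega) (by omega)
            exact ⟨by omega, by omega, LRE_rows (mem_coe.mp heT) (by rw [h5]; omega)
              (by rw [h6]; omega)⟩
        exact ⟨ih1.trans (Adj.reach ⟨e, ⟨heF, hall.2.2⟩, hc⟩), hall.1, hall.2.1⟩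
    obtain ⟨k1, k2, k3⟩ := key _ hr
    simp only at k3
    exact hup ⟨y, y', ⟨by omega, hy.2⟩, ⟨by omega, hy'.2⟩, k1⟩

/-- the good event gives a gadget in one of the windows -/
theorem good_Gd {m h : ℤ} (h1 : 1 ≤ h) (hm : h < m) {F : Finset Edg}
    (I1 : LRc 0 m h (2 * h) F) (D1 : ¬ TBc 0 (m + 1 + h) (2 * h) (3 * h) F)
    (D2 : ¬ TBc 0 (m + 1 + h) 0 h F) (D3 : ¬ LRc h m (2 * h + 1) (3 * h) F)
    (D4 : ¬ LRc h m 0 (h - 1) F) (D5 : ¬ LRc m (m + h) 0 (3 * h) F) :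
    ∃ j ∈ range h.toNat, Gd j (m + j) 0 h F := by
  obtain ⟨j, hj, ha, hb⟩ : ∃ j : ℕ, (j : ℤ) < h ∧ LRc j (m + j) 0 (3 * h) F ∧
      ¬ LRc (j + 1) (m + j + 1) 0 (3 * h) F := by
    by_contra hcon
    push Not at hcon
    have key : ∀ j : ℕ, (j : ℤ) ≤ h → LRc j (m + j) 0 (3 * h) F := by
      intro j
      induction j with
      | zero =>
        intro _
        simp only [Nat.cast_zero, add_zero]
        exact LRc_sub le_rfl (by omega) le_rfl (by omega) (by omega) I1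
      | succ j ih =>
        intro hj
        push_cast at hj ⊢
        have := hcon j (by omega) (ih (by omega))
        rw [← add_assoc]
        exact this
    have h2 := key h.toNat (by omega)
    have e : ((h.toNat : ℕ) : ℤ) = h := by omega
    rw [e] at h2
    exact D5 (LRc_sub (by omega) (by omega) le_rfl le_rfl le_rfl h2)
  refine ⟨j, mem_range.mpr (by omega), ?_⟩
  have hno : ¬ LRc j (m + j + 1) 0 (3 * h) F := fun hL =>
    hb (LRc_sub (by omega) (by omega) le_rfl le_rfl le_rfl hL)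
  have eU : Um j (m + j) 0 h = LRE j (m + j + 1) 0 (3 * h) := by
    unfold Um; simp
  refine ⟨?_, ?_, ?_⟩
  · rintro v ⟨w, ⟨⟨k1, k2⟩, k3, k4⟩, hr⟩
    rw [eU] at hr
    constructor
    · by_contra hc
      apply D2
      obtain ⟨x1, x2, l1, l2, l3, -⟩ := sub_TB (a := 0) (b := m + 1 + h) (c := 0) (d := h) (by omega)
        (by rintro x y ⟨-, h9⟩ _ _; simp only [mem_coe, mem_LRE_false] at h9; omega)
        (by rintro x y ⟨-, h9⟩ _ _; simp only [mem_coe, mem_LRE_true] at h9; omega) hr.symm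
        (by omega) (by omega)
      refine ⟨x1, x2, l1, l2, l3.mono ?_⟩
      rintro e ⟨⟨h7, -⟩, h8⟩
      exact ⟨h7, h8⟩
    · by_contra hc
      apply D1
      obtain ⟨x1, x2, l1, l2, l3, -⟩ := sub_TB (a := 0) (b := m + 1 + h) (c := 2 * h) (d := 3 * h)
        (by omega)
        (by rintro x y ⟨-, h9⟩ _ _; simp only [mem_coe, mem_LRE_false] at h9; omega)
        (by rintro x y ⟨-, h9⟩ _ _; simp only [mem_coe, mem_LRE_true] at h9; omega) hr
        (by omega) (by omega)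
      refine ⟨x1, x2, l1, l2, l3.mono ?_⟩
      rintro e ⟨⟨h7, -⟩, h8⟩
      exact ⟨h7, h8⟩
  · obtain ⟨y, z, hr, w, hw, hw1, hw2⟩ := meets_band (by omega) h1 ha
      (fun hL => D4 (LRc_sub (by omega) (by omega) (by omega) le_rfl le_rfl hL))
      (fun hL => D3 (LRc_sub (by omega) (by omega) (by omega) le_rfl le_rfl hL))
    refine ⟨y, z, ⟨w, ⟨⟨by omega, by omega⟩, by omega, by omega⟩, ?_⟩, ?_⟩
    · rw [eU]
      refine hw.symm.mono (Set.inter_subset_inter_right _ ?_)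
      exact_mod_cast LRE_sub le_rfl (by omega) le_rfl le_rfl
    · rw [zero_add]
      exact hr
  · intro y z _ hr
    rw [eU] at hr
    refine hno (LRc_of_reach (by omega) (hr.mono (Set.inter_subset_inter_right _
      (by exact_mod_cast LRE_subset_RE))) rfl rfl)

/-! ### Probabilities -/

theorem rsw_dual' {w h : ℤ} (h11 : 11 ≤ w) (hh' : 0 ≤ h) (h3 : h ≤ 3 * w + 2) :
    (1/2 : ℝ)^47 ≤ 1 - p w h := by
  rw [p_dual (m := w) (n := h) (by omega) hh']
  exact rsw (n := (w - 1) / 2) (by omega) (by omega) (by omega) (by omega)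

theorem RE_LRE_sub {a b c d a' b' c' d' : ℤ} (h1 : a' ≤ a) (h2 : b ≤ b') (h3 : c' ≤ c)
    (h4 : d ≤ d') : LRE a b c d ⊆ RE a' b' c' d' := by
  rintro ⟨x, y, _ | _⟩ h
  · simp only [mem_LRE_false, mem_RE_false] at h ⊢; omega
  · simp only [mem_LRE_true, mem_RE_true] at h ⊢; omega

theorem RE_TBE_sub {a b c d a' b' c' d' : ℤ} (h1 : a' ≤ a) (h2 : b ≤ b') (h3 : c' ≤ c)
    (h4 : d ≤ d') : TBE a b c d ⊆ RE a' b' c' d' := by
  rintro ⟨x, y, _ | _⟩ h
  · simp only [mem_TBE_false, mem_RE_false] at h ⊢; omega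
  · simp only [mem_TBE_true, mem_RE_true] at h ⊢; omega

theorem PH_TBc {a b c d w h : ℤ} {S : Finset Edg} (hS : TBE a b c d ⊆ S) (hw : w = d - c)
    (hh' : h = b - a) : PH S (TBc a b c d) = p w h := by
  rw [hw, hh']
  exact pr_TBc _ hS

theorem good_prob {m h : ℤ} (h1 : 11 ≤ h) (hm : h < m) (hm2 : m ≤ 2 * h + 1) (hm3 : 2 * h ≤ m) :
    ((1/2 : ℝ)^47)^6 ≤ PH (RE 0 (m + 1 + h) 0 (3 * h)) (fun F => LRc 0 m h (2 * h) F ∧
      (¬ TBc 0 (m + 1 + h) (2 * h) (3 * h) F ∧ ¬ TBc 0 (m + 1 + h) 0 h F ∧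
        ¬ LRc h m (2 * h + 1) (3 * h) F ∧ ¬ LRc h m 0 (h - 1) F ∧
        ¬ LRc m (m + h) 0 (3 * h) F)) := by
  set S := RE 0 (m + 1 + h) 0 (3 * h) with hS
  set X := LRE 0 m h (2 * h) with hX
  have sX : X ⊆ S := RE_LRE_sub le_rfl (by omega) (by omega) (by omega)
  have s1 : TBE 0 (m + 1 + h) (2 * h) (3 * h) ⊆ S := RE_TBE_sub le_rfl le_rfl (by omega) le_rfl
  have s2 : TBE 0 (m + 1 + h) 0 h ⊆ S := RE_TBE_sub le_rfl le_rfl le_rfl (by omega)
  have s3 : LRE h m (2 * h + 1) (3 * h) ⊆ S := RE_LRE_sub (by omega) (by omega) (by omega) le_rfl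
  have s4 : LRE h m 0 (h - 1) ⊆ S := RE_LRE_sub (by omega) (by omega) le_rfl (by omega)
  have s5 : LRE m (m + h) 0 (3 * h) ⊆ S := RE_LRE_sub (by omega) (by omega) le_rfl le_rfl
  have d1 : TBE 0 (m + 1 + h) (2 * h) (3 * h) ⊆ S \ X := by
    rw [Finset.subset_sdiff]
    refine ⟨s1, ?_⟩
    rw [Finset.disjoint_left]
    rintro ⟨x, y, _ | _⟩ k1 k2
    · rw [hX] at k2; simp only [mem_TBE_false, mem_LRE_false] at k1 k2; omega
    · rw [hX] at k2; simp only [mem_TBE_true, mem_LRE_true] at k1 k2; omega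
  have d2 : TBE 0 (m + 1 + h) 0 h ⊆ S \ X := by
    rw [Finset.subset_sdiff]
    refine ⟨s2, ?_⟩
    rw [Finset.disjoint_left]
    rintro ⟨x, y, _ | _⟩ k1 k2
    · rw [hX] at k2; simp only [mem_TBE_false, mem_LRE_false] at k1 k2; omega
    · rw [hX] at k2; simp only [mem_TBE_true, mem_LRE_true] at k1 k2; omega
  have d3 : LRE h m (2 * h + 1) (3 * h) ⊆ S \ X := by
    rw [Finset.subset_sdiff]
    exact ⟨s3, (LRE_disj_row (by omega)).symm⟩
  have d4 : LRE h m 0 (h - 1) ⊆ S \ X := by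
    rw [Finset.subset_sdiff]
    exact ⟨s4, LRE_disj_row (by omega)⟩
  have d5 : LRE m (m + h) 0 (3 * h) ⊆ S \ X := by
    rw [Finset.subset_sdiff]
    exact ⟨s5, (LRE_disj le_rfl).symm⟩
  have e1 : (1/2 : ℝ)^47 ≤ 1 - PH S (TBc 0 (m + 1 + h) (2 * h) (3 * h)) := by
    rw [PH_TBc s1 (w := h) (h := m + 1 + h) (by ring) (by ring)]
    exact rsw_dual' h1 (by omega) (by omega)
  have e2 : (1/2 : ℝ)^47 ≤ 1 - PH S (TBc 0 (m + 1 + h) 0 h) := by
    rw [PH_TBc s2 (w := h) (h := m + 1 + h) (by ring) (by ring)]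
    exact rsw_dual' h1 (by omega) (by omega)
  have e3 : (1/2 : ℝ)^47 ≤ 1 - PH S (LRc h m (2 * h + 1) (3 * h)) := by
    rw [PH_LRc s3 (w := m - h) (h := h - 1) (by ring) (by ring)]
    exact rsw_dual' (by omega) (by omega) (by omega)
  have e4 : (1/2 : ℝ)^47 ≤ 1 - PH S (LRc h m 0 (h - 1)) := by
    rw [PH_LRc s4 (w := m - h) (h := h - 1) (by ring) (by ring)]
    exact rsw_dual' (by omega) (by omega) (by omega)
  have e5 : (1/2 : ℝ)^47 ≤ 1 - PH S (LRc m (m + h) 0 (3 * h)) := by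
    rw [PH_LRc s5 (w := h) (h := 3 * h) (by ring) (by ring)]
    exact rsw_dual' (by omega) (by omega) (by omega)
  have e0 : (1/2 : ℝ)^47 ≤ PH S (LRc 0 m h (2 * h)) := by
    rw [PH_LRc sX (w := m) (h := h) (by ring) (by ring)]
    exact rsw (n := h / 2) (by omega) (by omega) (by omega) (by omega)
  -- decreasing events
  have incr2 : ∀ A B : Finset Edg → Prop, IncrE S A → IncrE S B →
      IncrE S (fun F => A F ∨ B F) := by
    intro A B hA hB F G hFG hG hF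
    rcases hF with hF | hF
    · exact Or.inl (hA F G hFG hG hF)
    · exact Or.inr (hB F G hFG hG hF)
  have comb : ∀ (A B : Finset Edg → Prop) (x y : ℝ), 0 ≤ x → 0 ≤ y → IncrE S A → IncrE S B →
      x ≤ 1 - PH S A → y ≤ 1 - PH S B → x * y ≤ 1 - PH S (fun F => A F ∨ B F) := by
    intro A B x y hx hy hA hB h3 h4
    have h5 := Pr_harris_dd okh hA hB
    have h6 : Pr (fun _ => (1/2 : ℝ)) S (fun F => ¬ A F ∧ ¬ B F) =
        1 - PH S (fun F => A F ∨ B F) := by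
      unfold PH
      rw [← Pr_not]
      exact Pr_congr (fun F _ => (not_or).symm)
    rw [h6] at h5
    refine le_trans ?_ h5
    exact mul_le_mul h3 h4 hy (le_trans hx h3)
  have i1 := TBc_incr S 0 (m + 1 + h) (2 * h) (3 * h)
  have i2 := TBc_incr S 0 (m + 1 + h) 0 h
  have i3 := LRc_incr S h m (2 * h + 1) (3 * h)
  have i4 := LRc_incr S h m 0 (h - 1)
  have i5 := LRc_incr S m (m + h) 0 (3 * h)
  have c45 := comb _ _ _ _ (by positivity) (by positivity) i4 i5 e4 e5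
  have c345 := comb _ _ _ _ (by positivity) (by positivity) i3 (incr2 _ _ i4 i5) e3 c45
  have c2345 := comb _ _ _ _ (by positivity) (by positivity) i2
    (incr2 _ _ i3 (incr2 _ _ i4 i5)) e2 c345
  have c12345 := comb _ _ _ _ (by positivity) (by positivity) i1
    (incr2 _ _ i2 (incr2 _ _ i3 (incr2 _ _ i4 i5))) e1 c2345
  have hdec : PH S (fun F => ¬ TBc 0 (m + 1 + h) (2 * h) (3 * h) F ∧ ¬ TBc 0 (m + 1 + h) 0 h F ∧
        ¬ LRc h m (2 * h + 1) (3 * h) F ∧ ¬ LRc h m 0 (h - 1) F ∧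
        ¬ LRc m (m + h) 0 (3 * h) F) = 1 - PH S (fun F => TBc 0 (m + 1 + h) (2 * h) (3 * h) F ∨
          (TBc 0 (m + 1 + h) 0 h F ∨ (LRc h m (2 * h + 1) (3 * h) F ∨ (LRc h m 0 (h - 1) F ∨
          LRc m (m + h) 0 (3 * h) F)))) := by
    unfold PH
    rw [← Pr_not]
    apply Pr_congr
    intro F _
    tauto
  have hind : PH S (fun F => LRc 0 m h (2 * h) F ∧
      (¬ TBc 0 (m + 1 + h) (2 * h) (3 * h) F ∧ ¬ TBc 0 (m + 1 + h) 0 h F ∧
        ¬ LRc h m (2 * h + 1) (3 * h) F ∧ ¬ LRc h m 0 (h - 1) F ∧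
        ¬ LRc m (m + h) 0 (3 * h) F)) = PH S (LRc 0 m h (2 * h)) *
      PH S (fun F => ¬ TBc 0 (m + 1 + h) (2 * h) (3 * h) F ∧ ¬ TBc 0 (m + 1 + h) 0 h F ∧
        ¬ LRc h m (2 * h + 1) (3 * h) F ∧ ¬ LRc h m 0 (h - 1) F ∧
        ¬ LRc m (m + h) 0 (3 * h) F) := by
    unfold PH
    refine Pr_indep (S := X) (T := S \ X) sX Finset.sdiff_subset Finset.disjoint_sdiff ?_ ?_
    · intro F _
      exact LRc_local (Finset.Subset.refl _)
    · intro F _
      rw [TBc_local d1, TBc_local d2, LRc_local d3, LRc_local d4, LRc_local d5]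
  rw [hind, hdec]
  calc ((1/2 : ℝ)^47)^6 = (1/2 : ℝ)^47 * ((1/2 : ℝ)^47 * ((1/2 : ℝ)^47 * ((1/2 : ℝ)^47 *
        ((1/2 : ℝ)^47 * (1/2 : ℝ)^47)))) := by ring
    _ ≤ _ := mul_le_mul e0 c12345 (by positivity) (Pr_nonneg okh _ _)

theorem gadget_big {m h : ℤ} (h1 : 11 ≤ h) (hm : h < m) (hm2 : m ≤ 2 * h + 1) (hm3 : 2 * h ≤ m) :
    ((1/2 : ℝ)^47)^6 / h ≤ PH (Um 0 m 0 h) (Gd 0 m 0 h) := by
  set S := RE 0 (m + 1 + h) 0 (3 * h) with hS
  have h2 := good_prob h1 hm hm2 hm3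
  have h3 : PH S (fun F => LRc 0 m h (2 * h) F ∧
      (¬ TBc 0 (m + 1 + h) (2 * h) (3 * h) F ∧ ¬ TBc 0 (m + 1 + h) 0 h F ∧
        ¬ LRc h m (2 * h + 1) (3 * h) F ∧ ¬ LRc h m 0 (h - 1) F ∧
        ¬ LRc m (m + h) 0 (3 * h) F)) ≤
      PH S (fun F => ∃ j ∈ range h.toNat, Gd (j : ℤ) (m + j) 0 h F) := by
    apply Pr_mono okh
    rintro F - ⟨I1, D1, D2, D3, D4, D5⟩
    exact good_Gd (by omega) hm I1 D1 D2 D3 D4 D5
  have h4 : PH S (fun F => ∃ j ∈ range h.toNat, Gd (j : ℤ) (m + j) 0 h F) ≤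
      ∑ j ∈ range h.toNat, PH S (Gd (j : ℤ) (m + j) 0 h) :=
    Pr_exists_le okh S (range h.toNat) (fun j => Gd (j : ℤ) (m + j) 0 h)
  have h5 : ∑ j ∈ range h.toNat, PH S (Gd (j : ℤ) (m + j) 0 h) =
      h * PH (Um 0 m 0 h) (Gd 0 m 0 h) := by
    have : ∀ j ∈ range h.toNat, PH S (Gd (j : ℤ) (m + j) 0 h) =
        PH (Um 0 m 0 h) (Gd 0 m 0 h) := by
      intro j hj
      rw [mem_range] at hj
      have sU : Um (j : ℤ) (m + j) 0 h ⊆ S := by
        unfold Um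
        exact RE_LRE_sub (by omega) (by omega) le_rfl (by omega)
      rw [PH_Gd sU]
      have := PH_Gd_trl 0 m 0 h j 0
      simpa using this
    rw [Finset.sum_congr rfl this, Finset.sum_const, card_range, nsmul_eq_mul]
    have e : ((h.toNat : ℕ) : ℝ) = h := by
      have : ((h.toNat : ℕ) : ℤ) = h := by omega
      exact_mod_cast this
    rw [e]
  have hpos : (0:ℝ) < h := by
    have : 0 < h := by omega
    exact_mod_cast this
  rw [div_le_iff₀ hpos, mul_comm, ← h5]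
  exact h2.trans (h3.trans h4)

end Pool.Agent.D0H47.GR
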