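import Pool.Agent.D0H47.GR.Local

/-!
A local event (`Gd`): the clusters of a middle band contain a crossing of the columns `a..x` but no
crossing of the columns `a..x+1`, and do not reach the two outer rows. Given this event, closing the
rest is an independent decreasing event: this gives the lower bound for the increments in the short
side, without any loss of constants along the strip.
-/

set_option autoImplicit false

namespace Pool.Agent.D0H47.GR

open H974 H12S Finset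

/-- the middle band -/
def Bm (a x b h : ℤ) : Set Vtx := {v | (a ≤ v.1 ∧ v.1 ≤ x + 1) ∧ (b + h ≤ v.2 ∧ v.2 ≤ b + 2 * h)}

/-- the block -/
noncomputable def Um (a x b h : ℤ) : Finset Edg := LRE a (x + 1) b (b + 3 * h)

/-- the gadget -/
def Gd (a x b h : ℤ) (F : Finset Edg) : Prop :=
  (∀ v, Cl (Um a x b h) (Bm a x b h) F v → b < v.2 ∧ v.2 < b + 3 * h) ∧
  (∃ y z, Cl (Um a x b h) (Bm a x b h) F (a, y) ∧
    Reach ((↑F : Set Edg) ∩ ↑(LRE a x b (b + 3 * h))) (a, y) (x, z)) ∧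
  (∀ y z, Cl (Um a x b h) (Bm a x b h) F (a, y) →
    ¬ Reach ((↑F : Set Edg) ∩ ↑(Um a x b h)) (a, y) (x + 1, z))

theorem reach_cl {U T : Finset Edg} {B : Set Vtx} {F F' : Finset Edg}
    (h : F ∩ KB U B F = F' ∩ KB U B F) {u v : Vtx} (hu : Cl U B F u) (hT : T ⊆ U)
    (hr : Reach ((↑F : Set Edg) ∩ ↑T) u v) : Reach ((↑F' : Set Edg) ∩ ↑T) u v := by
  obtain ⟨b, hb, hbu⟩ := hu
  have key : ∀ w, Reach ((↑F : Set Edg) ∩ ↑T) u w → Reach ((↑F' : Set Edg) ∩ ↑T) u w := by
    intro w hw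
    induction hw with
    | refl => exact Reach.refl _ _
    | @tail w w' hbw hs ih =>
      obtain ⟨e, ⟨heF, heT⟩, hc⟩ := hs
      have hcl : Cl U B F w := ⟨b, hb, hbu.trans (Reach.mono (by
        intro x hx; exact ⟨hx.1, hT hx.2⟩) hbw)⟩
      have hK : e ∈ KB U B F := by
        rw [mem_KB]
        refine ⟨hT heT, ?_⟩
        rcases hc with ⟨h1, _⟩ | ⟨_, h2⟩
        · left; rw [h1]; exact hcl
        · right; rw [h2]; exact hcl
      have he : e ∈ F' := by
        have : e ∈ F ∩ KB U B F := Finset.mem_inter.mpr ⟨heF, hK⟩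
        rw [h] at this
        exact (Finset.mem_inter.mp this).1
      exact ih.trans (Adj.reach ⟨e, ⟨he, heT⟩, hc⟩)
  exact key v hr

theorem reach_cl' {U T : Finset Edg} {B : Set Vtx} {F F' : Finset Edg}
    (h : F ∩ KB U B F = F' ∩ KB U B F) {u v : Vtx} (hu : Cl U B F u) (hT : T ⊆ U)
    (hr : Reach ((↑F' : Set Edg) ∩ ↑T) u v) : Reach ((↑F : Set Edg) ∩ ↑T) u v := by
  obtain ⟨b, hb, hbu⟩ := hu
  induction hr with
  | refl => exact Reach.refl _ _
  | @tail w w' hbw hs ih =>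
    obtain ⟨e, ⟨heF, heT⟩, hc⟩ := hs
    have hcl : Cl U B F w := ⟨b, hb, hbu.trans (ih.mono (by
      intro x hx; exact ⟨hx.1, hT hx.2⟩))⟩
    have hK : e ∈ KB U B F := by
      rw [mem_KB]
      refine ⟨hT heT, ?_⟩
      rcases hc with ⟨h1, _⟩ | ⟨_, h2⟩
      · left; rw [h1]; exact hcl
      · right; rw [h2]; exact hcl
    have he : e ∈ F := by
      have : e ∈ F' ∩ KB U B F := Finset.mem_inter.mpr ⟨heF, hK⟩
      rw [← h] at this
      exact (Finset.mem_inter.mp this).1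
    exact ih.trans (Adj.reach ⟨e, ⟨he, heT⟩, hc⟩)

theorem Gd_agree {a x b h : ℤ} {F F' : Finset Edg}
    (hF : F ∩ KB (Um a x b h) (Bm a x b h) F = F' ∩ KB (Um a x b h) (Bm a x b h) F)
    (hG : Gd a x b h F) : Gd a x b h F' := by
  obtain ⟨h1, ⟨y, z, h2, h3⟩, h4⟩ := hG
  refine ⟨fun v hv => h1 v ((Cl_agree hF v).mpr hv), ⟨y, z, (Cl_agree hF _).mp h2, ?_⟩, ?_⟩
  · exact reach_cl hF h2 (LRE_sub le_rfl (by omega) le_rfl le_rfl) h3
  · intro y' z' h5 h6
    have h7 := (Cl_agree hF _).mpr h5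
    exact h4 y' z' h7 (reach_cl' hF h7 (Finset.Subset.refl _) h6)

theorem Cl_local {U S : Finset Edg} {B : Set Vtx} {F : Finset Edg} {v : Vtx} (hS : U ⊆ S) :
    Cl U B (F ∩ S) v ↔ Cl U B F v := by
  unfold Cl
  rw [coe_inter_eq hS]

theorem Gd_local {a x b h : ℤ} {F S : Finset Edg} (hS : Um a x b h ⊆ S) :
    Gd a x b h F ↔ Gd a x b h (F ∩ S) := by
  unfold Gd
  simp only [Cl_local hS]
  rw [coe_inter_eq hS, coe_inter_eq ((LRE_sub le_rfl (by omega) le_rfl le_rfl :
    LRE a x b (b + 3 * h) ⊆ Um a x b h).trans hS)]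

theorem PH_Gd {a x b h : ℤ} {S : Finset Edg} (hS : Um a x b h ⊆ S) :
    PH S (Gd a x b h) = PH (Um a x b h) (Gd a x b h) := by
  unfold PH
  apply Pr_local hS
  intro F _
  exact Gd_local (Finset.Subset.refl _)

/-! ### Translations -/

theorem reach_trl (s t : ℤ) {F T : Finset Edg} {u v : Vtx} (h : Reach ((↑F : Set Edg) ∩ ↑T) u v) :
    Reach ((↑((trl s t).mp F) : Set Edg) ∩ ↑((trl s t).mp T)) (u.1 + s, u.2 + t)
      (v.1 + s, v.2 + t) := by
  obtain ⟨u1, u2⟩ := u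
  obtain ⟨v1, v2⟩ := v
  have h1 := (trl s t).reach h
  rw [LSym.image_inter, trl_ψ, trl_ψ] at h1
  exact h1

theorem Um_trl (a x b h s t : ℤ) : (trl s t).mp (Um a x b h) = Um (a + s) (x + s) (b + t) h := by
  unfold Um
  rw [trl_LRE]
  congr 1 <;> ring

theorem Cl_trl {a x b h s t : ℤ} {F : Finset Edg} {v : Vtx}
    (hv : Cl (Um a x b h) (Bm a x b h) F v) :
    Cl (Um (a + s) (x + s) (b + t) h) (Bm (a + s) (x + s) (b + t) h) ((trl s t).mp F)
      (v.1 + s, v.2 + t) := by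
  obtain ⟨w, ⟨⟨h1, h2⟩, h3, h4⟩, hr⟩ := hv
  refine ⟨(w.1 + s, w.2 + t), ⟨⟨?_, ?_⟩, ?_, ?_⟩, ?_⟩
  · simp only; omega
  · simp only; omega
  · simp only; omega
  · simp only; omega
  · have := reach_trl s t hr
    rwa [Um_trl] at this

theorem trl_inv (s t : ℤ) (F : Finset Edg) : (trl (-s) (-t)).mp ((trl s t).mp F) = F :=
  trl_trl s t F

theorem Cl_trl' {a x b h s t : ℤ} {F : Finset Edg} {v : Vtx}
    (hv : Cl (Um (a + s) (x + s) (b + t) h) (Bm (a + s) (x + s) (b + t) h) ((trl s t).mp F) v) :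
    Cl (Um a x b h) (Bm a x b h) F (v.1 - s, v.2 - t) := by
  have h1 := Cl_trl (s := -s) (t := -t) hv
  rw [trl_inv] at h1
  have e1 : a + s + -s = a := by ring
  have e2 : x + s + -s = x := by ring
  have e3 : b + t + -t = b := by ring
  rw [e1, e2, e3, ← sub_eq_add_neg, ← sub_eq_add_neg] at h1
  exact h1

theorem Gd_trl {a x b h s t : ℤ} {F : Finset Edg} (hG : Gd a x b h F) :
    Gd (a + s) (x + s) (b + t) h ((trl s t).mp F) := by
  obtain ⟨h1, ⟨y, z, h2, h3⟩, h4⟩ := hG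
  refine ⟨?_, ⟨y + t, z + t, Cl_trl h2, ?_⟩, ?_⟩
  · intro v hv
    have := h1 _ (Cl_trl' hv)
    simp only at this
    omega
  · have h5 := reach_trl s t h3
    rw [trl_LRE] at h5
    have e : b + 3 * h + t = b + t + 3 * h := by ring
    rw [e] at h5
    exact h5
  · intro y' z' h5 h6
    have h7 := Cl_trl' h5
    have h8 := reach_trl (-s) (-t) h6
    rw [trl_inv, Um_trl] at h8
    have e0 : x + 1 + s = x + s + 1 := by ring
    have e1 : a + s + -s = a := by ring
    have e2 : x + s + -s = x := by ring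
    have e3 : b + t + -t = b := by ring
    have e4 : x + s + 1 + -s = x + 1 := by ring
    have e5 : a + s - s = a := by ring
    simp only [e1, e2, e3, e4] at h8
    simp only [e5, sub_eq_add_neg] at h7
    exact h4 _ _ h7 h8

theorem Gd_trl_iff {a x b h s t : ℤ} {F : Finset Edg} :
    Gd (a + s) (x + s) (b + t) h ((trl s t).mp F) ↔ Gd a x b h F := by
  constructor
  · intro hG
    have := Gd_trl (s := -s) (t := -t) hG
    rw [trl_inv] at this
    simpa using this
  · exact Gd_trl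

theorem PH_Gd_trl (a x b h s t : ℤ) :
    PH (Um (a + s) (x + s) (b + t) h) (Gd (a + s) (x + s) (b + t) h) =
      PH (Um a x b h) (Gd a x b h) := by
  unfold PH
  rw [← Um_trl, LSym.pr]
  exact Pr_congr (fun F _ => Gd_trl_iff)

end Pool.Agent.D0H47.GR
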