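import Pool.Agent.D0H47.GR.Bilip
import Pool.Agent.H974R2.RSW2

/-!
The interface of a slab `[b,c] × [0,n]`: exploration from the left side by closed dual paths, with all
holes filled.
-/

set_option autoImplicit false
set_option maxHeartbeats 1000000

namespace Pool.Agent.D0H47.GR

open H974 H12S Finset

/-- faces reached from the left side of `[b,c] × [0,n]` by closed dual paths -/
def Dl (b c n : ℤ) (F : Finset Edg) (f : Vtx) : Prop :=
  ∃ y, (0 ≤ y ∧ y < n) ∧ DReach ((↑F : Set Edg)ᶜ ∩ ↑(TBE b c 0 n)) (b - 1, y) f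

/-- faces connected to the right side of the slab without the faces of `Dl` -/
def Rc (b c n : ℤ) (F : Finset Edg) (f : Vtx) : Prop :=
  ∃ y, (0 ≤ y ∧ y < n) ∧ ¬ Dl b c n F (c, y) ∧
    DReach {e | e ∈ TBE b c 0 n ∧ ¬ Dl b c n F (dsrc e) ∧ ¬ Dl b c n F (dtgt e)} (c, y) f

/-- no closed dual path crosses the slab -/
def Ok' (b c n : ℤ) (F : Finset Edg) : Prop := ∀ y, 0 ≤ y → y < n → ¬ Dl b c n F (c, y)

open Classical in
/-- the edges on the left of the interface -/
noncomputable def Kx (b c n : ℤ) (F : Finset Edg) : Finset Edg :=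
  (RE b c 0 n).filter (fun e => ((0 ≤ (dsrc e).2 ∧ (dsrc e).2 < n) ∧ ¬ Rc b c n F (dsrc e)) ∨
    ((0 ≤ (dtgt e).2 ∧ (dtgt e).2 < n) ∧ ¬ Rc b c n F (dtgt e)))

theorem mem_Kx {b c n : ℤ} {F : Finset Edg} {e : Edg} : e ∈ Kx b c n F ↔ e ∈ RE b c 0 n ∧
    (((0 ≤ (dsrc e).2 ∧ (dsrc e).2 < n) ∧ ¬ Rc b c n F (dsrc e)) ∨
    ((0 ≤ (dtgt e).2 ∧ (dtgt e).2 < n) ∧ ¬ Rc b c n F (dtgt e))) := by
  simp only [Kx, Finset.mem_filter]

/-- the edges of the interface -/
def Bx (b c n : ℤ) (F : Finset Edg) : Set Edg :=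
  {e | e ∈ TBE b c 0 n ∧ ¬ (Rc b c n F (dsrc e) ↔ Rc b c n F (dtgt e))}

/-- the vertices of the interface -/
def Gx (b c n : ℤ) (F : Finset Edg) : Set Vtx := {v | ∃ e ∈ Bx b c n F, src e = v ∨ tgt e = v}

theorem TBE_faces {b c n : ℤ} {e : Edg} (he : e ∈ TBE b c 0 n) :
    ((0 ≤ (dsrc e).2 ∧ (dsrc e).2 < n) ∧ (0 ≤ (dtgt e).2 ∧ (dtgt e).2 < n)) ∧
      ((b - 1 ≤ (dsrc e).1 ∧ (dsrc e).1 ≤ c) ∧ (b - 1 ≤ (dtgt e).1 ∧ (dtgt e).1 ≤ c)) := by
  obtain ⟨x, y, _ | _⟩ := e
  · rw [mem_TBE_false] at he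
    rw [dsrc_false, dtgt_mk]
    simp only
    omega
  · rw [mem_TBE_true] at he
    rw [dsrc_true, dtgt_mk]
    simp only
    omega

theorem Dl_left {b c n : ℤ} {F : Finset Edg} {y : ℤ} (h0 : 0 ≤ y) (h1 : y < n) :
    Dl b c n F (b - 1, y) := ⟨y, ⟨h0, h1⟩, DReach.refl _ _⟩

theorem Dl_closed {b c n : ℤ} {F : Finset Edg} {e : Edg} (he : e ∈ TBE b c 0 n) (heF : e ∉ F) :
    Dl b c n F (dsrc e) ↔ Dl b c n F (dtgt e) := by
  have hm : e ∈ ((↑F : Set Edg)ᶜ ∩ ↑(TBE b c 0 n)) := ⟨heF, he⟩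
  constructor
  · rintro ⟨y, hy, h⟩
    exact ⟨y, hy, h.trans (DAdj.reach ⟨e, hm, Or.inl ⟨rfl, rfl⟩⟩)⟩
  · rintro ⟨y, hy, h⟩
    exact ⟨y, hy, h.trans (DAdj.reach ⟨e, hm, Or.inr ⟨rfl, rfl⟩⟩)⟩

theorem Rc_not_Dl {b c n : ℤ} {F : Finset Edg} {f : Vtx} (h : Rc b c n F f) :
    ¬ Dl b c n F f := by
  obtain ⟨y, _, h0, hr⟩ := h
  induction hr with
  | refl => exact h0
  | tail _ hs _ =>
    obtain ⟨e, ⟨-, h1, h2⟩, hc⟩ := hs
    rcases hc with ⟨h3, h4⟩ | ⟨h3, h4⟩
    · rw [← h4]; exact h2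
    · rw [← h3]; exact h1

theorem Rc_step {b c n : ℤ} {F : Finset Edg} {e : Edg} (he : e ∈ TBE b c 0 n)
    (h1 : ¬ Dl b c n F (dsrc e)) (h2 : ¬ Dl b c n F (dtgt e)) :
    Rc b c n F (dsrc e) ↔ Rc b c n F (dtgt e) := by
  constructor
  · rintro ⟨y, hy, h0, h⟩
    exact ⟨y, hy, h0, h.trans (DAdj.reach ⟨e, ⟨he, h1, h2⟩, Or.inl ⟨rfl, rfl⟩⟩)⟩
  · rintro ⟨y, hy, h0, h⟩
    exact ⟨y, hy, h0, h.trans (DAdj.reach ⟨e, ⟨he, h1, h2⟩, Or.inr ⟨rfl, rfl⟩⟩)⟩

theorem Dl_stop {b c n : ℤ} {F F' : Finset Edg} (h : F ∩ Kx b c n F = F' ∩ Kx b c n F) (f : Vtx) :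
    Dl b c n F f ↔ Dl b c n F' f := by
  have hmem : ∀ e ∈ Kx b c n F, (e ∈ F ↔ e ∈ F') := by
    intro e he
    have := Finset.ext_iff.mp h e
    simp only [Finset.mem_inter, he, and_true] at this
    exact this
  have hK : ∀ e ∈ TBE b c 0 n, (Dl b c n F (dsrc e) ∨ Dl b c n F (dtgt e)) → e ∈ Kx b c n F := by
    intro e he hD
    have hf := TBE_faces he
    rw [mem_Kx]
    refine ⟨TBE_subset_RE he, ?_⟩
    rcases hD with hD | hD
    · exact Or.inl ⟨hf.1.1, fun hR => Rc_not_Dl hR hD⟩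
    · exact Or.inr ⟨hf.1.2, fun hR => Rc_not_Dl hR hD⟩
  constructor
  · rintro ⟨y, hy, hr⟩
    refine ⟨y, hy, ?_⟩
    have : ∀ g, DReach ((↑F : Set Edg)ᶜ ∩ ↑(TBE b c 0 n)) (b - 1, y) g →
        Dl b c n F g ∧ DReach ((↑F' : Set Edg)ᶜ ∩ ↑(TBE b c 0 n)) (b - 1, y) g := by
      intro g hg
      induction hg with
      | refl => exact ⟨⟨y, hy, DReach.refl _ _⟩, DReach.refl _ _⟩
      | @tail g g' _ hst ih =>
        obtain ⟨e, ⟨heF, heT⟩, hcase⟩ := hst
        have hD' : Dl b c n F g' := by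
          obtain ⟨y', hy', hr'⟩ := ih.1
          exact ⟨y', hy', hr'.trans (DAdj.reach ⟨e, ⟨heF, heT⟩, hcase⟩)⟩
        refine ⟨hD', ih.2.trans (DAdj.reach ⟨e, ⟨?_, heT⟩, hcase⟩)⟩
        intro heF'
        apply heF
        have heK : e ∈ Kx b c n F := by
          apply hK e heT
          rcases hcase with ⟨h1, h2⟩ | ⟨h1, h2⟩
          · left; rw [h1]; exact ih.1
          · left; rw [h1]; exact hD'
        exact (hmem e heK).mpr heF'
    exact (this f hr).2
  · rintro ⟨y, hy, hr⟩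
    have : ∀ g, DReach ((↑F' : Set Edg)ᶜ ∩ ↑(TBE b c 0 n)) (b - 1, y) g → Dl b c n F g := by
      intro g hg
      induction hg with
      | refl => exact ⟨y, hy, DReach.refl _ _⟩
      | @tail g g' _ hst ih =>
        obtain ⟨e, ⟨heF, heT⟩, hcase⟩ := hst
        have heK : e ∈ Kx b c n F := by
          apply hK e heT
          rcases hcase with ⟨h1, h2⟩ | ⟨h1, h2⟩
          · left; rw [h1]; exact ih
          · right; rw [h2]; exact ih
        obtain ⟨y', hy', hr'⟩ := ih
        refine ⟨y', hy', hr'.trans (DAdj.reach ⟨e, ⟨?_, heT⟩, hcase⟩)⟩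
        intro h3
        exact heF ((hmem e heK).mp h3)
    exact this f hr

theorem Rc_stop {b c n : ℤ} {F F' : Finset Edg} (h : F ∩ Kx b c n F = F' ∩ Kx b c n F) :
    Rc b c n F' = Rc b c n F := by
  have hD : Dl b c n F' = Dl b c n F := by
    funext f
    exact propext (Dl_stop h f).symm
  unfold Rc
  rw [hD]

theorem Kx_stop {b c n : ℤ} {F F' : Finset Edg} (h : F ∩ Kx b c n F = F' ∩ Kx b c n F) :
    Kx b c n F' = Kx b c n F := by
  ext e
  rw [mem_Kx, mem_Kx, Rc_stop h]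

theorem Gx_stop {b c n : ℤ} {F F' : Finset Edg} (h : F ∩ Kx b c n F = F' ∩ Kx b c n F) :
    Gx b c n F' = Gx b c n F := by
  unfold Gx Bx
  rw [Rc_stop h]

theorem Ok_stop {b c n : ℤ} {F F' : Finset Edg} (h : F ∩ Kx b c n F = F' ∩ Kx b c n F) :
    Ok' b c n F ↔ Ok' b c n F' := by
  unfold Ok'
  simp only [Dl_stop h]

theorem Bx_sub {b c n : ℤ} {F : Finset Edg} {e : Edg} (he : e ∈ Bx b c n F) :
    e ∈ F ∧ e ∈ Kx b c n F := by
  obtain ⟨h1, h2⟩ := he
  have hf := TBE_faces h1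
  constructor
  · by_contra hF
    have hD := Dl_closed h1 hF
    by_cases h3 : Dl b c n F (dsrc e)
    · have h4 := hD.mp h3
      exact h2 ⟨fun h => absurd h3 (Rc_not_Dl h), fun h => absurd h4 (Rc_not_Dl h)⟩
    · have h4 : ¬ Dl b c n F (dtgt e) := fun h => h3 (hD.mpr h)
      exact h2 (Rc_step h1 h3 h4)
  · rw [mem_Kx]
    refine ⟨TBE_subset_RE h1, ?_⟩
    by_cases h3 : Rc b c n F (dsrc e)
    · right
      exact ⟨hf.1.2, fun h4 => h2 ⟨fun _ => h4, fun _ => h3⟩⟩
    · left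
      exact ⟨hf.1.1, h3⟩

theorem Bx_subset {b c n : ℤ} {F : Finset Edg} :
    Bx b c n F ⊆ (↑(F ∩ Kx b c n F) : Set Edg) := by
  intro e he
  rw [mem_coe, Finset.mem_inter]
  exact Bx_sub he

theorem Rc_right {b c n : ℤ} {F : Finset Edg} (hgood : Ok' b c n F) {y : ℤ} (h0 : 0 ≤ y)
    (h1 : y < n) : Rc b c n F (c, y) := ⟨y, ⟨h0, h1⟩, hgood y h0 h1, DReach.refl _ _⟩

/-- the interface is connected -/
theorem Bx_conn {b c n : ℤ} (hbc : b ≤ c) {F : Finset Edg} (hgood : Ok' b c n F) {v w : Vtx}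
    (hv : v ∈ Gx b c n F) (hw : w ∈ Gx b c n F) : Reach (Bx b c n F) v w := by
  obtain ⟨e0, he0, hv0⟩ := hv
  obtain ⟨e1, he1, hw1⟩ := hw
  set B := Bx b c n F with hB
  set C : Vtx → Prop := fun u => Reach B v u with hC
  have hCB : ∀ e ∈ B, (C (src e) ↔ C (tgt e)) := by
    intro e he
    constructor
    · intro h; exact h.trans (Adj.reach ⟨e, he, Or.inl ⟨rfl, rfl⟩⟩)
    · intro h; exact h.trans (Adj.reach ⟨e, he, Or.inr ⟨rfl, rfl⟩⟩)
  have hC0 : C (src e0) := by
    rcases hv0 with h | h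
    · rw [h]; exact Reach.refl _ _
    · rw [hCB e0 he0, h]; exact Reach.refl _ _
  set z : Edg → ZMod 2 := fun e => b2 (e ∈ B ∧ C (src e)) with hz
  have z_out : ∀ e, e ∉ TBE b c 0 n → z e = 0 := by
    intro e he
    simp only [hz]
    rw [b2_not_of]
    rintro ⟨⟨h, -⟩, -⟩
    exact he h
  have z_notB : ∀ e, e ∉ B → z e = 0 := by
    intro e he
    simp only [hz]
    rw [b2_not_of]
    rintro ⟨h, -⟩
    exact he h
  have z_notC : ∀ e, (¬ C (src e) ∨ ¬ C (tgt e)) → z e = 0 := by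
    intro e he
    simp only [hz]
    rw [b2_not_of]
    rintro ⟨h, h2⟩
    rcases he with he | he
    · exact he h2
    · exact he ((hCB e h).mp h2)
  have z_eq : ∀ e, e ∈ TBE b c 0 n → (C (src e) ∨ C (tgt e)) →
      z e = b2 (Rc b c n F (dsrc e)) + b2 (Rc b c n F (dtgt e)) := by
    intro e he hc
    simp only [hz]
    by_cases h1 : Rc b c n F (dsrc e) <;> by_cases h2 : Rc b c n F (dtgt e)
    · rw [b2_not_of, b2_of h1, b2_of h2]; · rfl
      rintro ⟨⟨-, h⟩, -⟩; exact h (by simp [h1, h2])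
    · have heB : e ∈ B := ⟨he, by simp [h1, h2]⟩
      have hcs : C (src e) := by
        rcases hc with h | h
        · exact h
        · exact (hCB e heB).mpr h
      rw [b2_of ⟨heB, hcs⟩, b2_of h1, b2_not_of h2]; rfl
    · have heB : e ∈ B := ⟨he, by simp [h1, h2]⟩
      have hcs : C (src e) := by
        rcases hc with h | h
        · exact h
        · exact (hCB e heB).mpr h
      rw [b2_of ⟨heB, hcs⟩, b2_of h2, b2_not_of h1]; rfl
    · rw [b2_not_of, b2_not_of h1, b2_not_of h2]; · rfl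
      rintro ⟨⟨-, h⟩, -⟩; exact h (by simp [h1, h2])
  have nRl : ∀ y, 0 ≤ y → y < n → ¬ Rc b c n F (b - 1, y) :=
    fun y h1 h2 h => Rc_not_Dl h (Dl_left h1 h2)
  -- evenness at vertices
  have even : ∀ x y, b ≤ x → 0 < y → y < n →
      z (x, y - 1, false) + z (x, y, false) + (z (x - 1, y, true) + z (x, y, true)) = 0 := by
    intro x y hx hy hyn
    by_cases hxn : c < x
    · rw [z_out (x, y - 1, false) (by simp only [mem_TBE_false]; omega),
        z_out (x, y, false) (by simp only [mem_TBE_false]; omega),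
        z_out (x - 1, y, true) (by simp only [mem_TBE_true]; omega),
        z_out (x, y, true) (by simp only [mem_TBE_true]; omega)]
      rfl
    by_cases hCv : C (x, y)
    · have e1 := z_eq (x, y - 1, false) (by simp only [mem_TBE_false]; omega)
        (Or.inr (by simpa using hCv))
      have e2 := z_eq (x, y, false) (by simp only [mem_TBE_false]; omega)
        (Or.inl (by simpa using hCv))
      have e3 : z (x - 1, y, true) = b2 (Rc b c n F (x - 1, y - 1)) + b2 (Rc b c n F (x - 1, y)) := by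
        by_cases h0 : x = b
        · subst h0
          rw [z_out (x - 1, y, true) (by simp only [mem_TBE_true]; omega),
            b2_not_of (nRl (y - 1) (by omega) (by omega)), b2_not_of (nRl y (by omega) (by omega))]
          rfl
        · have := z_eq (x - 1, y, true) (by simp only [mem_TBE_true]; omega)
            (Or.inr (by simpa using hCv))
          simpa using this
      have e4 : z (x, y, true) = b2 (Rc b c n F (x, y - 1)) + b2 (Rc b c n F (x, y)) := by
        by_cases h0 : x = c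
        · subst h0
          rw [z_out (x, y, true) (by simp only [mem_TBE_true]; omega),
            b2_of (Rc_right hgood (show 0 ≤ y - 1 by omega) (by omega)),
            b2_of (Rc_right hgood (show 0 ≤ y by omega) (by omega))]
          rfl
        · have := z_eq (x, y, true) (by simp only [mem_TBE_true]; omega)
            (Or.inl (by simpa using hCv))
          simpa using this
      simp only [dsrc_false, dtgt_mk] at e1 e2
      rw [e1, e2, e3, e4]
      have f1 := zmod2_add_self (b2 (Rc b c n F (x - 1, y - 1)))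
      have f2 := zmod2_add_self (b2 (Rc b c n F (x, y - 1)))
      have f3 := zmod2_add_self (b2 (Rc b c n F (x - 1, y)))
      have f4 := zmod2_add_self (b2 (Rc b c n F (x, y)))
      linear_combination f1 + f2 + f3 + f4
    · rw [z_notC (x, y - 1, false) (Or.inr (by simpa using hCv)),
        z_notC (x, y, false) (Or.inl (by simpa using hCv)),
        z_notC (x - 1, y, true) (Or.inr (by simpa using hCv)),
        z_notC (x, y, true) (Or.inl (by simpa using hCv))]
      rfl
  -- the face function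
  set s : ℤ → ℤ → ZMod 2 := fun x y => ∑ i ∈ Finset.Ico b (x + 1), z (i, y, false) with hs
  have s_neg : ∀ y, s (b - 1) y = 0 := by intro y; simp [hs]
  have sH : ∀ x y, b ≤ x → s x y = s (x - 1) y + z (x, y, false) := by
    intro x y hx
    simp only [hs]
    have : x - 1 + 1 = x := by ring
    rw [this, sum_Ico_int_succ hx]
  have sV0 : ∀ (k : ℕ) (y : ℤ), 0 < y → y < n →
      s (b - 1 + k) y + s (b - 1 + k) (y - 1) = z (b - 1 + k, y, true) := by
    intro k y h1 h2
    induction k with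
    | zero =>
      have e0 : b - 1 + ((0:ℕ):ℤ) = b - 1 := by norm_num
      rw [e0, s_neg, s_neg, z_out (b - 1, y, true) (by simp only [mem_TBE_true]; omega)]
      rfl
    | succ k ih =>
      have e1 : b - 1 + ((k + 1 : ℕ) : ℤ) = (b - 1 + k) + 1 := by push_cast; ring
      rw [e1]
      have e2 := sH (b - 1 + k + 1) y (by omega)
      have e3 := sH (b - 1 + k + 1) (y - 1) (by omega)
      have e4 : (b - 1 + (k:ℤ) + 1) - 1 = b - 1 + k := by ring
      rw [e4] at e2 e3
      have e5 := even (b - 1 + k + 1) y (by omega) h1 h2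
      rw [e4] at e5
      rw [e2, e3]
      have f1 := zmod2_add_self (z (b - 1 + (k:ℤ) + 1, y, true))
      linear_combination ih + e5 - f1
  have sV : ∀ x y, b - 1 ≤ x → 0 < y → y < n → s x y + s x (y - 1) = z (x, y, true) := by
    intro x y hx h1 h2
    obtain ⟨k, hk⟩ := Int.eq_ofNat_of_zero_le (show 0 ≤ x - (b - 1) by omega)
    have : x = b - 1 + k := by omega
    rw [this]
    exact sV0 k y h1 h2
  -- `z` is the coboundary of `s`
  have zs : ∀ e ∈ TBE b c 0 n, z e = s (dsrc e).1 (dsrc e).2 + s (dtgt e).1 (dtgt e).2 := by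
    rintro ⟨x, y, _ | _⟩ he
    · have hm := he
      rw [mem_TBE_false] at hm
      have h5 := sH x y hm.1
      rw [dsrc_false, dtgt_mk]
      simp only
      have f1 := zmod2_add_self (s (x - 1) y)
      linear_combination (-1 : ZMod 2) * h5 - f1
    · have hm := he
      rw [mem_TBE_true] at hm
      have h5 := sV x y (by omega) hm.2.2.1 hm.2.2.2
      rw [dsrc_true, dtgt_mk]
      simp only
      rw [← h5, add_comm]
  have hq : ∀ y, 0 < y → y < n → s c y = s c (y - 1) := by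
    intro y h1 h2
    have := sV c y (by omega) h1 h2
    rw [z_out (c, y, true) (by simp only [mem_TBE_true]; omega)] at this
    have f1 := zmod2_add_self (s c (y - 1))
    linear_combination this - f1
  have hqq : ∀ k : ℕ, (k : ℤ) < n → s c k = s c 0 := by
    intro k
    induction k with
    | zero => intro _; simp
    | succ k ih =>
      intro hk
      push_cast at hk ⊢
      rw [hq (k + 1) (by omega) (by omega)]
      have : (k:ℤ) + 1 - 1 = k := by ring
      rw [this]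
      exact ih (by omega)
  have hqall : ∀ y, 0 ≤ y → y < n → s c y = s c 0 := by
    intro y h1 h2
    obtain ⟨k, hk⟩ := Int.eq_ofNat_of_zero_le h1
    have := hqq k (by omega)
    rw [hk]; exact this
  have edge_eq : ∀ e ∈ TBE b c 0 n, e ∉ B → s (dsrc e).1 (dsrc e).2 = s (dtgt e).1 (dtgt e).2 := by
    intro e he heB
    have h1 := zs e he
    rw [z_notB e heB] at h1
    have f1 := zmod2_add_self (s (dtgt e).1 (dtgt e).2)
    linear_combination (-1 : ZMod 2) * h1 - f1
  -- `s` vanishes on `Dl`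
  have s_D : ∀ f : Vtx, Dl b c n F f → s f.1 f.2 = 0 := by
    rintro f ⟨y, hy, h⟩
    have key : ∀ g, DReach ((↑F : Set Edg)ᶜ ∩ ↑(TBE b c 0 n)) (b - 1, y) g →
        Dl b c n F g ∧ s g.1 g.2 = 0 := by
      intro g hg
      induction hg with
      | refl => exact ⟨⟨y, hy, DReach.refl _ _⟩, s_neg y⟩
      | @tail g g' _ hst ih =>
        obtain ⟨ihD, ihs⟩ := ih
        obtain ⟨e, ⟨heF, heT⟩, hcase⟩ := hst
        have hcl := Dl_closed (F := F) heT heF
        have heB : e ∉ B := by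
          rintro ⟨-, h2⟩
          rcases hcase with ⟨h3, h4⟩ | ⟨h3, h4⟩
          · rw [← h3] at ihD
            exact h2 ⟨fun h => absurd ihD (Rc_not_Dl h), fun h => absurd (hcl.mp ihD) (Rc_not_Dl h)⟩
          · rw [← h4] at ihD
            exact h2 ⟨fun h => absurd (hcl.mpr ihD) (Rc_not_Dl h), fun h => absurd ihD (Rc_not_Dl h)⟩
        have hee := edge_eq e heT heB
        rcases hcase with ⟨h3, h4⟩ | ⟨h3, h4⟩
        · refine ⟨by rw [← h4]; rw [← h3] at ihD; exact hcl.mp ihD, ?_⟩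
          rw [h3, h4] at hee
          rw [← hee]; exact ihs
        · refine ⟨by rw [← h3]; rw [← h4] at ihD; exact hcl.mpr ihD, ?_⟩
          rw [h3, h4] at hee
          rw [hee]; exact ihs
    exact (key f h).2
  have s_R : ∀ f : Vtx, Rc b c n F f → s f.1 f.2 = s c 0 := by
    rintro f ⟨y, hy, h0, h⟩
    have key : ∀ g, DReach {e | e ∈ TBE b c 0 n ∧ ¬ Dl b c n F (dsrc e) ∧ ¬ Dl b c n F (dtgt e)}
        (c, y) g → s g.1 g.2 = s c 0 := by
      intro g hg
      induction hg with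
      | refl => exact hqall y hy.1 hy.2
      | @tail g g' _ hst ih =>
        obtain ⟨e, ⟨heT, h1, h2⟩, hcase⟩ := hst
        have heB : e ∉ B := fun h => h.2 (Rc_step heT h1 h2)
        have hee := edge_eq e heT heB
        rcases hcase with ⟨h3, h4⟩ | ⟨h3, h4⟩
        · rw [h3, h4] at hee
          rw [← hee]; exact ih
        · rw [h3, h4] at hee
          rw [hee]; exact ih
    exact key f h
  have s_N : ∀ (k : ℕ) (y : ℤ), 0 ≤ y → y < n → b - 1 + (k : ℤ) ≤ c →
      ¬ Rc b c n F (b - 1 + k, y) → s (b - 1 + k) y = 0 := by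
    intro k y h1 h2
    induction k with
    | zero => intro _ _; simpa using s_neg y
    | succ k ih =>
      intro h3 h4
      have e1 : b - 1 + ((k + 1 : ℕ) : ℤ) = (b - 1 + k) + 1 := by push_cast; ring
      rw [e1] at h3 h4 ⊢
      have heT : ((b - 1 + (k:ℤ) + 1, y, false) : Edg) ∈ TBE b c 0 n := by
        rw [mem_TBE_false]; omega
      have e4 : (b - 1 + (k:ℤ) + 1) - 1 = b - 1 + k := by ring
      by_cases h5 : Dl b c n F (b - 1 + k + 1, y)
      · exact s_D _ h5
      · by_cases h6 : Rc b c n F (b - 1 + k, y)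
        · exfalso
          apply h4
          have h7 := Rc_step heT (by rw [dsrc_false, e4]; exact Rc_not_Dl h6)
            (by rw [dtgt_mk]; exact h5)
          rw [dsrc_false, e4, dtgt_mk] at h7
          exact h7.mp h6
        · have heB : ((b - 1 + (k:ℤ) + 1, y, false) : Edg) ∉ B := by
            rintro ⟨-, h7⟩
            rw [dsrc_false, e4, dtgt_mk] at h7
            exact h7 ⟨fun h => absurd h h6, fun h => absurd h h4⟩
          have hee := edge_eq _ heT heB
          rw [dsrc_false, e4, dtgt_mk] at hee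
          simp only at hee
          rw [← hee]
          exact ih (by omega) h6
  have s_N' : ∀ f : Vtx, (0 ≤ f.2 ∧ f.2 < n) → (b - 1 ≤ f.1 ∧ f.1 ≤ c) → ¬ Rc b c n F f →
      s f.1 f.2 = 0 := by
    rintro ⟨x, y⟩ h1 h2 h3
    simp only at h1 h2 ⊢
    obtain ⟨k, hk⟩ := Int.eq_ofNat_of_zero_le (show 0 ≤ x - (b - 1) by omega)
    have hx : x = b - 1 + k := by omega
    rw [hx] at h2 h3 ⊢
    exact s_N k y h1.1 h1.2 h2.2 h3
  have zB : ∀ e ∈ B, z e = s c 0 := by
    intro e he
    have hf := TBE_faces he.1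
    rw [zs e he.1]
    by_cases h1 : Rc b c n F (dsrc e)
    · have h2 : ¬ Rc b c n F (dtgt e) := fun h2 => he.2 ⟨fun _ => h2, fun _ => h1⟩
      rw [s_R _ h1, s_N' _ hf.1.2 hf.2.2 h2, add_zero]
    · have h2 : Rc b c n F (dtgt e) := by
        by_contra h2
        exact he.2 ⟨fun h => absurd h h1, fun h => absurd h h2⟩
      rw [s_R _ h2, s_N' _ hf.1.1 hf.2.1 h1, zero_add]
  have h1 : s c 0 = 1 := by
    rw [← zB e0 he0]
    simp only [hz]
    exact b2_of ⟨he0, hC0⟩
  have h2 : z e1 = 1 := by rw [zB e1 he1, h1]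
  have h3 : C (src e1) := by
    by_contra hcon
    have := z_notC e1 (Or.inl hcon)
    rw [h2] at this
    exact one_ne_zero this
  rcases hw1 with h | h
  · rw [← h]; exact h3
  · rw [← h]; exact (hCB e1 he1).mp h3

end Pool.Agent.D0H47.GR
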