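import Pool.Agent.D0H47.GR.Fin2

/-!
Long rectangles: scaling limits.
-/

set_option autoImplicit false
set_option maxHeartbeats 1000000

namespace Pool.Agent.D0H47.GR

open H974 Filter Topology

theorem kap_mem {n : ℕ} (hn : 1 ≤ n) : Real.log 2 / 2 ≤ n * kap n ∧ n * kap n ≤ 98 * Real.log 2 := by
  have hnr : (0:ℝ) < n := by exact_mod_cast hn
  have h1 := kap_lower (n := n) (by exact_mod_cast hn)
  have h2 := kap_upper (n := n) (by exact_mod_cast hn)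
  constructor
  · have := mul_le_mul_of_nonneg_left h1 hnr.le
    refine le_trans (le_of_eq ?_) this
    push_cast
    field_simp
  · have := mul_le_mul_of_nonneg_left h2 hnr.le
    refine le_trans this (le_of_eq ?_)
    push_cast
    field_simp

theorem lim_plain {c C : ℝ}
    (h : ∀ n : ℕ, 1 ≤ n → ∃ A : ℝ, c ≤ A ∧ A ≤ C ∧ ∀ l : ℕ,
      |p l n - A * Real.exp (-kap n * l)| ≤
        C * Real.exp (-c * ((l : ℝ) / n)) * (A * Real.exp (-kap n * l)))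
    {δ : ℕ → ℝ} {F : ℝ → ℝ → ℝ} (hF : IsLim δ F) {b : ℝ} (hb : 0 < b) :
    ∃ A κ : ℝ, (c ≤ A ∧ A ≤ C) ∧ (Real.log 2 / 2 ≤ κ ∧ κ ≤ 98 * Real.log 2) ∧
      ∀ a : ℝ, 0 < a → |F a b - A * Real.exp (-κ * (a / b))| ≤
        C * Real.exp (-c * (a / b)) * (A * Real.exp (-κ * (a / b))) := by
  obtain ⟨h0, h1, h2⟩ := hF
  have hr : ∀ x y : ℝ, 0 < x → 0 < y →
      Tendsto (fun k => (⌊x / δ k⌋₊ : ℝ) / ⌊y / δ k⌋₊) atTop (𝓝 (x / y)) := by
    intro x y hx hy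
    have h3 := (floor_tendsto h0 h1 hx).div (floor_tendsto h0 h1 hy) hy.ne'
    refine h3.congr ?_
    intro k
    have := h0 k
    show (⌊x / δ k⌋₊ : ℝ) * δ k / ((⌊y / δ k⌋₊ : ℝ) * δ k) = _
    rw [mul_div_mul_right _ _ this.ne']
  have hev : ∀ᶠ k in atTop, 1 ≤ ⌊b / δ k⌋₊ := by
    have h3 : Tendsto (fun k => (⌊b / δ k⌋₊ : ℝ) * δ k) atTop (𝓝 b) := floor_tendsto h0 h1 hb
    filter_upwards [h3.eventually (lt_mem_nhds (show (0:ℝ) < b from hb))] with k hk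
    by_contra hcon
    have : ⌊b / δ k⌋₊ = 0 := by omega
    rw [this] at hk
    simp at hk
  obtain ⟨k₀, hk₀⟩ := eventually_atTop.mp hev
  set N : ℕ → ℕ := fun k => ⌊b / δ (k + k₀)⌋₊ with hN
  have hN1 : ∀ k, 1 ≤ N k := fun k => hk₀ _ (by omega)
  choose A hA1 hA2 hA3 using fun k => h (N k) (hN1 k)
  have hcomp : IsCompact (Set.Icc c C ×ˢ Set.Icc (Real.log 2 / 2) (98 * Real.log 2)) :=
    isCompact_Icc.prod isCompact_Icc
  obtain ⟨⟨A0, κ0⟩, hmem, φ, hφ, hlim⟩ := hcomp.tendsto_subseq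
    (x := fun k => (A k, (N k : ℝ) * kap (N k)))
    (fun k => ⟨⟨hA1 k, hA2 k⟩, kap_mem (hN1 k)⟩)
  have tA : Tendsto (fun k => A (φ k)) atTop (𝓝 A0) :=
    (continuous_fst.tendsto _).comp hlim
  have tκ : Tendsto (fun k => (N (φ k) : ℝ) * kap ((N (φ k) : ℕ) : ℤ)) atTop (𝓝 κ0) :=
    (continuous_snd.tendsto _).comp hlim
  refine ⟨A0, κ0, hmem.1, hmem.2, ?_⟩
  intro a ha
  have tsub : Tendsto (fun k => φ k + k₀) atTop atTop :=
    (tendsto_add_atTop_nat k₀).comp hφ.tendsto_atTop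
  set M : ℕ → ℕ := fun k => ⌊a / δ (φ k + k₀)⌋₊ with hM
  have t1 : Tendsto (fun k => p (M k) (N (φ k))) atTop (𝓝 (F a b)) := (h2 a b ha hb).comp tsub
  have t2 : Tendsto (fun k => (M k : ℝ) / N (φ k)) atTop (𝓝 (a / b)) := (hr a b ha hb).comp tsub
  have t3 : Tendsto (fun k => -kap (N (φ k)) * (M k : ℝ)) atTop (𝓝 (-κ0 * (a / b))) := by
    have h9 := (tκ.mul t2).neg
    rw [← neg_mul] at h9
    refine h9.congr ?_
    intro k
    have hnr : (N (φ k) : ℝ) ≠ 0 := by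
      have := hN1 (φ k)
      positivity
    field_simp
  have t4 : Tendsto (fun k => A (φ k) * Real.exp (-kap (N (φ k)) * (M k : ℝ))) atTop
      (𝓝 (A0 * Real.exp (-κ0 * (a / b)))) := tA.mul ((Real.continuous_exp.tendsto _).comp t3)
  have t5 : Tendsto (fun k => |p (M k) (N (φ k)) -
      A (φ k) * Real.exp (-kap (N (φ k)) * (M k : ℝ))|) atTop
      (𝓝 |F a b - A0 * Real.exp (-κ0 * (a / b))|) := (t1.sub t4).abs
  have t6 : Tendsto (fun k => C * Real.exp (-c * ((M k : ℝ) / N (φ k))) *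
      (A (φ k) * Real.exp (-kap (N (φ k)) * (M k : ℝ)))) atTop
      (𝓝 (C * Real.exp (-c * (a / b)) * (A0 * Real.exp (-κ0 * (a / b))))) :=
    (((Real.continuous_exp.tendsto _).comp (t2.const_mul (-c))).const_mul C).mul t4
  exact le_of_tendsto_of_tendsto' t5 t6 (fun k => hA3 (φ k) (M k))

end Pool.Agent.D0H47.GR
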