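import Pool.Agent.D0H47.GR.Long
import Pool.Agent.H974R2.Count

/-!
Three arms from a point of a vertical line, in the half-plane on the left of it: counting.
-/

set_option autoImplicit false

namespace Pool.Agent.D0H47.GR

open H974 H12S Finset

/-! ### Paths which leave a box -/

/-- a path which starts on the right of the line `x = A` stays there or visits it -/
theorem exit_left {G : Set Edg} {a A b c d : ℤ} {u w : Vtx} (hu : A ≤ u.1)
    (h : Reach (G ∩ ↑(RE a b c d)) u w) :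
    (A ≤ w.1 ∧ Reach (G ∩ ↑(RE A b c d)) u w) ∨
      ∃ w', w'.1 = A ∧ Reach (G ∩ ↑(RE A b c d)) u w' := by
  induction h with
  | refl => exact Or.inl ⟨hu, Reach.refl _ _⟩
  | @tail v v' hv hs ih =>
    rcases ih with ⟨h1, h2⟩ | ih
    · by_cases hA : v.1 = A
      · exact Or.inr ⟨v, hA, h2⟩
      · obtain ⟨⟨x, y, bo⟩, ⟨heG, heR⟩, hc⟩ := hs
        left
        cases bo
        · simp only [src_mk, tgt_false] at hc
          simp only [mem_coe, mem_RE_false] at heR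
          have h3 : A ≤ v'.1 ∧ A ≤ x := by
            rcases hc with ⟨k1, k2⟩ | ⟨k1, k2⟩
            · rw [← k1] at h1 hA; rw [← k2]; simp only at h1 hA ⊢; omega
            · rw [← k2] at h1 hA; rw [← k1]; simp only at h1 hA ⊢; omega
          refine ⟨h3.1, h2.trans (Adj.reach ⟨(x, y, false), ⟨heG, ?_⟩, by
            simpa only [src_mk, tgt_false] using hc⟩)⟩
          simp only [mem_coe, mem_RE_false]; omega
        · simp only [src_mk, tgt_true] at hc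
          simp only [mem_coe, mem_RE_true] at heR
          have h3 : A ≤ v'.1 ∧ A ≤ x := by
            rcases hc with ⟨k1, k2⟩ | ⟨k1, k2⟩
            · rw [← k1] at h1 hA; rw [← k2]; simp only at h1 hA ⊢; omega
            · rw [← k2] at h1 hA; rw [← k1]; simp only at h1 hA ⊢; omega
          refine ⟨h3.1, h2.trans (Adj.reach ⟨(x, y, true), ⟨heG, ?_⟩, by
            simpa only [src_mk, tgt_true] using hc⟩)⟩
          simp only [mem_coe, mem_RE_true]; omega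
    · exact Or.inr ih

/-- a path from the left of the line `x = B` to its right visits it -/
theorem exit_right {G : Set Edg} {a B b c d : ℤ} {u w : Vtx} (hu : u.1 ≤ B) (hw : B ≤ w.1)
    (h : Reach (G ∩ ↑(RE a b c d)) u w) :
    ∃ w', w'.1 = B ∧ Reach (G ∩ ↑(RE a B c d)) u w' := by
  have key : ∀ v, Reach (G ∩ ↑(RE a b c d)) u v →
      (∃ w', w'.1 = B ∧ Reach (G ∩ ↑(RE a B c d)) u w') ∨
      (v.1 < B ∧ Reach (G ∩ ↑(RE a B c d)) u v) := by
    intro v hv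
    induction hv with
    | refl =>
      rcases eq_or_lt_of_le hu with h1 | h1
      · exact Or.inl ⟨u, h1, Reach.refl _ _⟩
      · exact Or.inr ⟨h1, Reach.refl _ _⟩
    | @tail v v' hv hs ih =>
      rcases ih with ih | ⟨h1, h2⟩
      · exact Or.inl ih
      · obtain ⟨⟨x, y, bo⟩, ⟨heG, heR⟩, hc⟩ := hs
        have hmem : ((x, y, bo) : Edg) ∈ RE a B c d ∧ v'.1 ≤ B := by
          cases bo
          · simp only [src_mk, tgt_false] at hc
            simp only [mem_coe, mem_RE_false] at heR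
            rw [mem_RE_false]
            rcases hc with ⟨k1, k2⟩ | ⟨k1, k2⟩
            · rw [← k1] at h1; rw [← k2]; simp only at h1 ⊢; omega
            · rw [← k2] at h1; rw [← k1]; simp only at h1 ⊢; omega
          · simp only [src_mk, tgt_true] at hc
            simp only [mem_coe, mem_RE_true] at heR
            rw [mem_RE_true]
            rcases hc with ⟨k1, k2⟩ | ⟨k1, k2⟩
            · rw [← k1] at h1; rw [← k2]; simp only at h1 ⊢; omega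
            · rw [← k2] at h1; rw [← k1]; simp only at h1 ⊢; omega
        have hr : Reach (G ∩ ↑(RE a B c d)) u v' :=
          h2.trans (Adj.reach ⟨(x, y, bo), ⟨heG, hmem.1⟩, hc⟩)
        rcases eq_or_lt_of_le hmem.2 with h3 | h3
        · exact Or.inl ⟨v', h3, hr⟩
        · exact Or.inr ⟨h3, hr⟩
  rcases key w h with h1 | ⟨h1, -⟩
  · exact h1
  · omega

/-- Three arms from `(x, y)`, `s1 ≤ y ≤ s2`: an open path on the left of the line `x`, which leaves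
the window, and the open cluster in the window does not reach the line `x + 1`. -/
def T3 (A x r1 r2 s1 s2 ρ : ℤ) (F : Finset Edg) : Prop :=
  ∃ y, (s1 ≤ y ∧ y ≤ s2) ∧
    (∃ w : Vtx, (w.1 = A ∨ w.2 ≤ s1 - ρ ∨ s2 + ρ ≤ w.2) ∧
      Reach ((↑F : Set Edg) ∩ ↑(RE A x r1 r2)) (x, y) w) ∧
    ∀ w : Vtx, w.1 = x + 1 → ¬ Reach ((↑F : Set Edg) ∩ ↑(RE A (x + 1) r1 r2)) (x, y) w

theorem RE_sub {a b c d a' b' c' d' : ℤ} (h1 : a' ≤ a) (h2 : b ≤ b') (h3 : c' ≤ c)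
    (h4 : d ≤ d') : RE a b c d ⊆ RE a' b' c' d' := RE_subset h1 h2 h3 h4

theorem reach_RE_mono {F : Set Edg} {a b c d a' b' c' d' : ℤ} (h1 : a' ≤ a) (h2 : b ≤ b')
    (h3 : c' ≤ c) (h4 : d ≤ d') {u v : Vtx} (h : Reach (F ∩ ↑(RE a b c d)) u v) :
    Reach (F ∩ ↑(RE a' b' c' d')) u v :=
  h.mono (Set.inter_subset_inter_right _ (by exact_mod_cast RE_sub h1 h2 h3 h4))

theorem T3_local {A x r1 r2 s1 s2 ρ : ℤ} {F S : Finset Edg} (hS : RE A (x + 1) r1 r2 ⊆ S) :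
    T3 A x r1 r2 s1 s2 ρ F ↔ T3 A x r1 r2 s1 s2 ρ (F ∩ S) := by
  unfold T3
  rw [coe_inter_eq hS, coe_inter_eq ((RE_sub le_rfl (by omega) le_rfl le_rfl :
    RE A x r1 r2 ⊆ RE A (x + 1) r1 r2).trans hS)]

/-- shrinking the window from the left -/
theorem T3_shrink {A A' x r1 r2 s1 s2 ρ : ℤ} {F : Finset Edg} (hA : A ≤ A') (hA' : A' ≤ x)
    (h : T3 A x r1 r2 s1 s2 ρ F) : T3 A' x r1 r2 s1 s2 ρ F := by
  obtain ⟨y, hy, ⟨w, hw, hr⟩, hno⟩ := h
  refine ⟨y, hy, ?_, fun w hw' h' => hno w hw' (reach_RE_mono hA le_rfl le_rfl le_rfl h')⟩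
  rcases exit_left (A := A') (u := (x, y)) hA' hr with ⟨h1, h2⟩ | ⟨w', h1, h2⟩
  · rcases hw with hw | hw | hw
    · exact ⟨w, Or.inl (by omega), h2⟩
    · exact ⟨w, Or.inr (Or.inl hw), h2⟩
    · exact ⟨w, Or.inr (Or.inr hw), h2⟩
  · exact ⟨w', Or.inl h1, h2⟩

/-- translation -/
theorem T3_trl {A x r1 r2 s1 s2 ρ s : ℤ} {F : Finset Edg} (h : T3 A x r1 r2 s1 s2 ρ F) :
    T3 (A + s) (x + s) r1 r2 s1 s2 ρ ((trl s 0).mp F) := by
  obtain ⟨y, hy, ⟨⟨v1, v2⟩, hw, hr⟩, hno⟩ := h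
  have e1 : (trl s 0).φ '' ((↑F : Set Edg) ∩ ↑(RE A x r1 r2)) =
      ↑((trl s 0).mp F) ∩ ↑(RE (A + s) (x + s) r1 r2) := by
    rw [LSym.image_inter, trl_RE]
    simp
  have e2 : (trl s 0).φ '' ((↑F : Set Edg) ∩ ↑(RE A (x + 1) r1 r2)) =
      ↑((trl s 0).mp F) ∩ ↑(RE (A + s) (x + s + 1) r1 r2) := by
    rw [LSym.image_inter, trl_RE]
    have : x + 1 + s = x + s + 1 := by ring
    rw [this]
    simp
  refine ⟨y, hy, ⟨(v1 + s, v2), ?_, ?_⟩, ?_⟩
  · rcases hw with hw | hw | hw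
    · left; simp only at hw ⊢; omega
    · right; left; exact hw
    · right; right; exact hw
  · have h1 := (trl s 0).reach hr
    rw [e1] at h1
    simpa using h1
  · rintro ⟨w1, w2⟩ hw1 hr'
    simp only at hw1
    subst hw1
    rw [← e2] at hr'
    have h2 : Reach ((trl s 0).φ '' ((↑F : Set Edg) ∩ ↑(RE A (x + 1) r1 r2)))
        ((trl s 0).ψ (x, y)) ((trl s 0).ψ (x + 1, w2)) := by
      simp only [trl_ψ, add_zero]
      have : x + 1 + s = x + s + 1 := by ring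
      rw [this]
      exact hr'
    exact hno (x + 1, w2) rfl ((trl s 0).reach_iff.mp h2)

theorem T3_trl_iff {A x r1 r2 s1 s2 ρ s : ℤ} {F : Finset Edg} :
    T3 (A + s) (x + s) r1 r2 s1 s2 ρ ((trl s 0).mp F) ↔ T3 A x r1 r2 s1 s2 ρ F := by
  constructor
  · intro h
    have := T3_trl (s := -s) h
    have e : (trl (-s) 0).mp ((trl s 0).mp F) = F := by
      have := trl_trl s 0 F
      simpa using this
    rw [e] at this
    simpa using this
  · exact T3_trl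

theorem PH_T3_trl (A x r1 r2 s1 s2 ρ s : ℤ) :
    PH (RE (A + s) (x + s + 1) r1 r2) (T3 (A + s) (x + s) r1 r2 s1 s2 ρ) =
      PH (RE A (x + 1) r1 r2) (T3 A x r1 r2 s1 s2 ρ) := by
  have h1 : RE (A + s) (x + s + 1) r1 r2 = (trl s 0).mp (RE A (x + 1) r1 r2) := by
    rw [trl_RE]; congr 1 <;> ring
  unfold PH
  rw [h1, LSym.pr]
  exact Pr_congr (fun F _ => T3_trl_iff)

/-! ### Counting -/

/-- the boundary of the window -/
def Bd (A s1 s2 ρ : ℤ) : Set Vtx := {w | w.1 = A ∨ w.2 ≤ s1 - ρ ∨ s2 + ρ ≤ w.2}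

theorem count_le {X r1 r2 s1 s2 : ℤ} {ρ : ℕ} {F : Finset Edg}
    (hF : F ⊆ RE (X - ρ) (X + 2 * ρ) r1 r2) :
    ∑ i ∈ range ρ, ind (T3 (X - ρ) (X + i) r1 r2 s1 s2 ρ F) ≤
      ((NC src tgt (Finset.Icc X (X + ρ - 1) ×ˢ Finset.Icc s1 s2) (Bd (X - ρ) s1 s2 ρ)
        (↑F : Set Edg) : ℕ) : ℝ) := by
  classical
  have hc : ∀ i : ℕ, ∃ y : ℤ, T3 (X - ρ) (X + i) r1 r2 s1 s2 ρ F → (s1 ≤ y ∧ y ≤ s2) ∧
    (∃ w : Vtx, (w.1 = X - ρ ∨ w.2 ≤ s1 - ρ ∨ s2 + ρ ≤ w.2) ∧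
      Reach ((↑F : Set Edg) ∩ ↑(RE (X - ρ) (X + i) r1 r2)) (X + i, y) w) ∧
    ∀ w : Vtx, w.1 = X + i + 1 →
      ¬ Reach ((↑F : Set Edg) ∩ ↑(RE (X - ρ) (X + i + 1) r1 r2)) (X + i, y) w := by
    intro i
    by_cases h : T3 (X - ρ) (X + i) r1 r2 s1 s2 ρ F
    · obtain ⟨y, hy⟩ := h
      exact ⟨y, fun _ => hy⟩
    · exact ⟨0, fun h' => absurd h' h⟩
  choose y hy using hc
  have e1 : ∑ i ∈ range ρ, ind (T3 (X - ρ) (X + i) r1 r2 s1 s2 ρ F) =
      (((range ρ).filter (fun i : ℕ => T3 (X - ρ) (X + i) r1 r2 s1 s2 ρ F)).card : ℝ) := by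
    rw [Finset.card_filter]
    push_cast
    apply Finset.sum_congr rfl
    intro i _
    by_cases h : T3 (X - ρ) (X + i) r1 r2 s1 s2 ρ F
    · rw [ind_of h, if_pos h]
    · rw [ind_not_of h, if_neg h]
  rw [e1]
  unfold NC
  have e2 : ((range ρ).filter (fun i : ℕ => T3 (X - ρ) (X + i) r1 r2 s1 s2 ρ F)).card ≤
      (TC src tgt (Finset.Icc X (X + ρ - 1) ×ˢ Finset.Icc s1 s2) (Bd (X - ρ) s1 s2 ρ)
        (↑F : Set Edg)).card := by
    apply Finset.card_le_card_of_injOn (fun i : ℕ => clu src tgt (↑F : Set Edg) (X + (i:ℤ), y i))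
    · intro i hi
      simp only [Finset.coe_filter, Finset.mem_range, Set.mem_setOf_eq] at hi
      obtain ⟨h1, ⟨w, hw, hr⟩, h3⟩ := hy i hi.2
      rw [Finset.mem_coe, mem_TC]
      refine ⟨(X + i, y i), ?_, ⟨w, hw, ?_⟩, rfl⟩
      · rw [Finset.mem_product, Finset.mem_Icc, Finset.mem_Icc]
        simp only
        omega
      · exact hr.mono Set.inter_subset_left
    · have key : ∀ i j : ℕ, i < j → T3 (X - ρ) (X + i) r1 r2 s1 s2 ρ F →
          T3 (X - ρ) (X + j) r1 r2 s1 s2 ρ F →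
          clu src tgt (↑F : Set Edg) (X + i, y i) ≠ clu src tgt (↑F : Set Edg) (X + j, y j) := by
        intro i j hij hi hj heq
        have h1 : (X + (j : ℤ), y j) ∈ clu src tgt (↑F : Set Edg) (X + i, y i) := by
          rw [heq]; exact GR.refl _ _
        have h2 : Reach (↑F : Set Edg) (X + i, y i) (X + j, y j) := h1
        have h3 : (↑F : Set Edg) ∩ ↑(RE (X - ρ) (X + 2 * ρ) r1 r2) = ↑F :=
          Set.inter_eq_left.mpr (by exact_mod_cast hF)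
        rw [← h3] at h2
        obtain ⟨w', hw', hr'⟩ := exit_right (B := X + i + 1) (by simp only; omega)
          (by simp only; omega) h2
        exact (hy i hi).2.2 w' hw' hr'
      intro i hi j hj heq
      simp only [Finset.coe_filter, Finset.mem_range, Set.mem_setOf_eq] at hi hj
      rcases lt_trichotomy i j with h | h | h
      · exact absurd heq (key i j h hi.2 hj.2)
      · exact h
      · exact absurd heq.symm (key j i h hj.2 hi.2)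
  exact_mod_cast e2

theorem rsw_dual {w h : ℤ} (h9 : 9 ≤ w) (hh' : 0 ≤ h) (h3 : h ≤ 3 * w) :
    p w h ≤ 1 - (1/2 : ℝ)^47 := by
  have h1 := p_dual (m := w) (n := h) (by omega) hh'
  have h2 : (1/2 : ℝ)^47 ≤ p (h + 1) (w - 1) :=
    rsw (n := (w - 1) / 2) (by omega) (by omega) (by omega) (by omega)
  linarith

theorem prob_reach {X r1 r2 s1 s2 : ℤ} {ρ : ℕ} (hρ : 9 ≤ ρ) (hs : s1 ≤ s2) (hs2 : s2 ≤ s1 + ρ)
    (hr1 : s1 - ρ ≤ r1) (hr2 : r2 ≤ s2 + ρ) :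
    PH (RE (X - ρ) (X + 2 * ρ) r1 r2) (fun G : Finset Edg =>
      ∃ x ∈ Finset.Icc X (X + ρ - 1) ×ˢ Finset.Icc s1 s2, RB src tgt (Bd (X - ρ) s1 s2 ρ)
        (↑G : Set Edg) x) ≤ 1 - (1/2 : ℝ)^141 := by
  set U := RE (X - ρ) (X + 2 * ρ) r1 r2 with hU
  set V := RE (X - ρ) (X + 2 * ρ) (s1 - ρ) (s2 + ρ) with hV
  set A1 : Finset Edg → Prop := LRc (X - ρ) X (s1 - ρ) (s2 + ρ) with hA1
  set A2 : Finset Edg → Prop := TBc (X - ρ) (X + 2 * ρ) s2 (s2 + ρ) with hA2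
  set A3 : Finset Edg → Prop := TBc (X - ρ) (X + 2 * ρ) (s1 - ρ) s1 with hA3
  have i1 : IncrE V A1 := LRc_incr _ _ _ _ _
  have i2 : IncrE V A2 := TBc_incr _ _ _ _ _
  have i3 : IncrE V A3 := TBc_incr _ _ _ _ _
  have hUV : U ⊆ V := RE_sub le_rfl le_rfl hr1 hr2
  have t1 : PH U (fun G : Finset Edg =>
      ∃ x ∈ Finset.Icc X (X + ρ - 1) ×ˢ Finset.Icc s1 s2, RB src tgt (Bd (X - ρ) s1 s2 ρ)
        (↑G : Set Edg) x) ≤ PH U (fun F => (A1 F ∨ A2 F) ∨ A3 F) := by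
    apply Pr_mono okh
    rintro G hG ⟨⟨x1, x2⟩, hx, ⟨b1, b2⟩, hb, hr⟩
    rw [Finset.mem_product, Finset.mem_Icc, Finset.mem_Icc] at hx
    simp only at hx
    have hr' : Reach (↑G : Set Edg) (x1, x2) (b1, b2) := hr
    have hmt : ∀ a b, ((a, b, true) : Edg) ∈ (↑G : Set Edg) →
        (X - ρ ≤ a ∧ a < X + 2 * ρ ∧ r1 ≤ b ∧ b ≤ r2) := fun a b h => by
      have := hG (Finset.mem_coe.mp h)
      rwa [hU, mem_RE_true] at this
    have hmf : ∀ a b, ((a, b, false) : Edg) ∈ (↑G : Set Edg) →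
        (X - ρ ≤ a ∧ a ≤ X + 2 * ρ ∧ r1 ≤ b ∧ b < r2) := fun a b h => by
      have := hG (Finset.mem_coe.mp h)
      rwa [hU, mem_RE_false] at this
    rcases hb with hb | hb | hb
    · simp only at hb
      left; left
      obtain ⟨y1, y2, k1, k2, k3, -⟩ := sub_LR (G := (↑G : Set Edg)) (a := X - ρ) (b := X)
        (c := s1 - ρ) (d := s2 + ρ) (by omega)
        (fun a b h _ _ => by have := hmt a b h; omega)
        (fun a b h _ _ => by have := hmf a b h; omega) hr'.symm (by simp only; omega)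
        (by simp only; omega)
      exact ⟨y1, y2, k1, k2, k3⟩
    · simp only at hb
      right
      obtain ⟨y1, y2, k1, k2, k3, -⟩ := sub_TB (G := (↑G : Set Edg)) (a := X - ρ)
        (b := X + 2 * ρ) (c := s1 - ρ) (d := s1) (by omega)
        (fun a b h _ _ => by have := hmf a b h; omega)
        (fun a b h _ _ => by have := hmt a b h; omega) hr'.symm (by simp only; omega)
        (by simp only; omega)
      exact ⟨y1, y2, k1, k2, k3⟩
    · simp only at hb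
      left; right
      obtain ⟨y1, y2, k1, k2, k3, -⟩ := sub_TB (G := (↑G : Set Edg)) (a := X - ρ)
        (b := X + 2 * ρ) (c := s2) (d := s2 + ρ) (by omega)
        (fun a b h _ _ => by have := hmf a b h; omega)
        (fun a b h _ _ => by have := hmt a b h; omega) hr' (by simp only; omega)
        (by simp only; omega)
      exact ⟨y1, y2, k1, k2, k3⟩
  have i12 : IncrE V (fun F => A1 F ∨ A2 F) := fun F G h1 h2 h3 => by
    rcases h3 with h3 | h3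
    · exact Or.inl (i1 F G h1 h2 h3)
    · exact Or.inr (i2 F G h1 h2 h3)
  have i123 : IncrE V (fun F => (A1 F ∨ A2 F) ∨ A3 F) := fun F G h1 h2 h3 => by
    rcases h3 with h3 | h3
    · exact Or.inl (i12 F G h1 h2 h3)
    · exact Or.inr (i3 F G h1 h2 h3)
  have t2 : PH U (fun F => (A1 F ∨ A2 F) ∨ A3 F) ≤ PH V (fun F => (A1 F ∨ A2 F) ∨ A3 F) :=
    Pr_mono_set okh hUV i123
  have t3 := Pr_harris_dd okh (S := V) i1 i2
  have t4 := Pr_harris_dd okh (S := V) i12 i3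
  have t5 : PH V (fun F => A1 F ∨ A2 F) = 1 - PH V (fun F => ¬ A1 F ∧ ¬ A2 F) := by
    have := Pr_not (p := fun _ => (1/2 : ℝ)) V (fun F => A1 F ∨ A2 F)
    have e : PH V (fun F => ¬ (A1 F ∨ A2 F)) = PH V (fun F => ¬ A1 F ∧ ¬ A2 F) :=
      Pr_congr (fun F _ => by tauto)
    unfold PH at e ⊢
    linarith
  have t6 : PH V (fun F => (A1 F ∨ A2 F) ∨ A3 F) =
      1 - PH V (fun F => ¬ (A1 F ∨ A2 F) ∧ ¬ A3 F) := by
    have := Pr_not (p := fun _ => (1/2 : ℝ)) V (fun F => (A1 F ∨ A2 F) ∨ A3 F)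
    have e : PH V (fun F => ¬ ((A1 F ∨ A2 F) ∨ A3 F)) = PH V (fun F => ¬ (A1 F ∨ A2 F) ∧ ¬ A3 F) :=
      Pr_congr (fun F _ => by tauto)
    unfold PH at e ⊢
    linarith
  have v1 : PH V A1 ≤ 1 - (1/2 : ℝ)^47 := by
    have h1 : PH V A1 = p ρ (s2 - s1 + 2 * ρ) :=
      PH_LRc ((LRE_subset_RE).trans (RE_sub le_rfl (by omega) le_rfl le_rfl)) (by ring) (by ring)
    rw [h1]
    exact rsw_dual (by omega) (by omega) (by omega)
  have v2 : PH V A2 ≤ 1 - (1/2 : ℝ)^47 := by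
    have h1 : PH V A2 = hh (1/2) (s2 + ρ - s2) (X + 2 * ρ - (X - ρ)) :=
      pr_TBc _ ((TBE_subset_RE).trans (RE_sub le_rfl le_rfl (by omega) le_rfl))
    have e1 : s2 + (ρ : ℤ) - s2 = ρ := by ring
    have e2 : X + 2 * (ρ : ℤ) - (X - ρ) = 3 * ρ := by ring
    rw [e1, e2] at h1
    rw [h1]
    exact rsw_dual (by omega) (by omega) (by omega)
  have v3 : PH V A3 ≤ 1 - (1/2 : ℝ)^47 := by
    have h1 : PH V A3 = hh (1/2) (s1 - (s1 - ρ)) (X + 2 * ρ - (X - ρ)) :=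
      pr_TBc _ ((TBE_subset_RE).trans (RE_sub le_rfl le_rfl le_rfl (by omega)))
    have e1 : s1 - (s1 - (ρ : ℤ)) = ρ := by ring
    have e2 : X + 2 * (ρ : ℤ) - (X - ρ) = 3 * ρ := by ring
    rw [e1, e2] at h1
    rw [h1]
    exact rsw_dual (by omega) (by omega) (by omega)
  have q1 : (1/2 : ℝ)^47 ≤ 1 - PH V A1 := by linarith
  have q2 : (1/2 : ℝ)^47 ≤ 1 - PH V A2 := by linarith
  have q3 : (1/2 : ℝ)^47 ≤ 1 - PH V A3 := by linarith
  have q12 : (1/2 : ℝ)^47 * (1/2)^47 ≤ PH V (fun F => ¬ A1 F ∧ ¬ A2 F) :=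
    (mul_le_mul q1 q2 (by positivity) (le_trans (by positivity) q1)).trans t3
  have q4 : (1/2 : ℝ)^47 * (1/2)^47 * (1/2)^47 ≤ PH V (fun F => ¬ (A1 F ∨ A2 F) ∧ ¬ A3 F) := by
    refine le_trans ?_ t4
    have h12 : (1/2 : ℝ)^47 * (1/2)^47 ≤ 1 - PH V (fun F => A1 F ∨ A2 F) := by rw [t5]; linarith
    exact mul_le_mul h12 q3 (by positivity) (le_trans (by positivity) h12)
  have q5 : (1/2 : ℝ)^47 * (1/2)^47 * (1/2)^47 = (1/2 : ℝ)^141 := by ring
  rw [q5] at q4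
  calc _ ≤ PH V (fun F => (A1 F ∨ A2 F) ∨ A3 F) := t1.trans t2
    _ ≤ _ := by rw [t6]; linarith

/-- the constant of the local bound -/
noncomputable def CL : ℝ := 2 / (1 - (1 - (1/2 : ℝ)^141))^2

theorem CL_pos : 0 < CL := by unfold CL; norm_num

theorem count_sum {X r1 r2 s1 s2 : ℤ} {ρ : ℕ} (hρ : 9 ≤ ρ) (hs : s1 ≤ s2) (hs2 : s2 ≤ s1 + ρ)
    (hr1 : s1 - ρ ≤ r1) (hr2 : r2 ≤ s2 + ρ) :
    ∑ i ∈ range ρ, PH (RE (X - ρ) (X + 2 * ρ) r1 r2) (T3 (X - ρ) (X + i) r1 r2 s1 s2 ρ) ≤ CL := by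
  set U := RE (X - ρ) (X + 2 * ρ) r1 r2 with hU
  have h1 : ∑ i ∈ range ρ, PH U (T3 (X - ρ) (X + i) r1 r2 s1 s2 ρ) =
      Ex (fun _ => (1/2 : ℝ)) U (fun F => ∑ i ∈ range ρ, ind (T3 (X - ρ) (X + i) r1 r2 s1 s2 ρ F)) := by
    unfold PH Pr
    rw [Ex_sum]
  rw [h1]
  have h2 := NC_sq okh U src tgt (Finset.Icc X (X + ρ - 1) ×ˢ Finset.Icc s1 s2)
    (Bd (X - ρ) s1 s2 ρ) (lam := 1 - (1/2 : ℝ)^141) (by norm_num) (prob_reach hρ hs hs2 hr1 hr2)
  refine le_trans (Ex_mono okh (fun F hF => ?_)) h2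
  refine (count_le hF).trans ?_
  set N := NC src tgt (Finset.Icc X (X + ρ - 1) ×ˢ Finset.Icc s1 s2) (Bd (X - ρ) s1 s2 ρ)
    (↑F : Set Edg)
  rcases Nat.eq_zero_or_pos N with h | h
  · rw [h]; simp
  · have : (1 : ℝ) ≤ (N : ℝ) := by exact_mod_cast h
    nlinarith

/-- **The local bound.** -/
theorem local_bound {m r1 r2 s1 s2 : ℤ} {ρ : ℕ} (hρ : 9 ≤ ρ) (hs : s1 ≤ s2) (hs2 : s2 ≤ s1 + ρ)
    (hr1 : s1 - ρ ≤ r1) (hr2 : r2 ≤ s2 + ρ) :
    PH (RE (m - 2 * ρ) (m + 1) r1 r2) (T3 (m - 2 * ρ) m r1 r2 s1 s2 ρ) ≤ CL / ρ := by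
  have h1 := count_sum (X := m) hρ hs hs2 hr1 hr2
  set τ := PH (RE (m - 2 * ρ) (m + 1) r1 r2) (T3 (m - 2 * ρ) m r1 r2 s1 s2 ρ) with hτ
  have h2 : ∀ i ∈ range ρ, τ ≤
      PH (RE (m - ρ) (m + 2 * ρ) r1 r2) (T3 (m - ρ) (m + i) r1 r2 s1 s2 ρ) := by
    intro i hi
    rw [Finset.mem_range] at hi
    set S := RE (m - 2 * ρ) (m + 2 * ρ) r1 r2 with hS
    have e1 : τ = PH (RE (m - 2 * ρ + i) (m + i + 1) r1 r2)
        (T3 (m - 2 * ρ + i) (m + i) r1 r2 s1 s2 ρ) := (PH_T3_trl _ _ _ _ _ _ _ _).symm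
    have s1' : RE (m - 2 * ρ + i) (m + i + 1) r1 r2 ⊆ S :=
      RE_sub (by omega) (by omega) le_rfl le_rfl
    have e2 : PH S (T3 (m - 2 * ρ + i) (m + i) r1 r2 s1 s2 ρ) =
        PH (RE (m - 2 * ρ + i) (m + i + 1) r1 r2) (T3 (m - 2 * ρ + i) (m + i) r1 r2 s1 s2 ρ) :=
      Pr_local s1' (fun F _ => T3_local (Finset.Subset.refl _))
    have s2' : RE (m - ρ) (m + 2 * ρ) r1 r2 ⊆ S := RE_sub (by omega) le_rfl le_rfl le_rfl
    have e3 : PH S (T3 (m - ρ) (m + i) r1 r2 s1 s2 ρ) =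
        PH (RE (m - ρ) (m + 2 * ρ) r1 r2) (T3 (m - ρ) (m + i) r1 r2 s1 s2 ρ) :=
      Pr_local s2' (fun F _ => T3_local (RE_sub le_rfl (by omega) le_rfl le_rfl))
    rw [e1, ← e2, ← e3]
    exact Pr_mono okh (fun F _ h => T3_shrink (by omega) (by omega) h)
  have h3 := Finset.sum_le_sum h2
  rw [Finset.sum_const, Finset.card_range, nsmul_eq_mul] at h3
  have hρr : (0 : ℝ) < (ρ : ℝ) := by
    have : 0 < ρ := by omega
    exact_mod_cast this
  rw [le_div_iff₀ hρr]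
  linarith

end Pool.Agent.D0H47.GR
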