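import Pool.Agent.D0H47.GR.Star

/-!
Increments of the crossing probabilities of rectangles in the long direction.
-/

set_option autoImplicit false

namespace Pool.Agent.D0H47.GR

open H974 H12S Finset

theorem tele (f : ℤ → ℝ) (a : ℤ) (N : ℕ) :
    ∑ i ∈ range N, (f (a + i) - f (a + i + 1)) = f a - f (a + N) := by
  induction N with
  | zero => simp
  | succ N ih =>
    rw [Finset.sum_range_succ, ih]
    have : a + ((N + 1 : ℕ) : ℤ) = a + N + 1 := by push_cast; ring
    rw [this]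
    ring

theorem p_submul {a b n : ℤ} (ha : 1 ≤ a) (hb : 1 ≤ b) : p (a + b) n ≤ p a n * p b n := by
  set U := LRE 0 (a + b) 0 n with hU
  have sT : LRE a (a + b) 0 n ⊆ U := LRE_sub (by omega) le_rfl le_rfl le_rfl
  have sS : LRE 0 a 0 n ⊆ U := LRE_sub le_rfl (by omega) le_rfl le_rfl
  have e1 : PH U (LRc 0 a 0 n) = p a n := PH_LRc sS (by ring) (by ring)
  have e2 : PH U (LRc a (a + b) 0 n) = p b n := PH_LRc sT (by ring) (by ring)
  have e3 : PH U (LRc 0 (a + b) 0 n) = p (a + b) n :=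
    PH_LRc (Finset.Subset.refl _) (by ring) (by ring)
  have h1 : PH U (LRc 0 (a + b) 0 n) ≤ PH U (fun F => LRc 0 a 0 n F ∧ LRc a (a + b) 0 n F) :=
    Pr_mono okh (fun F _ h => ⟨LRc_sub le_rfl (by omega) (by omega) le_rfl le_rfl h,
      LRc_sub (by omega) (by omega) le_rfl le_rfl le_rfl h⟩)
  have h2 : PH U (fun F => LRc 0 a 0 n F ∧ LRc a (a + b) 0 n F) =
      PH U (LRc 0 a 0 n) * PH U (LRc a (a + b) 0 n) :=
    Pr_indep sS sT (LRE_disj le_rfl) (fun F _ => LRc_local (Finset.Subset.refl _))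
      (fun F _ => LRc_local (Finset.Subset.refl _))
  rw [h2, e1, e2, e3] at h1
  exact h1

theorem p_dual {m n : ℤ} (hm : 1 ≤ m) (hn : 0 ≤ n) : 1 - p m n = p (n + 1) (m - 1) := by
  have h := hh_dual (q := 1/2) (w := m) (h := n) (by omega) hn
  have e : (1 : ℝ) - 1/2 = 1/2 := by norm_num
  rw [e] at h
  have h' : p m n = 1 - p (n + 1) (m - 1) := h
  linarith

/-- general lower bound -/
theorem inc_lower {x n : ℤ} (hx : 1 ≤ x) (hn : 0 ≤ n) :
    (1 - p (x + 1) n) * p (x + 1) n / (2 * (n + 1)) ≤ p x n - p (x + 1) n := by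
  obtain ⟨N, hN⟩ : ∃ N : ℕ, (N : ℤ) = n + 1 := ⟨(n + 1).toNat, by omega⟩
  have h1 : ∀ i ∈ range N, (p (x + 1 + i) n - p (x + 1 + i + 1) n) * (1 - p (x + 1) n) ≤
      p x n - p (x + 1) n := by
    intro i _
    have h := star (x := x) (m := x + 1 + i) (n := n) hx (by omega)
    have h2 : p (x + 1 + i - x) n * (p x n - p (x + 1) n) ≤ 1 * (p x n - p (x + 1) n) :=
      mul_le_mul_of_nonneg_right (p_le_one _ _) (inc_nonneg hx)
    linarith
  have h2 := Finset.sum_le_sum h1
  rw [← Finset.sum_mul, tele (fun t => p t n) (x + 1) N, Finset.sum_const, Finset.card_range,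
    nsmul_eq_mul] at h2
  have h3 : p (x + 1 + N) n ≤ p (x + 1) n * (1/2) := by
    have h4 := p_submul (a := x + 1) (b := N) (n := n) (by omega) (by omega)
    have h5 : p (N : ℤ) n = 1/2 := by rw [hN]; exact hh_half n hn
    rw [h5] at h4
    exact h4
  have hn' : (0 : ℝ) < (n : ℝ) + 1 := by
    have : (0 : ℝ) ≤ (n : ℝ) := by exact_mod_cast hn
    linarith
  have hNr : (N : ℝ) = (n : ℝ) + 1 := by exact_mod_cast hN
  rw [hNr] at h2
  rw [div_le_iff₀ (by positivity)]
  have h6 : 0 ≤ 1 - p (x + 1) n := by have := p_le_one (x + 1) n; linarith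
  nlinarith [h2, h3, h6, mul_le_mul_of_nonneg_right h3 h6]

/-- general upper bound -/
theorem inc_upper {x0 m n : ℤ} {N : ℕ} (hx : 1 ≤ x0) (hN : 1 ≤ N) (hm : x0 + N ≤ m) :
    N * (1 - p (x0 + 1) n) * (p m n - p (m + 1) n) ≤ p (m - x0 - N + 1) n := by
  have h1 : ∀ i ∈ range N, (p m n - p (m + 1) n) * (1 - p (x0 + 1) n) ≤
      p (m - x0 - N + 1) n * (p (x0 + i) n - p (x0 + i + 1) n) := by
    intro i hi
    rw [Finset.mem_range] at hi
    have h := star (x := x0 + i) (m := m) (n := n) (by omega) (by omega)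
    have h2 : p (m - (x0 + i)) n ≤ p (m - x0 - N + 1) n :=
      p_mono (by omega) (by omega) le_rfl
    have h3 : p (x0 + i + 1) n ≤ p (x0 + 1) n := p_mono (by omega) (by omega) le_rfl
    have h4 := inc_nonneg (m := x0 + i) (n := n) (by omega)
    have h5 := inc_nonneg (m := m) (n := n) (by omega)
    nlinarith [mul_le_mul_of_nonneg_right h2 h4, mul_le_mul_of_nonneg_left h3 h5]
  have h2 := Finset.sum_le_sum h1
  rw [Finset.sum_const, Finset.card_range, nsmul_eq_mul, ← Finset.mul_sum,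
    tele (fun t => p t n) x0 N] at h2
  have h3 : p x0 n - p (x0 + N) n ≤ 1 := by
    have := p_le_one x0 n; have := p_nonneg (x0 + N) n; linarith
  have h4 := p_nonneg (m - x0 - N + 1) n
  nlinarith [mul_le_mul_of_nonneg_left h3 h4]

/-- crossing in the direction of the long side of the dual rectangle -/
theorem eta_bound {x n : ℤ} (hx : 1 ≤ x) (hn : 1 ≤ n) (h : n ≤ 2 * x + 1) (h4 : 4 ≤ n ∨ n ≤ x) :
    (1/2 : ℝ)^47 ≤ 1 - p (x + 1) n := by
  rw [p_dual (by omega) (by omega)]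
  have e : x + 1 - 1 = x := by ring
  rw [e]
  by_cases hx2 : 2 ≤ x
  · have hk : 0 < x / 2 := by omega
    exact rsw hk (by omega) (by omega) (by omega)
  · have hx1 : x = 1 := by omega
    have hn1 : n = 1 := by omega
    subst hx1 hn1
    have := hh_half 1 (by norm_num)
    have e2 : p (1 + 1) 1 = 1/2 := this
    rw [e2]
    norm_num

theorem p_shift {m n : ℤ} (hn : 2 ≤ n) (hm : n ≤ m) :
    (1/2 : ℝ)^48 * p (m - n + 1) n ≤ p m n := by
  have hk : 0 < n / 2 := by omega
  by_cases h : m ≤ 2 * n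
  · have h1 : (1/2:ℝ)^47 ≤ p m n := rsw hk (by omega) (by omega) (by omega)
    have h2 := p_le_one (m - n + 1) n
    have h3 := p_nonneg (m - n + 1) n
    nlinarith [h1, h2, h3]
  · have h1 : (1/2:ℝ)^47 ≤ p (2 * n - 1) n := rsw hk (by omega) (by omega) (by omega)
    have h2 : (1/2:ℝ) ≤ p n n := hh_square n (by omega)
    have h3 := hh_glue (q := 1/2) (by norm_num) (by norm_num) (w1 := m - n + 1) (w2 := 2 * n - 1)
      (v := n) (h := n) (by omega) (by omega) (by omega) (by omega)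
    have e : m - n + 1 + (2 * n - 1) - n = m := by ring
    rw [e] at h3
    have h3' : p (m - n + 1) n * p (2 * n - 1) n * p n n ≤ p m n := h3
    have h4 := p_nonneg (m - n + 1) n
    have h5 : p (m - n + 1) n * (1/2:ℝ)^47 ≤ p (m - n + 1) n * p (2 * n - 1) n :=
      mul_le_mul_of_nonneg_left h1 h4
    have h6 : p (m - n + 1) n * (1/2:ℝ)^47 * (1/2) ≤ p (m - n + 1) n * p (2 * n - 1) n * p n n :=
      mul_le_mul h5 h2 (by norm_num) (mul_nonneg h4 (p_nonneg _ _))
    calc (1/2 : ℝ)^48 * p (m - n + 1) n = p (m - n + 1) n * (1/2:ℝ)^47 * (1/2) := by ring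
      _ ≤ _ := h6.trans h3'

/-- **Increments in the long direction.** -/
theorem long_inc : ∃ c C : ℝ, 0 < c ∧ 0 < C ∧ ∀ m n : ℤ, 1 ≤ n → n ≤ m →
    c / n * p m n ≤ p m n - p (m + 1) n ∧ p m n - p (m + 1) n ≤ C / n * p m n := by
  refine ⟨(1/2)^50, 2^97, by positivity, by positivity, ?_⟩
  intro m n hn hm
  have hnr : (1 : ℝ) ≤ (n : ℝ) := by exact_mod_cast hn
  have hg := inc_nonneg (m := m) (n := n) (by omega)
  have hp0 := p_nonneg m n
  have hp1 := p_nonneg (m + 1) n
  constructor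
  · have h1 := inc_lower (x := m) (n := n) (by omega) (by omega)
    have h2 := eta_bound (x := m) (n := n) (by omega) hn (by omega) (Or.inr hm)
    rw [div_le_iff₀ (by positivity)] at h1
    have h3 : (1/2 : ℝ)^47 * p (m + 1) n ≤ (1 - p (m + 1) n) * p (m + 1) n :=
      mul_le_mul_of_nonneg_right h2 hp1
    have h4 : (1/2 : ℝ)^47 * p (m + 1) n ≤ (p m n - p (m + 1) n) * (4 * n) := by
      nlinarith [h1, h3, hg, hnr]
    rw [div_mul_eq_mul_div, div_le_iff₀ (by positivity)]
    nlinarith [h4, hg, hnr]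
  · rw [div_mul_eq_mul_div, le_div_iff₀ (by positivity)]
    by_cases h4 : 4 ≤ n
    · obtain ⟨N, hN⟩ : ∃ N : ℕ, (N : ℤ) = n - n / 2 := ⟨(n - n / 2).toNat, by omega⟩
      have h1 := inc_upper (x0 := n / 2) (m := m) (n := n) (N := N) (by omega) (by omega)
        (by omega)
      have e : m - n / 2 - N + 1 = m - n + 1 := by omega
      rw [e] at h1
      have h2 := eta_bound (x := n / 2) (n := n) (by omega) hn (by omega) (Or.inl h4)
      have h3 := p_shift (m := m) (n := n) (by omega) hm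
      have hNr : (n : ℝ) / 2 ≤ (N : ℝ) := by
        have : n ≤ 2 * (N : ℤ) := by omega
        have h' : (n : ℝ) ≤ 2 * (N : ℝ) := by exact_mod_cast this
        linarith
      have h5 : (n : ℝ) / 2 * (1/2 : ℝ)^47 ≤ N * (1 - p (n / 2 + 1) n) :=
        mul_le_mul hNr h2 (by positivity) (by positivity)
      have h6 := mul_le_mul_of_nonneg_right h5 hg
      have h7 : (n : ℝ) / 2 * (1/2 : ℝ)^47 * (p m n - p (m + 1) n) ≤ p (m - n + 1) n := h6.trans h1
      have h8 : (1/2 : ℝ)^48 * ((n : ℝ) / 2 * (1/2 : ℝ)^47 * (p m n - p (m + 1) n)) ≤ p m n :=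
        (mul_le_mul_of_nonneg_left h7 (by positivity)).trans h3
      have h9 : (1/2 : ℝ)^48 * ((n : ℝ) / 2 * (1/2 : ℝ)^47 * (p m n - p (m + 1) n)) =
          (1/2 : ℝ)^96 * ((p m n - p (m + 1) n) * n) := by ring
      rw [h9] at h8
      have h10 : (2:ℝ)^97 * ((1/2 : ℝ)^96 * ((p m n - p (m + 1) n) * n)) ≤ 2^97 * p m n :=
        mul_le_mul_of_nonneg_left h8 (by positivity)
      have h11 : (2:ℝ)^97 * ((1/2 : ℝ)^96 * ((p m n - p (m + 1) n) * n)) =
          2 * ((p m n - p (m + 1) n) * n) := by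
        norm_num
        ring
      rw [h11] at h10
      nlinarith [mul_nonneg hg (by linarith : (0:ℝ) ≤ n)]
    · have h5 : (n : ℝ) ≤ 3 := by
        have : n ≤ 3 := by omega
        exact_mod_cast this
      have h6 : p m n - p (m + 1) n ≤ p m n := by linarith
      have h7 : (p m n - p (m + 1) n) * n ≤ p m n * 3 :=
        mul_le_mul h6 h5 (by linarith) hp0
      nlinarith [hp0]

end Pool.Agent.D0H47.GR
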