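import Pool.Agent.D0H47.GR.Upper

/-!
The increment in the short side, for all shapes: `exp (c m / n²) ≤ p m (n+1) / p m n ≤ exp (C m / n²)`
for `m ≥ n ≥ 1`.
-/

set_option autoImplicit false

namespace Pool.Agent.D0H47.GR

open H974 H12S Finset

theorem p_lt_one {w h : ℤ} (hw : 1 ≤ w) : p w h < 1 := by
  have h1 : PH (LRE 0 w 0 h) (fun F => ¬ LRc 0 w 0 h F) = 1 - p w h := by
    unfold PH
    rw [Pr_not]
    rfl
  have h2 : 0 < PH (LRE 0 w 0 h) (fun F => ¬ LRc 0 w 0 h F) := by
    apply PH_pos (F0 := ∅) (Finset.empty_subset _)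
    rintro ⟨y, y', -, -, hr⟩
    have key : ∀ v, Reach ((↑(∅ : Finset Edg) : Set Edg) ∩ ↑(LRE 0 w 0 h)) (0, y) v →
        v = (0, y) := by
      intro v hv
      induction hv with
      | refl => rfl
      | tail _ hs _ =>
        obtain ⟨e, ⟨he, -⟩, -⟩ := hs
        simp at he
    have := congrArg Prod.fst (key _ hr)
    simp only at this
    omega
  rw [h1] at h2
  linarith

theorem p_pos {w h : ℤ} (hw : 1 ≤ w) (hh0 : 0 ≤ h) : 0 < p w h := by
  have h1 := p_dual (m := h + 1) (n := w - 1) (by omega) (by omega)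
  have e1 : w - 1 + 1 = w := by ring
  have e2 : h + 1 - 1 = h := by ring
  rw [e1, e2] at h1
  have h2 := p_lt_one (w := h + 1) (h := w - 1) (by omega)
  linarith

/-- the crossing of length `m` of a strip is at least as likely as `m` open edges -/
theorem p_ge_pow {m : ℕ} {n : ℤ} (hm : 1 ≤ m) (hn : 0 ≤ n) : (1/2 : ℝ)^m ≤ p m n := by
  have h0 : p m 0 ≤ p m n := p_mono (by omega) le_rfl hn
  refine le_trans ?_ h0
  have hcard : (LRE 0 (m : ℤ) 0 0).card ≤ m := by
    have : LRE 0 (m : ℤ) 0 0 ⊆ (range m).image (fun i : ℕ => (((i : ℤ), (0:ℤ), true) : Edg)) := by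
      rintro ⟨x, y, _ | _⟩ he
      · rw [mem_LRE_false] at he; omega
      · rw [mem_LRE_true] at he
        rw [Finset.mem_image]
        refine ⟨x.toNat, mem_range.mpr (by omega), ?_⟩
        have e1 : ((x.toNat : ℕ) : ℤ) = x := by omega
        have e2 : y = 0 := by omega
        rw [e1, e2]
    exact (Finset.card_le_card this).trans (Finset.card_image_le.trans (by simp))
  have hL : LRc 0 (m : ℤ) 0 0 (LRE 0 (m : ℤ) 0 0) := by
    have key : ∀ k : ℕ, k ≤ m → Reach ((↑(LRE 0 (m : ℤ) 0 0) : Set Edg) ∩ ↑(LRE 0 (m : ℤ) 0 0))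
        (0, 0) ((k : ℤ), 0) := by
      intro k
      induction k with
      | zero => intro _; exact Reach.refl _ _
      | succ k ih =>
        intro hk
        have hmem : (((k : ℤ), (0 : ℤ), true) : Edg) ∈ LRE 0 (m : ℤ) 0 0 := by
          rw [mem_LRE_true]; omega
        refine (ih (by omega)).trans (Adj.reach ⟨((k : ℤ), 0, true), ⟨mem_coe.mpr hmem,
          mem_coe.mpr hmem⟩, Or.inl ⟨rfl, ?_⟩⟩)
        show ((k : ℤ) + 1, (0 : ℤ)) = (((k + 1 : ℕ) : ℤ), (0 : ℤ))
        push_cast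
        rfl
    exact ⟨0, 0, ⟨le_rfl, le_rfl⟩, ⟨le_rfl, le_rfl⟩, key m le_rfl⟩
  have h1 : (1/2 : ℝ)^((LRE 0 (m : ℤ) 0 0).card) ≤ p m 0 := by
    have e : p m 0 = ∑ F ∈ (LRE 0 (m : ℤ) 0 0).powerset, (∏ e ∈ F, (1/2 : ℝ)) *
        (∏ e ∈ LRE 0 (m : ℤ) 0 0 \ F, (1 - (1/2 : ℝ))) * ind (LRc 0 m 0 0 F) := rfl
    rw [e]
    have h2 := Finset.single_le_sum (s := (LRE 0 (m : ℤ) 0 0).powerset)
      (f := fun F => (∏ e ∈ F, (1/2 : ℝ)) *
        (∏ e ∈ LRE 0 (m : ℤ) 0 0 \ F, (1 - (1/2 : ℝ))) * ind (LRc 0 m 0 0 F)) (by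
        intro F _
        have := ind_nonneg (LRc 0 m 0 0 F)
        have h1 : 0 ≤ ∏ e ∈ F, (1/2 : ℝ) := Finset.prod_nonneg (fun _ _ => by norm_num)
        have h2 : 0 ≤ ∏ e ∈ LRE 0 (m : ℤ) 0 0 \ F, (1 - (1/2 : ℝ)) :=
          Finset.prod_nonneg (fun _ _ => by norm_num)
        beta_reduce
        positivity) (Finset.mem_powerset.mpr (Finset.Subset.refl _))
    beta_reduce at h2
    rw [ind_of hL, Finset.sdiff_self, Finset.prod_empty, Finset.prod_const, mul_one, mul_one] at h2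
    exact h2
  refine le_trans ?_ h1
  exact pow_le_pow_of_le_one (by norm_num) (by norm_num) hcard

/-- lower bound of the increment in the short side -/
theorem short_lower : ∃ c : ℝ, 0 < c ∧ ∀ m n : ℤ, 1 ≤ n → n ≤ m →
    p m n ≤ Real.exp (-(c * m / n^2)) * p m (n + 1) := by
  obtain ⟨c0, hc0, -, hg⟩ := gadget
  obtain ⟨c1, hc1, h47, h30, h41⟩ : ∃ c1 : ℝ, 0 < c1 ∧ c1 ≤ (1/2)^47 ∧ c1 ≤ p 3 0 ∧ c1 ≤ p 4 1 :=
    ⟨min ((1/2)^47) (min (p 3 0) (p 4 1)), lt_min (by positivity)
      (lt_min (p_pos (by norm_num) (by norm_num)) (p_pos (by norm_num) (by norm_num))),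
      min_le_left _ _, (min_le_right _ _).trans (min_le_left _ _),
      (min_le_right _ _).trans (min_le_right _ _)⟩
  refine ⟨min (c0 / 32) (c1 / 128), by positivity, ?_⟩
  intro m n hn hm
  have hnr : (1 : ℝ) ≤ n := by exact_mod_cast hn
  have hmr : (1 : ℝ) ≤ m := by exact_mod_cast hn.trans hm
  have d1 := p_dual (m := n + 1) (n := m - 1) (by omega) (by omega)
  have d2 := p_dual (m := n + 2) (n := m - 1) (by omega) (by omega)
  have e1 : m - 1 + 1 = m := by ring
  have e2 : n + 1 - 1 = n := by ring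
  have e3 : n + 2 - 1 = n + 1 := by ring
  rw [e1, e2] at d1
  rw [e1, e3] at d2
  have hp0 : 0 ≤ p m (n + 1) := p_nonneg _ _
  by_cases h4 : 4 * (n + 1) ≤ m
  · obtain ⟨h, hh1, hh2, hh3⟩ := hg (n + 1) (by omega)
    have hNq : m / (3 * h + 1) * (3 * h + 1) ≤ m := Int.ediv_mul_le m (by omega)
    have hNq2 : m < (m / (3 * h + 1) + 1) * (3 * h + 1) := Int.lt_ediv_add_one_mul_self m (by omega)
    have hN0 : 1 ≤ m / (3 * h + 1) := by
      rw [Int.le_ediv_iff_mul_le (by omega)]; omega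
    obtain ⟨N, hN⟩ : ∃ N : ℕ, (N : ℤ) = m / (3 * h + 1) := ⟨(m / (3 * h + 1)).toNat, by omega⟩
    rw [← hN] at hNq hNq2 hN0
    have hc := chain (m := n + 1) (n := m - 1) hh1 (by omega) N (by linarith)
    have e4 : n + 1 + 1 = n + 2 := by ring
    rw [e4, d1, d2] at hc
    set g := PH (Um 0 (n + 1) 0 h) (Gd 0 (n + 1) 0 h) with hgd
    have hg1 : g ≤ 1 := Pr_le_one okh _ _
    have h5 : (1 - g) ^ N ≤ Real.exp (-(g * N)) := by
      have : 1 - g ≤ Real.exp (-g) := by
        have := Real.add_one_le_exp (-g)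
        linarith
      calc (1 - g) ^ N ≤ Real.exp (-g) ^ N := pow_le_pow_left₀ (by linarith) this N
        _ = Real.exp (-(g * N)) := by rw [← Real.exp_nat_mul]; congr 1; ring
    have h6 : min (c0 / 32) (c1 / 128) * m / n^2 ≤ g * N := by
      have k1 : (m : ℝ) ≤ 8 * (n + 1) * N := by
        have k2 : m ≤ 8 * (n + 1) * N := by
          have : (N : ℤ) + 1 ≤ 2 * N := by omega
          nlinarith
        exact_mod_cast k2
      have k3 : c0 / (n + 1) ≤ g := by
        push_cast at hh3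
        exact hh3
      have k4 : (0 : ℝ) < n + 1 := by linarith
      have k5 : c0 / (n + 1) * (m / (8 * (n + 1))) ≤ g * N := by
        apply mul_le_mul k3 _ (by positivity) (le_trans (by positivity) k3)
        rw [div_le_iff₀ (by positivity)]
        linarith
      refine le_trans ?_ k5
      have k6 : (n + 1 : ℝ) ≤ 2 * n := by linarith
      have k7 : min (c0 / 32) (c1 / 128) ≤ c0 / 32 := min_le_left _ _
      have k8 : c0 / (n + 1) * (m / (8 * (n + 1))) = c0 * m / (8 * (n + 1)^2) := by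
        field_simp
      rw [k8]
      calc min (c0 / 32) (c1 / 128) * m / n^2 ≤ c0 / 32 * m / n^2 := by gcongr
        _ = c0 * m / (8 * (2 * n)^2) := by field_simp; ring
        _ ≤ c0 * m / (8 * (n + 1)^2) := by
            apply div_le_div_of_nonneg_left (by positivity) (by positivity)
            gcongr
    calc p m n ≤ (1 - g) ^ N * p m (n + 1) := hc
      _ ≤ Real.exp (-(g * N)) * p m (n + 1) := mul_le_mul_of_nonneg_right h5 hp0
      _ ≤ _ := mul_le_mul_of_nonneg_right (Real.exp_le_exp.mpr (by linarith)) hp0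
  · have hi := inc_lower (x := n + 1) (n := m - 1) (by omega) (by omega)
    have e4 : n + 1 + 1 = n + 2 := by ring
    rw [e4, d2] at hi
    have h5 : c1 ≤ p (n + 2) (m - 1) := by
      have h6 : p (n + 2) (n - 1) ≤ p (n + 2) (m - 1) := p_mono (by omega) le_rfl (by omega)
      refine le_trans ?_ h6
      by_cases h3 : 3 ≤ n
      · refine h47.trans (rsw (n := (n - 1) / 2) (by omega) (by omega) (by omega) (by omega))
      · by_cases h2 : n = 1
        · rw [h2]; exact h30
        · have : n = 2 := by omega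
          rw [this]; exact h41
    have h6 : c1 / (2 * m) * p m (n + 1) ≤ p m (n + 1) - p m n := by
      have h7 : p (n + 1) (m - 1) - p (n + 2) (m - 1) = p m (n + 1) - p m n := by linarith
      rw [h7] at hi
      refine le_trans ?_ hi
      push_cast
      have e5 : 2 * ((m : ℝ) - 1 + 1) = 2 * m := by ring
      rw [e5, div_mul_eq_mul_div, mul_comm c1]
      apply div_le_div_of_nonneg_right _ (by positivity)
      exact mul_le_mul_of_nonneg_left h5 hp0
    have h7 : min (c0 / 32) (c1 / 128) * m / n^2 ≤ c1 / (2 * m) := by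
      have k1 : (m : ℝ) ≤ 8 * n := by
        have : m ≤ 8 * n := by omega
        exact_mod_cast this
      have k2 : min (c0 / 32) (c1 / 128) ≤ c1 / 128 := min_le_right _ _
      calc min (c0 / 32) (c1 / 128) * m / n^2 ≤ c1 / 128 * m / n^2 := by gcongr
        _ = c1 / 128 * (m * m) / (m * n^2) := by field_simp
        _ ≤ c1 / 128 * ((8 * n) * (8 * n)) / (m * n^2) := by gcongr
        _ = c1 / (2 * m) := by field_simp; ring
    have h8 : 1 - c1 / (2 * m) ≤ Real.exp (-(min (c0 / 32) (c1 / 128) * m / n^2)) := by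
      have := Real.add_one_le_exp (-(min (c0 / 32) (c1 / 128) * m / n^2))
      linarith
    calc p m n ≤ (1 - c1 / (2 * m)) * p m (n + 1) := by linarith
      _ ≤ _ := mul_le_mul_of_nonneg_right h8 hp0

end Pool.Agent.D0H47.GR
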