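import Pool.Agent.D0H47.GR.Main

/-!
The upper bound of the increment in the short side, for all shapes.
-/

set_option autoImplicit false

namespace Pool.Agent.D0H47.GR

open H974 H12S Finset

/-- quasi-multiplicativity -/
theorem p_join {n a b : ℤ} (hn : 4 ≤ n) (ha : 1 ≤ a) (hb : 1 ≤ b) :
    (1/2 : ℝ)^97 * (p a n * p b n) ≤ p (a + b) n := by
  have h1 := p_qm (m := n) (a := a) (b := b) (N := a + b) hn (by omega) (by omega) (by omega)
    (by omega)
  have e1 := p_dual (m := n + 1) (n := a - 1) (by omega) (by omega)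
  have e2 := p_dual (m := n + 1) (n := b - 1) (by omega) (by omega)
  have k1 : a - 1 + 1 = a := by ring
  have k2 : b - 1 + 1 = b := by ring
  have k3 : n + 1 - 1 = n := by ring
  rw [k1, k3] at e1
  rw [k2, k3] at e2
  rw [e1, e2] at h1
  exact h1

/-- the increment is at most a constant times `m / n²`, relatively -/
theorem D_rel {m n : ℤ} (hn : 17 ≤ n) (hm : n ≤ m) :
    p m (n + 1) - p m n ≤ 2^100 * CL * m / n^2 * p m (n + 1) := by
  obtain ⟨ρ, hρ⟩ : ∃ ρ : ℕ, (ρ : ℤ) = (n + 1) / 2 := ⟨((n + 1) / 2).toNat, by omega⟩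
  have h1 := D_upper (m := n + 1) (n := m - 1) (ρ := ρ) (by omega) (by omega) (by omega)
  have d1 := p_dual (m := n + 1) (n := m - 1) (by omega) (by omega)
  have d2 := p_dual (m := n + 2) (n := m - 1) (by omega) (by omega)
  have e1 : m - 1 + 1 = m := by ring
  have e2 : n + 1 - 1 = n := by ring
  have e3 : n + 2 - 1 = n + 1 := by ring
  have e4 : n + 1 + 1 = n + 2 := by ring
  rw [e1, e2] at d1
  rw [e1, e3] at d2
  rw [e4, d2] at h1
  have hρ0 : (0 : ℝ) < ρ := by
    have : 0 < (ρ : ℤ) := by omega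
    exact_mod_cast this
  have hnr : (17 : ℝ) ≤ n := by exact_mod_cast hn
  have hmr : (n : ℝ) ≤ m := by exact_mod_cast hm
  have hρn : (n : ℝ) ≤ 2 * ρ := by
    have : n ≤ 2 * ρ := by omega
    exact_mod_cast this
  have hρm : (ρ : ℝ) ≤ m := by
    have : (ρ : ℤ) ≤ m := by omega
    exact_mod_cast this
  have hk : ((((m - 1) / ρ).toNat + 1 : ℕ) : ℝ) ≤ 2 * m / ρ := by
    rw [le_div_iff₀ hρ0]
    have h2 : (m - 1) / (ρ : ℤ) * ρ ≤ m - 1 := Int.ediv_mul_le (m - 1) (by omega)
    have h3 : 0 ≤ (m - 1) / (ρ : ℤ) := Int.ediv_nonneg (by omega) (by omega)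
    have h4 : ((((m - 1) / (ρ : ℤ)).toNat : ℕ) : ℤ) = (m - 1) / ρ := by omega
    have h5 : ((((m - 1) / (ρ : ℤ)).toNat : ℕ) : ℤ) * ρ ≤ m := by rw [h4]; omega
    have h6 : ((((m - 1) / (ρ : ℤ)).toNat : ℕ) : ℝ) * ρ ≤ m := by exact_mod_cast h5
    push_cast
    linarith
  have hp0 : 0 ≤ p m (n + 1) := p_nonneg _ _
  have hX : 0 ≤ CL / ρ * 2^97 * p m (n + 1) :=
    mul_nonneg (mul_nonneg (div_nonneg CL_pos.le hρ0.le) (by positivity)) hp0
  calc p m (n + 1) - p m n = p (n + 1) (m - 1) - p (n + 2) (m - 1) := by linarith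
    _ ≤ _ := h1
    _ ≤ 2 * m / ρ * (CL / ρ * 2^97 * p m (n + 1)) := mul_le_mul_of_nonneg_right hk hX
    _ = 2^98 * CL * m / ρ^2 * p m (n + 1) := by field_simp
    _ ≤ 2^100 * CL * m / n^2 * p m (n + 1) := by
        apply mul_le_mul_of_nonneg_right _ hp0
        have hC := CL_pos
        rw [div_le_div_iff₀ (by positivity) (by positivity)]
        have h7 : (n : ℝ)^2 ≤ (2 * ρ)^2 := pow_le_pow_left₀ (by linarith) hρn 2
        have h8 : (0:ℝ) ≤ 2^98 * CL * m := by
          have : (0:ℝ) ≤ m := by linarith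
          positivity
        calc 2^98 * CL * m * (n:ℝ)^2 ≤ 2^98 * CL * m * (2 * ρ)^2 :=
              mul_le_mul_of_nonneg_left h7 h8
          _ = 2^100 * CL * m * ρ^2 := by ring

theorem exp_neg_two_le {x : ℝ} (h0 : 0 ≤ x) (h1 : x ≤ 1/2) : Real.exp (-(2 * x)) ≤ 1 - x := by
  have h2 := Real.add_one_le_exp (2 * x)
  have h3 : Real.exp (-(2 * x)) * Real.exp (2 * x) = 1 := by rw [← Real.exp_add]; simp
  have h4 := Real.exp_pos (-(2 * x))
  have h5 : Real.exp (-(2 * x)) * (2 * x + 1) ≤ 1 :=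
    (mul_le_mul_of_nonneg_left h2 h4.le).trans h3.le
  by_contra hcon
  push Not at hcon
  nlinarith

/-- upper bound of the increment in the short side -/
theorem short_upper : ∃ C : ℝ, 0 < C ∧ ∀ m n : ℤ, 1 ≤ n → n ≤ m →
    Real.exp (-(C * m / n^2)) * p m (n + 1) ≤ p m n := by
  obtain ⟨K, hK⟩ : ∃ K : ℝ, K = 2^100 * CL := ⟨_, rfl⟩
  have hK0 : 0 < K := by rw [hK]; exact mul_pos (by positivity) CL_pos
  obtain ⟨n0, hn0⟩ : ∃ n0 : ℕ, 17 + 2 * K ≤ n0 := exists_nat_ge _
  obtain ⟨κ, hκ⟩ : ∃ κ : ℝ, κ = (1/2)^98 := ⟨_, rfl⟩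
  have hκ0 : 0 < κ := by rw [hκ]; positivity
  have hκ1 : κ ≤ 1/2 := by rw [hκ]; norm_num
  obtain ⟨Λ, hΛ⟩ : ∃ Λ : ℝ, Real.exp (-Λ) = κ := ⟨-Real.log κ, by rw [neg_neg, Real.exp_log hκ0]⟩
  have hΛ0 : 0 < Λ := by
    by_contra hcon
    push Not at hcon
    have : 1 ≤ Real.exp (-Λ) := Real.one_le_exp (by linarith)
    linarith
  refine ⟨max (max (n0 ^ 2) (2 * K)) (8 * K * Λ), by positivity, ?_⟩
  set C := max (max ((n0 : ℝ) ^ 2) (2 * K)) (8 * K * Λ) with hC
  have hC1 : (n0 : ℝ)^2 ≤ C := (le_max_left _ _).trans (le_max_left _ _)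
  have hC2 : 2 * K ≤ C := (le_max_right _ _).trans (le_max_left _ _)
  have hC3 : 8 * K * Λ ≤ C := le_max_right _ _
  intro m n hn hm
  have hnr : (1 : ℝ) ≤ n := by exact_mod_cast hn
  have hmr : (n : ℝ) ≤ m := by exact_mod_cast hm
  have hp0 : 0 ≤ p m (n + 1) := p_nonneg _ _
  have hp1 : p m (n + 1) ≤ 1 := p_le_one _ _
  by_cases hbig : n ≤ n0
  · obtain ⟨M, hM⟩ : ∃ M : ℕ, (M : ℤ) = m := ⟨m.toNat, by omega⟩
    have h1 := p_ge_pow (m := M) (n := n) (by omega) (by omega)
    rw [hM] at h1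
    refine le_trans ?_ h1
    have hMr : (M : ℝ) = m := by exact_mod_cast hM
    have h2 : (m : ℝ) ≤ C * m / n^2 := by
      rw [le_div_iff₀ (by positivity)]
      have h3 : (n : ℝ) ≤ n0 := by exact_mod_cast hbig
      have h4 : (n : ℝ)^2 ≤ n0^2 := pow_le_pow_left₀ (by linarith) h3 2
      have h5 : (0:ℝ) ≤ m := by linarith
      calc (m : ℝ) * n^2 ≤ m * C := mul_le_mul_of_nonneg_left (h4.trans hC1) h5
        _ = C * m := by ring
    have h3 : Real.exp (-(m : ℝ)) ≤ (1/2 : ℝ)^M := by
      have h4 : Real.exp (-1) ≤ (1/2 : ℝ) := by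
        have h5 := Real.add_one_le_exp (1 : ℝ)
        rw [Real.exp_neg, inv_le_comm₀ (Real.exp_pos 1) (by norm_num)]
        linarith
      calc Real.exp (-(m : ℝ)) = Real.exp (-1) ^ M := by
            rw [← Real.exp_nat_mul, hMr]; congr 1; ring
        _ ≤ (1/2 : ℝ)^M := pow_le_pow_left₀ (Real.exp_pos _).le h4 M
    calc Real.exp (-(C * m / n^2)) * p m (n + 1) ≤ Real.exp (-(C * m / n^2)) * 1 :=
          mul_le_mul_of_nonneg_left hp1 (Real.exp_pos _).le
      _ ≤ Real.exp (-(m : ℝ)) := by rw [mul_one]; exact Real.exp_le_exp.mpr (by linarith)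
      _ ≤ _ := h3
  · push Not at hbig
    have hn0r : 17 + 2 * K ≤ (n : ℝ) := by
      have : (n0 : ℝ) ≤ n := by exact_mod_cast hbig.le
      linarith
    have hn17 : 17 ≤ n := by
      have : (17 : ℝ) ≤ n := by linarith
      exact_mod_cast this
    have hsmall : ∀ N : ℤ, n ≤ N → K * N / n^2 ≤ 1/2 →
        (1 - K * N / n^2) * p N (n + 1) ≤ p N n := by
      intro N hN _
      have := D_rel hn17 hN
      rw [← hK] at this
      linarith
    by_cases hx : K * m / n^2 ≤ 1/2
    · have h1 := hsmall m hm hx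
      have hx0 : 0 ≤ K * m / n^2 := by
        have : (0:ℝ) ≤ m := by linarith
        positivity
      have h2 := exp_neg_two_le hx0 hx
      have h3 : 2 * (K * m / n^2) ≤ C * m / n^2 := by
        rw [← mul_div_assoc, ← mul_assoc]
        have : (0:ℝ) ≤ m := by linarith
        gcongr
      calc Real.exp (-(C * m / n^2)) * p m (n + 1) ≤
            Real.exp (-(2 * (K * m / n^2))) * p m (n + 1) :=
            mul_le_mul_of_nonneg_right (Real.exp_le_exp.mpr (by linarith)) hp0
        _ ≤ (1 - K * m / n^2) * p m (n + 1) := mul_le_mul_of_nonneg_right h2 hp0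
        _ ≤ _ := h1
    · push Not at hx
      -- pieces of length `L`
      obtain ⟨L, hL⟩ : ∃ L : ℤ, L = ⌊(n : ℝ)^2 / (2 * K)⌋ := ⟨_, rfl⟩
      have hLx : (n : ℝ) ≤ (n : ℝ)^2 / (2 * K) := by
        rw [le_div_iff₀ (by linarith), pow_two]
        exact mul_le_mul_of_nonneg_left (by linarith) (by linarith)
      have hL1 : (L : ℝ) ≤ (n : ℝ)^2 / (2 * K) := by rw [hL]; exact Int.floor_le _
      have hL2 : (n : ℝ)^2 / (2 * K) < L + 1 := by rw [hL]; exact Int.lt_floor_add_one _
      have hLn : n ≤ L := by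
        rw [hL, Int.le_floor]
        exact hLx
      have hLr : (n : ℝ) ≤ L := by exact_mod_cast hLn
      have hbase : ∀ N : ℤ, 1 ≤ N → N ≤ L → (1/2 : ℝ) * p N (n + 1) ≤ p N n := by
        intro N hN1 hN2
        by_cases hNn : n ≤ N
        · have h1 : K * N / n^2 ≤ 1/2 := by
            rw [div_le_iff₀ (by positivity)]
            have h2 : (N : ℝ) ≤ (n : ℝ)^2 / (2 * K) := le_trans (by exact_mod_cast hN2) hL1
            rw [le_div_iff₀ (by linarith)] at h2
            linarith
          have h2 := hsmall N hNn h1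
          refine le_trans ?_ h2
          exact mul_le_mul_of_nonneg_right (by linarith) (p_nonneg _ _)
        · have h1 : (1/2 : ℝ) ≤ p n n := hh_square n (by omega)
          have h2 : p n n ≤ p N n := p_mono (by omega) (by omega) le_rfl
          have h3 := p_le_one N (n + 1)
          linarith
      have hind : ∀ k : ℕ, ∀ N : ℤ, 1 ≤ N → N ≤ (k + 1) * L → κ^(k+1) * p N (n + 1) ≤ p N n := by
        intro k
        induction k with
        | zero =>
          intro N hN1 hN2
          have h1 := hbase N hN1 (by push_cast at hN2; linarith)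
          refine le_trans ?_ h1
          rw [zero_add, pow_one]
          exact mul_le_mul_of_nonneg_right hκ1 (p_nonneg _ _)
        | succ k ih =>
          intro N hN1 hN2
          by_cases hc : N ≤ (k + 1) * L
          · have h1 := ih N hN1 hc
            refine le_trans ?_ h1
            apply mul_le_mul_of_nonneg_right _ (p_nonneg _ _)
            exact pow_le_pow_of_le_one hκ0.le (by linarith) (by omega)
          · push Not at hc
            have hkL : L ≤ (k + 1) * L := by nlinarith [hLn, hn]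
            have h1 := ih (N - L) (by omega) (by push_cast at hN2 ⊢; linarith)
            have h2 := hbase L (by omega) le_rfl
            have h3 := p_join (n := n) (a := L) (b := N - L) (by omega) (by omega) (by omega)
            have e : L + (N - L) = N := by ring
            rw [e] at h3
            have h4 := p_submul (a := L) (b := N - L) (n := n + 1) (by omega) (by omega)
            rw [e] at h4
            have hκe : κ = (1/2)^97 * (1/2) := by rw [hκ]; norm_num
            have h5 := mul_le_mul h2 h1 (mul_nonneg (by positivity) (p_nonneg _ _)) (p_nonneg _ _)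
            calc κ ^ (k + 1 + 1) * p N (n + 1) ≤ κ ^ (k + 1 + 1) *
                  (p L (n + 1) * p (N - L) (n + 1)) :=
                  mul_le_mul_of_nonneg_left h4 (by positivity)
              _ = (1/2)^97 * ((1/2 : ℝ) * p L (n + 1) * (κ^(k+1) * p (N - L) (n + 1))) := by
                  rw [pow_succ κ (k+1)]; nth_rewrite 2 [hκe]; ring
              _ ≤ (1/2)^97 * (p L n * p (N - L) n) := mul_le_mul_of_nonneg_left h5 (by positivity)
              _ ≤ _ := h3
      obtain ⟨k, hk⟩ : ∃ k : ℕ, (k : ℤ) = m / L := ⟨(m / L).toNat, by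
        have : 0 ≤ m / L := Int.ediv_nonneg (by omega) (by omega)
        omega⟩
      have hk1 : (k : ℤ) * L ≤ m := by rw [hk]; exact Int.ediv_mul_le m (by omega)
      have hk2 : m < (k + 1) * L := by rw [hk]; exact Int.lt_ediv_add_one_mul_self m (by omega)
      have h1 := hind k m (by omega) hk2.le
      refine le_trans (mul_le_mul_of_nonneg_right ?_ hp0) h1
      rw [← hΛ, ← Real.exp_nat_mul]
      apply Real.exp_le_exp.mpr
      push_cast
      have hk1r : (k : ℝ) * L ≤ m := by exact_mod_cast hk1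
      have hLpos : (0:ℝ) < L := by linarith
      -- `m ≥ L`
      have hmL : (L : ℝ) ≤ m := by
        have h2 : (n : ℝ)^2 / (2 * K) < m := by
          rw [div_lt_iff₀ (by linarith)]
          rw [lt_div_iff₀ (by positivity)] at hx
          linarith
        linarith
      have hkm : ((k : ℝ) + 1) * L ≤ 2 * m := by linarith
      have hL3 : (n : ℝ)^2 / (4 * K) ≤ L := by
        have e : (n : ℝ)^2 / (4 * K) = (n : ℝ)^2 / (2 * K) / 2 := by field_simp; ring
        rw [e]
        linarith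
      have hkk : ((k : ℝ) + 1) ≤ 8 * K * m / n^2 := by
        rw [le_div_iff₀ (by positivity)]
        rw [div_le_iff₀ (by linarith)] at hL3
        calc ((k : ℝ) + 1) * n^2 ≤ ((k : ℝ) + 1) * (L * (4 * K)) := by gcongr
          _ = (((k : ℝ) + 1) * L) * (4 * K) := by ring
          _ ≤ (2 * m) * (4 * K) := by gcongr
          _ = 8 * K * m := by ring
      have h9 : ((k : ℝ) + 1) * Λ ≤ C * m / n^2 := by
        calc ((k : ℝ) + 1) * Λ ≤ 8 * K * m / n^2 * Λ := mul_le_mul_of_nonneg_right hkk hΛ0.le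
          _ = 8 * K * Λ * m / n^2 := by ring
          _ ≤ C * m / n^2 := by
              have : (0:ℝ) ≤ m := by linarith
              gcongr
      linarith

end Pool.Agent.D0H47.GR
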