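import Pool.Agent.D0H47.GR.Bounds
import Pool.Agent.D0H47.GR.Main

/-!
Factorization in a long corridor: the oscillation of the ratios of two rooms contracts.
-/

set_option autoImplicit false
set_option maxHeartbeats 1000000

namespace Pool.Agent.D0H47.GR

open H974 H12S Finset

/-- the contraction constant -/
noncomputable def dl : ℝ := (1/2 : ℝ)^49

theorem dl_pos : 0 < dl := by unfold dl; positivity

theorem dl_lt : dl < 1 := by unfold dl; norm_num

theorem dl_le {n : ℤ} (hn : 1 ≤ n) : dl ≤ (1/4) * p (2 * n + 1) n := by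
  have h : (1/2 : ℝ)^47 ≤ p (2 * n + 1) n := by
    rcases eq_or_lt_of_le hn with rfl | h2
    · have := p_ge_pow (m := 3) (n := 1) (by norm_num) (by norm_num)
      refine le_trans ?_ this
      norm_num
    · exact rsw (n := n / 2) (by omega) (by omega) (by omega) (by omega)
  have e : dl = (1/4) * (1/2 : ℝ)^47 := by unfold dl; norm_num
  rw [e]
  exact mul_le_mul_of_nonneg_left h (by norm_num)

theorem Vc_lin {n a b c d : ℤ} {L L' : Set Edg} {S S' : Set Vtx} {α β : ℝ}
    (hO : ∀ (R₁ : Set Edg) (T₁ : Set Vtx), RStr b R₁ T₁ →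
      0 ≤ α * Zc n a b L S R₁ T₁ + β * Zc n a b L' S' R₁ T₁) :
    0 ≤ α * Vc n a b c d L S + β * Vc n a b c d L' S' := by
  unfold Vc
  rw [← Ex_mul_left, ← Ex_mul_left, ← Ex_add]
  apply Ex_nonneg okh
  intro F _
  have := mul_nonneg (ind_nonneg (Ok' b c n F)) (hO _ _ (RStr_K (c := c) (n := n) F))
  linarith

theorem Vc_nonneg (n a b c d : ℤ) (L : Set Edg) (S : Set Vtx) : 0 ≤ Vc n a b c d L S :=
  Ex_nonneg okh fun _ _ => mul_nonneg (ind_nonneg _) (Zc_nonneg _ _ _ _ _ _ _)

theorem aT_nonneg (n b d : ℤ) (R : Set Edg) (T : Set Vtx) : 0 ≤ aT n b d R T := Pr_nonneg okh _ _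

theorem bS_nonneg (n a c : ℤ) (L : Set Edg) (S : Set Vtx) : 0 ≤ bS n a c L S := Pr_nonneg okh _ _

/-- extension to longer corridors -/
theorem O_ext {n a b d : ℤ} (hab : a ≤ b) (hbd : b ≤ d) {L L' : Set Edg} {S S' : Set Vtx} {α β : ℝ}
    (hO : ∀ (R₁ : Set Edg) (T₁ : Set Vtx), RStr b R₁ T₁ →
      0 ≤ α * Zc n a b L S R₁ T₁ + β * Zc n a b L' S' R₁ T₁)
    {R : Set Edg} {T : Set Vtx} (hR : RStr d R T) :
    0 ≤ α * Zc n a d L S R T + β * Zc n a d L' S' R T := by
  rw [Zc_split hab hbd, Zc_split hab hbd, ← Ex_mul_left, ← Ex_mul_left, ← Ex_add]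
  apply Ex_nonneg okh
  intro F hF
  apply hO
  refine ⟨?_, fun t ht => hbd.trans (hR.2 t ht)⟩
  rintro e (he | he)
  · exact (HE_src (hF he)).1
  · exact hbd.trans (hR.1 e he)

/-- the factor `aT` against the denominator -/
theorem aV_ge {n a b : ℤ} (hn : 1 ≤ n) (hab : a ≤ b) {L : Set Edg} {S : Set Vtx}
    (hL : LStr a L S) {R : Set Edg} {T : Set Vtx} (hR : RStr (b + 2 * n + 1) R T) :
    dl * (bS n a (b + n) L S * aT n (b + n) (b + 2 * n + 1) R T) ≤
      aT n b (b + 2 * n + 1) R T * Vc n a b (b + n) (b + 2 * n + 1) L S := by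
  have h1 := aT_ge hn hR
  have h2 := Vc_ge (d := b + 2 * n + 1) hn hab (by omega) hL
  have h3 := mul_le_mul h1 h2 (mul_nonneg (by norm_num) (bS_nonneg _ _ _ _ _)) (aT_nonneg _ _ _ _ _)
  refine le_trans ?_ h3
  have h4 := mul_le_mul_of_nonneg_right (dl_le hn) (mul_nonneg (bS_nonneg n a (b + n) L S)
    (aT_nonneg n (b + n) (b + 2 * n + 1) R T))
  calc _ ≤ _ := h4
    _ = _ := by ring

/-- **Contraction.** -/
theorem contr {n a b : ℤ} (hn : 1 ≤ n) (hab : a ≤ b) {L L' : Set Edg} {S S' : Set Vtx}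
    (hL : LStr a L S) (hL' : LStr a L' S') {m M : ℝ} (hmM : m ≤ M)
    (h1 : ∀ (R₁ : Set Edg) (T₁ : Set Vtx), RStr b R₁ T₁ →
      m * Zc n a b L' S' R₁ T₁ ≤ Zc n a b L S R₁ T₁)
    (h2 : ∀ (R₁ : Set Edg) (T₁ : Set Vtx), RStr b R₁ T₁ →
      Zc n a b L S R₁ T₁ ≤ M * Zc n a b L' S' R₁ T₁) :
    ∃ m' M' : ℝ, m ≤ m' ∧ m' ≤ M' ∧ M' - m' = (1 - dl) * (M - m) ∧
      (∀ (R : Set Edg) (T : Set Vtx), RStr (b + 2 * n + 1) R T →
        m' * Zc n a (b + 2 * n + 1) L' S' R T ≤ Zc n a (b + 2 * n + 1) L S R T) ∧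
      (∀ (R : Set Edg) (T : Set Vtx), RStr (b + 2 * n + 1) R T →
        Zc n a (b + 2 * n + 1) L S R T ≤ M' * Zc n a (b + 2 * n + 1) L' S' R T) := by
  set c := b + n with hc
  set d := b + 2 * n + 1 with hd
  set V := Vc n a b c d L S with hV
  set V' := Vc n a b c d L' S' with hV'
  have hVV1 : m * V' ≤ V := by
    have := Vc_lin (n := n) (a := a) (b := b) (c := c) (d := d) (L := L) (L' := L') (S := S)
      (S' := S') (α := 1) (β := -m) (fun R₁ T₁ h => by have := h1 R₁ T₁ h; linarith)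
    linarith
  have hVV2 : V ≤ M * V' := by
    have := Vc_lin (n := n) (a := a) (b := b) (c := c) (d := d) (L := L) (L' := L') (S := S)
      (S' := S') (α := -1) (β := M) (fun R₁ T₁ h => by have := h2 R₁ T₁ h; linarith)
    linarith
  have hV0 : 0 ≤ V := Vc_nonneg _ _ _ _ _ _ _
  have hV'0 : 0 ≤ V' := Vc_nonneg _ _ _ _ _ _ _
  have hdl := dl_pos
  have hdl1 := dl_lt
  -- the denominators
  have hZ : ∀ (R : Set Edg) (T : Set Vtx), RStr d R T →
      dl * Zc n a d L' S' R T ≤ aT n b d R T * V' := by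
    intro R T hR
    have k1 := Zc_le (n := n) (a := a) (c := c) (d := d) (by omega) (by omega) hL' hR
    have k2 := aV_ge hn hab hL' hR
    exact (mul_le_mul_of_nonneg_left k1 hdl.le).trans k2
  have hZ2 : ∀ (R : Set Edg) (T : Set Vtx), RStr d R T →
      dl * Zc n a d L S R T ≤ aT n b d R T * V := by
    intro R T hR
    have k1 := Zc_le (n := n) (a := a) (c := c) (d := d) (by omega) (by omega) hL hR
    have k2 := aV_ge hn hab hL hR
    exact (mul_le_mul_of_nonneg_left k1 hdl.le).trans k2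
  rcases eq_or_lt_of_le hV'0 with h0 | h0
  · -- trivial case
    have hVz : V = 0 := le_antisymm (by rw [← h0] at hVV2; linarith) hV0
    have z1 : ∀ (R : Set Edg) (T : Set Vtx), RStr d R T → Zc n a d L' S' R T = 0 := by
      intro R T hR
      have := hZ R T hR
      rw [← h0, mul_zero] at this
      have h9 := Zc_nonneg n a d L' S' R T
      nlinarith
    have z2 : ∀ (R : Set Edg) (T : Set Vtx), RStr d R T → Zc n a d L S R T = 0 := by
      intro R T hR
      have := hZ2 R T hR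
      rw [hVz, mul_zero] at this
      have h9 := Zc_nonneg n a d L S R T
      nlinarith
    refine ⟨m, m + (1 - dl) * (M - m), le_rfl, ?_, by ring, ?_, ?_⟩
    · have := mul_nonneg (sub_nonneg.mpr hdl1.le) (sub_nonneg.mpr hmM)
      linarith
    · intro R T hR
      rw [z1 R T hR, z2 R T hR, mul_zero]
    · intro R T hR
      rw [z1 R T hR, z2 R T hR, mul_zero]
  · set ρ := V / V' with hρ
    have e1 : ρ * V' = V := by rw [hρ]; field_simp
    have hm : m ≤ ρ := by
      rw [hρ, le_div_iff₀ h0]; exact hVV1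
    have hM : ρ ≤ M := by
      rw [hρ, div_le_iff₀ h0]; exact hVV2
    refine ⟨m + dl * (ρ - m), M - dl * (M - ρ), ?_, ?_, by ring, ?_, ?_⟩
    · have := mul_nonneg hdl.le (sub_nonneg.mpr hm)
      linarith
    · have := mul_nonneg (sub_nonneg.mpr hdl1.le) (sub_nonneg.mpr hmM)
      nlinarith
    · intro R T hR
      have k1 := common (c := c) hn (by omega) (by omega) hab hL hL' hR (α := 1) (β := -m)
        (fun R₁ T₁ h => by have := h1 R₁ T₁ h; linarith)
      have k2 := mul_le_mul_of_nonneg_left (hZ R T hR) (sub_nonneg.mpr hm)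
      have e2 : aT n b d R T * (1 * V + -m * V') = (ρ - m) * (aT n b d R T * V') := by
        rw [← e1]; ring
      have k1' : (ρ - m) * (aT n b d R T * V') ≤
          1 * Zc n a d L S R T + -m * Zc n a d L' S' R T := by
        rw [← e2]; exact k1
      linarith
    · intro R T hR
      have k1 := common (c := c) hn (by omega) (by omega) hab hL hL' hR (α := -1) (β := M)
        (fun R₁ T₁ h => by have := h2 R₁ T₁ h; linarith)
      have k2 := mul_le_mul_of_nonneg_left (hZ R T hR) (sub_nonneg.mpr hM)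
      have e2 : aT n b d R T * (-1 * V + M * V') = (M - ρ) * (aT n b d R T * V') := by
        rw [← e1]; ring
      have k1' : (M - ρ) * (aT n b d R T * V') ≤
          -1 * Zc n a d L S R T + M * Zc n a d L' S' R T := by
        rw [← e2]; exact k1
      linarith

/-- quasi-multiplicativity -/
theorem base {n a : ℤ} (hn : 1 ≤ n) {L : Set Edg} {S : Set Vtx}
    (hL : LStr a L S) {R : Set Edg} {T : Set Vtx} (hR : RStr (a + 2 * n + 1) R T) :
    dl * (bS n a (a + n) L S * aT n (a + n) (a + 2 * n + 1) R T) ≤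
      Zc n a (a + 2 * n + 1) L S R T ∧
    Zc n a (a + 2 * n + 1) L S R T ≤ bS n a (a + n) L S * aT n (a + n) (a + 2 * n + 1) R T := by
  refine ⟨?_, Zc_le (by omega) (by omega) hL hR⟩
  have k1 := common (b := a) (c := a + n) hn (by omega) (by omega) le_rfl hL hL hR (α := 1)
    (β := 0) (fun R₁ T₁ h => by
      have := Zc_nonneg n a a L S R₁ T₁
      linarith)
  have k2 := aV_ge hn le_rfl hL hR
  linarith

theorem iter {n a : ℤ} (hn : 1 ≤ n) {L L' : Set Edg} {S S' : Set Vtx}
    (hL : LStr a L S) (hL' : LStr a L' S') (hB : 0 < bS n a (a + n) L' S') (k : ℕ) :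
    ∃ m M : ℝ, 0 ≤ m ∧ dl * (bS n a (a + n) L S / bS n a (a + n) L' S') ≤ m ∧ m ≤ M ∧
      M - m ≤ (1 - dl)^k * (bS n a (a + n) L S / bS n a (a + n) L' S' / dl) ∧
      (∀ (R : Set Edg) (T : Set Vtx), RStr (a + (k + 1) * (2 * n + 1)) R T →
        m * Zc n a (a + (k + 1) * (2 * n + 1)) L' S' R T ≤
          Zc n a (a + (k + 1) * (2 * n + 1)) L S R T) ∧
      (∀ (R : Set Edg) (T : Set Vtx), RStr (a + (k + 1) * (2 * n + 1)) R T →
        Zc n a (a + (k + 1) * (2 * n + 1)) L S R T ≤
          M * Zc n a (a + (k + 1) * (2 * n + 1)) L' S' R T) := by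
  have hdl := dl_pos
  have hdl1 := dl_lt
  set B := bS n a (a + n) L S with hBd
  set B' := bS n a (a + n) L' S' with hBd'
  have hB0 : 0 ≤ B := bS_nonneg _ _ _ _ _
  induction k with
  | zero =>
    have e : a + (((0 : ℕ) : ℤ) + 1) * (2 * n + 1) = a + 2 * n + 1 := by push_cast; ring
    rw [e]
    have hq : 0 ≤ B / B' := div_nonneg hB0 hB.le
    have hq1 : 0 ≤ dl * (B / B') := mul_nonneg hdl.le hq
    have hq2 : 0 ≤ B / B' / dl := div_nonneg hq hdl.le
    refine ⟨dl * (B / B'), B / B' / dl, hq1, le_rfl, ?_, ?_, ?_, ?_⟩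
    · rw [le_div_iff₀ hdl]
      have h2 : dl * dl ≤ 1 := by nlinarith
      nlinarith
    · rw [pow_zero, one_mul]
      linarith
    · intro R T hR
      obtain ⟨k1, -⟩ := base hn hL hR
      obtain ⟨-, k2⟩ := base hn hL' hR
      calc dl * (B / B') * Zc n a (a + 2 * n + 1) L' S' R T ≤
          dl * (B / B') * (B' * aT n (a + n) (a + 2 * n + 1) R T) :=
            mul_le_mul_of_nonneg_left k2 hq1
        _ = dl * (B * aT n (a + n) (a + 2 * n + 1) R T) := by field_simp
        _ ≤ _ := k1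
    · intro R T hR
      obtain ⟨-, k1⟩ := base hn hL hR
      obtain ⟨k2, -⟩ := base hn hL' hR
      calc _ ≤ B * aT n (a + n) (a + 2 * n + 1) R T := k1
        _ = B / B' / dl * (dl * (B' * aT n (a + n) (a + 2 * n + 1) R T)) := by field_simp
        _ ≤ _ := mul_le_mul_of_nonneg_left k2 hq2
  | succ k ih =>
    obtain ⟨m, M, g0, g1, g2, g3, g4, g5⟩ := ih
    have hk : a ≤ a + ((k : ℤ) + 1) * (2 * n + 1) := by
      have : 0 ≤ ((k : ℤ) + 1) * (2 * n + 1) := by positivity
      linarith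
    obtain ⟨m', M', f1, f2, f3, f4, f5⟩ := contr hn hk hL hL' g2 g4 g5
    have e : a + (((k + 1 : ℕ) : ℤ) + 1) * (2 * n + 1) =
        a + ((k : ℤ) + 1) * (2 * n + 1) + 2 * n + 1 := by push_cast; ring
    rw [e]
    refine ⟨m', M', g0.trans f1, g1.trans f1, f2, ?_, f4, f5⟩
    rw [f3, pow_succ]
    have := mul_le_mul_of_nonneg_left g3 (sub_nonneg.mpr hdl1.le)
    linarith

/-- **Factorization.** -/
theorem fact {n a b : ℤ} (hn : 1 ≤ n) {L L' : Set Edg} {S S' : Set Vtx}
    (hL : LStr a L S) (hL' : LStr a L' S') {R R' : Set Edg} {T T' : Set Vtx}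
    (hR : RStr b R T) (hR' : RStr b R' T') {k : ℕ} (hk : a + (k + 1) * (2 * n + 1) ≤ b) :
    Zc n a b L S R T * Zc n a b L' S' R' T' ≤
      (1 + (1 - dl)^k / dl^2) * (Zc n a b L' S' R T * Zc n a b L S R' T') := by
  have hdl := dl_pos
  have hdl1 := dl_lt
  have hk0 : a ≤ a + ((k : ℤ) + 1) * (2 * n + 1) := by
    have : 0 ≤ ((k : ℤ) + 1) * (2 * n + 1) := by positivity
    linarith
  rcases eq_or_lt_of_le (bS_nonneg n a (a + n) L' S') with h0 | h0
  · -- the second room is not connected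
    have hz : ∀ (R : Set Edg) (T : Set Vtx), RStr b R T → Zc n a b L' S' R T = 0 := by
      intro R T hR
      have h1 := O_ext (n := n) (a := a) (b := a + 2 * n + 1) (d := b) (L := L') (L' := L')
        (S := S') (S' := S') (α := -1) (β := 0) (by omega) (by nlinarith)
        (fun R₁ T₁ h => by
          have := (base hn hL' h).2
          rw [← h0, zero_mul] at this
          linarith) hR
      have h2 := Zc_nonneg n a b L' S' R T
      linarith
    rw [hz R' T' hR', hz R T hR, mul_zero, zero_mul, mul_zero]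
  · obtain ⟨m, M, g0, g1, g2, g3, g4, g5⟩ := iter hn hL hL' h0 k
    have hM : Zc n a b L S R T ≤ M * Zc n a b L' S' R T := by
      have := O_ext (n := n) (a := a) (b := a + (k + 1) * (2 * n + 1)) (d := b) (L := L) (L' := L')
        (S := S) (S' := S') (α := -1) (β := M) hk0 hk
        (fun R₁ T₁ h => by have := g5 R₁ T₁ h; linarith) hR
      linarith
    have hm : m * Zc n a b L' S' R' T' ≤ Zc n a b L S R' T' := by
      have := O_ext (n := n) (a := a) (b := a + (k + 1) * (2 * n + 1)) (d := b) (L := L) (L' := L')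
        (S := S) (S' := S') (α := 1) (β := -m) hk0 hk
        (fun R₁ T₁ h => by have := g4 R₁ T₁ h; linarith) hR'
      linarith
    have hMm : M ≤ (1 + (1 - dl)^k / dl^2) * m := by
      have h1 : (1 - dl)^k * (bS n a (a + n) L S / bS n a (a + n) L' S' / dl) ≤
          (1 - dl)^k / dl^2 * m := by
        have h2 : bS n a (a + n) L S / bS n a (a + n) L' S' / dl =
            (1 / dl^2) * (dl * (bS n a (a + n) L S / bS n a (a + n) L' S')) := by
          field_simp
        rw [h2]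
        have h3 : 0 ≤ (1 - dl)^k := pow_nonneg (by linarith) _
        have h4 := mul_le_mul_of_nonneg_left g1 (show 0 ≤ (1 - dl)^k * (1 / dl^2) by positivity)
        calc _ = (1 - dl)^k * (1 / dl^2) * (dl * (bS n a (a + n) L S / bS n a (a + n) L' S')) := by
              ring
          _ ≤ _ := h4
          _ = _ := by ring
      linarith
    have z1 := Zc_nonneg n a b L' S' R T
    have z2 := Zc_nonneg n a b L' S' R' T'
    have hε : 0 ≤ 1 + (1 - dl)^k / dl^2 := by
      have : 0 ≤ (1 - dl)^k := pow_nonneg (by linarith) _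
      positivity
    calc Zc n a b L S R T * Zc n a b L' S' R' T' ≤
          (M * Zc n a b L' S' R T) * Zc n a b L' S' R' T' := mul_le_mul_of_nonneg_right hM z2
      _ ≤ ((1 + (1 - dl)^k / dl^2) * m * Zc n a b L' S' R T) * Zc n a b L' S' R' T' :=
          mul_le_mul_of_nonneg_right (mul_le_mul_of_nonneg_right hMm z1) z2
      _ = (1 + (1 - dl)^k / dl^2) * (Zc n a b L' S' R T * (m * Zc n a b L' S' R' T')) := by ring
      _ ≤ _ := mul_le_mul_of_nonneg_left (mul_le_mul_of_nonneg_left hm z1) hε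

end Pool.Agent.D0H47.GR
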