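import Pool.Agent.D0H47.GR.Iface

/-!
Paths and the interface of a slab.
-/

set_option autoImplicit false
set_option maxHeartbeats 1000000

namespace Pool.Agent.D0H47.GR

open H974 H12S Finset

/-- the face `f` of the rows `0..n` is next to the vertex `u` -/
def Arn (n : ℤ) (u f : Vtx) : Prop :=
  (f.1 = u.1 ∨ f.1 = u.1 - 1) ∧ (f.2 = u.2 ∨ f.2 = u.2 - 1) ∧ 0 ≤ f.2 ∧ f.2 < n

theorem Arn_edge {n : ℤ} {e : Edg} {u f : Vtx} (hu : src e = u ∨ tgt e = u)
    (hf : dsrc e = f ∨ dtgt e = f) (h0 : 0 ≤ f.2) (h1 : f.2 < n) : Arn n u f := by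
  obtain ⟨x, y, _ | _⟩ := e
  · rw [src_mk, tgt_false] at hu
    rw [dsrc_false, dtgt_mk] at hf
    refine ⟨?_, ?_, h0, h1⟩
    · rcases hu with rfl | rfl <;> rcases hf with rfl | rfl <;> dsimp only <;> omega
    · rcases hu with rfl | rfl <;> rcases hf with rfl | rfl <;> dsimp only <;> omega
  · rw [src_mk, tgt_true] at hu
    rw [dsrc_true, dtgt_mk] at hf
    refine ⟨?_, ?_, h0, h1⟩
    · rcases hu with rfl | rfl <;> rcases hf with rfl | rfl <;> dsimp only <;> omega
    · rcases hu with rfl | rfl <;> rcases hf with rfl | rfl <;> dsimp only <;> omega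

/-- a vertex between the two kinds of faces is on the interface -/
theorem vert {b c n : ℤ} {F : Finset Edg} (hgood : Ok' b c n F) {u : Vtx} (hb : b ≤ u.1)
    (hc : u.1 ≤ c) (h1 : ∃ f, Arn n u f ∧ ¬ Rc b c n F f) (h2 : ∃ f, Arn n u f ∧ Rc b c n F f) :
    u ∈ Gx b c n F := by
  obtain ⟨x, y⟩ := u
  simp only at hb hc
  -- edges around the vertex
  have eV : ∀ t : ℤ, (t = y ∨ t = y - 1) → 0 ≤ t → t < n →
      ¬ (Rc b c n F (x - 1, t) ↔ Rc b c n F (x, t)) → (x, y) ∈ Gx b c n F := by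
    intro t ht h0 h3 h4
    refine ⟨(x, t, false), ⟨by rw [mem_TBE_false]; omega, by rw [dsrc_false, dtgt_mk]; exact h4⟩, ?_⟩
    rw [src_mk, tgt_false]
    rcases ht with ht | ht
    · left; rw [ht]
    · right; rw [ht]; simp
  have eH1 : 0 < y → y < n → ¬ (Rc b c n F (x, y - 1) ↔ Rc b c n F (x, y)) →
      (x, y) ∈ Gx b c n F := by
    intro h0 h3 h4
    by_cases hx : x = c
    · exfalso
      rw [hx] at h4
      exact h4 ⟨fun _ => Rc_right hgood h0.le h3, fun _ => Rc_right hgood (by omega) (by omega)⟩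
    · exact ⟨(x, y, true), ⟨by rw [mem_TBE_true]; omega, by rw [dsrc_true, dtgt_mk]; exact h4⟩,
        Or.inl rfl⟩
  have eH2 : 0 < y → y < n → ¬ (Rc b c n F (x - 1, y - 1) ↔ Rc b c n F (x - 1, y)) →
      (x, y) ∈ Gx b c n F := by
    intro h0 h3 h4
    by_cases hx : x = b
    · exfalso
      rw [hx] at h4
      exact h4 ⟨fun h => absurd (Dl_left (by omega) (by omega)) (Rc_not_Dl h),
        fun h => absurd (Dl_left h0.le h3) (Rc_not_Dl h)⟩
    · refine ⟨(x - 1, y, true), ⟨by rw [mem_TBE_true]; omega,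
        by rw [dsrc_true, dtgt_mk]; exact h4⟩, Or.inr ?_⟩
      rw [tgt_true]; simp
  obtain ⟨⟨f1, f2⟩, ⟨k1, k2, k3, k4⟩, k5⟩ := h1
  obtain ⟨⟨g1, g2⟩, ⟨l1, l2, l3, l4⟩, l5⟩ := h2
  simp only at k1 k2 k3 k4 l1 l2 l3 l4
  by_cases hfg : f2 = g2
  · -- same row
    subst hfg
    apply eV f2 k2 k3 k4
    rcases k1 with k1 | k1 <;> rcases l1 with l1 | l1
    · rw [k1] at k5; rw [l1] at l5; exact absurd l5 k5
    · rw [k1] at k5; rw [l1] at l5; exact fun h => k5 (h.mp l5)
    · rw [k1] at k5; rw [l1] at l5; exact fun h => k5 (h.mpr l5)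
    · rw [k1] at k5; rw [l1] at l5; exact absurd l5 k5
  · -- different rows: `0 < y < n`
    have hy0 : 0 < y := by omega
    have hyn : y < n := by omega
    by_cases q1 : Rc b c n F (x - 1, y - 1) ↔ Rc b c n F (x, y - 1)
    · by_cases q2 : Rc b c n F (x - 1, y) ↔ Rc b c n F (x, y)
      · by_cases q3 : Rc b c n F (x, y - 1) ↔ Rc b c n F (x, y)
        · exfalso
          have all : ∀ f : Vtx, (f.1 = x ∨ f.1 = x - 1) → (f.2 = y ∨ f.2 = y - 1) →
              (Rc b c n F f ↔ Rc b c n F (x, y)) := by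
            rintro ⟨a1, a2⟩ m1 m2
            simp only at m1 m2
            rcases m1 with rfl | rfl <;> rcases m2 with rfl | rfl
            · exact Iff.rfl
            · exact q3
            · exact q2
            · exact q1.trans q3
          exact k5 ((all (f1, f2) k1 k2).mpr ((all (g1, g2) l1 l2).mp l5))
        · exact eH1 hy0 hyn q3
      · exact eV y (Or.inl rfl) hy0.le hyn q2
    · exact eV (y - 1) (Or.inr rfl) (by omega) (by omega) q1

/-- the edges of the half-open strip `a ≤ x < b` of height `n` -/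
noncomputable def HE (a b n : ℤ) : Finset Edg := (RE a b 0 n).filter (fun e => e.1 < b)

theorem mem_HE {a b n : ℤ} {e : Edg} : e ∈ HE a b n ↔ e ∈ RE a b 0 n ∧ e.1 < b := by
  unfold HE
  rw [Finset.mem_filter]

theorem mem_HE_false {a b n x y : ℤ} : ((x, y, false) : Edg) ∈ HE a b n ↔
    (a ≤ x ∧ x < b) ∧ 0 ≤ y ∧ y < n := by
  rw [mem_HE, mem_RE_false]
  simp only
  omega

theorem mem_HE_true {a b n x y : ℤ} : ((x, y, true) : Edg) ∈ HE a b n ↔
    (a ≤ x ∧ x < b) ∧ 0 ≤ y ∧ y ≤ n := by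
  rw [mem_HE, mem_RE_true]
  simp only
  omega

/-- the ends of an edge of the half-open strip -/
theorem HE_ends {a b n : ℤ} {e : Edg} (he : e ∈ HE a b n) {u : Vtx} (hu : src e = u ∨ tgt e = u) :
    (a ≤ u.1 ∧ u.1 ≤ b) ∧ (0 ≤ u.2 ∧ u.2 ≤ n) := by
  obtain ⟨x, y, _ | _⟩ := e
  · rw [mem_HE_false] at he
    rw [src_mk, tgt_false] at hu
    rcases hu with rfl | rfl <;> simp only <;> omega
  · rw [mem_HE_true] at he
    rw [src_mk, tgt_true] at hu
    rcases hu with rfl | rfl <;> simp only <;> omega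

theorem RE_ends {a b n : ℤ} {e : Edg} (he : e ∈ RE a b 0 n) {u : Vtx}
    (hu : src e = u ∨ tgt e = u) : (a ≤ u.1 ∧ u.1 ≤ b) ∧ (0 ≤ u.2 ∧ u.2 ≤ n) := by
  obtain ⟨x, y, _ | _⟩ := e
  · rw [mem_RE_false] at he
    rw [src_mk, tgt_false] at hu
    rcases hu with rfl | rfl <;> simp only <;> omega
  · rw [mem_RE_true] at he
    rw [src_mk, tgt_true] at hu
    rcases hu with rfl | rfl <;> simp only <;> omega

/-- touches a face on the left of the interface -/
def N1 (b c n : ℤ) (F : Finset Edg) (u : Vtx) : Prop := ∃ f, Arn n u f ∧ ¬ Rc b c n F f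
/-- touches a face on the right of the interface -/
def N2 (b c n : ℤ) (F : Finset Edg) (u : Vtx) : Prop := ∃ f, Arn n u f ∧ Rc b c n F f

theorem N1_of_Kx {b c n : ℤ} {F : Finset Edg} {e : Edg} (he : e ∈ Kx b c n F) {u : Vtx}
    (hu : src e = u ∨ tgt e = u) : N1 b c n F u := by
  rw [mem_Kx] at he
  obtain ⟨-, ⟨h1, h2⟩ | ⟨h1, h2⟩⟩ := he
  · exact ⟨dsrc e, Arn_edge hu (Or.inl rfl) h1.1 h1.2, h2⟩
  · exact ⟨dtgt e, Arn_edge hu (Or.inr rfl) h1.1 h1.2, h2⟩

/-- an edge of the strip which is not explored touches the right side of the interface -/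
theorem N2_of_not_Kx {b c d n : ℤ} (hn : 1 ≤ n) {F : Finset Edg} (hgood : Ok' b c n F) {e : Edg}
    (he : e ∈ HE b d n) (heK : e ∉ Kx b c n F) {u : Vtx} (hu : src e = u ∨ tgt e = u)
    (huc : u.1 ≤ c) : N2 b c n F u := by
  by_cases heR : e ∈ RE b c 0 n
  · have hall : ∀ f, (dsrc e = f ∨ dtgt e = f) → 0 ≤ f.2 → f.2 < n → Rc b c n F f := by
      intro f hf h0 h1
      by_contra hcon
      apply heK
      rw [mem_Kx]
      refine ⟨heR, ?_⟩
      rcases hf with hf | hf
      · left; rw [hf]; exact ⟨⟨h0, h1⟩, hcon⟩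
      · right; rw [hf]; exact ⟨⟨h0, h1⟩, hcon⟩
    obtain ⟨f, hf, h0, h1⟩ : ∃ f, (dsrc e = f ∨ dtgt e = f) ∧ 0 ≤ f.2 ∧ f.2 < n := by
      obtain ⟨x, y, _ | _⟩ := e
      · rw [mem_RE_false] at heR
        exact ⟨(x, y), Or.inr rfl, by simp only; omega, by simp only; omega⟩
      · rw [mem_RE_true] at heR
        by_cases hy : y < n
        · exact ⟨(x, y), Or.inr rfl, by simp only; omega, by simp only; omega⟩
        · refine ⟨(x, y - 1), Or.inl (dsrc_true x y), by simp only; omega, by simp only; omega⟩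
    exact ⟨f, Arn_edge hu hf h0 h1, hall f hf h0 h1⟩
  · -- the edge leaves the slab on the right
    have hu2 := HE_ends he hu
    have hux : u.1 = c := by
      obtain ⟨x, y, _ | _⟩ := e
      · rw [mem_HE_false] at he
        rw [mem_RE_false] at heR
        rw [src_mk, tgt_false] at hu
        rcases hu with rfl | rfl <;> simp only at huc <;> omega
      · rw [mem_HE_true] at he
        rw [mem_RE_true] at heR
        rw [src_mk, tgt_true] at hu
        rcases hu with rfl | rfl <;> simp only at huc ⊢ <;> omega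
    by_cases hy : u.2 < n
    · exact ⟨(c, u.2), ⟨Or.inl hux.symm, Or.inl rfl, hu2.2.1, hy⟩, Rc_right hgood hu2.2.1 hy⟩
    · exact ⟨(c, u.2 - 1), ⟨Or.inl hux.symm, Or.inr rfl, by simp only; omega, by simp only; omega⟩,
        Rc_right hgood (by omega) (by omega)⟩

theorem N1_left {b c n : ℤ} (hn : 1 ≤ n) {F : Finset Edg} {u : Vtx} (hu : u.1 = b)
    (h0 : 0 ≤ u.2) (h1 : u.2 ≤ n) : N1 b c n F u := by
  by_cases hy : u.2 < n
  · exact ⟨(b - 1, u.2), ⟨Or.inr (by simp only; omega), Or.inl rfl, h0, hy⟩,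
      fun h => Rc_not_Dl h (Dl_left h0 hy)⟩
  · exact ⟨(b - 1, u.2 - 1), ⟨Or.inr (by simp only; omega), Or.inr rfl, by simp only; omega,
      by simp only; omega⟩, fun h => Rc_not_Dl h (Dl_left (by omega) (by omega))⟩

theorem N2_right {b c n : ℤ} (hn : 1 ≤ n) {F : Finset Edg} (hgood : Ok' b c n F) {u : Vtx}
    (hu : u.1 = c) (h0 : 0 ≤ u.2) (h1 : u.2 ≤ n) : N2 b c n F u := by
  by_cases hy : u.2 < n
  · exact ⟨(c, u.2), ⟨Or.inl hu.symm, Or.inl rfl, h0, hy⟩, Rc_right hgood h0 hy⟩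
  · exact ⟨(c, u.2 - 1), ⟨Or.inl hu.symm, Or.inr rfl, by simp only; omega, by simp only; omega⟩,
      Rc_right hgood (by omega) (by omega)⟩

theorem N_rows {b c n : ℤ} {F : Finset Edg} {u : Vtx} (h : N1 b c n F u ∨ N2 b c n F u) :
    0 ≤ u.2 ∧ u.2 ≤ n := by
  rcases h with ⟨f, ⟨-, h2, h3, h4⟩, -⟩ | ⟨f, ⟨-, h2, h3, h4⟩, -⟩ <;> omega

/-- **From the right.** A path from the right of the slab to its left side reaches the interface
through unexplored edges. -/
theorem pathA {b c d n : ℤ} (hn : 1 ≤ n) (hbc : b < c) (hcd : c < d) {F0 F : Finset Edg}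
    (hgood : Ok' b c n F0) (hF : F ⊆ HE b d n) {L R : Set Edg} (hL : ∀ e ∈ L, (tgt e).1 ≤ b)
    (hR : ∀ e ∈ R, d ≤ (src e).1) {t s : Vtx} (ht : d ≤ t.1) (hs : s.1 ≤ b)
    (h : Reach (L ∪ ↑F ∪ R) t s) :
    ∃ γ ∈ Gx b c n F0, Reach (↑(F \ Kx b c n F0) ∪ R) t γ := by
  by_contra hcon
  push Not at hcon
  have key : ∀ v, Reach (L ∪ ↑F ∪ R) t v → Reach (↑(F \ Kx b c n F0) ∪ R) t v ∧
      (c < v.1 ∨ ((b ≤ v.1 ∧ v.1 ≤ c) ∧ N2 b c n F0 v ∧ ¬ N1 b c n F0 v)) := by
    intro v hv
    induction hv with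
    | refl => exact ⟨Reach.refl _ _, Or.inl (by omega)⟩
    | @tail v v' _ hst ih =>
      obtain ⟨ih1, ih2⟩ := ih
      obtain ⟨e, heG, hcase⟩ := hst
      have hv : src e = v ∨ tgt e = v := by
        rcases hcase with ⟨h1, _⟩ | ⟨_, h2⟩
        · exact Or.inl h1
        · exact Or.inr h2
      have hv' : src e = v' ∨ tgt e = v' := by
        rcases hcase with ⟨_, h2⟩ | ⟨h1, _⟩
        · exact Or.inr h2
        · exact Or.inl h1
      rcases heG with (heL | heF) | heR
      · -- an edge of the left part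
        exfalso
        have h1 := hL e heL
        have h2 : (src e).1 ≤ (tgt e).1 := by
          obtain ⟨x, y, _ | _⟩ := e
          · rw [src_mk, tgt_false]
          · rw [src_mk, tgt_true]; simp only; omega
        have h3 : v.1 ≤ b := by
          rcases hv with h | h
          · rw [← h]; omega
          · rw [← h]; exact h1
        rcases ih2 with h4 | ⟨⟨h4, h5⟩, h6, h7⟩
        · omega
        · have h8 := N_rows (Or.inr h6)
          exact h7 (N1_left hn (by omega) h8.1 h8.2)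
      · have heF' : e ∈ F := heF
        have heH := hF heF'
        by_cases heK : e ∈ Kx b c n F0
        · exfalso
          have h1 := N1_of_Kx heK hv
          have h2 := RE_ends (mem_Kx.mp heK).1 hv
          rcases ih2 with h4 | ⟨_, _, h7⟩
          · omega
          · exact h7 h1
        · have hstep : Reach (↑(F \ Kx b c n F0) ∪ R) v v' := Adj.reach
            ⟨e, Or.inl (by rw [mem_coe, Finset.mem_sdiff]; exact ⟨heF', heK⟩), hcase⟩
          have hr := ih1.trans hstep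
          refine ⟨hr, ?_⟩
          by_cases hvc : c < v'.1
          · exact Or.inl hvc
          · right
            have hb := (HE_ends heH hv').1.1
            have h2 := N2_of_not_Kx hn hgood heH heK hv' (by omega)
            refine ⟨⟨hb, by omega⟩, h2, fun h1 => ?_⟩
            exact hcon v' (vert hgood hb (by omega) h1 h2) hr
      · -- an edge of the right part
        have h1 := hR e heR
        have h2 : (src e).1 ≤ (tgt e).1 := by
          obtain ⟨x, y, _ | _⟩ := e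
          · rw [src_mk, tgt_false]
          · rw [src_mk, tgt_true]; simp only; omega
        refine ⟨ih1.trans (Adj.reach ⟨e, Or.inr heR, hcase⟩), Or.inl ?_⟩
        rcases hv' with h | h
        · rw [← h]; omega
        · rw [← h]; omega
  obtain ⟨-, h1⟩ := key s h
  rcases h1 with h1 | ⟨⟨h1, h2⟩, h3, h4⟩
  · omega
  · have h8 := N_rows (Or.inr h3)
    exact h4 (N1_left hn (by omega) h8.1 h8.2)

/-- **From the left.** A path from the left of the slab to its right side reaches the interface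
through explored edges. -/
theorem pathB {b c d n : ℤ} (hn : 1 ≤ n) (hbc : b < c) (hcd : c < d) {F0 F : Finset Edg}
    (hgood : Ok' b c n F0) (hF : F ⊆ HE b d n) {L R : Set Edg} (hL : ∀ e ∈ L, (tgt e).1 ≤ b)
    (hR : ∀ e ∈ R, d ≤ (src e).1) {s t : Vtx} (hs : s.1 ≤ b) (ht : c ≤ t.1)
    (h : Reach (L ∪ ↑F ∪ R) s t) :
    ∃ γ ∈ Gx b c n F0, Reach (L ∪ ↑(F ∩ Kx b c n F0)) s γ := by
  by_contra hcon
  push Not at hcon
  have hleft : ∀ v : Vtx, v.1 ≤ b → Reach (L ∪ ↑(F ∩ Kx b c n F0)) s v →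
      (v.1 < b ∨ (v.1 = b ∧ (v.2 < 0 ∨ n < v.2)) ∨
        ((b ≤ v.1 ∧ v.1 ≤ c) ∧ N1 b c n F0 v ∧ ¬ N2 b c n F0 v)) := by
    intro v hvb hr
    by_cases h1 : v.1 < b
    · exact Or.inl h1
    · by_cases h2 : v.2 < 0 ∨ n < v.2
      · exact Or.inr (Or.inl ⟨by omega, h2⟩)
      · push Not at h2
        have h3 : N1 b c n F0 v := N1_left hn (by omega) h2.1 h2.2
        refine Or.inr (Or.inr ⟨⟨by omega, by omega⟩, h3, fun h4 => ?_⟩)
        exact hcon v (vert hgood (by omega) (by omega) h3 h4) hr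
  have key : ∀ v, Reach (L ∪ ↑F ∪ R) s v → Reach (L ∪ ↑(F ∩ Kx b c n F0)) s v ∧
      (v.1 < b ∨ (v.1 = b ∧ (v.2 < 0 ∨ n < v.2)) ∨
        ((b ≤ v.1 ∧ v.1 ≤ c) ∧ N1 b c n F0 v ∧ ¬ N2 b c n F0 v)) := by
    intro v hv
    induction hv with
    | refl => exact ⟨Reach.refl _ _, hleft s hs (Reach.refl _ _)⟩
    | @tail v v' _ hst ih =>
      obtain ⟨ih1, ih2⟩ := ih
      obtain ⟨e, heG, hcase⟩ := hst
      have hv : src e = v ∨ tgt e = v := by
        rcases hcase with ⟨h1, _⟩ | ⟨_, h2⟩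
        · exact Or.inl h1
        · exact Or.inr h2
      have hv' : src e = v' ∨ tgt e = v' := by
        rcases hcase with ⟨_, h2⟩ | ⟨h1, _⟩
        · exact Or.inr h2
        · exact Or.inl h1
      have hst : (src e).1 ≤ (tgt e).1 := by
        obtain ⟨x, y, _ | _⟩ := e
        · rw [src_mk, tgt_false]
        · rw [src_mk, tgt_true]; simp only; omega
      rcases heG with (heL | heF) | heR
      · have h1 := hL e heL
        have hr := ih1.trans (Adj.reach (F := L ∪ ↑(F ∩ Kx b c n F0)) ⟨e, Or.inl heL, hcase⟩)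
        refine ⟨hr, hleft v' ?_ hr⟩
        rcases hv' with h | h
        · rw [← h]; omega
        · rw [← h]; exact h1
      · have heF' : e ∈ F := heF
        have heH := hF heF'
        have hve := HE_ends heH hv
        have h3 : (b ≤ v.1 ∧ v.1 ≤ c) ∧ N1 b c n F0 v ∧ ¬ N2 b c n F0 v := by
          rcases ih2 with h4 | h4 | h4
          · omega
          · omega
          · exact h4
        by_cases heK : e ∈ Kx b c n F0
        · have hstep : Reach (L ∪ ↑(F ∩ Kx b c n F0)) v v' := Adj.reach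
            ⟨e, Or.inr (by rw [mem_coe, Finset.mem_inter]; exact ⟨heF', heK⟩), hcase⟩
          have hr := ih1.trans hstep
          have h4 := N1_of_Kx heK hv'
          have h5 := RE_ends (mem_Kx.mp heK).1 hv'
          refine ⟨hr, Or.inr (Or.inr ⟨h5.1, h4, fun h6 => ?_⟩)⟩
          exact hcon v' (vert hgood h5.1.1 h5.1.2 h4 h6) hr
        · exact absurd (N2_of_not_Kx hn hgood heH heK hv h3.1.2) h3.2.2
      · exfalso
        have h1 := hR e heR
        have h2 : d ≤ v.1 := by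
          rcases hv with h | h
          · rw [← h]; exact h1
          · rw [← h]; omega
        rcases ih2 with h4 | h4 | h4 <;> omega
  obtain ⟨-, h1⟩ := key t h
  rcases h1 with h1 | h1 | ⟨⟨h1, h2⟩, h3, h4⟩
  · omega
  · omega
  · have h8 := N_rows (Or.inl h3)
    exact h4 (N2_right hn hgood (by omega) h8.1 h8.2)

end Pool.Agent.D0H47.GR
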