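import Pool.Agent.D0H47.GR.GProb

/-!
The gadget for narrow strips, and the lower bound for the increment in the short side.
-/

set_option autoImplicit false

namespace Pool.Agent.D0H47.GR

open H974 H12S Finset

theorem PH_pos {S F0 : Finset Edg} (hF : F0 ⊆ S) {A : Finset Edg → Prop} (hA : A F0) :
    0 < PH S A := by
  unfold PH Pr Ex
  apply Finset.sum_pos'
  · intro F _
    have := ind_nonneg (A F)
    have h1 : 0 ≤ ∏ e ∈ F, (1/2 : ℝ) := Finset.prod_nonneg (fun _ _ => by norm_num)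
    have h2 : 0 ≤ ∏ e ∈ S \ F, (1 - (1/2 : ℝ)) := Finset.prod_nonneg (fun _ _ => by norm_num)
    positivity
  · refine ⟨F0, Finset.mem_powerset.mpr hF, ?_⟩
    beta_reduce
    rw [ind_of hA]
    have h1 : 0 < ∏ e ∈ F0, (1/2 : ℝ) := Finset.prod_pos (fun _ _ => by norm_num)
    have h2 : 0 < ∏ e ∈ S \ F0, (1 - (1/2 : ℝ)) := Finset.prod_pos (fun _ _ => by norm_num)
    positivity

/-- the horizontal segment of height `1` -/
noncomputable def Seg (m : ℤ) : Finset Edg := (Finset.Ico 0 m).map ⟨fun x => ((x, 1, true) : Edg), by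
  intro x y h
  simpa using h⟩

theorem mem_Seg {m : ℤ} {e : Edg} : e ∈ Seg m ↔ ∃ x, (0 ≤ x ∧ x < m) ∧ e = (x, 1, true) := by
  unfold Seg
  simp only [Finset.mem_map, Finset.mem_Ico, Function.Embedding.coeFn_mk]
  constructor
  · rintro ⟨x, hx, rfl⟩; exact ⟨x, hx, rfl⟩
  · rintro ⟨x, hx, rfl⟩; exact ⟨x, hx, rfl⟩

theorem Seg_sub {m : ℤ} : Seg m ⊆ Um 0 m 0 1 := by
  intro e he
  obtain ⟨x, hx, rfl⟩ := mem_Seg.mp he
  unfold Um
  rw [mem_LRE_true]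
  omega

theorem Seg_reach {m : ℤ} {G : Set Edg} {u v : Vtx}
    (h : Reach ((↑(Seg m) : Set Edg) ∩ G) u v) : v = u ∨ (v.2 = 1 ∧ v.1 ≤ m) := by
  induction h with
  | refl => exact Or.inl rfl
  | @tail w w' hbw hs ih =>
    right
    obtain ⟨e, ⟨heF, -⟩, hc⟩ := hs
    obtain ⟨x, hx, rfl⟩ := mem_Seg.mp (mem_coe.mp heF)
    have e1 : src ((x, 1, true) : Edg) = (x, 1) := rfl
    have e2 : tgt ((x, 1, true) : Edg) = (x + 1, 1) := rfl
    rw [e1, e2] at hc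
    rcases hc with ⟨h5, h6⟩ | ⟨h5, h6⟩
    · rw [← h6]; exact ⟨rfl, by simp only; omega⟩
    · rw [← h5]; exact ⟨rfl, by simp only; omega⟩

theorem Gd_Seg {m : ℤ} (hm : 1 ≤ m) : Gd 0 m 0 1 (Seg m) := by
  refine ⟨?_, ⟨1, 1, ⟨(0, 1), ⟨⟨le_rfl, by simp only; omega⟩, by simp, by simp⟩,
    Reach.refl _ _⟩, ?_⟩, ?_⟩
  · rintro v ⟨w, ⟨-, h3, h4⟩, hr⟩
    rcases Seg_reach hr with h5 | h5
    · rw [h5]; omega
    · omega
  · have key : ∀ k : ℕ, (k : ℤ) ≤ m →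
        Reach ((↑(Seg m) : Set Edg) ∩ ↑(LRE 0 m 0 (0 + 3 * 1))) (0, 1) ((k : ℤ), 1) := by
      intro k
      induction k with
      | zero => intro _; exact Reach.refl _ _
      | succ k ih =>
        intro hk
        push_cast at hk
        refine (ih (by omega)).trans (Adj.reach ⟨((k : ℤ), 1, true), ⟨?_, ?_⟩, Or.inl ⟨rfl, ?_⟩⟩)
        · exact mem_coe.mpr (mem_Seg.mpr ⟨k, ⟨by omega, by omega⟩, rfl⟩)
        · rw [mem_coe, mem_LRE_true]; omega
        · show ((k : ℤ) + 1, (1 : ℤ)) = (((k + 1 : ℕ) : ℤ), (1 : ℤ))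
          push_cast
          rfl
    have := key m.toNat (by omega)
    have e : ((m.toNat : ℕ) : ℤ) = m := by omega
    rwa [e] at this
  · intro y z _ hr
    rcases Seg_reach hr with h5 | h5
    · have : m + 1 = 0 := congrArg Prod.fst h5
      omega
    · have := h5.2
      simp only at this
      omega

theorem fin_min (f : ℤ → ℝ) (s : Finset ℤ) (hs : s.Nonempty) (hf : ∀ m ∈ s, 0 < f m) :
    ∃ c : ℝ, 0 < c ∧ ∀ m ∈ s, c ≤ f m := by
  obtain ⟨m0, hm0, h⟩ := Finset.exists_min_image s f hs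
  exact ⟨f m0, hf m0 hm0, h⟩

/-- The gadget has probability at least `c / m`. -/
theorem gadget : ∃ c : ℝ, 0 < c ∧ c ≤ 1 ∧ ∀ m : ℤ, 1 ≤ m → ∃ h : ℤ, 1 ≤ h ∧ 3 * h + 1 ≤ 4 * m ∧
    c / m ≤ PH (Um 0 m 0 h) (Gd 0 m 0 h) := by
  obtain ⟨c1, hc1, h1⟩ := fin_min (fun m => PH (Um 0 m 0 1) (Gd 0 m 0 1)) (Finset.Icc (1:ℤ) 22)
    ⟨1, Finset.mem_Icc.mpr ⟨le_rfl, by norm_num⟩⟩
    (fun m hm => PH_pos Seg_sub (Gd_Seg (Finset.mem_Icc.mp hm).1))
  beta_reduce at h1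
  obtain ⟨K, hK⟩ : ∃ K : ℝ, K = ((1/2 : ℝ)^47)^6 := ⟨_, rfl⟩
  have hK0 : 0 < K := by rw [hK]; positivity
  refine ⟨min (min c1 K) 1, lt_min (lt_min hc1 hK0) one_pos, min_le_right _ _, ?_⟩
  intro m hm
  have hmr : (1:ℝ) ≤ m := by exact_mod_cast hm
  by_cases h22 : m ≤ 22
  · refine ⟨1, le_rfl, by omega, ?_⟩
    have h2 := h1 m (Finset.mem_Icc.mpr ⟨hm, h22⟩)
    refine le_trans ?_ h2
    rw [div_le_iff₀ (by linarith)]
    have h3 : min (min c1 K) 1 ≤ c1 := (min_le_left _ _).trans (min_le_left _ _)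
    nlinarith
  · refine ⟨m / 2, by omega, by omega, ?_⟩
    have h2 := gadget_big (m := m) (h := m / 2) (by omega) (by omega) (by omega) (by omega)
    rw [← hK] at h2
    refine le_trans ?_ h2
    have h3 : min (min c1 K) 1 ≤ K := (min_le_left _ _).trans (min_le_right _ _)
    have h4 : (0:ℝ) < ((m / 2 : ℤ) : ℝ) := by
      have : 0 < m / 2 := by omega
      exact_mod_cast this
    have h5 : ((m / 2 : ℤ) : ℝ) ≤ m := by
      have : m / 2 ≤ m := by omega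
      exact_mod_cast this
    exact div_le_div₀ hK0.le h3 h4 h5

end Pool.Agent.D0H47.GR
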