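import Pool.Agent.H12R2.Sep.Markov

/-!
Increments of the crossing probabilities of rectangles: the basic inequality.
-/

set_option autoImplicit false

namespace Pool.Agent.D0H47.GR

open H974 H12S Finset

theorem okh : Ok (fun _ : Edg => (1/2 : ℝ)) := okq (by norm_num) (by norm_num)

/-- probability of an event when every edge of `S` is open with probability `1/2` -/
noncomputable abbrev PH (S : Finset Edg) (A : Finset Edg → Prop) : ℝ :=
  Pr (fun _ => (1/2 : ℝ)) S A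

/-- crossing probability of a rectangle of width `w` and height `h` -/
noncomputable abbrev p (w h : ℤ) : ℝ := hh (1/2) w h

theorem Pr_diff {p : Edg → ℝ} {S : Finset Edg} {A B : Finset Edg → Prop}
    (h : ∀ F, F ⊆ S → B F → A F) :
    Pr p S (fun F => A F ∧ ¬ B F) = Pr p S A - Pr p S B := by
  unfold Pr
  rw [← Ex_sub]
  apply Ex_congr
  intro F hF
  by_cases hb : B F
  · rw [ind_of hb, ind_of (h F hF hb), ind_not_of (fun h => h.2 hb)]
    ring
  · by_cases ha : A F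
    · rw [ind_of ha, ind_not_of hb, ind_of ⟨ha, hb⟩]
      ring
    · rw [ind_not_of ha, ind_not_of hb, ind_not_of (fun h => ha h.1)]
      ring

/-! ### Exploration of the clusters of a set of vertices -/

/-- `v` is joined to `B` by open edges of `U`. -/
def Cl (U : Finset Edg) (B : Set Vtx) (F : Finset Edg) (v : Vtx) : Prop :=
  ∃ b ∈ B, Reach ((↑F : Set Edg) ∩ ↑U) b v

open Classical in
/-- The edges of `U` with an end in the clusters of `B`. -/
noncomputable def KB (U : Finset Edg) (B : Set Vtx) (F : Finset Edg) : Finset Edg :=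
  U.filter (fun e => Cl U B F (src e) ∨ Cl U B F (tgt e))

theorem mem_KB {U : Finset Edg} {B : Set Vtx} {F : Finset Edg} {e : Edg} :
    e ∈ KB U B F ↔ e ∈ U ∧ (Cl U B F (src e) ∨ Cl U B F (tgt e)) := by
  classical
  unfold KB
  rw [Finset.mem_filter]

theorem reach_K {U T : Finset Edg} {B : Set Vtx} {F : Finset Edg} {b v : Vtx} (hb : b ∈ B)
    (hT : T ⊆ U) (h : Reach ((↑F : Set Edg) ∩ ↑T) b v) :
    Reach ((↑(F ∩ KB U B F) : Set Edg) ∩ ↑T) b v := by
  have key : ∀ w, Reach ((↑F : Set Edg) ∩ ↑T) b w →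
      Reach ((↑(F ∩ KB U B F) : Set Edg) ∩ ↑T) b w := by
    intro w hw
    induction hw with
    | refl => exact Reach.refl _ _
    | @tail w w' hbw hs ih =>
      obtain ⟨e, ⟨heF, heT⟩, hc⟩ := hs
      have hcl : Cl U B F w := ⟨b, hb, Reach.mono (by
        intro x hx; exact ⟨hx.1, hT hx.2⟩) hbw⟩
      have hK : e ∈ KB U B F := by
        rw [mem_KB]
        refine ⟨hT heT, ?_⟩
        rcases hc with ⟨h1, _⟩ | ⟨_, h2⟩
        · left; rw [h1]; exact hcl
        · right; rw [h2]; exact hcl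
      exact ih.trans (Adj.reach ⟨e, ⟨by
        simp only [Finset.coe_inter, Set.mem_inter_iff, Finset.mem_coe]
        exact ⟨heF, hK⟩, heT⟩, hc⟩)
  exact key v h

theorem reach_of_agree {U T : Finset Edg} {B : Set Vtx} {F F' : Finset Edg}
    (h : F ∩ KB U B F = F' ∩ KB U B F) {b v : Vtx} (hb : b ∈ B) (hT : T ⊆ U)
    (hr : Reach ((↑F : Set Edg) ∩ ↑T) b v) : Reach ((↑F' : Set Edg) ∩ ↑T) b v := by
  have h1 := reach_K hb hT hr
  rw [h] at h1
  refine h1.mono ?_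
  rintro x ⟨hx, hx'⟩
  simp only [Finset.coe_inter, Set.mem_inter_iff, Finset.mem_coe] at hx
  exact ⟨hx.1, hx'⟩

theorem reach_of_agree' {U T : Finset Edg} {B : Set Vtx} {F F' : Finset Edg}
    (h : F ∩ KB U B F = F' ∩ KB U B F) {b v : Vtx} (hb : b ∈ B) (hT : T ⊆ U)
    (hr : Reach ((↑F' : Set Edg) ∩ ↑T) b v) : Reach ((↑F : Set Edg) ∩ ↑T) b v := by
  induction hr with
  | refl => exact Reach.refl _ _
  | @tail w w' hbw hs ih =>
    obtain ⟨e, ⟨heF, heT⟩, hc⟩ := hs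
    have hcl : Cl U B F w := ⟨b, hb, ih.mono (by
      intro x hx; exact ⟨hx.1, hT hx.2⟩)⟩
    have hK : e ∈ KB U B F := by
      rw [mem_KB]
      refine ⟨hT heT, ?_⟩
      rcases hc with ⟨h1, _⟩ | ⟨_, h2⟩
      · left; rw [h1]; exact hcl
      · right; rw [h2]; exact hcl
    have he : e ∈ F := by
      have : e ∈ F' ∩ KB U B F := Finset.mem_inter.mpr ⟨heF, hK⟩
      rw [← h] at this
      exact (Finset.mem_inter.mp this).1
    exact ih.trans (Adj.reach ⟨e, ⟨he, heT⟩, hc⟩)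

theorem Cl_agree {U : Finset Edg} {B : Set Vtx} {F F' : Finset Edg}
    (h : F ∩ KB U B F = F' ∩ KB U B F) (v : Vtx) : Cl U B F v ↔ Cl U B F' v := by
  constructor
  · rintro ⟨b, hb, hr⟩
    exact ⟨b, hb, reach_of_agree h hb (Finset.Subset.refl _) hr⟩
  · rintro ⟨b, hb, hr⟩
    exact ⟨b, hb, reach_of_agree' h hb (Finset.Subset.refl _) hr⟩

theorem KB_agree {U : Finset Edg} {B : Set Vtx} {F F' : Finset Edg}
    (h : F ∩ KB U B F = F' ∩ KB U B F) : KB U B F' = KB U B F := by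
  ext e
  rw [mem_KB, mem_KB, Cl_agree h, Cl_agree h]

theorem stop_KB (S U : Finset Edg) (B : Set Vtx) : Stop S (KB U B) :=
  fun _ _ _ _ h => KB_agree h

/-- A path whose last vertex is not in the clusters of `B` does not touch them. -/
theorem reach_avoid {U T : Finset Edg} {B : Set Vtx} {F : Finset Edg} {u v : Vtx}
    (hT : T ⊆ U) (h : Reach ((↑F : Set Edg) ∩ ↑T) u v) (hv : ¬ Cl U B F v) :
    Reach ((↑(F \ KB U B F) : Set Edg) ∩ ↑T) u v := by
  have hsub : ((↑F : Set Edg) ∩ ↑T) ⊆ (↑F : Set Edg) ∩ ↑U := fun x hx => ⟨hx.1, hT hx.2⟩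
  have hno : ∀ w, Reach ((↑F : Set Edg) ∩ ↑T) u w → ¬ Cl U B F w := by
    rintro w hw ⟨b, hb, hr⟩
    exact hv ⟨b, hb, hr.trans ((hw.symm.mono hsub).trans (h.mono hsub))⟩
  have key : ∀ w, Reach ((↑F : Set Edg) ∩ ↑T) u w →
      Reach ((↑(F \ KB U B F) : Set Edg) ∩ ↑T) u w := by
    intro w hw
    induction hw with
    | refl => exact Reach.refl _ _
    | @tail w w' hbw hs ih =>
      obtain ⟨e, ⟨heF, heT⟩, hc⟩ := hs
      have h1 := hno w hbw
      have h2 := hno w' (hbw.trans (Adj.reach ⟨e, ⟨heF, heT⟩, hc⟩))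
      have hK : e ∉ KB U B F := by
        rw [mem_KB]
        rintro ⟨-, hcl⟩
        rcases hc with ⟨h3, h4⟩ | ⟨h3, h4⟩
        · rw [h3, h4] at hcl; tauto
        · rw [h3, h4] at hcl; tauto
      exact ih.trans (Adj.reach ⟨e, ⟨by
        simp only [Finset.coe_sdiff, Set.mem_sdiff, Finset.mem_coe]
        exact ⟨heF, hK⟩, heT⟩, hc⟩)
  exact key v h

/-! ### Inclusions of the sets of edges -/

theorem LRE_sub {a b c d a' b' c' d' : ℤ} (h1 : a' ≤ a) (h2 : b ≤ b') (h3 : c' ≤ c)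
    (h4 : d ≤ d') : LRE a b c d ⊆ LRE a' b' c' d' := by
  rintro ⟨x, y, _ | _⟩ h
  · simp only [mem_LRE_false] at h ⊢; omega
  · simp only [mem_LRE_true] at h ⊢; omega

theorem LRE_disj {a b c d a' b' c' d' : ℤ} (h : b ≤ a') :
    Disjoint (LRE a b c d) (LRE a' b' c' d') := by
  rw [Finset.disjoint_left]
  rintro ⟨x, y, _ | _⟩ h1 h2
  · simp only [mem_LRE_false] at h1 h2; omega
  · simp only [mem_LRE_true] at h1 h2; omega

theorem LRE_disj_row {a b c d a' b' c' d' : ℤ} (h : d < c') :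
    Disjoint (LRE a b c d) (LRE a' b' c' d') := by
  rw [Finset.disjoint_left]
  rintro ⟨x, y, _ | _⟩ h1 h2
  · simp only [mem_LRE_false] at h1 h2; omega
  · simp only [mem_LRE_true] at h1 h2; omega

theorem p_nonneg (w h : ℤ) : 0 ≤ p w h := hh_nonneg (by norm_num) (by norm_num) w h
theorem p_le_one (w h : ℤ) : p w h ≤ 1 := hh_le_one (by norm_num) (by norm_num) w h

theorem p_mono {w w' h h' : ℤ} (hw : 0 < w') (hww : w' ≤ w) (hhh : h ≤ h') : p w h ≤ p w' h' :=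
  hh_mono (by norm_num) (by norm_num) hw hww hhh

theorem PH_LRc {a b c d w h : ℤ} {S : Finset Edg} (hS : LRE a b c d ⊆ S) (hw : w = b - a)
    (hh' : h = d - c) : PH S (LRc a b c d) = p w h := by
  rw [hw, hh']
  exact pr_LRc _ hS

/-- the increment as a probability -/
theorem inc_eq {m n : ℤ} (hm : 1 ≤ m) :
    PH (LRE 0 (m + 1) 0 n) (fun F => LRc 0 m 0 n F ∧ ¬ LRc 0 (m + 1) 0 n F) =
      p m n - p (m + 1) n := by
  unfold PH
  rw [Pr_diff (fun F _ h => LRc_sub le_rfl (by omega) (by omega) le_rfl le_rfl h)]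
  have h1 := PH_LRc (a := 0) (b := m) (c := 0) (d := n) (w := m) (h := n)
    (S := LRE 0 (m + 1) 0 n) (LRE_sub le_rfl (by omega) le_rfl le_rfl) (by ring) (by ring)
  have h2 := PH_LRc (a := 0) (b := m + 1) (c := 0) (d := n) (w := m + 1) (h := n)
    (S := LRE 0 (m + 1) 0 n) (Finset.Subset.refl _) (by ring) (by ring)
  unfold PH at h1 h2
  rw [h1, h2]

theorem inc_nonneg {m n : ℤ} (hm : 1 ≤ m) : 0 ≤ p m n - p (m + 1) n := by
  have := p_mono (w := m + 1) (w' := m) (h := n) (h' := n) (by omega) (by omega) le_rfl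
  linarith

/-- **The basic inequality.** -/
theorem star {x m n : ℤ} (hx : 1 ≤ x) (hxm : x < m) :
    (p m n - p (m + 1) n) * (1 - p (x + 1) n) ≤ p (m - x) n * (p x n - p (x + 1) n) := by
  set c := m - x with hc
  set U := LRE 0 (m + 1) 0 n with hU
  set B : Set Vtx := {v | v.1 = 0 ∧ 0 ≤ v.2 ∧ v.2 ≤ n} with hB
  set E : Finset Edg → Prop := fun F => LRc 0 m 0 n F ∧ ¬ LRc 0 (m + 1) 0 n F with hE
  have e0 : PH U E = p m n - p (m + 1) n := inc_eq (by omega)
  -- no vertex of the last column belongs to the cluster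
  have hlast : ∀ F, ¬ LRc 0 (m + 1) 0 n F → ∀ y, 0 ≤ y → y ≤ n → ¬ Cl U B F (m + 1, y) := by
    rintro F hF y h1 h2 ⟨⟨b1, b2⟩, ⟨hb1, hb2, hb3⟩, hr⟩
    simp only at hb1 hb2 hb3
    subst hb1
    exact hF ⟨b2, y, ⟨hb2, hb3⟩, ⟨h1, h2⟩, hr⟩
  have s1 : PH U (fun F => E F ∧ LRc c (m + 1) 0 n F) ≤
      PH U (fun F => E F ∧ LRc c (m + 1) 0 n (F \ KB U B F)) := by
    apply Pr_mono okh
    rintro F _ ⟨hEF, y, y', h1, h2, h3⟩
    refine ⟨hEF, y, y', h1, h2, ?_⟩
    exact reach_avoid (LRE_sub (by omega) le_rfl le_rfl le_rfl) h3 (hlast F hEF.2 y' h2.1 h2.2)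
  have s2 : PH U (fun F => E F ∧ LRc c (m + 1) 0 n (F \ KB U B F)) ≤
      PH U E * PH U (LRc c (m + 1) 0 n) := by
    refine markov_le okh (stop_KB U U B) ?_ (fun F G h hF => hF.mono h)
    rintro F F' hF hF' hag ⟨⟨y, y', h1, h2, h3⟩, h4⟩
    refine ⟨⟨y, y', h1, h2, reach_of_agree hag (b := (0, y)) ⟨rfl, h1.1, h1.2⟩
      (LRE_sub le_rfl (by omega) le_rfl le_rfl) h3⟩, ?_⟩
    rintro ⟨z, z', k1, k2, k3⟩
    exact h4 ⟨z, z', k1, k2, reach_of_agree' hag (b := (0, z)) ⟨rfl, k1.1, k1.2⟩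
      (Finset.Subset.refl _) k3⟩
  have e1 : PH U (LRc c (m + 1) 0 n) = p (x + 1) n :=
    PH_LRc (LRE_sub (by omega) le_rfl le_rfl le_rfl) (by rw [hc]; ring) (by ring)
  have s3 : PH U (fun F => E F ∧ ¬ LRc c (m + 1) 0 n F) =
      PH U E - PH U (fun F => E F ∧ LRc c (m + 1) 0 n F) := by
    have := Pr_diff (p := fun _ => (1/2 : ℝ)) (S := U) (A := E)
      (B := fun F => E F ∧ LRc c (m + 1) 0 n F) (fun F _ h => h.1)
    rw [← this]
    apply Pr_congr
    intro F _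
    tauto
  have s4 : PH U (fun F => E F ∧ ¬ LRc c (m + 1) 0 n F) ≤
      PH U (fun F => LRc 0 c 0 n F ∧ (LRc c m 0 n F ∧ ¬ LRc c (m + 1) 0 n F)) := by
    apply Pr_mono okh
    rintro F _ ⟨⟨h1, h2⟩, h3⟩
    exact ⟨LRc_sub le_rfl (by omega) (by omega) le_rfl le_rfl h1,
      LRc_sub (by omega) (by omega) le_rfl le_rfl le_rfl h1, h3⟩
  have sT : LRE c (m + 1) 0 n ⊆ U := LRE_sub (by omega) le_rfl le_rfl le_rfl
  have sS : LRE 0 c 0 n ⊆ U := LRE_sub le_rfl (by omega) le_rfl le_rfl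
  have sR : LRE c m 0 n ⊆ LRE c (m + 1) 0 n := LRE_sub le_rfl (by omega) le_rfl le_rfl
  have s5 : PH U (fun F => LRc 0 c 0 n F ∧ (LRc c m 0 n F ∧ ¬ LRc c (m + 1) 0 n F)) =
      PH U (LRc 0 c 0 n) * PH U (fun F => LRc c m 0 n F ∧ ¬ LRc c (m + 1) 0 n F) := by
    refine Pr_indep sS sT (LRE_disj le_rfl) (fun F _ => LRc_local (Finset.Subset.refl _)) ?_
    intro F _
    rw [LRc_local (F := F) sR, LRc_local (F := F) (Finset.Subset.refl (LRE c (m + 1) 0 n))]
  have e2 : PH U (LRc 0 c 0 n) = p (m - x) n := PH_LRc sS (by rw [hc]; ring) (by ring)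
  have e3 : PH U (fun F => LRc c m 0 n F ∧ ¬ LRc c (m + 1) 0 n F) = p x n - p (x + 1) n := by
    unfold PH
    rw [Pr_diff (fun F _ h => LRc_sub le_rfl (by omega) (by omega) le_rfl le_rfl h)]
    have h1 := PH_LRc (w := x) (h := n) (sR.trans sT) (by rw [hc]; ring) (by ring)
    have h2 := PH_LRc (w := x + 1) (h := n) sT (by rw [hc]; ring) (by ring)
    unfold PH at h1 h2
    rw [h1, h2]
  rw [e1, e0] at s2
  rw [e0] at s3
  rw [e2, e3] at s5
  have s12 := s1.trans s2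
  rw [s5] at s4
  rw [s3] at s4
  nlinarith [s12, s4]

end Pool.Agent.D0H47.GR
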