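import Pool.Agent.D0H47.GR.Small

/-!
The upper bound for the increment in the short side: the pivotal place is in one of `n / ρ` blocks,
in each block there are three arms, the rest is cut into two independent pieces.
-/

set_option autoImplicit false

namespace Pool.Agent.D0H47.GR

open H974 H12S Finset

theorem p_ext {m a : ℤ} (hm : 4 ≤ m) (ha : 0 ≤ a) :
    (1/2 : ℝ)^48 * (1 - p (m + 1) (a - 1)) ≤ p (a + 2 * m) m := by
  have hq1 : 1 - p (m + 1) (a - 1) ≤ 1 := by linarith [p_nonneg (m + 1) (a - 1)]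
  have h3 : (1/2 : ℝ)^47 ≤ p (3 * m) m := rsw (n := m / 2) (by omega) (by omega) (by omega)
    (by omega)
  have e48 : (1/2 : ℝ)^48 = (1/2 : ℝ)^47 * (1/2) := by norm_num
  by_cases ham : a < m
  · have h4 : p (3 * m) m ≤ p (a + 2 * m) m := p_mono (by omega) (by omega) le_rfl
    have h5 : (1/2 : ℝ)^48 * (1 - p (m + 1) (a - 1)) ≤ (1/2 : ℝ)^48 * 1 :=
      mul_le_mul_of_nonneg_left hq1 (by positivity)
    have h6 : (0:ℝ) < (1/2 : ℝ)^47 := by positivity
    linarith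
  · have e : 1 - p (m + 1) (a - 1) = p a m := by
      rw [p_dual (by omega) (by omega)]
      congr 1 <;> ring
    rw [e]
    have h4 : p a m * p (3 * m) m * p m m ≤ p (a + 3 * m - m) m :=
      hh_glue (by norm_num) (by norm_num) (by omega) (by omega) (by omega) (by omega)
    have e2 : a + 3 * m - m = a + 2 * m := by ring
    rw [e2] at h4
    have h5 : (1/2 : ℝ) ≤ p m m := hh_square m (by omega)
    have h6 := p_nonneg a m
    calc (1/2 : ℝ)^48 * p a m = p a m * (1/2 : ℝ)^47 * (1/2) := by rw [e48]; ring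
      _ ≤ p a m * p (3 * m) m * (1/2) := by
          apply mul_le_mul_of_nonneg_right _ (by norm_num)
          exact mul_le_mul_of_nonneg_left h3 h6
      _ ≤ p a m * p (3 * m) m * p m m :=
          mul_le_mul_of_nonneg_left h5 (mul_nonneg h6 (p_nonneg _ _))
      _ ≤ _ := h4

theorem p_qm {m a b N : ℤ} (hm : 4 ≤ m) (ha : 0 ≤ a) (hb : 0 ≤ b) (hN : 0 < N)
    (hN2 : N ≤ a + b + 3 * m) :
    (1/2 : ℝ)^97 * ((1 - p (m + 1) (a - 1)) * (1 - p (m + 1) (b - 1))) ≤ p N m := by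
  have h1 := p_ext hm ha
  have h2 := p_ext hm hb
  have h4 : p (a + 2 * m) m * p (b + 2 * m) m * p m m ≤ p (a + 2 * m + (b + 2 * m) - m) m :=
    hh_glue (by norm_num) (by norm_num) (by omega) (by omega) (by omega) (by omega)
  have h5 : (1/2 : ℝ) ≤ p m m := hh_square m (by omega)
  have h6 : p (a + 2 * m + (b + 2 * m) - m) m ≤ p N m := p_mono hN (by omega) le_rfl
  have k1 : 0 ≤ 1 - p (m + 1) (a - 1) := by linarith [p_le_one (m + 1) (a - 1)]
  have k2 : 0 ≤ 1 - p (m + 1) (b - 1) := by linarith [p_le_one (m + 1) (b - 1)]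
  have h7 := mul_le_mul h1 h2 (mul_nonneg (by positivity) k2) (p_nonneg _ _)
  have h8 : p (a + 2 * m) m * p (b + 2 * m) m * (1/2) ≤ p (a + 2 * m) m * p (b + 2 * m) m * p m m :=
    mul_le_mul_of_nonneg_left h5 (mul_nonneg (p_nonneg _ _) (p_nonneg _ _))
  calc (1/2 : ℝ)^97 * ((1 - p (m + 1) (a - 1)) * (1 - p (m + 1) (b - 1)))
      = ((1/2 : ℝ)^48 * (1 - p (m + 1) (a - 1)) * ((1/2 : ℝ)^48 * (1 - p (m + 1) (b - 1)))) *
        (1/2) := by ring
    _ ≤ p (a + 2 * m) m * p (b + 2 * m) m * (1/2) :=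
        mul_le_mul_of_nonneg_right h7 (by norm_num)
    _ ≤ _ := h8.trans (h4.trans h6)

/-- location of the pivotal place -/
theorem D_sub {m n : ℤ} {ρ : ℕ} (hρ : 1 ≤ ρ) (h2ρ : 2 * (ρ : ℤ) ≤ m) {F : Finset Edg}
    (h1 : LRc 0 m 0 n F) (h2 : ¬ LRc 0 (m + 1) 0 n F) :
    ∃ i ∈ range ((n / ρ).toNat + 1), T3 (m - 2 * ρ) m (max 0 ((i : ℤ) * ρ - ρ))
      (min n ((i : ℤ) * ρ + ρ - 1 + ρ)) (i * ρ) (i * ρ + ρ - 1) ρ F := by
  obtain ⟨y0, y, hy0, hy, hr⟩ := h1
  have hρ' : (1 : ℤ) ≤ ρ := by exact_mod_cast hρ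
  have hd1 : 0 ≤ y / ρ := Int.ediv_nonneg hy.1 (by omega)
  have hd2 : y / ρ ≤ n / ρ := Int.ediv_le_ediv (by omega) hy.2
  have hd3 : y / ρ * ρ ≤ y := Int.ediv_mul_le y (by omega)
  have hd4 : y < (y / ρ + 1) * ρ := Int.lt_ediv_add_one_mul_self y (by omega)
  obtain ⟨i, hi⟩ : ∃ i : ℕ, (i : ℤ) = y / ρ := ⟨(y / ρ).toNat, by omega⟩
  rw [← hi] at hd1 hd2 hd3 hd4
  have hd5 : y < (i : ℤ) * ρ + ρ := by linarith
  refine ⟨i, mem_range.mpr (by omega), y, ⟨hd3, by omega⟩, ?_, ?_⟩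
  · obtain ⟨w, hw1, hw2, hw3⟩ := first_exit (a := m - 2 * ρ) (b := m + 1) (c := (i : ℤ) * ρ - ρ)
      (d := (i : ℤ) * ρ + ρ - 1 + ρ) (u := (m, y)) (v := (0, y0))
      ⟨⟨by simp only; omega, by simp only; omega⟩, by simp only; omega, by simp only; omega⟩
      hr.symm (by left; simp only; omega)
    have hcol : ∀ w, Reach ((↑F : Set Edg) ∩ ↑(LRE 0 m 0 n)) (m, y) w → w.1 ≤ m := by
      intro w hw
      induction hw with
      | refl => exact le_rfl
      | @tail w w' hbw hs ih =>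
        obtain ⟨e, ⟨heF, heT⟩, hc⟩ := hs
        have hE := LRE_ends (mem_coe.mp heT)
        rcases hc with ⟨h5, h6⟩ | ⟨h5, h6⟩
        · rw [h6] at hE; omega
        · rw [h5] at hE; omega
    have hcw := hcol w (hw3.mono Set.inter_subset_left)
    refine ⟨w, ?_, hw3.mono ?_⟩
    · rcases hw2 with h | h | h | h
      · exact Or.inl h
      · omega
      · exact Or.inr (Or.inl h.le)
      · exact Or.inr (Or.inr h.ge)
    · rintro ⟨x0, z0, _ | _⟩ ⟨⟨h7, h8⟩, h9⟩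
      · refine ⟨h7, ?_⟩
        rw [mem_coe, mem_LRE_false] at h8
        rw [mem_coe, mem_RE_false] at h9 ⊢
        omega
      · refine ⟨h7, ?_⟩
        rw [mem_coe, mem_LRE_true] at h8
        rw [mem_coe, mem_RE_true] at h9 ⊢
        omega
  · intro w hw hr'
    apply h2
    have h3 : Reach ((↑F : Set Edg) ∩ ↑(RE 0 (m + 1) 0 n)) (0, y0) w := by
      refine (hr.mono (Set.inter_subset_inter_right _ ?_)).trans
        (hr'.mono (Set.inter_subset_inter_right _ ?_))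
      · exact_mod_cast RE_LRE_sub le_rfl (by omega) le_rfl le_rfl
      · exact_mod_cast RE_sub (by omega) le_rfl (le_max_left _ _) (min_le_left _ _)
    exact LRc_of_reach (by omega) h3 rfl hw

theorem D_upper {m n : ℤ} {ρ : ℕ} (hρ : 9 ≤ ρ) (h2ρ : 2 * (ρ : ℤ) ≤ m) (hn : 0 ≤ n) :
    p m n - p (m + 1) n ≤ ((n / ρ).toNat + 1 : ℕ) * (CL / ρ * 2^97 * (1 - p (m + 1) n)) := by
  set S := RE 0 (m + 1) 0 n with hS
  have hsl : LRE 0 m 0 n ⊆ S := RE_LRE_sub le_rfl (by omega) le_rfl le_rfl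
  have hsl' : LRE 0 (m + 1) 0 n ⊆ S := RE_LRE_sub le_rfl le_rfl le_rfl le_rfl
  have e0 : p m n - p (m + 1) n = PH S (fun F => LRc 0 m 0 n F ∧ ¬ LRc 0 (m + 1) 0 n F) := by
    unfold PH
    rw [Pr_diff (fun F _ h => LRc_sub le_rfl (by omega) (by omega) le_rfl le_rfl h)]
    have h1 := PH_LRc (w := m) (h := n) hsl (by ring) (by ring)
    have h2 := PH_LRc (w := m + 1) (h := n) hsl' (by ring) (by ring)
    unfold PH at h1 h2
    rw [h1, h2]
  have hρ' : (9 : ℤ) ≤ ρ := by exact_mod_cast hρ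
  set s1 : ℕ → ℤ := fun i => i * ρ with hs1
  set s2 : ℕ → ℤ := fun i => i * ρ + ρ - 1 with hs2
  set r1 : ℕ → ℤ := fun i => max 0 ((i : ℤ) * ρ - ρ) with hr1
  set r2 : ℕ → ℤ := fun i => min n ((i : ℤ) * ρ + ρ - 1 + ρ) with hr2
  set A : ℕ → Finset Edg → Prop := fun i F => T3 (m - 2 * ρ) m (r1 i) (r2 i) (s1 i) (s2 i) ρ F ∧
    (¬ LRc 0 (m + 1) 0 (r1 i - 1) F ∧ ¬ LRc 0 (m + 1) (r2 i + 1) n F) with hA
  have h1 : PH S (fun F => LRc 0 m 0 n F ∧ ¬ LRc 0 (m + 1) 0 n F) ≤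
      PH S (fun F => ∃ i ∈ range ((n / ρ).toNat + 1), A i F) := by
    apply Pr_mono okh
    rintro F - ⟨h3, h4⟩
    obtain ⟨i, hi, hT⟩ := D_sub (by omega) h2ρ h3 h4
    have hi' : (i : ℤ) * ρ ≤ n := by
      rw [mem_range] at hi
      have h5 : (i : ℤ) ≤ n / ρ := by
        have : 0 ≤ n / (ρ : ℤ) := Int.ediv_nonneg hn (by omega)
        omega
      have h6 : n / ρ * ρ ≤ n := Int.ediv_mul_le n (by omega)
      nlinarith
    have hi0 : (0 : ℤ) ≤ (i : ℤ) * ρ := by positivity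
    refine ⟨i, hi, hT, ?_, ?_⟩
    · intro hL
      refine h4 (LRc_sub le_rfl (by omega) le_rfl le_rfl ?_ hL)
      simp only [hr1]
      omega
    · intro hL
      refine h4 (LRc_sub le_rfl (by omega) le_rfl ?_ le_rfl hL)
      simp only [hr2]
      omega
  have h2 : PH S (fun F => ∃ i ∈ range ((n / ρ).toNat + 1), A i F) ≤
      ∑ i ∈ range ((n / ρ).toNat + 1), PH S (A i) :=
    Pr_exists_le okh S _ A
  have h3 : ∀ i ∈ range ((n / ρ).toNat + 1), PH S (A i) ≤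
      CL / ρ * 2^97 * (1 - p (m + 1) n) := by
    intro i hi
    have hi' : (i : ℤ) * ρ ≤ n := by
      rw [mem_range] at hi
      have h5 : (i : ℤ) ≤ n / ρ := by
        have : 0 ≤ n / (ρ : ℤ) := Int.ediv_nonneg hn (by omega)
        omega
      have h6 : n / ρ * ρ ≤ n := Int.ediv_mul_le n (by omega)
      nlinarith
    have hi0 : (0 : ℤ) ≤ (i : ℤ) * ρ := by positivity
    obtain ⟨t, ht⟩ : ∃ t : ℤ, t = (i : ℤ) * ρ := ⟨_, rfl⟩
    have hr1' : r1 i = max 0 (t - ρ) := by simp only [hr1, ht]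
    have hr2' : r2 i = min n (t + ρ - 1 + ρ) := by simp only [hr2, ht]
    have hs1' : s1 i = t := by simp only [hs1, ht]
    have hs2' : s2 i = t + ρ - 1 := by simp only [hs2, ht]
    rw [← ht] at hi' hi0
    have sT : RE (m - 2 * ρ) (m + 1) (r1 i) (r2 i) ⊆ S := by
      rw [hr1', hr2']
      exact RE_sub (by omega) le_rfl (by omega) (by omega)
    have sL1 : LRE 0 (m + 1) 0 (r1 i - 1) ⊆ S := by
      rw [hr1']
      exact RE_LRE_sub le_rfl le_rfl le_rfl (by omega)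
    have sL2 : LRE 0 (m + 1) (r2 i + 1) n ⊆ S := by
      rw [hr2']
      exact RE_LRE_sub le_rfl le_rfl (by omega) le_rfl
    have dT : Disjoint (RE (m - 2 * ρ) (m + 1) (r1 i) (r2 i))
        (LRE 0 (m + 1) 0 (r1 i - 1) ∪ LRE 0 (m + 1) (r2 i + 1) n) := by
      rw [Finset.disjoint_left]
      rintro ⟨x, y, _ | _⟩ k1 k2
      · rw [Finset.mem_union] at k2
        simp only [mem_RE_false, mem_LRE_false] at k1 k2; omega
      · rw [Finset.mem_union] at k2
        simp only [mem_RE_true, mem_LRE_true] at k1 k2; omega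
    have dL : Disjoint (LRE 0 (m + 1) 0 (r1 i - 1)) (LRE 0 (m + 1) (r2 i + 1) n) := by
      apply LRE_disj_row
      rw [hr1', hr2']
      omega
    have e1 : PH S (A i) = PH S (T3 (m - 2 * ρ) m (r1 i) (r2 i) (s1 i) (s2 i) ρ) *
        PH S (fun F => ¬ LRc 0 (m + 1) 0 (r1 i - 1) F ∧ ¬ LRc 0 (m + 1) (r2 i + 1) n F) := by
      unfold PH
      refine Pr_indep (S := RE (m - 2 * ρ) (m + 1) (r1 i) (r2 i))
        (T := LRE 0 (m + 1) 0 (r1 i - 1) ∪ LRE 0 (m + 1) (r2 i + 1) n) sT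
        (Finset.union_subset sL1 sL2) dT ?_ ?_
      · intro F _
        exact T3_local (Finset.Subset.refl _)
      · intro F _
        rw [LRc_local Finset.subset_union_left, LRc_local (F := F) Finset.subset_union_right]
    have e2 : PH S (fun F => ¬ LRc 0 (m + 1) 0 (r1 i - 1) F ∧ ¬ LRc 0 (m + 1) (r2 i + 1) n F) =
        (1 - p (m + 1) (r1 i - 1)) * (1 - p (m + 1) (n - r2 i - 1)) := by
      have k1 := PH_LRc (w := m + 1) (h := r1 i - 1) sL1 (by ring) (by ring)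
      have k2 := PH_LRc (w := m + 1) (h := n - r2 i - 1) sL2 (by ring) (by ring)
      rw [← k1, ← k2]
      unfold PH
      rw [← Pr_not, ← Pr_not]
      refine Pr_indep (S := LRE 0 (m + 1) 0 (r1 i - 1)) (T := LRE 0 (m + 1) (r2 i + 1) n) sL1
        sL2 dL ?_ ?_
      · intro F _
        rw [LRc_local (Finset.Subset.refl _)]
      · intro F _
        rw [LRc_local (Finset.Subset.refl _)]
    have e3 : PH S (T3 (m - 2 * ρ) m (r1 i) (r2 i) (s1 i) (s2 i) ρ) ≤ CL / ρ := by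
      have k1 : PH S (T3 (m - 2 * ρ) m (r1 i) (r2 i) (s1 i) (s2 i) ρ) =
          PH (RE (m - 2 * ρ) (m + 1) (r1 i) (r2 i))
            (T3 (m - 2 * ρ) m (r1 i) (r2 i) (s1 i) (s2 i) ρ) := by
        unfold PH
        exact Pr_local sT (fun F _ => T3_local (Finset.Subset.refl _))
      rw [k1]
      exact local_bound hρ (by rw [hs1', hs2']; omega) (by rw [hs1', hs2']; omega)
        (by rw [hr1', hs1']; omega) (by rw [hr2', hs2']; omega)
    have e4 : (1/2 : ℝ)^97 * ((1 - p (m + 1) (r1 i - 1)) * (1 - p (m + 1) (n - r2 i - 1))) ≤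
        1 - p (m + 1) n := by
      have k1 := p_qm (m := m) (a := r1 i) (b := n - r2 i) (N := n + 1) (by omega)
        (by rw [hr1']; omega) (by rw [hr2']; omega) (by omega) (by rw [hr1', hr2']; omega)
      rw [p_dual (m := m + 1) (n := n) (by omega) hn]
      have e : m + 1 - 1 = m := by ring
      rw [e]
      exact k1
    rw [e1, e2]
    have k5 : 0 ≤ (1 - p (m + 1) (r1 i - 1)) * (1 - p (m + 1) (n - r2 i - 1)) :=
      mul_nonneg (by linarith [p_le_one (m + 1) (r1 i - 1)])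
        (by linarith [p_le_one (m + 1) (n - r2 i - 1)])
    have k6 : (1 - p (m + 1) (r1 i - 1)) * (1 - p (m + 1) (n - r2 i - 1)) ≤
        2^97 * (1 - p (m + 1) n) := by
      have e5 : (2:ℝ)^97 * ((1/2 : ℝ)^97 * ((1 - p (m + 1) (r1 i - 1)) *
          (1 - p (m + 1) (n - r2 i - 1)))) = (1 - p (m + 1) (r1 i - 1)) *
          (1 - p (m + 1) (n - r2 i - 1)) := by
        rw [← mul_assoc, ← mul_pow]; norm_num
      rw [← e5]
      exact mul_le_mul_of_nonneg_left e4 (by positivity)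
    have hρr : (0:ℝ) < ρ := by
      have : (0:ℤ) < ρ := by omega
      exact_mod_cast this
    calc _ ≤ CL / ρ * ((1 - p (m + 1) (r1 i - 1)) * (1 - p (m + 1) (n - r2 i - 1))) :=
          mul_le_mul_of_nonneg_right e3 k5
      _ ≤ CL / ρ * (2^97 * (1 - p (m + 1) n)) :=
          mul_le_mul_of_nonneg_left k6 (div_nonneg CL_pos.le hρr.le)
      _ = _ := by ring
  have h4 := Finset.sum_le_card_nsmul _ _ _ h3
  rw [card_range, nsmul_eq_mul] at h4
  rw [e0]
  exact h1.trans (h2.trans h4)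

end Pool.Agent.D0H47.GR
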